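import Mathlib

/-!
# H16S: the formal group of y^2 = x^3 + a x + b (definitions)

Coordinates near the origin: t = x/y, w = 1/y, so that w = t^3 + a t w^2 + b w^3. The addition in these coordinates is given by
rational functions whose denominators d1, d2 are units near the origin. Ring.inverse is the inverse of a unit of a ring.
See PROOF.md.
-/

open PowerSeries

namespace H16S

section alg

variable {S : Type} [CommRing S]

/-- The equation of the curve in the coordinates t, w. -/
def Eqn (a b t w : S) : Prop := w = t ^ 3 + a * t * w ^ 2 + b * w ^ 3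

/-- The denominator of the slope. -/
def d1 (a b t₁ w₁ t₂ w₂ : S) : S := 1 - a * t₂ * (w₁ + w₂) - b * (w₁ ^ 2 + w₁ * w₂ + w₂ ^ 2)

/-- The numerator of the slope. -/
def n1 (a t₁ w₁ t₂ : S) : S := t₁ ^ 2 + t₁ * t₂ + t₂ ^ 2 + a * w₁ ^ 2

/-- The slope of the line through the two points. -/
noncomputable def lam (a b t₁ w₁ t₂ w₂ : S) : S := n1 a t₁ w₁ t₂ * Ring.inverse (d1 a b t₁ w₁ t₂ w₂)

/-- The line is w = lam t + nu. -/
noncomputable def nu (a b t₁ w₁ t₂ w₂ : S) : S := w₁ - lam a b t₁ w₁ t₂ w₂ * t₁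

/-- The leading coefficient of the cubic equation for the intersection with the line. -/
noncomputable def d2 (a b t₁ w₁ t₂ w₂ : S) : S :=
  1 + a * lam a b t₁ w₁ t₂ w₂ ^ 2 + b * lam a b t₁ w₁ t₂ w₂ ^ 3

/-- The coordinate t of the sum. -/
noncomputable def addt (a b t₁ w₁ t₂ w₂ : S) : S :=
  t₁ + t₂ + (2 * a * lam a b t₁ w₁ t₂ w₂ + 3 * b * lam a b t₁ w₁ t₂ w₂ ^ 2) * nu a b t₁ w₁ t₂ w₂ *
    Ring.inverse (d2 a b t₁ w₁ t₂ w₂)

/-- The coordinate w of the sum. -/
noncomputable def addw (a b t₁ w₁ t₂ w₂ : S) : S :=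
  lam a b t₁ w₁ t₂ w₂ * addt a b t₁ w₁ t₂ w₂ - nu a b t₁ w₁ t₂ w₂

end alg

section ser

variable {R : Type} [CommRing R]

/-- A power series W with W = X^3 + a X W^2 + b W^3 and constant term 0. -/
def IsW (a b : R) (W : R⟦X⟧) : Prop := constantCoeff W = 0 ∧ Eqn (C a) (C b) X W

/-- The series for the coordinates of the multiples n P, P the point with coordinates X, W. -/
noncomputable def TW (a b : R) (W : R⟦X⟧) : ℕ → R⟦X⟧ × R⟦X⟧
  | 0 => (0, 0)
  | n + 1 => (addt (C a) (C b) (TW a b W n).1 (TW a b W n).2 X W, addw (C a) (C b) (TW a b W n).1 (TW a b W n).2 X W)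

/-- The value of a power series. -/
noncomputable def ev {K : Type} [NormedField K] (φ : R →+* K) (z : K) (f : R⟦X⟧) : K :=
  ∑' n : ℕ, φ (coeff n f) * z ^ n

end ser

/-- The unit ball of an ultrametric field. -/
def ball (K : Type) [NormedField K] [IsUltrametricDist K] : ValuationSubring K where
  carrier := {x | ‖x‖ ≤ 1}
  mul_mem' := fun {x y} hx hy => by
    show ‖x * y‖ ≤ 1
    rw [norm_mul]
    exact mul_le_one₀ hx (norm_nonneg y) hy
  one_mem' := by
    show ‖(1 : K)‖ ≤ 1
    rw [norm_one]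
  add_mem' := fun {x y} hx hy => (IsUltrametricDist.norm_add_le_max x y).trans (max_le hx hy)
  zero_mem' := by
    show ‖(0 : K)‖ ≤ 1
    rw [norm_zero]
    exact zero_le_one
  neg_mem' := fun {x} hx => by
    show ‖-x‖ ≤ 1
    rw [norm_neg]
    exact hx
  mem_or_inv_mem' := fun x => by
    by_cases h : ‖x‖ ≤ 1
    · exact Or.inl h
    · right
      show ‖x⁻¹‖ ≤ 1
      rw [norm_inv]
      exact inv_le_one_of_one_le₀ (not_le.1 h).le

theorem mem_ball {K : Type} [NormedField K] [IsUltrametricDist K] (x : K) : x ∈ ball K ↔ ‖x‖ ≤ 1 := Iff.rfl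

theorem ball_le {K : Type} [NormedField K] [IsUltrametricDist K] (x y : K) :
    (ball K).valuation x ≤ (ball K).valuation y ↔ ‖x‖ ≤ ‖y‖ := by
  by_cases hy : y = 0
  · rw [hy, map_zero, le_zero_iff, norm_zero, norm_le_zero_iff]
    exact map_eq_zero _
  · have h1 : (ball K).valuation x ≤ (ball K).valuation y ↔ (ball K).valuation (x / y) ≤ 1 := by
      rw [map_div₀, div_le_one₀ (zero_lt_iff.2 ((map_ne_zero _).2 hy))]
    rw [h1, ValuationSubring.valuation_le_one_iff, mem_ball, norm_div, div_le_one₀ (norm_pos_iff.2 hy)]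

theorem ball_lt {K : Type} [NormedField K] [IsUltrametricDist K] (x y : K) :
    (ball K).valuation x < (ball K).valuation y ↔ ‖x‖ < ‖y‖ := by
  rw [← not_le, ball_le, not_le]

theorem ball_le_one {K : Type} [NormedField K] [IsUltrametricDist K] (x : K) :
    (ball K).valuation x ≤ 1 ↔ ‖x‖ ≤ 1 := by
  rw [ValuationSubring.valuation_le_one_iff, mem_ball]

theorem ball_lt_one {K : Type} [NormedField K] [IsUltrametricDist K] (x : K) :
    (ball K).valuation x < 1 ↔ ‖x‖ < 1 := by
  have := ball_lt x 1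
  rwa [map_one, norm_one] at this

end H16S
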