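import Mathlib
import Pool.Agent.Lib.H16S.Defs

/-! # H16S, chunk A1: the addition formulas over a commutative ring -/

namespace H16S

variable {S : Type} [CommRing S] {a b t₁ w₁ t₂ w₂ : S}

/-- Chunk A1 (S). lam times its denominator. -/
theorem lam_mul (h1 : IsUnit (d1 a b t₁ w₁ t₂ w₂)) : lam a b t₁ w₁ t₂ w₂ * d1 a b t₁ w₁ t₂ w₂ = n1 a t₁ w₁ t₂ := by
  unfold lam
  rw [mul_assoc, Ring.inverse_mul_cancel _ h1, mul_one]

/-- Chunk A1 (S/M). The second point lies on the line. PROOF. Subtract the two equations: (w₁ - w₂) d1 = (t₁ - t₂) n1 (t₁ w₁² - t₂ w₂² = (t₁ - t₂) w₁² + t₂ (w₁ - w₂)(w₁ + w₂)),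
so d1 (w₁ - w₂ - lam (t₁ - t₂)) = 0 by lam_mul and d1 is a unit. -/
theorem on_line (e1 : Eqn a b t₁ w₁) (e2 : Eqn a b t₂ w₂) (h1 : IsUnit (d1 a b t₁ w₁ t₂ w₂)) :
    w₂ = lam a b t₁ w₁ t₂ w₂ * t₂ + nu a b t₁ w₁ t₂ w₂ := by
  have h := lam_mul h1
  apply h1.mul_left_cancel
  unfold nu
  generalize lam a b t₁ w₁ t₂ w₂ = l at h ⊢
  unfold Eqn at e1 e2
  unfold d1 n1 at h
  unfold d1
  linear_combination e2 - e1 - (t₂ - t₁) * h

/-- Chunk A1 (M). The sum satisfies the equation. PROOF. l = lam, v = nu, D = d2, w₁ = l t₁ + v (definition of nu), w₂ = l t₂ + v. Put c(T) = D T³ + (2 a l v + 3 b l² v) T² + (a v² + 3 b l v² - l) T + (b v³ - v):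
this is T³ + a T (l T + v)² + b (l T + v)³ - (l T + v). c(t₁) = 0 by e1. The divided difference
c[t₁,t₂] = D (t₁² + t₁ t₂ + t₂²) + (2 a l v + 3 b l² v)(t₁ + t₂) + (a v² + 3 b l v² - l) is n1 - l d1 = 0 (expand with w_i = l t_i + v, lam_mul). For
t₃ = - addt: D t₃ = - D (t₁ + t₂) - (2 a l v + 3 b l² v), so c(t₃) = c(t₁) + (t₃ - t₁)(c[t₁,t₂] + (t₃ - t₂)(D (t₃ + t₁ + t₂) + 2 a l v + 3 b l² v)) = 0. And
addw = l addt - v = - (l t₃ + v): the point (-t₃, -(l t₃ + v)) satisfies the equation because (t₃, l t₃ + v) does (all terms are odd). -/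
theorem eqn_add (e1 : Eqn a b t₁ w₁) (e2 : Eqn a b t₂ w₂) (h1 : IsUnit (d1 a b t₁ w₁ t₂ w₂))
    (h2 : IsUnit (d2 a b t₁ w₁ t₂ w₂)) : Eqn a b (addt a b t₁ w₁ t₂ w₂) (addw a b t₁ w₁ t₂ w₂) := by
  have h := lam_mul h1
  have hw2 := on_line e1 e2 h1
  have hw1 : w₁ = lam a b t₁ w₁ t₂ w₂ * t₁ + nu a b t₁ w₁ t₂ w₂ := by
    unfold nu
    ring
  have hT : d2 a b t₁ w₁ t₂ w₂ * addt a b t₁ w₁ t₂ w₂ = d2 a b t₁ w₁ t₂ w₂ * (t₁ + t₂) +
      (2 * a * lam a b t₁ w₁ t₂ w₂ + 3 * b * lam a b t₁ w₁ t₂ w₂ ^ 2) * nu a b t₁ w₁ t₂ w₂ := by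
    have h3 := Ring.mul_inverse_cancel _ h2
    unfold addt
    linear_combination (2 * a * lam a b t₁ w₁ t₂ w₂ + 3 * b * lam a b t₁ w₁ t₂ w₂ ^ 2) *
      nu a b t₁ w₁ t₂ w₂ * h3
  unfold addw
  generalize addt a b t₁ w₁ t₂ w₂ = T at hT ⊢
  unfold d2 at hT
  unfold Eqn at e1 e2 ⊢
  unfold d1 n1 at h
  generalize lam a b t₁ w₁ t₂ w₂ = l at h hw2 hw1 hT ⊢
  generalize nu a b t₁ w₁ t₂ w₂ = v at hw2 hw1 hT ⊢
  subst hw1 hw2
  linear_combination (-1) * e1 + (T + t₁) * h - (T + t₁) * (T + t₂) * hT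

/-- the inverse of a unit and ring homomorphisms -/
theorem a1_inv {S' : Type} [CommRing S'] (φ : S →+* S') {x : S} (h : IsUnit x) :
    φ (Ring.inverse x) = Ring.inverse (φ x) := by
  apply (h.map φ).mul_left_cancel
  rw [Ring.mul_inverse_cancel _ (h.map φ), ← map_mul, Ring.mul_inverse_cancel _ h, map_one]

/-- Chunk A1 (S/M). Compatibility with ring homomorphisms. PROOF. For a unit x: φ (Ring.inverse x) = Ring.inverse (φ x) (Ring.inverse of a unit u is u⁻¹; map_units_inv or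
multiply by φ x). d1, n1 are polynomials. -/
theorem map_lam {S' : Type} [CommRing S'] (φ : S →+* S') (h1 : IsUnit (d1 a b t₁ w₁ t₂ w₂)) :
    φ (lam a b t₁ w₁ t₂ w₂) = lam (φ a) (φ b) (φ t₁) (φ w₁) (φ t₂) (φ w₂) := by
  unfold lam
  rw [map_mul, a1_inv φ h1]
  unfold n1 d1
  simp only [map_add, map_sub, map_mul, map_pow, map_one]

/-- Chunk A1 (S/M). -/
theorem map_add' {S' : Type} [CommRing S'] (φ : S →+* S') (h1 : IsUnit (d1 a b t₁ w₁ t₂ w₂))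
    (h2 : IsUnit (d2 a b t₁ w₁ t₂ w₂)) :
    φ (addt a b t₁ w₁ t₂ w₂) = addt (φ a) (φ b) (φ t₁) (φ w₁) (φ t₂) (φ w₂) ∧
      φ (addw a b t₁ w₁ t₂ w₂) = addw (φ a) (φ b) (φ t₁) (φ w₁) (φ t₂) (φ w₂) := by
  have h3 := map_lam φ h1
  have h4 : φ (nu a b t₁ w₁ t₂ w₂) = nu (φ a) (φ b) (φ t₁) (φ w₁) (φ t₂) (φ w₂) := by
    unfold nu
    rw [map_sub, map_mul, h3]
  have h5 : φ (d2 a b t₁ w₁ t₂ w₂) = d2 (φ a) (φ b) (φ t₁) (φ w₁) (φ t₂) (φ w₂) := by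
    unfold d2
    simp only [map_add, map_mul, map_pow, map_one, h3]
  have h6 : φ (addt a b t₁ w₁ t₂ w₂) = addt (φ a) (φ b) (φ t₁) (φ w₁) (φ t₂) (φ w₂) := by
    unfold addt
    simp only [map_add, map_mul, map_pow, map_ofNat, h3, h4, a1_inv φ h2, h5]
  refine ⟨h6, ?_⟩
  unfold addw
  rw [map_sub, map_mul, h3, h4, h6]

end H16S
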