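import Mathlib
import Pool.Agent.Lib.H55K.E0
import Pool.Agent.Lib.H16S.Defs

/-! # H16S: points in the coordinates t = x/y, w = 1/y -/

open WeierstrassCurve

namespace H16S

open H35P (WAB Ker tt)
open H55K (xc yc)

/-- The coordinate w = 1/y of a point (0 for the origin). -/
noncomputable def ww {k : Type} [Field k] {W : WeierstrassCurve k} (P : W.toAffine.Point) : k := (yc P)⁻¹

/-- The point lies in the domain of the coordinates t, w. -/
def Ch {k : Type} [Field k] {W : WeierstrassCurve k} (P : W.toAffine.Point) : Prop := P = 0 ∨ yc P ≠ 0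

theorem Eqn_ww {k : Type} [Field k] {W : WeierstrassCurve k} [W.IsShortNF] {P : W.toAffine.Point} (h : Ch P) :
    Eqn W.a₄ W.a₆ (tt P) (ww P) := by
  unfold Eqn ww
  rw [H55K.tt_eq]
  rcases h with rfl | h
  · rw [H55K.xc_zero, H55K.yc_zero]
    simp
  · have h0 : P ≠ 0 := by
      rintro rfl
      exact h rfl
    have h1 := H55K.eqn h0
    field_simp
    linear_combination h1

end H16S
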