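import Mathlib
import Pool.Agent.Lib.H16S.P0
import Pool.Agent.Lib.H16S.A1

/-! # H16S, chunks A2: the addition formulas are the group law -/

open WeierstrassCurve

namespace H16S

open H35P (WAB Ker tt)
open H55K (xc yc)

variable {k : Type} [Field k] [DecidableEq k] {W : WeierstrassCurve k} [W.IsShortNF]

/-- Chunk A2a (S). In a field the two points on the line: a point with the coordinates (t, w), w ≠ 0, is x = t/w, y = 1/w. For P ≠ 0 with yc P ≠ 0: xc P = tt P / ww P, yc P = 1 / ww P,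
ww P ≠ 0. -/
theorem xy_tw {P : W.toAffine.Point} (h0 : P ≠ 0) (h : Ch P) :
    ww P ≠ 0 ∧ xc P = tt P / ww P ∧ yc P = 1 / ww P := by
  have hy : yc P ≠ 0 := h.resolve_left h0
  unfold ww
  rw [H55K.tt_eq]
  refine ⟨inv_ne_zero hy, ?_, ?_⟩
  · field_simp
  · rw [one_div, inv_inv]

/-- Vieta's formulas for the line through two points. -/
theorem a2_vieta {K : Type} [Field K] {a b x₁ y₁ x₂ y₂ : K} (hx : x₁ ≠ x₂) (e₁ : y₁ ^ 2 = x₁ ^ 3 + a * x₁ + b)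
    (e₂ : y₂ ^ 2 = x₂ ^ 3 + a * x₂ + b) :
    ∃ s m : K, s = (y₁ - y₂) / (x₁ - x₂) ∧ y₁ = s * x₁ + m ∧ y₂ = s * x₂ + m ∧
      a - 2 * s * m = x₁ * x₂ + (x₁ + x₂) * (s ^ 2 - x₁ - x₂) ∧ b - m ^ 2 = -(x₁ * x₂ * (s ^ 2 - x₁ - x₂)) := by
  have hd : x₁ - x₂ ≠ 0 := sub_ne_zero.2 hx
  obtain ⟨s, hs⟩ : ∃ s : K, s = (y₁ - y₂) / (x₁ - x₂) := ⟨_, rfl⟩
  have hs1 : s * (x₁ - x₂) = y₁ - y₂ := by rw [hs, div_mul_cancel₀ _ hd]
  obtain ⟨m, hm1⟩ : ∃ m : K, y₁ = s * x₁ + m := ⟨y₁ - s * x₁, by ring⟩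
  have hm2 : y₂ = s * x₂ + m := by linear_combination hm1 + hs1
  refine ⟨s, m, hs, hm1, hm2, ?_⟩
  rw [hm1] at e₁
  rw [hm2] at e₂
  have h1 : a - 2 * s * m = x₁ * x₂ + (x₁ + x₂) * (s ^ 2 - x₁ - x₂) := by
    apply mul_left_cancel₀ hd
    linear_combination e₂ - e₁
  exact ⟨h1, by linear_combination -e₁ - x₁ * h1⟩

/-- The algebra of the sum in the coordinates t, w. -/
theorem a2_alg {K : Type} [Field K] {a b x₁ y₁ x₂ y₂ x₃ y₃ s m L N D : K} (hy1 : y₁ ≠ 0) (hy2 : y₂ ≠ 0)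
    (h1 : y₁ = s * x₁ + m) (h2 : y₂ = s * x₂ + m) (h3 : x₃ = s ^ 2 - x₁ - x₂) (h4 : y₃ = -(s * (x₃ - x₁) + y₁))
    (h5 : a - 2 * s * m = x₁ * x₂ + (x₁ + x₂) * x₃) (h6 : b - m ^ 2 = -(x₁ * x₂ * x₃)) (hx : x₁ ≠ x₂)
    (hN : N = y₁⁻¹ - L * (x₁ / y₁)) (hL : y₂⁻¹ = L * (x₂ / y₂) + N)
    (hD : D = 1 + a * L ^ 2 + b * L ^ 3) (hD0 : D ≠ 0) :
    y₃ ≠ 0 ∧ x₃ / y₃ = x₁ / y₁ + x₂ / y₂ + (2 * a * L + 3 * b * L ^ 2) * N * D⁻¹ ∧ y₃⁻¹ = L * (x₃ / y₃) - N := by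
  have f1 : 1 = L * x₁ + N * y₁ := by
    rw [hN]
    field_simp
    ring
  have f2 : 1 = L * x₂ + N * y₂ := by
    have := congrArg (fun z => z * y₂) hL
    simp only [add_mul] at this
    rw [inv_mul_cancel₀ hy2, mul_assoc, div_mul_cancel₀ _ hy2] at this
    exact this
  have f3 : L = -(N * s) := by
    apply mul_left_cancel₀ (sub_ne_zero.2 hx)
    linear_combination f2 - f1 - N * h1 + N * h2
  have f4 : N * m = 1 := by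
    linear_combination -N * h1 - f1 - x₁ * f3
  have hN0 : N ≠ 0 := left_ne_zero_of_mul_eq_one f4
  have hm0 : m ≠ 0 := right_ne_zero_of_mul_eq_one f4
  have hy3 : y₃ = -(s * x₃ + m) := by
    linear_combination h4 - h1
  have hM : D * m ^ 3 = -(y₁ * y₂ * y₃) := by
    have g1 : D * m ^ 3 = m ^ 3 + a * s ^ 2 * m - b * s ^ 3 := by
      rw [hD, f3]
      linear_combination (a * s ^ 2 * m * (N * m + 1) - b * s ^ 3 * ((N * m) ^ 2 + N * m + 1)) * f4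
    rw [g1, hy3, h1, h2]
    linear_combination s ^ 2 * m * h5 - s ^ 3 * h6 - s * m ^ 2 * h3
  have hy0 : y₃ ≠ 0 := by
    intro h
    rw [h, mul_zero, neg_zero] at hM
    exact mul_ne_zero hD0 (pow_ne_zero 3 hm0) hM
  have key : x₃ * y₁ * y₂ = x₁ * y₂ * y₃ + x₂ * y₁ * y₃ + (2 * a * s * m - 3 * b * s ^ 2) := by
    rw [hy3, h1, h2]
    linear_combination 3 * s ^ 2 * h6 - 2 * s * m * h5 + m ^ 2 * h3
  have hP : y₁ * y₂ * y₃ ≠ 0 := mul_ne_zero (mul_ne_zero hy1 hy2) hy0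
  have hE : (2 * a * L + 3 * b * L ^ 2) * N * D⁻¹ = (2 * a * s * m - 3 * b * s ^ 2) / (y₁ * y₂ * y₃) := by
    rw [← div_eq_mul_inv, div_eq_div_iff hD0 hP]
    have g2 : y₁ * y₂ * y₃ = -(D * m ^ 3) := by rw [hM, neg_neg]
    rw [g2, f3]
    linear_combination (2 * a * s * m * (N * m + 1) * D - 3 * b * s ^ 2 * ((N * m) ^ 2 + N * m + 1) * D) * f4
  have hX : x₃ / y₃ = x₁ / y₁ + x₂ / y₂ + (2 * a * L + 3 * b * L ^ 2) * N * D⁻¹ := by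
    rw [hE]
    field_simp
    linear_combination key
  refine ⟨hy0, hX, ?_⟩
  rw [f3]
  field_simp
  linear_combination N * hy3 - f4

/-- Chunk A2b (M/L). The generic case xc P ≠ xc Q. PROOF. (x₁,y₁), (x₂,y₂) the coordinates, l = (y₁ - y₂)/(x₁ - x₂), m = y₁ - l x₁ = y₂ - l x₂, t_i = x_i/y_i, w_i = 1/y_i: 1 = l t_i + m w_i.
m ≠ 0: otherwise t₁ = t₂ = 1/l and by on_line w₁ = w₂, so x₁ = x₂. Then lam = -l/m, nu = 1/m (the line through the two points: (t₁ ≠ t₂ since otherwise w₁ = w₂ by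
on_line) w₁ = -(l/m) t₁ + 1/m and the same for 2; lam (t₁ - t₂) = w₁ - w₂ by on_line and the definition of nu). M = m³ + a l² m - b l³ satisfies M = - y₁ y₂ y₃, y₃ = yc (P+Q):
evaluate X³ + a X + b - (l X + m)² = (X - x₁)(X - x₂)(X - x₃), l x_i + m = y₁, y₂, -y₃, at X = -m/l if l ≠ 0 (if l = 0: y₁ = y₂ = m, y₃ = -m); d2 = M/m³. So y₃ ≠ 0.
The third point of the line in the coordinates (t,w) is (x₃/(-y₃), 1/(-y₃)); it is a root of the cubic, D t₃ = - D (t₁ + t₂) - (2 a l' v + 3 b l'² v) with l' = lam, v = nu, D = d2: check it by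
field_simp after eliminating a and b: b = y₁² - x₁³ - a x₁, a = (y₁² - y₂² - x₁³ + x₂³)/(x₁ - x₂) (or use: D T³ + .. has the three roots t₁, t₂, x₃/(-y₃)). H55K.add_coords gives x₃, y₃. -/
theorem add_gen {P Q : W.toAffine.Point} (hP : P ≠ 0) (hQ : Q ≠ 0) (cP : Ch P) (cQ : Ch Q) (hx : xc P ≠ xc Q)
    (h1 : d1 W.a₄ W.a₆ (tt P) (ww P) (tt Q) (ww Q) ≠ 0) (h2 : d2 W.a₄ W.a₆ (tt P) (ww P) (tt Q) (ww Q) ≠ 0) :
    yc (P + Q) ≠ 0 ∧ tt (P + Q) = addt W.a₄ W.a₆ (tt P) (ww P) (tt Q) (ww Q) ∧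
      ww (P + Q) = addw W.a₄ W.a₆ (tt P) (ww P) (tt Q) (ww Q) := by
  have hy1 : yc P ≠ 0 := cP.resolve_left hP
  have hy2 : yc Q ≠ 0 := cQ.resolve_left hQ
  obtain ⟨-, hx3, hy3⟩ := H55K.add_coords hP hQ hx
  obtain ⟨s, m, hs, g1, g2, g3, g4⟩ := a2_vieta hx (H55K.eqn hP) (H55K.eqn hQ)
  rw [← hs] at hx3 hy3
  rw [← hx3] at g3 g4
  have hol := on_line (Eqn_ww cP) (Eqn_ww cQ) (isUnit_iff_ne_zero.2 h1)
  have hw : ww (P + Q) = (yc (P + Q))⁻¹ := rfl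
  have hN : nu W.a₄ W.a₆ (tt P) (ww P) (tt Q) (ww Q) =
      (yc P)⁻¹ - lam W.a₄ W.a₆ (tt P) (ww P) (tt Q) (ww Q) * (xc P / yc P) := by
    rw [← H55K.tt_eq]
    rfl
  have hL : (yc Q)⁻¹ = lam W.a₄ W.a₆ (tt P) (ww P) (tt Q) (ww Q) * (xc Q / yc Q) +
      nu W.a₄ W.a₆ (tt P) (ww P) (tt Q) (ww Q) := by
    rw [← H55K.tt_eq]
    exact hol
  obtain ⟨k1, k2, k3⟩ := a2_alg hy1 hy2 g1 g2 hx3 hy3 g3 g4 hx hN hL rfl h2
  have hT : tt (P + Q) = addt W.a₄ W.a₆ (tt P) (ww P) (tt Q) (ww Q) := by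
    unfold addt
    rw [Ring.inverse_eq_inv', H55K.tt_eq, k2, H55K.tt_eq, H55K.tt_eq]
    rfl
  refine ⟨k1, hT, ?_⟩
  unfold addw
  rw [← hT, hw, k3, H55K.tt_eq (P + Q)]

end H16S
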