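import Mathlib
import Pool.Agent.Lib.H16S.P0
import Pool.Agent.Lib.H16S.A2

/-! # H16S, chunks A2: the addition formulas are the group law -/

open WeierstrassCurve

namespace H16S

open H35P (WAB Ker tt)
open H55K (xc yc)

variable {k : Type} [Field k] [DecidableEq k] {W : WeierstrassCurve k} [W.IsShortNF]

/-- Chunk A2c (M). Doubling, yc P ≠ 0, 2 ≠ 0. PROOF. As A2b with the tangent: (x, y) the coordinates of P, t = x/y, w = 1/y, l = (3 x² + a)/(2 y), m = y - l x, so 1 = l t + m w. n1 = 3 t² + a w² = w² (3 x² + a) = 2 l w,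
d1 = 1 - 2 a t w - 3 b w² = w² (y² - 2 a x - 3 b) = w² (x³ - a x - 2 b) and -2 m y = -2 y² + x (3 x² + a) = x³ - a x - 2 b, so d1 = -2 m w: m ≠ 0, lam = -l/m,
nu = w - lam t = 1/m. H55K.dbl_coords: x₃ = l² - 2 x, y₃ = -(l (x₃ - x) + y). M = m³ + a l² m - b l³ = - y² y₃ (X³ + a X + b - (l X + m)² = (X - x)² (X - x₃) at X = -m/l; l = 0: directly),
d2 = M/m³, so y₃ ≠ 0. Then addt = x₃/y₃, addw = 1/y₃: eliminate a = 2 l y - 3 x², b = y² - x³ - a x, m = y - l x and field_simp; ring (addt = 2 t + (2 a lam + 3 b lam²) nu / d2). -/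
theorem add_dbl (h2' : (2 : k) ≠ 0) {P : W.toAffine.Point} (hP : P ≠ 0) (cP : Ch P)
    (h1 : d1 W.a₄ W.a₆ (tt P) (ww P) (tt P) (ww P) ≠ 0) (h2 : d2 W.a₄ W.a₆ (tt P) (ww P) (tt P) (ww P) ≠ 0) :
    yc (P + P) ≠ 0 ∧ tt (P + P) = addt W.a₄ W.a₆ (tt P) (ww P) (tt P) (ww P) ∧
      ww (P + P) = addw W.a₄ W.a₆ (tt P) (ww P) (tt P) (ww P) := by
  have hy : yc P ≠ 0 := by
    rcases cP with c | c
    · exact absurd c hP
    · exact c
  obtain ⟨-, hx3, hy3⟩ := H55K.dbl_coords hP (mul_ne_zero h2' hy)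
  have he := H55K.eqn hP
  have ht : tt P = xc P / yc P := H55K.tt_eq P
  have hw : ww P = 1 / yc P := by
    unfold ww
    rw [one_div]
  rw [H55K.tt_eq (P + P)]
  have hw3 : ww (P + P) = (yc (P + P))⁻¹ := rfl
  rw [hw3]
  rw [ht, hw] at h1 h2 ⊢
  generalize xc (P + P) = x₃ at hx3 hy3 ⊢
  generalize yc (P + P) = y₃ at hy3 ⊢
  generalize xc P = x at *
  generalize yc P = y at *
  obtain ⟨l, hl⟩ : ∃ l : k, l = (3 * x ^ 2 + W.a₄) / (2 * y) := ⟨_, rfl⟩
  rw [← hl] at hx3 hy3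
  have h2y : 2 * y ≠ 0 := mul_ne_zero h2' hy
  have ha : W.a₄ = 2 * l * y - 3 * x ^ 2 := by
    rw [hl]
    field_simp
    ring
  generalize W.a₄ = a at *
  generalize W.a₆ = b at *
  have hb : b = y ^ 2 + 2 * x ^ 3 - 2 * l * x * y := by
    rw [ha] at he
    linear_combination -he
  obtain ⟨m, hm⟩ : ∃ m : k, m = y - l * x := ⟨_, rfl⟩
  have hd : d1 a b (x / y) (1 / y) (x / y) (1 / y) = -2 * m / y := by
    unfold d1
    rw [hb, hm, ha]
    field_simp
    ring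
  have hn : n1 a (x / y) (1 / y) (x / y) = 2 * l / y := by
    unfold n1
    rw [ha]
    field_simp
    ring
  have hm0 : m ≠ 0 := fun h => h1 (by rw [hd, h]; simp)
  have hlam : lam a b (x / y) (1 / y) (x / y) (1 / y) = -l / m := by
    unfold lam
    rw [Ring.inverse_eq_inv', hd, hn]
    field_simp
  have hnu : nu a b (x / y) (1 / y) (x / y) (1 / y) = 1 / m := by
    unfold nu
    rw [hlam]
    field_simp
    rw [hm]
    ring
  have hM : m ^ 3 + a * l ^ 2 * m - b * l ^ 3 = -y ^ 2 * y₃ := by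
    rw [hy3, hx3, hb, ha, hm]
    ring
  have hd2 : d2 a b (x / y) (1 / y) (x / y) (1 / y) = -y ^ 2 * y₃ / m ^ 3 := by
    rw [← hM]
    unfold d2
    rw [hlam]
    field_simp
    ring
  have hy0 : y₃ ≠ 0 := fun h => h2 (by rw [hd2, h]; simp)
  have hadd : addt a b (x / y) (1 / y) (x / y) (1 / y) = x₃ / y₃ := by
    unfold addt
    rw [Ring.inverse_eq_inv', hlam, hnu, hd2]
    have e : 2 * x * y * y₃ + 2 * a * l * m - 3 * b * l ^ 2 = y ^ 2 * x₃ := by
      rw [hy3, hx3, hb, ha, hm]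
      ring
    field_simp
    linear_combination e
  refine ⟨hy0, hadd.symm, ?_⟩
  unfold addw
  rw [hadd, hlam, hnu]
  have e : l * x₃ + y₃ = -m := by
    rw [hy3, hm]
    ring
  field_simp
  linear_combination e

end H16S
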