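import Mathlib
import Pool.Agent.Lib.H16S.P0
import Pool.Agent.Lib.H16S.A2C

/-! # H16S, chunks A2: the addition formulas are the group law -/

open WeierstrassCurve

namespace H16S

open H35P (WAB Ker tt)
open H55K (xc yc)

variable {k : Type} [Field k] [DecidableEq k] {W : WeierstrassCurve k} [W.IsShortNF]

/-- Chunk A2d (M). The group law in general. PROOF. Cases. P = 0: t₁ = w₁ = 0, w₂ d1 = t₂³ (equation), so t₂ ≠ 0 if Q ≠ 0 (w₂ ≠ 0, d1 ≠ 0) and lam = w₂/t₂, nu = 0, addt = t₂, addw = w₂. Q = 0: w₁ d1 = t₁ n1, again lam = w₁/t₁, nu = 0.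
P = -Q: t₂ = -t₁, w₂ = -w₁ (H55K.xc_neg, yc_neg), w₁ d1 = t₁ n1, lam = w₁/t₁, nu = 0, addt = 0, addw = 0, P + Q = 0. P = Q: A2c. Otherwise xc P ≠ xc Q (H55K.xc_eq): A2b. -/
theorem add_tw (h2' : (2 : k) ≠ 0) {P Q : W.toAffine.Point} (cP : Ch P) (cQ : Ch Q)
    (h1 : d1 W.a₄ W.a₆ (tt P) (ww P) (tt Q) (ww Q) ≠ 0) (h2 : d2 W.a₄ W.a₆ (tt P) (ww P) (tt Q) (ww Q) ≠ 0) :
    Ch (P + Q) ∧ tt (P + Q) = addt W.a₄ W.a₆ (tt P) (ww P) (tt Q) (ww Q) ∧
      ww (P + Q) = addw W.a₄ W.a₆ (tt P) (ww P) (tt Q) (ww Q) := by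
  have z1 : tt (0 : W.toAffine.Point) = 0 := rfl
  have z2 : ww (0 : W.toAffine.Point) = 0 := inv_zero
  have ol := on_line (Eqn_ww cP) (Eqn_ww cQ) (isUnit_iff_ne_zero.2 h1)
  by_cases hP : P = 0
  · subst hP
    rw [zero_add]
    refine ⟨cQ, ?_, ?_⟩
    · unfold addt
      unfold nu
      rw [z1, z2]
      ring
    · unfold addw addt
      unfold nu at ol ⊢
      rw [z1, z2] at ol ⊢
      rw [mul_zero, sub_zero, add_zero] at ol
      rw [mul_zero, sub_zero, mul_zero, zero_mul, add_zero, zero_add, sub_zero]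
      exact ol
  by_cases hQ : Q = 0
  · subst hQ
    rw [add_zero]
    rw [z1, z2, mul_zero, zero_add] at ol
    refine ⟨cP, ?_, ?_⟩
    · unfold addt
      rw [z1, z2, ← ol]
      ring
    · unfold addw addt
      rw [z1, z2, ← ol]
      unfold nu at ol
      linear_combination -ol
  by_cases hx : xc P = xc Q
  · rcases H55K.xc_eq hP hQ hx with e | e
    · subst e
      obtain ⟨r1, r2, r3⟩ := add_dbl h2' hP cP h1 h2
      exact ⟨Or.inr r1, r2, r3⟩
    · have e1 : P + Q = 0 := by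
        rw [e]
        exact neg_add_cancel Q
      have e2 : tt P = -tt Q := by rw [e, H55K.tt_neg]
      have e3 : ww P = -ww Q := by
        rw [e]
        unfold ww
        rw [H55K.yc_neg, inv_neg]
      have hnu : nu W.a₄ W.a₆ (tt P) (ww P) (tt Q) (ww Q) = 0 := by
        have e4 : 2 * nu W.a₄ W.a₆ (tt P) (ww P) (tt Q) (ww Q) = 0 := by
          have e5 : nu W.a₄ W.a₆ (tt P) (ww P) (tt Q) (ww Q) =
              ww P - lam W.a₄ W.a₆ (tt P) (ww P) (tt Q) (ww Q) * tt P := rfl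
          linear_combination e5 - ol - lam W.a₄ W.a₆ (tt P) (ww P) (tt Q) (ww Q) * e2 + e3
        exact (mul_eq_zero.1 e4).resolve_left h2'
      refine ⟨Or.inl e1, ?_, ?_⟩
      · rw [e1, z1]
        unfold addt
        rw [hnu, e2]
        ring
      · rw [e1, z2]
        unfold addw addt
        rw [hnu]
        linear_combination -(lam W.a₄ W.a₆ (tt P) (ww P) (tt Q) (ww Q)) * e2
  · obtain ⟨r1, r2, r3⟩ := add_gen hP hQ cP cQ hx h1 h2
    exact ⟨Or.inr r1, r2, r3⟩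

end H16S
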