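import Mathlib
import Pool.Agent.Lib.H35P.R4
import Pool.Agent.Lib.H35P.FG
import Pool.Agent.Lib.H16S.A2D

/-! # H16S, chunks A3: the kernel of reduction in the coordinate t -/

open WeierstrassCurve

namespace H16S

open H35P (WAB Ker tt IntW)
open H55K (xc yc)

variable {k : Type} [Field k] [DecidableEq k] {W : WeierstrassCurve k} [W.IsShortNF] {V : ValuationSubring k}

/-- Chunk A3a (S/M). The values of t and w in the kernel of reduction: V w = (V t)^3 < 1 (P = 0: both are 0). H35P.val_y: V y² = V x³, V x < V y for P ≠ 0. In particular Ch P. -/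
theorem ker_tw (hI : IntW W V) {P : W.toAffine.Point} (h : Ker V P) :
    Ch P ∧ V.valuation (tt P) < 1 ∧ V.valuation (ww P) = V.valuation (tt P) ^ 3 := by
  by_cases h0 : P = 0
  · subst h0
    refine ⟨Or.inl rfl, H35P.tt_lt hI _ h, ?_⟩
    unfold ww
    rw [H55K.tt_eq, H55K.xc_zero, H55K.yc_zero, zero_div, inv_zero, map_zero]
    exact (zero_pow (by norm_num)).symm
  · have hx := (H55K.ker_iff V h0).1 h
    obtain ⟨h1, h2⟩ := H35P.val_y hI ((H55K.s_eq _ _).2 (H55K.eqn h0)) hx
    have hy0 : V.valuation (yc P) ≠ 0 := (zero_lt_one.trans (hx.trans h2)).ne'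
    have hy : yc P ≠ 0 := fun e => hy0 (by rw [e, map_zero])
    refine ⟨Or.inr hy, H35P.tt_lt hI _ h, ?_⟩
    unfold ww
    rw [H55K.tt_eq, map_div₀, div_pow, ← h1, map_inv₀]
    rw [eq_div_iff (pow_ne_zero 3 hy0), pow_succ, mul_comm, mul_assoc, mul_inv_cancel₀ hy0, mul_one]

/-- Chunk A3b (S). Conversely: coordinates (t, w) with V t < 1, w ≠ 0, V w < 1 ... : if Ch P and V (tt P) < 1 and V (ww P) < 1 then Ker V P. PROOF. P = 0 is clear. Otherwise y = 1/w, V y > 1; if V x ≤ 1 then V y ≤ 1 by H35P.int_y. -/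
theorem ker_of_tw (hI : IntW W V) {P : W.toAffine.Point} (c : Ch P) (h : V.valuation (ww P) < 1) : Ker V P := by
  by_contra hk
  obtain ⟨h0, hx⟩ := H55K.not_ker V hk
  have hy := H35P.int_y hI ((H55K.s_eq _ _).2 (H55K.eqn h0)) hx
  rcases c with c | c
  · exact h0 c
  · unfold ww at h
    rw [map_inv₀] at h
    have hy0 : 0 < V.valuation (yc P) := zero_lt_iff.2 ((map_ne_zero _).2 c)
    exact absurd hy (not_le.2 ((inv_lt_one₀ hy0).1 h))

/-- Chunk A3c (M). Small solutions of the equation are determined by t: V w, V w' < 1, V t < 1. PROOF. (w - w')(1 - a t (w + w') - b (w² + w w' + w'²)) = 0 and the second factor has value 1. -/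
theorem w_unique {a b t w w' : k} (ha : a ∈ V) (hb : b ∈ V) (h : Eqn a b t w) (h' : Eqn a b t w')
    (ht : V.valuation t < 1) (hw : V.valuation w < 1) (hw' : V.valuation w' < 1) : w = w' := by
  by_contra hne
  unfold Eqn at h h'
  have h1 : (w - w') * (1 - (a * t * (w + w') + b * (w ^ 2 + w * w' + w' ^ 2))) = 0 := by
    linear_combination h - h'
  have h2 : (1 : k) = a * t * (w + w') + b * (w ^ 2 + w * w' + w' ^ 2) := by
    rcases mul_eq_zero.1 h1 with h3 | h3
    · exact absurd (sub_eq_zero.1 h3) hne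
    · exact sub_eq_zero.1 h3
  have va : V.valuation a ≤ 1 := (V.valuation_le_one_iff a).2 ha
  have vb : V.valuation b ≤ 1 := (V.valuation_le_one_iff b).2 hb
  have m1 : ∀ {x y : k}, V.valuation x ≤ 1 → V.valuation y < 1 → V.valuation (x * y) < 1 := by
    intro x y hx hy
    rw [map_mul]
    exact mul_lt_one_of_nonneg_of_lt_one_right hx zero_le' hy
  have h3 : V.valuation (1 : k) < 1 := by
    rw [h2]
    refine V.valuation.map_add_lt (m1 ?_ (V.valuation.map_add_lt hw hw')) (m1 vb ?_)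
    · exact (m1 va ht).le
    · refine V.valuation.map_add_lt (V.valuation.map_add_lt ?_ (m1 hw.le hw')) ?_
      · rw [sq]
        exact m1 hw.le hw
      · rw [sq]
        exact m1 hw'.le hw'
  rw [map_one] at h3
  exact lt_irrefl _ h3

/-- Chunk A3d (S/M). t is injective on the kernel of reduction: ker_tw, w_unique, Eqn_ww, xy_tw, H55K.pt_ext (w = 0 iff P = 0). IntW gives a₄, a₆ in V. -/
theorem tt_inj (hI : IntW W V) {P Q : W.toAffine.Point} (hP : Ker V P) (hQ : Ker V Q) (h : tt P = tt Q) : P = Q := by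
  by_cases h0 : P = 0
  · have h1 := (H35P.tt_eq_zero hI P hP).2 h0
    rw [h0, (H35P.tt_eq_zero hI Q hQ).1 (h ▸ h1)]
  · by_cases h1 : Q = 0
    · have h2 := (H35P.tt_eq_zero hI Q hQ).2 h1
      exact absurd ((H35P.tt_eq_zero hI P hP).1 (h.trans h2)) h0
    · obtain ⟨c1, t1, w1⟩ := ker_tw hI hP
      obtain ⟨c2, t2, w2⟩ := ker_tw hI hQ
      have e : ww P = ww Q := by
        refine w_unique hI.a4 hI.a6 (Eqn_ww c1) (h ▸ Eqn_ww c2) t1 ?_ ?_
        · rw [w1]
          exact pow_lt_one₀ zero_le' t1 (by norm_num)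
        · rw [w2]
          exact pow_lt_one₀ zero_le' t2 (by norm_num)
      obtain ⟨-, x1, y1⟩ := xy_tw h0 c1
      obtain ⟨-, x2, y2⟩ := xy_tw h1 c2
      refine H55K.pt_ext h0 h1 ?_ ?_
      · rw [x1, x2, h, e]
      · rw [y1, y2, e]

end H16S
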