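import Mathlib
import Pool.Agent.Lib.H35P.R4
import Pool.Agent.Lib.H35P.FG
import Pool.Agent.Lib.H16S.A3

/-! # H16S, chunks A3: the kernel of reduction in the coordinate t -/

open WeierstrassCurve

namespace H16S

open H35P (WAB Ker tt IntW)
open H55K (xc yc)

variable {k : Type} [Field k] [DecidableEq k] {W : WeierstrassCurve k} [W.IsShortNF] {V : ValuationSubring k}

omit [DecidableEq k] in
theorem A3E_mul {x y : k} {g h : V.ValueGroup} (hx : V.valuation x ≤ g) (hy : V.valuation y ≤ h) :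
    V.valuation (x * y) ≤ g * h := by
  rw [map_mul]
  exact mul_le_mul' hx hy

omit [DecidableEq k] in
theorem A3E_pow {x : k} {g : V.ValueGroup} (hx : V.valuation x ≤ g) (n : ℕ) : V.valuation (x ^ n) ≤ g ^ n := by
  rw [map_pow]
  exact pow_le_pow_left' hx n

omit [DecidableEq k] in
/-- The estimates for the slope. -/
theorem A3E_n1 {a t₁ w₁ t₂ : k} {c : V.ValueGroup} (hc : c ≤ 1) (va : V.valuation a ≤ 1) (h1 : V.valuation t₁ ≤ c)
    (h2 : V.valuation t₂ ≤ c) (h3 : V.valuation w₁ ≤ c) : V.valuation (n1 a t₁ w₁ t₂) ≤ c ^ 2 := by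
  unfold n1
  refine V.valuation.map_add_le (V.valuation.map_add_le (V.valuation.map_add_le (A3E_pow h1 2) ?_) (A3E_pow h2 2)) ?_
  · have := A3E_mul h1 h2
    rwa [← sq] at this
  · have := A3E_mul va (A3E_pow h3 2)
    rwa [one_mul] at this

omit [DecidableEq k] in
/-- The denominator of the slope has value 1. -/
theorem A3E_d1 {a b t₁ w₁ t₂ w₂ : k} {c : V.ValueGroup} (hc : c < 1) (va : V.valuation a ≤ 1) (vb : V.valuation b ≤ 1)
    (h1 : V.valuation t₂ ≤ c) (h2 : V.valuation w₁ ≤ c) (h3 : V.valuation w₂ ≤ c) :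
    V.valuation (d1 a b t₁ w₁ t₂ w₂) = 1 := by
  have e : d1 a b t₁ w₁ t₂ w₂ = 1 + -(a * t₂ * (w₁ + w₂) + b * (w₁ ^ 2 + w₁ * w₂ + w₂ ^ 2)) := by
    unfold d1
    ring
  have hcc : c * c ≤ c := mul_le_of_le_one_left' hc.le
  have h4 : V.valuation (-(a * t₂ * (w₁ + w₂) + b * (w₁ ^ 2 + w₁ * w₂ + w₂ ^ 2))) < 1 := by
    rw [Valuation.map_neg]
    refine lt_of_le_of_lt (V.valuation.map_add_le ?_ ?_) hc
    · have := A3E_mul (A3E_mul va h1) (V.valuation.map_add_le h2 h3)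
      rw [one_mul] at this
      exact this.trans hcc
    · have h5 : V.valuation (w₁ ^ 2 + w₁ * w₂ + w₂ ^ 2) ≤ c := by
        refine V.valuation.map_add_le (V.valuation.map_add_le ?_ ((A3E_mul h2 h3).trans hcc)) ?_
        · exact (A3E_pow h2 2).trans (by rw [sq]; exact hcc)
        · exact (A3E_pow h3 2).trans (by rw [sq]; exact hcc)
      have := A3E_mul vb h5
      rwa [one_mul] at this
  rw [e, V.valuation.map_add_eq_of_lt_left, map_one]
  rw [map_one]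
  exact h4

/-- Chunk A3e (M). The difference: c < 1, V t_i ≤ c. V (t(P - Q) - (t P - t Q)) ≤ V (t P - t Q) c^4. PROOF. t(-Q) = -t Q, w(-Q) = -w Q (H55K.tt_neg, yc_neg). Write t₁, w₁ for P, t₂, w₂ for Q, a, b for a₄, a₆. d1(t₁,w₁,-t₂,-w₂) = 1 + a t₂ (w₁ - w₂) - b (..) has
value 1 (V w_i ≤ c³), so V lam ≤ c² (n1), V d2 = 1: add_tw applies. nu d1 = w₁ d1 - t₁ n1 = t₁ t₂ (t₁ - t₂) + a t₂ w₁ (w₁ - w₂) + b w₁ w₂ (w₁ - w₂) (ring identity modulo the equation of (t₁,w₁)), and w₁ - w₂ = lam' (t₁ - t₂) with lam' =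
lam(t₁,w₁,t₂,w₂) (on_line), V lam' ≤ c². So V nu ≤ V (t₁ - t₂) c² and t(P - Q) - (t₁ - t₂) = (2 a lam + 3 b lam²) nu / d2 has value at most c² V nu. -/
theorem tt_sub (h2 : (2 : k) ≠ 0) (hI : IntW W V) {P Q : W.toAffine.Point} (hP : Ker V P) (hQ : Ker V Q)
    {c : V.ValueGroup} (hc : c < 1) (h1 : V.valuation (tt P) ≤ c) (h3 : V.valuation (tt Q) ≤ c) :
    V.valuation (tt (P - Q) - (tt P - tt Q)) ≤ V.valuation (tt P - tt Q) * c ^ 4 := by
  have va : V.valuation W.a₄ ≤ 1 := (V.valuation_le_one_iff _).2 hI.a4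
  have vb : V.valuation W.a₆ ≤ 1 := (V.valuation_le_one_iff _).2 hI.a6
  obtain ⟨c1, u1, z1⟩ := ker_tw hI hP
  obtain ⟨c2, u2, z2⟩ := ker_tw hI hQ
  have hQ' : Ker V (-Q) := (H35P.ker_neg Q).2 hQ
  obtain ⟨c3, -, -⟩ := ker_tw hI hQ'
  have hn : ww (-Q) = -ww Q := by
    unfold ww
    rw [H55K.yc_neg, inv_neg]
  have e1 := Eqn_ww c1
  have e2 := Eqn_ww c2
  have hc2 : c ^ 2 ≤ 1 := pow_le_one' hc.le 2
  have hcc : c ^ 3 ≤ c := by
    rw [pow_succ]
    exact mul_le_of_le_one_left' hc2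
  have y1 : V.valuation (ww P) ≤ c := by
    rw [z1]
    exact (pow_le_pow_left' h1 3).trans hcc
  have y2 : V.valuation (ww Q) ≤ c := by
    rw [z2]
    exact (pow_le_pow_left' h3 3).trans hcc
  have y2' : V.valuation (-ww Q) ≤ c := by rwa [Valuation.map_neg]
  have h3' : V.valuation (-tt Q) ≤ c := by rwa [Valuation.map_neg]
  set a := W.a₄ with ha
  set b := W.a₆ with hb
  set t₁ := tt P with ht1
  set t₂ := tt Q with ht2
  set w₁ := ww P with hw1
  set w₂ := ww Q with hw2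
  have D1 : V.valuation (d1 a b t₁ w₁ (-t₂) (-w₂)) = 1 := A3E_d1 hc va vb h3' y1 y2'
  have D1' : V.valuation (d1 a b t₁ w₁ t₂ w₂) = 1 := A3E_d1 hc va vb h3 y1 y2
  have ne1 : d1 a b t₁ w₁ (-t₂) (-w₂) ≠ 0 := fun h => by
    rw [h, map_zero] at D1
    exact zero_ne_one D1
  have N1 : V.valuation (n1 a t₁ w₁ (-t₂)) ≤ c ^ 2 := A3E_n1 hc.le va h1 h3' y1
  have N1' : V.valuation (n1 a t₁ w₁ t₂) ≤ c ^ 2 := A3E_n1 hc.le va h1 h3 y1
  have L1 : lam a b t₁ w₁ (-t₂) (-w₂) * d1 a b t₁ w₁ (-t₂) (-w₂) = n1 a t₁ w₁ (-t₂) := lam_mul (isUnit_iff_ne_zero.2 ne1)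
  have VL : V.valuation (lam a b t₁ w₁ (-t₂) (-w₂)) ≤ c ^ 2 := by
    have := congrArg V.valuation L1
    rw [map_mul, D1, mul_one] at this
    rw [this]
    exact N1
  set L := lam a b t₁ w₁ (-t₂) (-w₂) with hL
  have VLc : V.valuation L ≤ c := VL.trans (by rw [sq]; exact mul_le_of_le_one_left' hc.le)
  have D2 : V.valuation (d2 a b t₁ w₁ (-t₂) (-w₂)) = 1 := by
    have e : d2 a b t₁ w₁ (-t₂) (-w₂) = 1 + (a * L ^ 2 + b * L ^ 3) := by
      unfold d2
      rw [← hL]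
      ring
    have h4 : V.valuation (a * L ^ 2 + b * L ^ 3) < 1 := by
      refine lt_of_le_of_lt (V.valuation.map_add_le ?_ ?_) hc
      · have := A3E_mul va (A3E_pow VLc 2)
        rw [one_mul] at this
        exact this.trans (by rw [sq]; exact mul_le_of_le_one_left' hc.le)
      · have := A3E_mul vb (A3E_pow VLc 3)
        rw [one_mul] at this
        exact this.trans hcc
    rw [e, V.valuation.map_add_eq_of_lt_left, map_one]
    rw [map_one]
    exact h4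
  have ne2 : d2 a b t₁ w₁ (-t₂) (-w₂) ≠ 0 := fun h => by
    rw [h, map_zero] at D2
    exact zero_ne_one D2
  have W1 : (w₁ - w₂) * d1 a b t₁ w₁ t₂ w₂ = (t₁ - t₂) * n1 a t₁ w₁ t₂ := by
    unfold Eqn at e1 e2
    unfold d1 n1
    linear_combination e1 - e2
  have VW : V.valuation (w₁ - w₂) ≤ V.valuation (t₁ - t₂) := by
    have h5 := congrArg V.valuation W1
    rw [map_mul, D1', mul_one, map_mul] at h5
    rw [h5]
    exact mul_le_of_le_one_right' (N1'.trans hc2)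
  have NU : nu a b t₁ w₁ (-t₂) (-w₂) * d1 a b t₁ w₁ (-t₂) (-w₂) =
      t₁ * t₂ * (t₁ - t₂) + a * (t₂ * w₁) * (w₁ - w₂) + b * (w₁ * w₂) * (w₁ - w₂) := by
    unfold nu
    rw [← hL, sub_mul, mul_right_comm, L1]
    unfold Eqn at e1
    unfold d1 n1
    linear_combination e1
  have VN : V.valuation (nu a b t₁ w₁ (-t₂) (-w₂)) ≤ c ^ 2 * V.valuation (t₁ - t₂) := by
    have h5 := congrArg V.valuation NU
    rw [map_mul, D1, mul_one] at h5
    rw [h5]
    refine V.valuation.map_add_le (V.valuation.map_add_le ?_ ?_) ?_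
    · rw [sq]
      exact A3E_mul (A3E_mul h1 h3) le_rfl
    · have := A3E_mul (A3E_mul va (A3E_mul h3 y1)) VW
      rwa [one_mul, ← sq] at this
    · have := A3E_mul (A3E_mul vb (A3E_mul y1 y2)) VW
      rwa [one_mul, ← sq] at this
  have V2 : V.valuation (2 : k) ≤ 1 := by
    have := H35P.FG_nat (V := V) 2
    rwa [Nat.cast_ofNat] at this
  have V3 : V.valuation (3 : k) ≤ 1 := by
    have := H35P.FG_nat (V := V) 3
    rwa [Nat.cast_ofNat] at this
  have VK : V.valuation (2 * a * L + 3 * b * L ^ 2) ≤ c ^ 2 := by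
    refine V.valuation.map_add_le ?_ ?_
    · have := A3E_mul (A3E_mul V2 va) VL
      rwa [one_mul, one_mul] at this
    · have := A3E_mul (A3E_mul V3 vb) (A3E_pow VLc 2)
      rwa [one_mul, one_mul] at this
  have key := add_tw h2 c1 c3 (by rw [H55K.tt_neg, hn]; exact ne1) (by rw [H55K.tt_neg, hn]; exact ne2)
  rw [H55K.tt_neg, hn, ← sub_eq_add_neg] at key
  have e3 : tt (P - Q) - (t₁ - t₂) = (2 * a * L + 3 * b * L ^ 2) * nu a b t₁ w₁ (-t₂) (-w₂) *
      (d2 a b t₁ w₁ (-t₂) (-w₂))⁻¹ := by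
    rw [key.2.1]
    unfold addt
    rw [Ring.inverse_eq_inv', ← hL]
    ring
  have h6 : V.valuation ((d2 a b t₁ w₁ (-t₂) (-w₂))⁻¹) ≤ 1 := by
    rw [map_inv₀, D2, inv_one]
  rw [e3]
  have h7 := A3E_mul (A3E_mul VK VN) h6
  refine h7.trans (le_of_eq ?_)
  rw [mul_one, ← mul_assoc, ← pow_add, mul_comm]

end H16S
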