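import Mathlib
import Pool.Agent.Lib.H16S.A1

/-! # H16S, chunk B1: the series W -/

open PowerSeries

namespace H16S

variable {R : Type} [CommRing R] (a b : R)

/-- the map whose fixed point is W -/
noncomputable def b1_Phi (U : R⟦X⟧) : R⟦X⟧ := X ^ 3 + C a * X * U ^ 2 + C b * U ^ 3

theorem b1_step {U U' : R⟦X⟧} (h : constantCoeff U = 0) (h' : constantCoeff U' = 0) {k : ℕ}
    (hd : X ^ (k + 1) ∣ U - U') : X ^ (k + 1 + 1) ∣ b1_Phi a b U - b1_Phi a b U' := by
  have e : b1_Phi a b U - b1_Phi a b U' = (U - U') * (C a * X * (U + U') + C b * (U ^ 2 + U * U' + U' ^ 2)) := by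
    unfold b1_Phi
    ring
  rw [e, pow_succ]
  refine mul_dvd_mul hd ?_
  rw [PowerSeries.X_dvd_iff]
  simp [h, h']

/-- Chunk B1a (M). Existence of W. PROOF. Φ(U) = X^3 + a X U^2 + b U^3, U_0 = 0, U_{k+1} = Φ(U_k). All U_k have constant term 0, and Φ(U) - Φ(U') = (U - U')(a X (U + U') + b (U² + U U' + U'²)), the second
factor has constant term 0: so X^(k+1) divides U_{k+1} - U_k (induction). Put W = mk (fun n => coeff n (U_n)); then coeff n W = coeff n U_k for all k ≥ n, that is X^(k+1) | W - U_k. So X^(k+2) divides Φ(W) - Φ(U_k) = Φ(W) - U_{k+1}, and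
X^(k+2) | W - U_{k+1}: all coefficients of Φ(W) - W are 0. -/
theorem exists_W : ∃ W : R⟦X⟧, IsW a b W := by
  set U : ℕ → R⟦X⟧ := fun k => (b1_Phi a b)^[k] 0 with hU
  have hstep : ∀ k, U (k + 1) = b1_Phi a b (U k) := fun k => Function.iterate_succ_apply' _ _ _
  have h0 : ∀ k, constantCoeff (U k) = 0 := by
    intro k
    induction k with
    | zero => simp [hU]
    | succ k ih =>
      rw [hstep]
      unfold b1_Phi
      simp [ih]
  have hd : ∀ k, (X : R⟦X⟧) ^ (k + 1) ∣ U (k + 1) - U k := by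
    intro k
    induction k with
    | zero =>
      rw [hstep]
      have e : b1_Phi a b (U 0) - U 0 = X ^ 3 := by
        unfold b1_Phi
        simp [hU]
      rw [e]
      exact pow_dvd_pow _ (by norm_num)
    | succ k ih =>
      rw [hstep (k + 1), hstep k]
      rw [hstep k] at ih
      have h1 : constantCoeff (b1_Phi a b (U k)) = 0 := by rw [← hstep]; exact h0 _
      exact b1_step a b h1 (h0 k) ih
  have hm : ∀ k m, k ≤ m → (X : R⟦X⟧) ^ (k + 1) ∣ U m - U k := by
    intro k m hkm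
    induction m, hkm using Nat.le_induction with
    | base => rw [sub_self]; exact dvd_zero _
    | succ m hkm ih =>
      have e : U (m + 1) - U k = (U (m + 1) - U m) + (U m - U k) := by ring
      rw [e]
      exact dvd_add ((pow_dvd_pow _ (by omega)).trans (hd m)) ih
  set W : R⟦X⟧ := PowerSeries.mk fun n => coeff n (U n) with hW
  have hWk : ∀ k, (X : R⟦X⟧) ^ (k + 1) ∣ W - U k := by
    intro k
    rw [PowerSeries.X_pow_dvd_iff]
    intro m hmk
    have h1 := (PowerSeries.X_pow_dvd_iff.1 (hm m k (by omega))) m (by omega)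
    rw [map_sub, sub_eq_zero] at h1
    rw [map_sub, hW, coeff_mk, h1, sub_self]
  have hW0 : constantCoeff W = 0 := by
    have h1 := (PowerSeries.X_pow_dvd_iff.1 (hWk 0)) 0 (by omega)
    rw [map_sub, sub_eq_zero, PowerSeries.coeff_zero_eq_constantCoeff_apply,
      PowerSeries.coeff_zero_eq_constantCoeff_apply, h0] at h1
    exact h1
  refine ⟨W, hW0, ?_⟩
  have hfin : b1_Phi a b W - W = 0 := by
    ext n
    have h1 := b1_step a b hW0 (h0 n) (hWk n)
    have h2 := hWk (n + 1)
    rw [← hstep] at h1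
    have h3 : (X : R⟦X⟧) ^ (n + 1 + 1) ∣ b1_Phi a b W - W := by
      have e : b1_Phi a b W - W = (b1_Phi a b W - U (n + 1)) - (W - U (n + 1)) := by ring
      rw [e]
      exact dvd_sub h1 h2
    rw [(PowerSeries.X_pow_dvd_iff.1 h3) n (by omega), map_zero]
  unfold Eqn
  exact (sub_eq_zero.1 hfin).symm

/-- Chunk B1b (S/M). Uniqueness. PROOF. (W - W')(1 - a X (W + W') - b (W² + W W' + W'²)) = 0 and the second factor has constant term 1, a unit. -/
theorem W_unique {a b : R} {W W' : R⟦X⟧} (h : IsW a b W) (h' : IsW a b W') : W = W' := by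
  have h1 := h.2
  have h2 := h'.2
  unfold Eqn at h1 h2
  have h3 : (W - W') * (1 - C a * X * (W + W') - C b * (W ^ 2 + W * W' + W' ^ 2)) = 0 := by
    linear_combination h1 - h2
  have hu : IsUnit (1 - C a * X * (W + W') - C b * (W ^ 2 + W * W' + W' ^ 2)) := by
    rw [PowerSeries.isUnit_iff_constantCoeff]
    simp [h.1, h'.1]
  exact sub_eq_zero.1 ((hu.mul_left_eq_zero).1 h3)

/-- Chunk B1c (S). Functoriality. -/
theorem W_map {a b : R} {W : R⟦X⟧} (h : IsW a b W) {R' : Type} [CommRing R'] (φ : R →+* R') :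
    IsW (φ a) (φ b) (PowerSeries.map φ W) := by
  refine ⟨?_, ?_⟩
  · rw [← PowerSeries.coeff_zero_eq_constantCoeff_apply, PowerSeries.coeff_map,
      PowerSeries.coeff_zero_eq_constantCoeff_apply, h.1, map_zero]
  · have h1 := congrArg (PowerSeries.map φ) h.2
    unfold Eqn
    simp only [map_add, map_mul, map_pow, PowerSeries.map_C, PowerSeries.map_X] at h1
    exact h1

/-- Chunk B1d (S/M). W = X^3 U, U with constant term 1. PROOF. W (1 - a X W - b W²) = X^3 and the factor is a unit with constant term 1. -/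
theorem W_cube {a b : R} {W : R⟦X⟧} (h : IsW a b W) : ∃ U : R⟦X⟧, W = X ^ 3 * U ∧ constantCoeff U = 1 := by
  have hu : IsUnit (1 - C a * X * W - C b * W ^ 2) := by
    rw [PowerSeries.isUnit_iff_constantCoeff]
    simp [h.1]
  obtain ⟨u, hu'⟩ := hu
  have h1 := h.2
  unfold Eqn at h1
  have h2 : W * (u : R⟦X⟧) = X ^ 3 := by
    rw [hu']
    linear_combination h1
  refine ⟨(↑u⁻¹ : R⟦X⟧), ?_, ?_⟩
  · rw [← h2, mul_assoc, Units.mul_inv, mul_one]
  · have h3 : constantCoeff (u : R⟦X⟧) = 1 := by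
      rw [hu']
      simp [h.1]
    have h4 := congrArg constantCoeff (Units.mul_inv u)
    rw [map_mul, h3, one_mul, map_one] at h4
    exact h4

/-- Chunk B1e (S/M). Denominators: if the constant terms of t₁, w₁, t₂, w₂ are 0 then d1, d2 are units with constant term 1, and the constant terms of lam, nu, addt, addw are 0. PROOF. A series is a unit iff its constant term is
(PowerSeries.isUnit_iff_constantCoeff); map constantCoeff (a ring homomorphism) through the formulas: map_lam, map_add' with φ = constantCoeff; over R all t, w are 0: d1 = 1, lam = 0, d2 = 1. -/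
theorem unit_d {A B t₁ w₁ t₂ w₂ : R⟦X⟧} (h1 : constantCoeff t₁ = 0) (h2 : constantCoeff w₁ = 0)
    (h3 : constantCoeff t₂ = 0) (h4 : constantCoeff w₂ = 0) :
    IsUnit (d1 A B t₁ w₁ t₂ w₂) ∧ IsUnit (d2 A B t₁ w₁ t₂ w₂) ∧ constantCoeff (addt A B t₁ w₁ t₂ w₂) = 0 ∧
      constantCoeff (addw A B t₁ w₁ t₂ w₂) = 0 := by
  have hd1 : constantCoeff (d1 A B t₁ w₁ t₂ w₂) = 1 := by
    unfold d1
    simp [h1, h2, h3, h4]
  have u1 : IsUnit (d1 A B t₁ w₁ t₂ w₂) := by
    rw [PowerSeries.isUnit_iff_constantCoeff, hd1]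
    exact isUnit_one
  have hl : constantCoeff (lam A B t₁ w₁ t₂ w₂) = 0 := by
    unfold lam n1
    simp [h1, h2, h3]
  have hn : constantCoeff (nu A B t₁ w₁ t₂ w₂) = 0 := by
    unfold nu
    simp [hl, h1, h2]
  have hd2 : constantCoeff (d2 A B t₁ w₁ t₂ w₂) = 1 := by
    unfold d2
    simp [hl]
  have u2 : IsUnit (d2 A B t₁ w₁ t₂ w₂) := by
    rw [PowerSeries.isUnit_iff_constantCoeff, hd2]
    exact isUnit_one
  have ht : constantCoeff (addt A B t₁ w₁ t₂ w₂) = 0 := by
    unfold addt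
    simp [hl, h1, h3]
  refine ⟨u1, u2, ht, ?_⟩
  unfold addw
  simp [hl, hn]

end H16S
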