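import Mathlib
import Pool.Agent.Lib.H16S.B1

/-! # H16S, chunk B2: the series of the multiples -/

open PowerSeries

namespace H16S

variable {R : Type} [CommRing R] {a b : R} {W : R⟦X⟧}

/-- Chunk B2a (S/M). Induction with unit_d, eqn_add. -/
theorem TW_const (h : IsW a b W) (n : ℕ) : constantCoeff (TW a b W n).1 = 0 ∧ constantCoeff (TW a b W n).2 = 0 := by
  induction n with
  | zero => simp [TW]
  | succ n ih =>
    have hu := unit_d (A := C a) (B := C b) ih.1 ih.2 (t₂ := X) (by simp) h.1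
    exact ⟨hu.2.2.1, hu.2.2.2⟩

theorem b2_unit (h : IsW a b W) (n : ℕ) :
    IsUnit (d1 (C a) (C b) (TW a b W n).1 (TW a b W n).2 X W) ∧
      IsUnit (d2 (C a) (C b) (TW a b W n).1 (TW a b W n).2 X W) := by
  have ih := TW_const h n
  have hu := unit_d (A := C a) (B := C b) ih.1 ih.2 (t₂ := X) (by simp) h.1
  exact ⟨hu.1, hu.2.1⟩

/-- Chunk B2b (S/M). Induction with unit_d, eqn_add (0, 0 satisfies the equation). -/
theorem TW_eqn (h : IsW a b W) (n : ℕ) : Eqn (C a) (C b) (TW a b W n).1 (TW a b W n).2 := by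
  induction n with
  | zero => simp [TW, Eqn]
  | succ n ih => exact eqn_add ih h.2 (b2_unit h n).1 (b2_unit h n).2

theorem b2_quot (h : IsW a b W) (n : ℕ) :
    Ideal.Quotient.mk (Ideal.span {(X : R⟦X⟧) ^ 2}) (TW a b W n).1 =
        (n : R⟦X⟧ ⧸ Ideal.span {(X : R⟦X⟧) ^ 2}) * Ideal.Quotient.mk (Ideal.span {(X : R⟦X⟧) ^ 2}) X ∧
      Ideal.Quotient.mk (Ideal.span {(X : R⟦X⟧) ^ 2}) (TW a b W n).2 = 0 := by
  induction n with
  | zero => simp [TW]
  | succ n ih =>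
    have hm := map_add' (Ideal.Quotient.mk (Ideal.span {(X : R⟦X⟧) ^ 2})) (b2_unit h n).1 (b2_unit h n).2
    have hX : Ideal.Quotient.mk (Ideal.span {(X : R⟦X⟧) ^ 2}) X ^ 2 = 0 := by
      rw [← map_pow, Ideal.Quotient.eq_zero_iff_mem]
      exact Ideal.mem_span_singleton_self _
    have hW : Ideal.Quotient.mk (Ideal.span {(X : R⟦X⟧) ^ 2}) W = 0 := by
      obtain ⟨U, hU, -⟩ := W_cube h
      have e3 : (Ideal.Quotient.mk (Ideal.span {(X : R⟦X⟧) ^ 2})) X ^ 3 =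
          (Ideal.Quotient.mk (Ideal.span {(X : R⟦X⟧) ^ 2})) X ^ 2 * (Ideal.Quotient.mk (Ideal.span {(X : R⟦X⟧) ^ 2})) X := by ring
      rw [hU, map_mul, map_pow, e3, hX, zero_mul, zero_mul]
    rw [hW, ih.1, ih.2] at hm
    set ε := Ideal.Quotient.mk (Ideal.span {(X : R⟦X⟧) ^ 2}) X with hε
    have hn1 : n1 (Ideal.Quotient.mk (Ideal.span {(X : R⟦X⟧) ^ 2}) (C a)) ((n : R⟦X⟧ ⧸ Ideal.span {(X : R⟦X⟧) ^ 2}) * ε) 0 ε = 0 := by
      have e : n1 (Ideal.Quotient.mk (Ideal.span {(X : R⟦X⟧) ^ 2}) (C a)) ((n : R⟦X⟧ ⧸ Ideal.span {(X : R⟦X⟧) ^ 2}) * ε) 0 ε =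
          ((n : R⟦X⟧ ⧸ Ideal.span {(X : R⟦X⟧) ^ 2}) ^ 2 + n + 1) * ε ^ 2 := by
        unfold n1
        ring
      rw [e, hX, mul_zero]
    have hl : lam (Ideal.Quotient.mk (Ideal.span {(X : R⟦X⟧) ^ 2}) (C a)) (Ideal.Quotient.mk (Ideal.span {(X : R⟦X⟧) ^ 2}) (C b))
        ((n : R⟦X⟧ ⧸ Ideal.span {(X : R⟦X⟧) ^ 2}) * ε) 0 ε 0 = 0 := by
      unfold lam
      rw [hn1, zero_mul]
    have hnu : nu (Ideal.Quotient.mk (Ideal.span {(X : R⟦X⟧) ^ 2}) (C a)) (Ideal.Quotient.mk (Ideal.span {(X : R⟦X⟧) ^ 2}) (C b))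
        ((n : R⟦X⟧ ⧸ Ideal.span {(X : R⟦X⟧) ^ 2}) * ε) 0 ε 0 = 0 := by
      unfold nu
      rw [hl, zero_mul, sub_zero]
    refine ⟨?_, ?_⟩
    · change Ideal.Quotient.mk (Ideal.span {(X : R⟦X⟧) ^ 2}) (addt (C a) (C b) (TW a b W n).1 (TW a b W n).2 X W) = _
      rw [hm.1]
      unfold addt
      rw [hl, hnu]
      push_cast
      ring
    · change Ideal.Quotient.mk (Ideal.span {(X : R⟦X⟧) ^ 2}) (addw (C a) (C b) (TW a b W n).1 (TW a b W n).2 X W) = _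
      rw [hm.2]
      unfold addw
      rw [hl, hnu]
      ring

/-- Chunk B2c (M). The linear coefficients: t-series n X + .., w-series 0 X + ... PROOF. Write x ~ y if X^2 | x - y (equality modulo the ideal (X^2)). If t₁, w₁, t₂, w₂ have constant term 0 then n1 ~ 0 (products of two series with constant term 0), so lam ~ 0,
nu ~ w₁ , (2 a lam + 3 b lam²) nu ~ 0, addt ~ t₁ + t₂, addw = lam addt - nu ~ -w₁ . With w₁ ~ 0 (W ~ 0 by W_cube) the induction goes through: statement for n: TW n .1 ~ n X and TW n .2 ~ 0. -/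
theorem TW_one (h : IsW a b W) (n : ℕ) : coeff 1 (TW a b W n).1 = (n : R) ∧ coeff 1 (TW a b W n).2 = 0 := by
  obtain ⟨h1, h2⟩ := b2_quot h n
  have h1' : X ^ 2 ∣ (TW a b W n).1 - (n : R⟦X⟧) * X := by
    rw [← Ideal.mem_span_singleton, ← Ideal.Quotient.eq_zero_iff_mem, map_sub, h1, map_mul, map_natCast, sub_self]
  have h2' : X ^ 2 ∣ (TW a b W n).2 := by
    rw [← Ideal.mem_span_singleton, ← Ideal.Quotient.eq_zero_iff_mem, h2]
  refine ⟨?_, X_pow_dvd_iff.1 h2' 1 (by norm_num)⟩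
  have h3 := X_pow_dvd_iff.1 h1' 1 (by norm_num)
  rw [map_sub, sub_eq_zero] at h3
  rw [h3, ← nsmul_eq_mul, map_nsmul, coeff_X, if_pos rfl, nsmul_eq_mul, mul_one]

/-- Chunk B2d (S/M). Functoriality: induction with unit_d, map_add' for PowerSeries.map φ (map φ (C a) = C (φ a), map φ X = X). -/
theorem TW_map (h : IsW a b W) {R' : Type} [CommRing R'] (φ : R →+* R') (n : ℕ) :
    TW (φ a) (φ b) (PowerSeries.map φ W) n = (PowerSeries.map φ (TW a b W n).1, PowerSeries.map φ (TW a b W n).2) := by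
  induction n with
  | zero => simp [TW]
  | succ n ih =>
    have hm := map_add' (PowerSeries.map φ) (b2_unit h n).1 (b2_unit h n).2
    rw [PowerSeries.map_C, PowerSeries.map_C, PowerSeries.map_X] at hm
    have e : TW (φ a) (φ b) (PowerSeries.map φ W) (n + 1) =
      (addt (C (φ a)) (C (φ b)) (TW (φ a) (φ b) (PowerSeries.map φ W) n).1 (TW (φ a) (φ b) (PowerSeries.map φ W) n).2 X (PowerSeries.map φ W),
        addw (C (φ a)) (C (φ b)) (TW (φ a) (φ b) (PowerSeries.map φ W) n).1 (TW (φ a) (φ b) (PowerSeries.map φ W) n).2 X (PowerSeries.map φ W)) := rfl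
    rw [e, ih]
    exact Prod.ext hm.1.symm hm.2.symm

end H16S
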