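import Mathlib
import Pool.Agent.Lib.H16S.Defs

/-! # H16S, chunk B3: evaluation of power series in complete ultrametric fields -/

open PowerSeries

namespace H16S

variable {R : Type} [CommRing R] {K : Type} [NormedField K] [IsUltrametricDist K] [CompleteSpace K] {φ : R →+* K} {z : K}

/-- Chunk B3a (S). Summability of the norms: comparison with the geometric series ‖z‖^n. -/
theorem ev_summable (hφ : ∀ r, ‖φ r‖ ≤ 1) (hz : ‖z‖ < 1) (f : R⟦X⟧) :
    Summable (fun n => ‖φ (coeff n f) * z ^ n‖) ∧ Summable (fun n => φ (coeff n f) * z ^ n) := by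
  have h : Summable (fun n => ‖φ (coeff n f) * z ^ n‖) := by
    refine Summable.of_nonneg_of_le (fun n => norm_nonneg _) (fun n => ?_)
      (summable_geometric_of_lt_one (norm_nonneg z) hz)
    rw [norm_mul, norm_pow]
    exact mul_le_of_le_one_left (by positivity) (hφ _)
  exact ⟨h, h.of_norm⟩

omit [IsUltrametricDist K] [CompleteSpace K] in
theorem b3_C (r : R) : ev φ z (C r) = φ r := by
  unfold ev
  rw [tsum_eq_single 0]
  · simp
  · intro n hn
    rw [coeff_C, if_neg hn, map_zero, zero_mul]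

/-- Chunk B3b (M). ev is a ring homomorphism. PROOF. Sums: Summable.tsum_add. Products: coeff_mul, antidiagonal, tsum_mul_tsum_eq_tsum_sum_antidiagonal_of_summable_norm. 1: the only nonzero term is n = 0 (tsum_eq_single). -/
theorem ev_hom (hφ : ∀ r, ‖φ r‖ ≤ 1) (hz : ‖z‖ < 1) : ∃ E : R⟦X⟧ →+* K, ∀ f, E f = ev φ z f := by
  refine ⟨{ toFun := fun f => ev φ z f
            map_one' := ?_
            map_zero' := ?_
            map_add' := ?_
            map_mul' := ?_ }, fun f => rfl⟩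
  · have := b3_C (φ := φ) (z := z) 1
    rwa [map_one, map_one] at this
  · intro f g
    unfold ev
    rw [tsum_mul_tsum_eq_tsum_sum_antidiagonal_of_summable_norm (ev_summable hφ hz f).1
      (ev_summable hφ hz g).1]
    refine tsum_congr fun n => ?_
    rw [coeff_mul, map_sum, Finset.sum_mul]
    refine Finset.sum_congr rfl fun x hx => ?_
    rw [← Finset.HasAntidiagonal.mem_antidiagonal.1 hx, pow_add, map_mul]
    ring
  · have := b3_C (φ := φ) (z := z) 0
    rwa [map_zero, map_zero] at this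
  · intro f g
    unfold ev
    rw [← (ev_summable hφ hz f).2.tsum_add (ev_summable hφ hz g).2]
    refine tsum_congr fun n => ?_
    rw [map_add, map_add, add_mul]

/-- Chunk B3c (S). -/
theorem ev_C (r : R) : ev φ z (C r) = φ r := b3_C r

/-- Chunk B3c (S). -/
theorem ev_X : ev φ z (X : R⟦X⟧) = z := by
  unfold ev
  rw [tsum_eq_single 1]
  · simp
  · intro n hn
    rw [coeff_X, if_neg hn, map_zero, zero_mul]

/-- Chunk B3d (S/M). The norm of the value: ‖ev f‖ ≤ 1 (ultrametric: IsUltrametricDist.norm_tsum_le or limits of finite sums). -/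
theorem ev_le (hφ : ∀ r, ‖φ r‖ ≤ 1) (hz : ‖z‖ < 1) (f : R⟦X⟧) : ‖ev φ z f‖ ≤ 1 := by
  refine IsUltrametricDist.norm_tsum_le_of_forall_le fun n => ?_
  rw [norm_mul, norm_pow]
  exact mul_le_one₀ (hφ _) (by positivity) (pow_le_one₀ (norm_nonneg z) hz.le)

/-- Chunk B3d (S/M). A general bound: if all terms are at most c. -/
theorem ev_bound (hφ : ∀ r, ‖φ r‖ ≤ 1) (hz : ‖z‖ < 1) (f : R⟦X⟧) {c : ℝ} (hc : 0 ≤ c)
    (h : ∀ n, ‖φ (coeff n f) * z ^ n‖ ≤ c) : ‖ev φ z f‖ ≤ c :=
  IsUltrametricDist.norm_tsum_le_of_forall_le h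

/-- Chunk B3e (S). If X^k divides f then ‖ev f‖ ≤ ‖z‖^k: ev_bound (the coefficients below k are 0: PowerSeries.X_pow_dvd_iff). -/
theorem ev_dvd (hφ : ∀ r, ‖φ r‖ ≤ 1) (hz : ‖z‖ < 1) {f : R⟦X⟧} {k : ℕ} (h : X ^ k ∣ f) : ‖ev φ z f‖ ≤ ‖z‖ ^ k := by
  refine ev_bound hφ hz f (by positivity) fun n => ?_
  rcases lt_or_ge n k with hn | hn
  · rw [X_pow_dvd_iff.1 h n hn, map_zero, zero_mul, norm_zero]
    positivity
  · rw [norm_mul, norm_pow]
    calc ‖φ (coeff n f)‖ * ‖z‖ ^ n ≤ 1 * ‖z‖ ^ n := by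
          gcongr
          exact hφ _
      _ = ‖z‖ ^ n := one_mul _
      _ ≤ ‖z‖ ^ k := pow_le_pow_of_le_one (norm_nonneg z) hz.le hn

/-- Chunk B3f (S). HasSum. -/
theorem ev_hasSum (hφ : ∀ r, ‖φ r‖ ≤ 1) (hz : ‖z‖ < 1) (f : R⟦X⟧) :
    HasSum (fun n => φ (coeff n f) * z ^ n) (ev φ z f) :=
  (ev_summable hφ hz f).2.hasSum

/-- Chunk B3g (S). Change of the coefficient ring. -/
theorem ev_map {R' : Type} [CommRing R'] (θ : R' →+* R) (f : R'⟦X⟧) : ev φ z (PowerSeries.map θ f) = ev (φ.comp θ) z f := by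
  unfold ev
  refine tsum_congr fun n => ?_
  rw [PowerSeries.coeff_map, RingHom.comp_apply]

end H16S
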