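import Mathlib
import Pool.Agent.Lib.H16S.A3E
import Pool.Agent.Lib.H16S.B2
import Pool.Agent.Lib.H16S.B3

/-! # H16S, chunk B4: the multiples of a point in the kernel of reduction -/

open WeierstrassCurve PowerSeries

namespace H16S

open H35P (WAB Ker tt IntW)
open H55K (xc yc)

variable {R : Type} [CommRing R] {K : Type} [NormedField K] [IsUltrametricDist K] [CompleteSpace K] {φ : R →+* K}
  {W : WeierstrassCurve K} [W.IsShortNF] {a b : R} {U : R⟦X⟧}

omit [CompleteSpace K] in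
theorem B4_int (hφ : ∀ r, ‖φ r‖ ≤ 1) (ha : φ a = W.a₄) (hb : φ b = W.a₆) : IntW W (ball K) where
  a1 := by
    rw [W.a₁_of_isShortNF]
    exact zero_mem _
  a2 := by
    rw [W.a₂_of_isShortNF]
    exact zero_mem _
  a3 := by
    rw [W.a₃_of_isShortNF]
    exact zero_mem _
  a4 := by
    rw [← ha]
    exact hφ a
  a6 := by
    rw [← hb]
    exact hφ b

omit [W.IsShortNF] in
theorem B4_eqn (hφ : ∀ r, ‖φ r‖ ≤ 1) (ha : φ a = W.a₄) (hb : φ b = W.a₆) (h : IsW a b U) {z : K} (hz : ‖z‖ < 1) :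
    Eqn W.a₄ W.a₆ z (ev φ z U) ∧ ‖ev φ z U‖ < 1 := by
  obtain ⟨E, hE⟩ := ev_hom hφ hz
  constructor
  · have h3 := congrArg E (show U = X ^ 3 + C a * X * U ^ 2 + C b * U ^ 3 from h.2)
    unfold Eqn
    rw [map_add, map_add, map_mul, map_mul, map_mul, map_pow, map_pow, map_pow, hE, hE, hE, hE, ev_C, ev_C, ev_X, ha,
      hb] at h3
    exact h3
  · obtain ⟨U', hU, -⟩ := W_cube h
    have h4 := ev_dvd (φ := φ) hφ hz (f := U) (k := 3) ⟨U', hU⟩
    exact lt_of_le_of_lt h4 (pow_lt_one₀ (norm_nonneg z) hz (by norm_num))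

/-- Chunk B4a (S/M). w is the value of the series U (the series W) at t: for a point of the kernel of reduction. PROOF. ev is a ring homomorphism (ev_hom), so ev U satisfies the equation; ‖ev U‖ ≤ ‖t‖^3 < 1 (W_cube, ev_dvd);
w_unique with V = ball K (IntW: a₄, a₆ have norm at most 1), ker_tw, ball_lt_one. -/
theorem ww_ev (hφ : ∀ r, ‖φ r‖ ≤ 1) (ha : φ a = W.a₄) (hb : φ b = W.a₆) (h : IsW a b U) {P : W.toAffine.Point}
    (hP : Ker (ball K) P) : ww P = ev φ (tt P) U := by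
  classical
  have hI : IntW W (ball K) := B4_int hφ ha hb
  obtain ⟨c, ht, hw⟩ := ker_tw hI hP
  have hz : ‖tt P‖ < 1 := (ball_lt_one _).1 ht
  obtain ⟨e1, e2⟩ := B4_eqn hφ ha hb h hz
  refine w_unique (V := ball K) hI.a4 hI.a6 (Eqn_ww c) e1 ht ?_ ((ball_lt_one _).2 e2)
  rw [hw]
  exact pow_lt_one₀ zero_le ht (by norm_num)

/-- Chunk B4b (S/M). Every element of norm < 1 is the parameter of a point. PROOF. z = 0: P = 0. Otherwise w = ev φ z U ≠ 0 (‖w‖ = ‖z‖^3: U = X^3 U', ev U' = 1 + something of norm < 1), the point with x = z/w, y = 1/w (H55K.exists_pt; the equation divided by w³),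
Ker: ker_of_tw or ‖x‖ = ‖z‖^(-2) > 1. -/
theorem exists_tt (hφ : ∀ r, ‖φ r‖ ≤ 1) (ha : φ a = W.a₄) (hb : φ b = W.a₆) (h : IsW a b U) (hΔ : W.Δ ≠ 0) {z : K}
    (hz : ‖z‖ < 1) : ∃ P : W.toAffine.Point, Ker (ball K) P ∧ tt P = z := by
  classical
  by_cases h0 : z = 0
  · exact ⟨0, H55K.ker_zero _, h0.symm⟩
  · have hI : IntW W (ball K) := B4_int hφ ha hb
    obtain ⟨e1, e2⟩ := B4_eqn hφ ha hb h hz
    have hw : ev φ z U ≠ 0 := by
      obtain ⟨U', hU, hU'⟩ := W_cube h
      obtain ⟨E, hE⟩ := ev_hom (φ := φ) hφ hz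
      rw [← hE, hU, map_mul, map_pow]
      have h5 : E X = z := by rw [hE, ev_X]
      rw [h5]
      refine mul_ne_zero (pow_ne_zero 3 h0) fun h6 => ?_
      have h7 : X ^ 1 ∣ U' - 1 := by
        rw [pow_one, X_dvd_iff, map_sub, hU', map_one, sub_self]
      have h8 := ev_dvd (φ := φ) hφ hz h7
      rw [← hE, map_sub, h6, map_one, zero_sub, norm_neg, norm_one, pow_one] at h8
      exact absurd hz (not_lt.2 h8)
    set w := ev φ z U with hwdef
    obtain ⟨P, hP, hx, hy⟩ := H55K.exists_pt (W := W) hΔ (x := z / w) (y := 1 / w) (by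
      unfold Eqn at e1
      field_simp
      linear_combination e1)
    have hwP : ww P = w := by
      unfold ww
      rw [hy, one_div, inv_inv]
    have c : Ch P := by
      right
      rw [hy]
      exact one_div_ne_zero hw
    refine ⟨P, ker_of_tw hI c ?_, ?_⟩
    · rw [hwP]
      exact (ball_lt_one _).2 e2
    · rw [H55K.tt_eq, hx, hy]
      field_simp

variable [DecidableEq K]

/-- Chunk B4c (M). t and w of n P. PROOF. Induction on n: n P in the kernel (H35P.ker_add), ker_tw; ev of the series d1, d2 of TW (units of R⟦X⟧, unit_d) are units of K, so add_tw applies; ev is a ring homomorphism with ev X = t, ev U = w (ww_ev),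
ev (C a) = a₄; map_add' with φ = ev_hom and unit_d. -/
theorem tt_nsmul (h2 : (2 : K) ≠ 0) (hφ : ∀ r, ‖φ r‖ ≤ 1) (ha : φ a = W.a₄) (hb : φ b = W.a₆) (h : IsW a b U)
    {P : W.toAffine.Point} (hP : Ker (ball K) P) (n : ℕ) :
    tt (n • P) = ev φ (tt P) (TW a b U n).1 ∧ ww (n • P) = ev φ (tt P) (TW a b U n).2 := by
  have hI : IntW W (ball K) := B4_int hφ ha hb
  obtain ⟨c, ht, -⟩ := ker_tw hI hP
  have hz : ‖tt P‖ < 1 := (ball_lt_one _).1 ht
  obtain ⟨E, hE⟩ := ev_hom (φ := φ) hφ hz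
  have hX : E X = tt P := by rw [hE, ev_X]
  have hU : E U = ww P := by rw [hE, ww_ev hφ ha hb h hP]
  have hA : E (C a) = W.a₄ := by rw [hE, ev_C, ha]
  have hB : E (C b) = W.a₆ := by rw [hE, ev_C, hb]
  have key : ∀ n : ℕ, Ker (ball K) (n • P) ∧ tt (n • P) = E (TW a b U n).1 ∧ ww (n • P) = E (TW a b U n).2 := by
    intro n
    induction n with
    | zero =>
      rw [zero_smul]
      have z1 : (TW a b U 0).1 = 0 := rfl
      have z2 : (TW a b U 0).2 = 0 := rfl
      rw [z1, z2, map_zero]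
      exact ⟨H55K.ker_zero _, rfl, inv_zero⟩
    | succ n ih =>
      obtain ⟨k1, k2, k3⟩ := ih
      obtain ⟨c', -, -⟩ := ker_tw hI k1
      have k4 : Ker (ball K) (n • P + P) := H35P.ker_add hI _ _ k1 hP
      obtain ⟨u1, u2⟩ := b2_unit h n
      have v1 : E (d1 (C a) (C b) (TW a b U n).1 (TW a b U n).2 X U) =
          d1 W.a₄ W.a₆ (tt (n • P)) (ww (n • P)) (tt P) (ww P) := by
        unfold d1
        rw [k3, ← hX, ← hU, ← hA, ← hB]
        simp only [map_sub, map_add, map_mul, map_pow, map_one]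
      have vl : E (lam (C a) (C b) (TW a b U n).1 (TW a b U n).2 X U) =
          lam W.a₄ W.a₆ (tt (n • P)) (ww (n • P)) (tt P) (ww P) := by
        rw [map_lam E u1, k2, k3, hX, hU, hA, hB]
      have v2 : E (d2 (C a) (C b) (TW a b U n).1 (TW a b U n).2 X U) =
          d2 W.a₄ W.a₆ (tt (n • P)) (ww (n • P)) (tt P) (ww P) := by
        unfold d2
        rw [← vl, ← hA, ← hB]
        simp only [map_add, map_mul, map_pow, map_one]
      have n1' := (u1.map E).ne_zero
      have n2' := (u2.map E).ne_zero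
      rw [v1] at n1'
      rw [v2] at n2'
      obtain ⟨-, r1, r2⟩ := add_tw h2 c' c n1' n2'
      obtain ⟨s1, s2⟩ := map_add' E u1 u2
      have t1 : (TW a b U (n + 1)).1 = addt (C a) (C b) (TW a b U n).1 (TW a b U n).2 X U := rfl
      have t2 : (TW a b U (n + 1)).2 = addw (C a) (C b) (TW a b U n).1 (TW a b U n).2 X U := rfl
      rw [succ_nsmul, t1, t2, s1, s2, hX, hU, hA, hB, ← k2, ← k3]
      exact ⟨k4, r1, r2⟩
  rw [← hE, ← hE]
  exact (key n).2

end H16S
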