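import Mathlib
import Pool.Agent.Lib.H55K.G1
import Pool.Agent.Lib.H55K.G9
import Pool.Agent.Lib.H16S.P0

/-! # H16S: the supersingular relation (definition) -/

open NumberField IsDedekindDomain WeierstrassCurve

namespace H16S

open H55P (IQ Pt ac Inert Dec Nm)
open H35P (WAB Ker tt)
open H55K

/-- The Frobenius elements at the places above the inert prime p act as -p on the points modulo the kernel of reduction. -/
structure Sup {F : Type} [Field F] {A B : F} {Ω : Type} [Field Ω] [DecidableEq Ω] [Algebra F Ω]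
    (_act : 𝓞 F →+* AddMonoid.End (Pt (WAB A B) Ω)) (p : ℕ) : Prop where
  fr : ∀ V : ValuationSubring Ω, V.valuation (p : Ω) < 1 → ∀ s : Ω ≃ₐ[F] Ω,
    (∀ x ∈ V, V.valuation (s x - x ^ (p ^ 2)) < 1) → ∀ X : Pt (WAB A B) Ω, Ker V (ac (WAB A B) s X + p • X)

/-- The short Weierstrass curve over a ring. -/
def WR {R : Type} [CommRing R] (a b : R) : WeierstrassCurve R := ⟨0, 0, 0, a, b⟩

theorem WR_map {R S : Type} [CommRing R] [CommRing S] (φ : R →+* S) (a b : R) : (WR a b).map φ = WR (φ a) (φ b) := by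
  unfold WR WeierstrassCurve.map
  simp

instance WR_short {R : Type} [CommRing R] (a b : R) : (WR a b).IsShortNF := ⟨rfl, rfl, rfl⟩

theorem WAB_eq {F : Type} [Field F] (A B : F) (Ω : Type) [Field Ω] [Algebra F Ω] :
    (WAB A B)⁄Ω = WR (algebraMap F Ω A) (algebraMap F Ω B) :=
  WR_map (algebraMap F Ω) A B

end H16S
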