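import Mathlib
import Pool.Agent.Lib.H55K.G7C
import Pool.Agent.Lib.H16S.FD

/-! # H16S, chunk F1 (M): port of H55K/G7C (frob_diff) to a prime element whose norm is a power of a prime number -/

open NumberField IsDedekindDomain WeierstrassCurve

namespace H16S

open H55P (IQ Pt ac Inert Dec Nm)
open H35P (WAB Ker tt)
open H55K

variable {F : Type} [Field F] [NumberField F] [IQ F] {A B : F} {Om : ℂ} {Ω : Type} [Field Ω] [DecidableEq Ω]
  [Algebra F Ω] {j : Ω →+* ℂ} {act : 𝓞 F →+* AddMonoid.End (Pt (WAB A B) Ω)} {V : ValuationSubring Ω}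

/-- Chunk F1 (S/M). (x + y)^(l^f) is x^(l^f) + y^(l^f) modulo l: induction on f with H55K.g7c_add ((u)^l with u congruent to v: u^l congruent to v^l). -/
theorem f1_add {k : Type} [Field k] (V : ValuationSubring k) {l : ℕ} (hl : l.Prime) (hlV : V.valuation (l : k) < 1) (f : ℕ)
    {x y : k} (hx : V.valuation x ≤ 1) (hy : V.valuation y ≤ 1) :
    V.valuation ((x + y) ^ l ^ f - (x ^ l ^ f + y ^ l ^ f)) < 1 := by
  induction f with
  | zero =>
    rw [pow_zero, pow_one, pow_one, pow_one, sub_self, map_zero]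
    exact zero_lt_one
  | succ f ih =>
    have p1 : ∀ {z : k}, V.valuation z ≤ 1 → V.valuation (z ^ l ^ f) ≤ 1 := by
      intro z hz
      rw [map_pow]
      exact pow_le_one' hz _
    have h1 : V.valuation ((x + y) ^ l ^ f) ≤ 1 := p1 ((V.valuation.map_add x y).trans (max_le hx hy))
    have h2 : V.valuation (x ^ l ^ f + y ^ l ^ f) ≤ 1 :=
      (V.valuation.map_add _ _).trans (max_le (p1 hx) (p1 hy))
    have h3 := g7c_prod V (Finset.range l) (fun _ => (x + y) ^ l ^ f) (fun _ => x ^ l ^ f + y ^ l ^ f)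
      (fun _ _ => h1) (fun _ _ => h2) (fun _ _ => ih)
    rw [Finset.prod_const, Finset.prod_const, Finset.card_range] at h3
    have h4 := g7c_add V hl hlV (p1 hx) (p1 hy)
    have e : (x + y) ^ l ^ (f + 1) - (x ^ l ^ (f + 1) + y ^ l ^ (f + 1)) =
        (((x + y) ^ l ^ f) ^ l - (x ^ l ^ f + y ^ l ^ f) ^ l) +
        ((x ^ l ^ f + y ^ l ^ f) ^ l - ((x ^ l ^ f) ^ l + (y ^ l ^ f) ^ l)) := by
      rw [pow_succ l f, pow_mul, pow_mul, pow_mul]
      ring
    rw [e]
    exact V.valuation.map_add_lt h3 h4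

/-- Chunk F1 (M). COPY the proof of H55K.frob_diff (Lib/H55K/G7C.lean); the only use of (Nm β).Prime there is g7c_add and Nm β ≠ 0, Odd (Nm β): replace by f1_add and l odd (l ≠ 2: V 2 = 1 by hV.two, V l < 1). -/
theorem frob_diff2 (h : CMA F A B Om j act) (hV : GV A B V) {β : 𝓞 F} (hβ : Prime β)
    (hv : V.valuation (ak Ω β) < 1) {l f : ℕ} (hl : l.Prime) (hlV : V.valuation (l : Ω) < 1) (hf : 0 < f) (hq : Nm β = l ^ f) :
    ∃ κ : Ω, V.valuation κ = 1 ∧ ∀ X Y : Pt (WAB A B) Ω, ¬ Ker V X → ¬ Ker V Y →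
      V.valuation (κ * (xc (act β X) - xc (act β Y)) - (xc X ^ Nm β - xc Y ^ Nm β)) < 1 := by
  classical
  have hβ0 : β ≠ 0 := hβ.ne_zero
  obtain ⟨S, hS, hcard⟩ := exists_TN h hβ0
  have hl2 : l ≠ 2 := by
    intro h2
    rw [h2, Nat.cast_ofNat, hV.two] at hlV
    exact lt_irrefl _ hlV
  have hodd : Odd (Nm β) := by
    rw [hq]
    exact (hl.odd_of_ne_two hl2).pow
  have hR1 : ∀ R ∈ S, R ≠ 0 ∧ Ker V R ∧ 1 < V.valuation (xc R) := by
    intro R hR
    obtain ⟨h1, h2⟩ := (hS R).1 hR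
    have h3 : Ker V R := tor_ker h hV hβ hv h1
    exact ⟨h2, h3, (ker_iff V h2).1 h3⟩
  have hxR : ∀ R ∈ S, xc R ≠ 0 := by
    intro R hR h0
    have := (hR1 R hR).2.2
    rw [h0, map_zero] at this
    exact absurd this (not_lt.2 zero_le_one)
  have hred : ∀ X : Pt (WAB A B) Ω, ¬ Ker V X → ¬ Ker V (act β X) := fun X hX hX' =>
    hX (ker_red h hV hβ hv hX')
  refine ⟨ak Ω β ^ 2 * ∏ R ∈ S, xc R, ?_, ?_⟩
  · rw [map_mul, map_pow, map_prod]
    exact prod_xR h hV hβ hv hS
  · intro X Y hX hY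
    have hκ : V.valuation (ak Ω β ^ 2 * ∏ R ∈ S, xc R) = 1 := by
      rw [map_mul, map_pow, map_prod]
      exact prod_xR h hV hβ hv hS
    obtain ⟨hX0, hX1⟩ := not_ker V hX
    obtain ⟨hY0, hY1⟩ := not_ker V hY
    obtain ⟨hbX0, hbX1⟩ := not_ker V (hred X hX)
    obtain ⟨hbY0, hbY1⟩ := not_ker V (hred Y hY)
    have he2 := h.e2 β S hβ0 hS X Y hbX0 hbY0
    have hu : V.valuation (∏ R ∈ S, (1 - xc Y / xc R) - ∏ R ∈ S, (1 : Ω)) < 1 := by
      have hlt : ∀ R ∈ S, V.valuation (xc Y / xc R) < 1 := by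
        intro R hR
        rw [map_div₀]
        have h1 := (hR1 R hR).2.2
        exact (div_lt_one₀ (zero_lt_one.trans h1)).2 (hY1.trans_lt h1)
      refine g7c_prod V S _ _ (fun R hR => ?_) (fun R hR => (map_one _).le) (fun R hR => ?_)
      · refine (V.valuation.map_sub _ _).trans (max_le (map_one _).le (hlt R hR).le)
      · have h1 : 1 - xc Y / xc R - 1 = -(xc Y / xc R) := by ring
        rw [h1, Valuation.map_neg]
        exact hlt R hR
    rw [Finset.prod_const_one] at hu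
    have hP : V.valuation (∏ R ∈ S, (xc (X + R) - xc Y) - ∏ R ∈ S, (xc X - xc Y)) < 1 := by
      have hc : ∀ R ∈ S, ¬ Ker V (X + R) ∧ V.valuation (xc (X + R) - xc X) < 1 := by
        intro R hR
        have h1 : Ker V (X + R - X) := by
          rw [add_sub_cancel_left]
          exact (hR1 R hR).2.1
        obtain ⟨h2, h3, _⟩ := cls_conv hV hX h1
        exact ⟨h2, h3⟩
      refine g7c_prod V S _ _ (fun R hR => ?_) (fun R hR => ?_) (fun R hR => ?_)
      · exact (V.valuation.map_sub _ _).trans (max_le (not_ker V (hc R hR).1).2 hY1)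
      · exact (V.valuation.map_sub _ _).trans (max_le hX1 hY1)
      · have h1 : xc (X + R) - xc Y - (xc X - xc Y) = xc (X + R) - xc X := by ring
        rw [h1]
        exact (hc R hR).2
    rw [Finset.prod_const, hcard] at hP
    have hprod : ∏ R ∈ S, (xc R - xc Y) = (∏ R ∈ S, xc R) * ∏ R ∈ S, (1 - xc Y / xc R) := by
      rw [← Finset.prod_mul_distrib]
      refine Finset.prod_congr rfl fun R hR => ?_
      have := hxR R hR
      field_simp
    rw [hprod] at he2
    have hqpos : 1 ≤ Nm β := by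
      rw [hq]
      exact Nat.one_le_pow _ _ hl.pos
    have hpow : (xc X - xc Y) * (xc X - xc Y) ^ (Nm β - 1) = (xc X - xc Y) ^ Nm β := by
      rw [← pow_succ', Nat.sub_add_cancel hqpos]
    have hsub : V.valuation ((xc X - xc Y) ^ Nm β - (xc X ^ Nm β - xc Y ^ Nm β)) < 1 := by
      have h1 := f1_add V hl hlV f hX1 (y := -xc Y) (by rw [Valuation.map_neg]; exact hY1)
      rw [← hq] at h1
      rw [hodd.neg_pow] at h1
      have h2 : (xc X - xc Y) ^ Nm β - (xc X ^ Nm β - xc Y ^ Nm β) =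
          (xc X + -xc Y) ^ Nm β - (xc X ^ Nm β + -xc Y ^ Nm β) := by ring
      rw [h2]
      exact h1
    have hD : V.valuation (xc (act β X) - xc (act β Y)) ≤ 1 :=
      (V.valuation.map_sub _ _).trans (max_le hbX1 hbY1)
    have hxy : V.valuation (xc X - xc Y) ≤ 1 := (V.valuation.map_sub _ _).trans (max_le hX1 hY1)
    set κ := ak Ω β ^ 2 * ∏ R ∈ S, xc R with hκdef
    set u := ∏ R ∈ S, (1 - xc Y / xc R) with hudef
    set p := ∏ R ∈ S, (xc (X + R) - xc Y) with hpdef
    have hfin : κ * (xc (act β X) - xc (act β Y)) - (xc X ^ Nm β - xc Y ^ Nm β) =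
        (xc X - xc Y) * (p - (xc X - xc Y) ^ (Nm β - 1)) - κ * (xc (act β X) - xc (act β Y)) * (u - 1) +
        ((xc X - xc Y) ^ Nm β - (xc X ^ Nm β - xc Y ^ Nm β)) := by
      rw [← hpow]
      have : κ * (xc (act β X) - xc (act β Y)) * u = (xc X - xc Y) * p := by
        rw [← he2, hκdef]
        ring
      linear_combination this
    rw [hfin]
    refine V.valuation.map_add_lt (V.valuation.map_sub_lt ?_ ?_) hsub
    · exact g7c_mul V hxy hP
    · refine g7c_mul V ?_ hu
      rw [map_mul, hκ, one_mul]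
      exact hD

end H16S
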