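import Mathlib
import Pool.Agent.Lib.H16S.A2D
import Pool.Agent.Lib.H16S.B2
import Pool.Agent.Lib.H16S.FD

/-! # H16S, chunk F9 (M): the generic point of the formal group -/

open WeierstrassCurve PowerSeries

namespace H16S

open H35P (WAB Ker tt)
open H55K (xc yc)

variable {k : Type} [Field k] {K : Type} [Field K] [DecidableEq K] [Algebra k⟦X⟧ K] [IsFractionRing k⟦X⟧ K]

omit [DecidableEq K] in
theorem f9_ne {U : k⟦X⟧} (h : U ≠ 0) : algebraMap k⟦X⟧ K U ≠ 0 := by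
  intro h0
  rw [← map_zero (algebraMap k⟦X⟧ K)] at h0
  exact h (IsFractionRing.injective k⟦X⟧ K h0)

omit [DecidableEq K] in
theorem f9_Une {U U' : k⟦X⟧} (h : U = X ^ 3 * U') (h' : constantCoeff U' = 1) : U ≠ 0 := by
  rw [h]
  refine mul_ne_zero (pow_ne_zero _ X_ne_zero) ?_
  intro h0
  rw [h0, map_zero] at h'
  exact zero_ne_one h'

/-- Chunk F9 (M). K is the field of fractions of k⟦X⟧, c the composite k → k⟦X⟧ → K, U = the series W. The point with the coordinates x = X/U, y = 1/U: t = X, w = U. PROOF. H55K.exists_pt (Δ ≠ 0 in K); U ≠ 0 (B1: W_cube). -/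
theorem gen_pt {a b : k} {U : k⟦X⟧} (h : IsW a b U) (hΔ : (WR a b).Δ ≠ 0) :
    ∃ P : (WR (algebraMap k⟦X⟧ K (C a)) (algebraMap k⟦X⟧ K (C b))).toAffine.Point, P ≠ 0 ∧ Ch P ∧
      tt P = algebraMap k⟦X⟧ K X ∧ ww P = algebraMap k⟦X⟧ K U := by
  obtain ⟨U', hU, hU'⟩ := W_cube h
  have hu : algebraMap k⟦X⟧ K U ≠ 0 := f9_ne (f9_Une hU hU')
  have hΔ' : (WR (algebraMap k⟦X⟧ K (C a)) (algebraMap k⟦X⟧ K (C b))).Δ ≠ 0 := by
    have h1 := WR_map ((algebraMap k⟦X⟧ K).comp (C (R := k))) a b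
    rw [RingHom.comp_apply, RingHom.comp_apply] at h1
    rw [← h1, WeierstrassCurve.map_Δ]
    exact (map_ne_zero _).2 hΔ
  set φ := algebraMap k⟦X⟧ K with hφ
  have hE : φ U = φ X ^ 3 + φ (C a) * φ X * φ U ^ 2 + φ (C b) * φ U ^ 3 := by
    have h1 := congrArg φ h.2
    simpa only [map_add, map_mul, map_pow] using h1
  obtain ⟨P, hP, hx, hy⟩ := H55K.exists_pt (W := WR (φ (C a)) (φ (C b))) hΔ'
    (x := φ X / φ U) (y := (φ U)⁻¹) (by
      show (φ U)⁻¹ ^ 2 = (φ X / φ U) ^ 3 + φ (C a) * (φ X / φ U) + φ (C b)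
      field_simp
      linear_combination hE)
  refine ⟨P, hP, Or.inr (by rw [hy]; exact inv_ne_zero hu), ?_, ?_⟩
  · rw [H55K.tt_eq, hx, hy]
    field_simp
  · unfold ww
    rw [hy, inv_inv]

/-- Chunk F9 (M). The multiples: induction on n with add_tw; d1, d2 of the series are units of k⟦X⟧ (unit_d), so their images are not 0; map_add' for algebraMap. -/
theorem gen_mul (h2 : (2 : k) ≠ 0) {a b : k} {U : k⟦X⟧} (h : IsW a b U)
    {P : (WR (algebraMap k⟦X⟧ K (C a)) (algebraMap k⟦X⟧ K (C b))).toAffine.Point} (c : Ch P)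
    (ht : tt P = algebraMap k⟦X⟧ K X) (hw : ww P = algebraMap k⟦X⟧ K U) (n : ℕ) : Ch (n • P) ∧
      tt (n • P) = algebraMap k⟦X⟧ K (TW a b U n).1 ∧ ww (n • P) = algebraMap k⟦X⟧ K (TW a b U n).2 := by
  have h2K : (2 : K) ≠ 0 := by
    have h3 : (2 : K) = ((algebraMap k⟦X⟧ K).comp (C (R := k))) 2 := by rw [map_ofNat]
    rw [h3]
    exact (map_ne_zero _).2 h2
  induction n with
  | zero =>
    rw [zero_nsmul]
    refine ⟨Or.inl rfl, ?_, ?_⟩
    · show (0 : K) = algebraMap k⟦X⟧ K 0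
      rw [map_zero]
    · show (0 : K)⁻¹ = algebraMap k⟦X⟧ K 0
      rw [map_zero, inv_zero]
  | succ n ih =>
    obtain ⟨ic, it, iw⟩ := ih
    obtain ⟨u1, u2⟩ := b2_unit h n
    have hm := map_add' (algebraMap k⟦X⟧ K) u1 u2
    have hl := map_lam (algebraMap k⟦X⟧ K) u1
    have e1 : d1 (algebraMap k⟦X⟧ K (C a)) (algebraMap k⟦X⟧ K (C b)) (tt (n • P)) (ww (n • P)) (tt P) (ww P) ≠ 0 := by
      rw [it, iw, ht, hw]
      have h3 := f9_ne (K := K) u1.ne_zero
      have h4 : algebraMap k⟦X⟧ K (d1 (C a) (C b) (TW a b U n).1 (TW a b U n).2 X U) =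
          d1 (algebraMap k⟦X⟧ K (C a)) (algebraMap k⟦X⟧ K (C b)) (algebraMap k⟦X⟧ K (TW a b U n).1)
            (algebraMap k⟦X⟧ K (TW a b U n).2) (algebraMap k⟦X⟧ K X) (algebraMap k⟦X⟧ K U) := by
        unfold d1
        simp only [map_add, map_sub, map_mul, map_pow, map_one]
      rw [← h4]
      exact h3
    have e2 : d2 (algebraMap k⟦X⟧ K (C a)) (algebraMap k⟦X⟧ K (C b)) (tt (n • P)) (ww (n • P)) (tt P) (ww P) ≠ 0 := by
      rw [it, iw, ht, hw]
      have h3 := f9_ne (K := K) u2.ne_zero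
      have h4 : algebraMap k⟦X⟧ K (d2 (C a) (C b) (TW a b U n).1 (TW a b U n).2 X U) =
          d2 (algebraMap k⟦X⟧ K (C a)) (algebraMap k⟦X⟧ K (C b)) (algebraMap k⟦X⟧ K (TW a b U n).1)
            (algebraMap k⟦X⟧ K (TW a b U n).2) (algebraMap k⟦X⟧ K X) (algebraMap k⟦X⟧ K U) := by
        unfold d2
        rw [← hl]
        simp only [map_add, map_mul, map_pow, map_one]
      rw [← h4]
      exact h3
    obtain ⟨r1, r2, r3⟩ := add_tw h2K ic c e1 e2
    rw [succ_nsmul]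
    refine ⟨r1, ?_, ?_⟩
    · rw [r2, it, iw, ht, hw]
      exact hm.1.symm
    · rw [r3, it, iw, ht, hw]
      exact hm.2.symm

/-- Chunk F9 (S/M). A nonzero polynomial over k does not vanish at x(P) = X/U, U = X^3 (unit). PROOF. Multiply f(X/U) = 0 by U^d, d = degree f, leading coefficient c: sum of c_i X^i U^(d-i) = 0 in k⟦X⟧, X^i U^(d-i) is divisible by X^(3d - 2i), so modulo X^(d+1): c_d X^d = 0 (all other terms have 3d - 2i ≥ d + 2). -/
theorem gen_tr {U U' : k⟦X⟧} (h : U = X ^ 3 * U') (h' : constantCoeff U' = 1) {f : Polynomial k} (hf : f ≠ 0) :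
    (f.map ((algebraMap k⟦X⟧ K).comp (C (R := k)))).eval (algebraMap k⟦X⟧ K X / algebraMap k⟦X⟧ K U) ≠ 0 := by
  have hu : algebraMap k⟦X⟧ K U ≠ 0 := f9_ne (f9_Une h h')
  intro h0
  rw [Polynomial.eval_map, Polynomial.eval₂_eq_sum_range] at h0
  set φ := algebraMap k⟦X⟧ K with hφ
  set d := f.natDegree with hd
  have h1 : φ (∑ i ∈ Finset.range (d + 1), C (f.coeff i) * X ^ i * U ^ (d - i)) = 0 := by
    have h2 : φ (∑ i ∈ Finset.range (d + 1), C (f.coeff i) * X ^ i * U ^ (d - i)) =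
        (∑ i ∈ Finset.range (d + 1), (φ.comp (C (R := k))) (f.coeff i) * (φ X / φ U) ^ i) * φ U ^ d := by
      rw [map_sum, Finset.sum_mul]
      refine Finset.sum_congr rfl fun i hi => ?_
      have hid : i ≤ d := Nat.lt_succ_iff.1 (Finset.mem_range.1 hi)
      rw [map_mul, map_mul, map_pow, map_pow, RingHom.comp_apply, div_pow]
      have h3 : φ U ^ d = φ U ^ i * φ U ^ (d - i) := by
        rw [← pow_add, Nat.add_sub_cancel' hid]
      rw [h3]
      have h4 : φ U ^ i ≠ 0 := pow_ne_zero _ hu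
      field_simp
    rw [h2, h0, zero_mul]
  have h2 : (∑ i ∈ Finset.range (d + 1), C (f.coeff i) * X ^ i * U ^ (d - i) : k⟦X⟧) = 0 := by
    apply IsFractionRing.injective k⟦X⟧ K
    rw [map_zero]
    exact h1
  have h3 := congrArg (coeff d) h2
  rw [map_sum, map_zero, Finset.sum_range_succ, Finset.sum_eq_zero, zero_add, Nat.sub_self,
    pow_zero, mul_one, coeff_C_mul, coeff_X_pow, if_pos rfl, mul_one] at h3
  · exact hf (Polynomial.leadingCoeff_eq_zero.1 h3)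
  · intro i hi
    have hid := Finset.mem_range.1 hi
    have hdvd : (X : k⟦X⟧) ^ (d + 1) ∣ C (f.coeff i) * X ^ i * U ^ (d - i) := by
      rw [h, mul_pow, ← pow_mul, ← mul_assoc, mul_assoc (C (f.coeff i)), ← pow_add]
      refine Dvd.dvd.mul_right (Dvd.dvd.mul_left (pow_dvd_pow _ ?_) _) _
      omega
    exact (X_pow_dvd_iff.1 hdvd) d (by omega)

end H16S
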