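import Mathlib
import Pool.Agent.Lib.H16C.D3
import Pool.Agent.Lib.H55K.E0

/-! # H16S, chunk G0: multiples of points by division polynomials -/

open WeierstrassCurve Polynomial

namespace H16S

open H35P (WAB Ker tt)
open H55K (xc yc)

variable {k : Type} [Field k] [DecidableEq k] {W : WeierstrassCurve k} [W.IsShortNF]

omit [DecidableEq k] in
/-- Chunk G0a (S). The coordinates of the library H16C agree with those of H55K (cases on P). -/
theorem xc_eq' (P : W.toAffine.Point) : H16C.xc P = xc P ∧ H16C.yc P = yc P := by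
  cases P with
  | zero => exact ⟨rfl, rfl⟩
  | some x y h => exact ⟨rfl, rfl⟩

/-- Chunk G0b (M). The x-coordinate of n P. PROOF. H16C.psi_main (N = n + 1, k = n) with H16C.psi_sq, psi_phi (Lib/H16C/D0.lean); compare H16C.xc_smul in T1.lean, whose proof needs only 2 ≠ 0. -/
theorem xc_mul (h2 : (2 : k) ≠ 0) {P : W.toAffine.Point} (n : ℕ) (hn : 0 < n) (hP : ∀ j : ℕ, 0 < j → j ≤ n → j • P ≠ 0) :
    (W.ΨSq n).eval (xc P) ≠ 0 ∧ xc (n • P) * (W.ΨSq n).eval (xc P) = (W.Φ n).eval (xc P) := by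
  haveI : (W.toAffine).IsShortNF := inferInstanceAs W.IsShortNF
  have h0 : P ≠ 0 := by
    have := hP 1 (by norm_num) hn
    rwa [one_nsmul] at this
  have hE := H16C.eqn (W := W.toAffine) h0
  obtain ⟨h3, h4⟩ := H16C.psi_main (W := W.toAffine) h2 h0 (n + 1) (fun j h1 h3 => hP j h1 (Nat.lt_succ_iff.mp h3)) n hn
    (Nat.lt_succ_self n)
  rw [← (xc_eq' P).1, ← (xc_eq' (n • P)).1]
  rw [← H16C.psi_sq W.toAffine hE, ← H16C.psi_phi W.toAffine hE]
  refine ⟨pow_ne_zero 2 h3, ?_⟩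
  linear_combination -h4

/-- Chunk G0d (S/M). A point of exact order n is a zero of ΨSq n: H16C.psi_order with H16C.psi_sq. -/
theorem psi_zero (h2 : (2 : k) ≠ 0) {P : W.toAffine.Point} (hP : P ≠ 0) (n : ℕ) (hn : 2 ≤ n)
    (h : ∀ j : ℕ, 0 < j → j < n → j • P ≠ 0) (h0 : n • P = 0) : (W.ΨSq n).eval (xc P) = 0 := by
  haveI : (W.toAffine).IsShortNF := inferInstanceAs W.IsShortNF
  have hE := H16C.eqn (W := W.toAffine) hP
  have h3 := H16C.psi_order (W := W.toAffine) h2 hP n hn h h0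
  rw [← (xc_eq' P).1, ← H16C.psi_sq W.toAffine hE, h3]
  ring

end H16S
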