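import Mathlib
import Pool.Agent.Lib.H16C.D3
import Pool.Agent.Lib.H55K.E0
import Pool.Agent.Lib.H16S.G0

/-! # H16S, chunk G0C: multiples of points by division polynomials -/

open WeierstrassCurve Polynomial

namespace H16S

open H35P (WAB Ker tt)
open H55K (xc yc)

variable {k : Type} [Field k] [DecidableEq k] {W : WeierstrassCurve k} [W.IsShortNF]

/-- Chunk G0c (M). The y-coordinate of n P for odd n ≥ 3. PROOF. x = xc P, y = yc P ≠ 0 (2 P ≠ 0), g j = H16C.psi W x y j, X j = xc (j P). xc P ≠ X n (H16C.xc_ne or psi_main: X₁ - X n = g (n+1) g (n-1)/g n², g j ≠ 0 for 0 < j ≤ n + 1).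
H16C.xc_sub_sub_add for P' = n P and Q' = P: (X n - X 1)² (X (n-1) - X (n+1)) = 4 y (yc (n P)) (up to the sign of P' - Q' = (n-1) P, P' + Q' = (n+1) P), and X (n-1) - X (n+1) = (X 1 - X (n+1)) - (X 1 - X (n-1)) = g(n+2) g n/g(n+1)² - g n g(n-2)/g(n-1)². So
4 y yc(nP) g n³ = g(n+2) g(n-1)² - g(n-2) g(n+1)². Now n odd: g j = (preΨ j)(x) for j odd, g j = 2 y (preΨ j)(x) for j even (unfold H16C.psi, normEDS, H16C.D0_pre): divide by 4 y² . -/
theorem yc_mul (h2 : (2 : k) ≠ 0) {P : W.toAffine.Point} (n : ℕ) (hn : 3 ≤ n) (ho : Odd n)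
    (hP : ∀ j : ℕ, 0 < j → j ≤ n + 2 → j • P ≠ 0) :
    yc (n • P) * (W.preΨ n).eval (xc P) ^ 3 = yc P *
      ((W.preΨ (n + 2)).eval (xc P) * (W.preΨ (n - 1)).eval (xc P) ^ 2 -
        (W.preΨ (n - 2)).eval (xc P) * (W.preΨ (n + 1)).eval (xc P) ^ 2) := by
  haveI : (W.toAffine).IsShortNF := inferInstanceAs W.IsShortNF
  have h0 : P ≠ 0 := by
    have := hP 1 (by norm_num) (by omega)
    rwa [one_nsmul] at this
  have hnP : n • P ≠ 0 := hP n (by omega) (by omega)
  have hE := H16C.eqn (W := W.toAffine) h0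
  have hy : H16C.yc P ≠ 0 := by
    intro h
    exact hP 2 (by norm_num) (by omega) ((H16C.two_smul_eq_zero_iff h2 h0).mpr h)
  have hmain := fun (j : ℕ) (hj : 0 < j) (hjn : j < n + 3) =>
    H16C.psi_main (W := W.toAffine) h2 h0 (n + 3) (fun i h1 h3 => hP i h1 (by omega)) j hj hjn
  rw [← (xc_eq' P).1, ← (xc_eq' P).2, ← (xc_eq' (n • P)).2]
  have hne : Even ((n : ℤ) + 1) := by
    rcases ho with ⟨m, hm⟩
    exact ⟨m + 1, by rw [hm]; push_cast; ring⟩
  have hne' : Even ((n : ℤ) - 1) := by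
    rcases ho with ⟨m, hm⟩
    exact ⟨m, by rw [hm]; push_cast; ring⟩
  have hno : ¬ Even (n : ℤ) := by
    intro h
    rw [Int.even_add_one] at hne
    exact hne h
  have hno2 : ¬ Even ((n : ℤ) + 2) := by
    intro h
    apply hno
    have := h.sub (even_two (α := ℤ))
    simpa using this
  have hno2' : ¬ Even ((n : ℤ) - 2) := by
    intro h
    apply hno
    have := h.add (even_two (α := ℤ))
    simpa using this
  have gn : H16C.psi W.toAffine (H16C.xc P) (H16C.yc P) n = (W.preΨ n).eval (H16C.xc P) := by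
    rw [H16C.psi, normEDS, H16C.D0_pre W.toAffine hE, if_neg hno, mul_one]
  have gn2 : H16C.psi W.toAffine (H16C.xc P) (H16C.yc P) (n + 2) = (W.preΨ (n + 2)).eval (H16C.xc P) := by
    rw [H16C.psi, normEDS, H16C.D0_pre W.toAffine hE, if_neg hno2, mul_one]
  have gn2' : H16C.psi W.toAffine (H16C.xc P) (H16C.yc P) (n - 2) = (W.preΨ (n - 2)).eval (H16C.xc P) := by
    rw [H16C.psi, normEDS, H16C.D0_pre W.toAffine hE, if_neg hno2', mul_one]
  have gn1 : H16C.psi W.toAffine (H16C.xc P) (H16C.yc P) (n + 1) =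
      (W.preΨ (n + 1)).eval (H16C.xc P) * (2 * H16C.yc P) := by
    rw [H16C.psi, normEDS, H16C.D0_pre W.toAffine hE, if_pos hne]
  have gn1' : H16C.psi W.toAffine (H16C.xc P) (H16C.yc P) (n - 1) =
      (W.preΨ (n - 1)).eval (H16C.xc P) * (2 * H16C.yc P) := by
    rw [H16C.psi, normEDS, H16C.D0_pre W.toAffine hE, if_pos hne']
  obtain ⟨a1, a2⟩ := hmain n (by omega) (by omega)
  obtain ⟨b1, b2⟩ := hmain (n + 1) (by omega) (by omega)
  obtain ⟨c1, c2⟩ := hmain (n - 1) (by omega) (by omega)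
  have e1 : (((n + 1 : ℕ) : ℤ) + 1) = (n : ℤ) + 2 := by push_cast; ring
  have e2 : (((n + 1 : ℕ) : ℤ) - 1) = (n : ℤ) := by push_cast; ring
  have e3 : (((n - 1 : ℕ) : ℤ) + 1) = (n : ℤ) := by omega
  have e4 : (((n - 1 : ℕ) : ℤ) - 1) = (n : ℤ) - 2 := by omega
  have e5 : ((n + 1 : ℕ) : ℤ) = (n : ℤ) + 1 := by push_cast; ring
  have e6 : ((n - 1 : ℕ) : ℤ) = (n : ℤ) - 1 := by omega
  rw [e1, e2, e5] at b2
  rw [e5] at b1
  rw [e3, e4, e6] at c2
  rw [e6] at c1
  have hxne : H16C.xc (n • P) ≠ H16C.xc P := by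
    intro h
    have h' : H16C.xc P - H16C.xc (n • P) = 0 := by rw [h, sub_self]
    rw [h', mul_zero] at a2
    exact mul_ne_zero b1 c1 a2.symm
  have hadd := H16C.xc_sub_sub_add (W := W.toAffine) hnP h0 hxne
  have hs : n • P - P = (n - 1) • P := by
    have : n • P = (n - 1) • P + P := by
      rw [← succ_nsmul, Nat.sub_add_cancel (by omega : 1 ≤ n)]
    rw [this, add_sub_cancel_right]
  have hs' : n • P + P = (n + 1) • P := (succ_nsmul P n).symm
  rw [hs, hs'] at hadd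
  have key : 4 * H16C.yc P * (H16C.yc (n • P)) * H16C.psi W.toAffine (H16C.xc P) (H16C.yc P) n ^ 3 =
      H16C.psi W.toAffine (H16C.xc P) (H16C.yc P) (n + 2) *
        H16C.psi W.toAffine (H16C.xc P) (H16C.yc P) (n - 1) ^ 2 -
      H16C.psi W.toAffine (H16C.xc P) (H16C.yc P) (n - 2) *
        H16C.psi W.toAffine (H16C.xc P) (H16C.yc P) (n + 1) ^ 2 := by
    apply mul_left_cancel₀ a1
    generalize H16C.psi W.toAffine (H16C.xc P) (H16C.yc P) (n + 2) = u2 at *
    generalize H16C.psi W.toAffine (H16C.xc P) (H16C.yc P) (n - 2) = v2 at *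
    generalize H16C.psi W.toAffine (H16C.xc P) (H16C.yc P) (n + 1) = u1 at *
    generalize H16C.psi W.toAffine (H16C.xc P) (H16C.yc P) (n - 1) = v1 at *
    generalize H16C.psi W.toAffine (H16C.xc P) (H16C.yc P) n = g at *
    generalize H16C.xc (n • P) = X at *
    generalize H16C.xc ((n + 1) • P) = Xp at *
    generalize H16C.xc ((n - 1) • P) = Xm at *
    generalize H16C.yc (n • P) = Y at *
    generalize H16C.xc P = X1 at *
    generalize H16C.yc P = y at *
    linear_combination (-g ^ 4) * hadd + (Xm - Xp) * (g ^ 2 * (X1 - X) + u1 * v1) * a2 + v1 ^ 2 * b2 - u1 ^ 2 * c2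
  rw [gn, gn2, gn2', gn1, gn1'] at key
  have h4 : (4 : k) ≠ 0 := by
    have : (4 : k) = 2 * 2 := by norm_num
    rw [this]
    exact mul_ne_zero h2 h2
  apply mul_left_cancel₀ (mul_ne_zero h4 hy)
  linear_combination key

end H16S
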