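import Mathlib
import Pool.Agent.Lib.H16S.F9
import Pool.Agent.Lib.H16S.G0
import Pool.Agent.Lib.H16S.G0C

/-! # H16S, chunk F10 (M): the p-th series is -X^(p^2) -/

open WeierstrassCurve

namespace H16S

open H35P (WAB Ker tt)
open H55K (xc yc)

/-- Chunk F10 (M). Input: the polynomial identities of F8 over a field k. PROOF. K = FractionRing k⟦X⟧, P = gen_pt, W = the curve over K, x = xc P = X/U, y = yc P = 1/U, y² = x³ + a x + b. (1) i P ≠ 0 for 0 < i ≤ p + 2: otherwise take i minimal, i ≥ 2, psi_zero: ΨSq_i(x) = 0, but ΨSq_i over k is not the zero polynomial: its coefficient of degree i² - 1 is i² ≠ 0 if p does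
not divide i (coeff_ΨSq), and ΨSq_p = 1: gen_tr (ΨSq over K is the image: map_ΨSq, WR_map). (2) xc_mul (n = p): xc (pP) = x^(p²). yc_mul: yc (pP) ψ³ = y N(x) = - y (y²)^((p²-1)/2) ψ³, ψ = preΨ_p(x), ψ² = 1: yc (pP) = - y^(p²). So tt (pP) = - (x/y)^(p²) = -X^(p²) in K, and gen_mul; the map k⟦X⟧ → K is injective. -/
theorem f10 {k : Type} [Field k] {p : ℕ} (hp : p.Prime) (h5 : 5 ≤ p) (hchar : (p : k) = 0) {a b : k} (hΔ : (WR a b).Δ ≠ 0)
    (h1 : (WR a b).ΨSq p = 1) (h2 : (WR a b).Φ p = Polynomial.X ^ (p ^ 2)) (h3 : (WR a b).preΨ p ^ 2 = 1)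
    (h4 : (WR a b).preΨ (p + 2) * (WR a b).preΨ (p - 1) ^ 2 - (WR a b).preΨ (p - 2) * (WR a b).preΨ (p + 1) ^ 2 =
      -((Polynomial.X ^ 3 + Polynomial.C a * Polynomial.X + Polynomial.C b) ^ ((p ^ 2 - 1) / 2) * (WR a b).preΨ p ^ 3))
    {U : PowerSeries k} (hU : IsW a b U) : (TW a b U p).1 = -(PowerSeries.X ^ (p ^ 2)) := by
  classical
  let K := FractionRing (PowerSeries k)
  let φ : k →+* K := (algebraMap (PowerSeries k) K).comp (PowerSeries.C (R := k))
  have hodd : Odd p := hp.odd_of_ne_two (by omega)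
  have two0 : (2 : k) ≠ 0 := by
    intro h
    obtain ⟨m, hm⟩ := hodd
    rw [hm] at hchar
    push_cast at hchar
    rw [h, zero_mul, zero_add] at hchar
    exact one_ne_zero hchar
  have h2K : (2 : K) ≠ 0 := by
    have h6 : φ 2 = (2 : K) := map_ofNat φ 2
    rw [← h6]
    exact (map_ne_zero φ).2 two0
  obtain ⟨P, hP0, hc, ht, hw⟩ := gen_pt (K := K) hU hΔ
  obtain ⟨U', hU', hU1⟩ := W_cube hU
  have hy : yc P ≠ 0 := hc.resolve_left hP0
  have hx : xc P = algebraMap (PowerSeries k) K PowerSeries.X / algebraMap (PowerSeries k) K U := by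
    rw [← ht, ← hw, H55K.tt_eq]
    unfold ww
    rw [div_inv_eq_mul, div_mul_cancel₀ _ hy]
  have hmap : WR (algebraMap (PowerSeries k) K (PowerSeries.C a)) (algebraMap (PowerSeries k) K (PowerSeries.C b)) =
      (WR a b).map φ := (WR_map φ a b).symm
  have hPsi : ∀ n : ℤ, (WR (algebraMap (PowerSeries k) K (PowerSeries.C a)) (algebraMap (PowerSeries k) K (PowerSeries.C b))).ΨSq n =
      ((WR a b).ΨSq n).map φ := by
    intro n
    rw [hmap, WeierstrassCurve.map_ΨSq]
  have hPhi : ∀ n : ℤ, (WR (algebraMap (PowerSeries k) K (PowerSeries.C a)) (algebraMap (PowerSeries k) K (PowerSeries.C b))).Φ n =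
      ((WR a b).Φ n).map φ := by
    intro n
    rw [hmap, WeierstrassCurve.map_Φ]
  have hpre : ∀ n : ℤ, (WR (algebraMap (PowerSeries k) K (PowerSeries.C a)) (algebraMap (PowerSeries k) K (PowerSeries.C b))).preΨ n =
      ((WR a b).preΨ n).map φ := by
    intro n
    rw [hmap, WeierstrassCurve.map_preΨ]
  have hne : ∀ j : ℕ, 0 < j → j ≤ p + 2 → j • P ≠ 0 := by
    intro j
    induction j using Nat.strong_induction_on with
    | _ j ih =>
      intro hj0 hj h0
      have hj1 : j ≠ 1 := by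
        rintro rfl
        rw [one_nsmul] at h0
        exact hP0 h0
      have h5' := psi_zero h2K hP0 j (by omega) (fun i hi0 hi => ih i hi hi0 (by omega)) h0
      rw [hPsi, hx] at h5'
      refine gen_tr hU' hU1 (f := (WR a b).ΨSq j) ?_ h5'
      intro h6
      by_cases hjp : j = p
      · rw [hjp, h1] at h6
        exact one_ne_zero h6
      · have h7 := WeierstrassCurve.coeff_ΨSq (W := WR a b) (j : ℤ)
        rw [h6, Polynomial.coeff_zero] at h7
        have h8 : (j : k) = 0 := by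
          have h9 : ((j : ℤ) : k) ^ 2 = 0 := h7.symm
          have h10 := pow_eq_zero_iff (two_ne_zero) |>.1 h9
          rwa [Int.cast_natCast] at h10
        have h9 : CharP k p := (CharP.charP_iff_prime_eq_zero hp).2 hchar
        have h10 := (CharP.cast_eq_zero_iff k p j).1 h8
        obtain ⟨m, hm⟩ := h10
        have hm2 : m < 2 := by
          by_contra hc2
          have : p * 2 ≤ p * m := Nat.mul_le_mul_left p (not_lt.1 hc2)
          omega
        interval_cases m
        · omega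
        · omega
  have hxc := xc_mul h2K (P := P) p hp.pos (fun j hj hj' => hne j hj (by omega))
  rw [hPsi, h1, hPhi, h2, Polynomial.map_one, Polynomial.eval_one, mul_one, Polynomial.map_pow, Polynomial.map_X,
    Polynomial.eval_pow, Polynomial.eval_X] at hxc
  have hyc := yc_mul h2K (P := P) p (by omega) hodd hne
  have hψ : (((WR a b).preΨ p).map φ).eval (xc P) ^ 2 = 1 := by
    rw [← Polynomial.eval_pow, ← Polynomial.map_pow, h3, Polynomial.map_one, Polynomial.eval_one]
  have hψ0 : (((WR a b).preΨ p).map φ).eval (xc P) ^ 3 ≠ 0 := by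
    refine pow_ne_zero 3 ?_
    intro h0
    rw [h0] at hψ
    norm_num at hψ
  have h4' := congrArg (fun f => (f.map φ).eval (xc P)) h4
  simp only [Polynomial.map_sub, Polynomial.map_mul, Polynomial.map_pow, Polynomial.map_neg, Polynomial.map_add, Polynomial.map_C,
    Polynomial.map_X, Polynomial.eval_sub, Polynomial.eval_mul, Polynomial.eval_pow, Polynomial.eval_neg, Polynomial.eval_add,
    Polynomial.eval_C, Polynomial.eval_X] at h4'
  rw [hpre, hpre, hpre, hpre, hpre, h4'] at hyc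
  have hE := H55K.eqn hP0
  have hE' : xc P ^ 3 + φ a * xc P + φ b = yc P ^ 2 := hE.symm
  rw [hE', ← pow_mul] at hyc
  have hpar : 2 * ((p ^ 2 - 1) / 2) = p ^ 2 - 1 := by
    obtain ⟨m, hm⟩ := hodd
    have h6 : p ^ 2 - 1 = 2 * (2 * m ^ 2 + 2 * m) := by
      rw [hm]
      have : (2 * m + 1) ^ 2 = 2 * (2 * m ^ 2 + 2 * m) + 1 := by ring
      omega
    rw [h6]
    omega
  have hyp : yc (p • P) = -(yc P ^ (p ^ 2)) := by
    have h6 : yc (p • P) * (((WR a b).preΨ p).map φ).eval (xc P) ^ 3 =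
        -(yc P ^ (p ^ 2)) * (((WR a b).preΨ p).map φ).eval (xc P) ^ 3 := by
      rw [hyc, hpar]
      have h7 : yc P ^ (p ^ 2) = yc P * yc P ^ (p ^ 2 - 1) := by
        rw [← pow_succ']
        congr 1
        have : 0 < p ^ 2 := pow_pos hp.pos 2
        omega
      rw [h7]
      ring
    exact mul_right_cancel₀ hψ0 h6
  have hgm := (gen_mul two0 hU hc ht hw p).2.1
  have hinj : Function.Injective (algebraMap (PowerSeries k) K) := IsFractionRing.injective _ _
  apply hinj
  rw [← hgm, H55K.tt_eq, hxc.2, hyp, map_neg, map_pow, ← ht, H55K.tt_eq, div_pow, div_neg]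

end H16S
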