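import Mathlib
import Pool.Agent.Lib.H16S.FD
import Pool.Agent.Lib.H16S.G0
import Pool.Agent.Lib.H16S.G0C
import Pool.Agent.Lib.H13S.FR

/-! # H16S, chunk F7 (M): the relation for the division polynomials at torsion points -/

open NumberField IsDedekindDomain WeierstrassCurve

namespace H16S

open H55P (IQ Pt ac Inert Dec Nm)
open H35P (WAB Ker tt)
open H55K

variable {F : Type} [Field F] [NumberField F] [IQ F] {A B : F} {Om : ℂ} {Ω : Type} [Field Ω] [DecidableEq Ω]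
  [Algebra F Ω] {j : Ω →+* ℂ} {act : 𝓞 F →+* AddMonoid.End (Pt (WAB A B) Ω)} {V : ValuationSubring Ω}

open Polynomial

theorem f7_ev {R S : Type} [CommRing R] [CommRing S] (φ : R →+* S) (q : R[X]) (r : R) :
    (q.map φ).eval (φ r) = φ (q.eval r) := by
  rw [eval_map, eval₂_at_apply]

omit [NumberField F] [IQ F] [DecidableEq Ω] in
/-- The values of the division polynomials over V, over Ω and over the residue field. -/
theorem f7_eval (hV : GV A B V) {z : Ω} (hz : z ∈ V) (a b x : IsLocalRing.ResidueField V)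
    (ha : a = IsLocalRing.residue V ⟨algebraMap F Ω A, hV.a⟩)
    (hb : b = IsLocalRing.residue V ⟨algebraMap F Ω B, hV.b⟩) (hxx : x = IsLocalRing.residue V ⟨z, hz⟩) (n : ℤ) :
    (∃ u : V, ((((WAB A B)⁄Ω).Φ n).eval z = (u : Ω)) ∧ ((WR a b).Φ n).eval x = IsLocalRing.residue V u) ∧
    (∃ u : V, ((((WAB A B)⁄Ω).ΨSq n).eval z = (u : Ω)) ∧ ((WR a b).ΨSq n).eval x = IsLocalRing.residue V u) ∧
    (∃ u : V, ((((WAB A B)⁄Ω).preΨ n).eval z = (u : Ω)) ∧ ((WR a b).preΨ n).eval x = IsLocalRing.residue V u) := by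
  have e1 : (WAB A B)⁄Ω = (WR (⟨algebraMap F Ω A, hV.a⟩ : V) ⟨algebraMap F Ω B, hV.b⟩).map V.subtype := by
    rw [WR_map, WAB_eq]
    rfl
  have e2 : WR a b = (WR (⟨algebraMap F Ω A, hV.a⟩ : V) ⟨algebraMap F Ω B, hV.b⟩).map (IsLocalRing.residue V) := by
    rw [WR_map, ← ha, ← hb]
  have e3 : z = V.subtype ⟨z, hz⟩ := rfl
  rw [e1, e2, hxx]
  refine ⟨⟨((WR (⟨algebraMap F Ω A, hV.a⟩ : V) ⟨algebraMap F Ω B, hV.b⟩).Φ n).eval ⟨z, hz⟩, ?_, ?_⟩,
    ⟨((WR (⟨algebraMap F Ω A, hV.a⟩ : V) ⟨algebraMap F Ω B, hV.b⟩).ΨSq n).eval ⟨z, hz⟩, ?_, ?_⟩,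
    ⟨((WR (⟨algebraMap F Ω A, hV.a⟩ : V) ⟨algebraMap F Ω B, hV.b⟩).preΨ n).eval ⟨z, hz⟩, ?_, ?_⟩⟩
  · rw [map_Φ]
    exact f7_ev V.subtype _ (⟨z, hz⟩ : V)
  · rw [map_Φ]
    exact f7_ev (IsLocalRing.residue V) _ _
  · rw [map_ΨSq]
    exact f7_ev V.subtype _ (⟨z, hz⟩ : V)
  · rw [map_ΨSq]
    exact f7_ev (IsLocalRing.residue V) _ _
  · rw [map_preΨ]
    exact f7_ev V.subtype _ (⟨z, hz⟩ : V)
  · rw [map_preΨ]
    exact f7_ev (IsLocalRing.residue V) _ _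

omit [DecidableEq Ω] in
/-- A Frobenius element at the inert prime p. -/
theorem f7_frob [IsAlgClosure F Ω] {p : ℕ} (hβ : Prime (p : 𝓞 F)) (hv : V.valuation (p : Ω) < 1) :
    ∃ s : Ω ≃ₐ[F] Ω, Dec V s ∧ ∀ x ∈ V, V.valuation (s x - x ^ (p ^ 2)) < 1 := by
  have hp0 : (p : 𝓞 F) ≠ 0 := hβ.ne_zero
  let v : HeightOneSpectrum (𝓞 F) := ⟨Ideal.span {(p : 𝓞 F)}, (Ideal.span_singleton_prime hp0).2 hβ, by
    rw [Ne, Ideal.span_singleton_eq_bot]
    exact hp0⟩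
  have hN : Ideal.absNorm v.asIdeal = p ^ 2 := by
    show Ideal.absNorm (Ideal.span {(p : 𝓞 F)}) = p ^ 2
    rw [Ideal.absNorm_span_natCast, RingOfIntegers.rank F, IQ.deg]
  have hvv : ∀ a : 𝓞 F, a ∈ v.asIdeal → V.valuation (algebraMap F Ω (a : F)) < 1 := by
    intro a ha
    obtain ⟨c, rfl⟩ := Ideal.mem_span_singleton'.1 ha
    have h1 : algebraMap F Ω ((c * (p : 𝓞 F) : 𝓞 F) : F) = (p : Ω) * ak Ω c := by
      simp [ak, mul_comm]
    rw [h1, map_mul]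
    exact mul_lt_one_of_lt_of_le hv (ak_le V c)
  obtain ⟨s, hs1, hs2⟩ := H13S.exists_frob v V hvv
  rw [hN] at hs2
  exact ⟨s, hs1, hs2⟩

/-- Chunk F7 (M). A point T of order prime to p with no small multiple equal to 0; a, b, x the residues of A, B, xc T in the residue field of V. PROOF. s a Frobenius element: H13S.exists_frob for v = (p), absNorm = p². s T + p T is in Ker V and killed by n (V n = 1), so p T = - s T (ker_tors): xc (pT) = s (xc T), yc (pT) = - s (yc T), congruent to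
x^(p²), -(y)^(p²). T is not in Ker V (ker_tors), so xc T, yc T are in V. xc_mul and yc_mul (n = p; over Ω: (WAB A B)⁄Ω = WR A B, WAB_eq) and reduce modulo V: (WR a b).Φ is the image of the polynomial over V (WR_map, map_Φ, map_ΨSq, map_preΨ, eval_map: the residue map is a ring homomorphism on V).
For y: y(pT) Ψ³ = y N gives -y^(p²) Ψ(x)³ = y N(x) modulo V, y^(p²-1) = (x³ + a x + b)^((p²-1)/2), and y ≠ 0 modulo V (2 T is not in Ker V, since 2 T ≠ 0 and ker_tors; if V(y) < 1 then T and -T are congruent: cls_xy). -/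
theorem f7 [IsAlgClosure F Ω] (h : CMA F A B Om j act) {p : ℕ} (hp : p.Prime) (h5 : 5 ≤ p) (hβ : Prime (p : 𝓞 F))
    (hS : Sup act p) (hV : GV A B V) (hv : V.valuation (p : Ω) < 1) {n : ℕ} (hn : V.valuation (n : Ω) = 1)
    {T : Pt (WAB A B) Ω} (hT : n • T = 0) (h0 : ∀ i : ℕ, 0 < i → i ≤ p + 2 → i • T ≠ 0) (hx : xc T ∈ V)
    (a b x : IsLocalRing.ResidueField V) (ha : a = IsLocalRing.residue V ⟨algebraMap F Ω A, hV.a⟩)
    (hb : b = IsLocalRing.residue V ⟨algebraMap F Ω B, hV.b⟩) (hxx : x = IsLocalRing.residue V ⟨xc T, hx⟩) :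
    ((WR a b).Φ p).eval x = x ^ (p ^ 2) * ((WR a b).ΨSq p).eval x ∧
    ((WR a b).preΨ (p + 2)).eval x * ((WR a b).preΨ (p - 1)).eval x ^ 2 -
        ((WR a b).preΨ (p - 2)).eval x * ((WR a b).preΨ (p + 1)).eval x ^ 2 =
      -((x ^ 3 + a * x + b) ^ ((p ^ 2 - 1) / 2) * ((WR a b).preΨ p).eval x ^ 3) := by
  have h2Ω : (2 : Ω) ≠ 0 := by
    intro h2
    have := hV.two
    rw [h2, map_zero] at this
    exact zero_ne_one this
  have hT0 : T ≠ 0 := by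
    have := h0 1 (by norm_num) (by omega)
    rwa [one_nsmul] at this
  have hTK : ¬ Ker V T := fun hk => hT0 (ker_tors hV n hn hT hk)
  have hyv := gv_y hV hTK
  have hy : yc T ∈ V := (V.valuation_le_one_iff _).1 hyv
  obtain ⟨s, hsD, hs⟩ := f7_frob (Ω := Ω) hβ hv
  -- the Frobenius element acts on T as - p
  have hfr : ac (WAB A B) s T + p • T = 0 := by
    refine ker_tors hV n hn ?_ (hS.fr V hv s hs T)
    rw [nsmul_add, nsmul_left_comm, hT, nsmul_zero, add_zero, ← map_nsmul, hT, map_zero]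
  have hpT : p • T = -ac (WAB A B) s T := (neg_eq_of_add_eq_zero_right hfr).symm
  have hxp : xc (p • T) = s (xc T) := by rw [hpT, xc_neg, xc_ac]
  have hyp : yc (p • T) = -s (yc T) := by rw [hpT, yc_neg, yc_ac]
  have hsx : s (xc T) ∈ V := (hsD _).2 hx
  have hsy : s (yc T) ∈ V := (hsD _).2 hy
  have rx : IsLocalRing.residue V ⟨s (xc T), hsx⟩ = x ^ (p ^ 2) := by
    rw [hxx, ← map_pow, ← sub_eq_zero, ← map_sub]
    exact (IsLocalRing.residue_eq_zero_iff _).2 ((V.valuation_lt_one_iff _).2 (hs _ hx))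
  have ry : IsLocalRing.residue V ⟨s (yc T), hsy⟩ = IsLocalRing.residue V ⟨yc T, hy⟩ ^ (p ^ 2) := by
    rw [← map_pow, ← sub_eq_zero, ← map_sub]
    exact (IsLocalRing.residue_eq_zero_iff _).2 ((V.valuation_lt_one_iff _).2 (hs _ hy))
  have hy0 : IsLocalRing.residue V ⟨yc T, hy⟩ ≠ 0 := by
    intro hz
    have hz1 : V.valuation (yc T) < 1 :=
      (V.valuation_lt_one_iff ⟨yc T, hy⟩).1 ((IsLocalRing.residue_eq_zero_iff _).1 hz)
    have hnT : ¬ Ker V (-T) := fun hk => hTK ((H35P.ker_neg T).1 hk)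
    have hk : Ker V (T - -T) := by
      refine cls_xy hV hTK hnT ?_ ?_
      · rw [xc_neg, sub_self, map_zero]
        exact zero_lt_one
      · rw [yc_neg, sub_neg_eq_add]
        exact V.valuation.map_add_lt hz1 hz1
    rw [sub_neg_eq_add, ← two_nsmul] at hk
    refine h0 2 (by norm_num) (by omega) (ker_tors hV n hn ?_ hk)
    rw [nsmul_left_comm, hT, nsmul_zero]
  have hyE : IsLocalRing.residue V ⟨yc T, hy⟩ ^ 2 = x ^ 3 + a * x + b := by
    rw [hxx, ha, hb, ← map_pow, ← map_pow, ← map_mul, ← map_add, ← map_add]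
    refine congrArg _ (Subtype.ext ?_)
    exact eqnA hT0
  constructor
  · obtain ⟨⟨u, hu1, hu2⟩, ⟨w, hw1, hw2⟩, -⟩ := f7_eval hV hx a b x ha hb hxx (p : ℤ)
    obtain ⟨-, h3⟩ := xc_mul (W := (WAB A B)⁄Ω) h2Ω (P := T) p hp.pos (fun i h1 h3 => h0 i h1 (by omega))
    rw [hxp, hu1, hw1] at h3
    have h4 : (⟨s (xc T), hsx⟩ : V) * w = u := Subtype.ext h3
    rw [hu2, hw2, ← rx, ← map_mul, h4]
  · have hodd : Odd p := hp.odd_of_ne_two (by omega)
    obtain ⟨-, -, ⟨u, hu1, hu2⟩⟩ := f7_eval hV hx a b x ha hb hxx (p : ℤ)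
    obtain ⟨-, -, ⟨u1, hu11, hu12⟩⟩ := f7_eval hV hx a b x ha hb hxx ((p : ℤ) + 1)
    obtain ⟨-, -, ⟨u2, hu21, hu22⟩⟩ := f7_eval hV hx a b x ha hb hxx ((p : ℤ) + 2)
    obtain ⟨-, -, ⟨v1, hv11, hv12⟩⟩ := f7_eval hV hx a b x ha hb hxx ((p : ℤ) - 1)
    obtain ⟨-, -, ⟨v2, hv21, hv22⟩⟩ := f7_eval hV hx a b x ha hb hxx ((p : ℤ) - 2)
    have h3 := yc_mul (W := (WAB A B)⁄Ω) h2Ω (P := T) p (by omega) hodd (fun i h1 h3 => h0 i h1 h3)
    rw [hyp, hu1, hu11, hu21, hv11, hv21] at h3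
    have h4 : -(⟨s (yc T), hsy⟩ : V) * u ^ 3 = ⟨yc T, hy⟩ * (u2 * v1 ^ 2 - v2 * u1 ^ 2) := Subtype.ext h3
    have h5 := congrArg (IsLocalRing.residue V) h4
    simp only [map_mul, map_neg, map_sub, map_pow] at h5
    rw [ry, ← hu2, ← hu12, ← hu22, ← hv12, ← hv22] at h5
    have hev : p ^ 2 - 1 = 2 * ((p ^ 2 - 1) / 2) := by
      obtain ⟨m, hm⟩ := hodd
      have : p ^ 2 - 1 = 2 * (2 * m ^ 2 + 2 * m) := by
        rw [hm]
        have : (2 * m + 1) ^ 2 = 2 * (2 * m ^ 2 + 2 * m) + 1 := by ring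
        omega
      omega
    have hpw : IsLocalRing.residue V ⟨yc T, hy⟩ ^ (p ^ 2) =
        IsLocalRing.residue V ⟨yc T, hy⟩ * (x ^ 3 + a * x + b) ^ ((p ^ 2 - 1) / 2) := by
      rw [← hyE, ← pow_mul, ← hev, ← pow_succ']
      congr 1
      have : 0 < p ^ 2 := pow_pos hp.pos 2
      omega
    rw [hpw] at h5
    apply mul_left_cancel₀ hy0
    linear_combination -h5

end H16S
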