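import Mathlib
import Pool.Agent.Lib.H16S.F7
import Pool.Agent.Lib.H55K.G1
import Pool.Agent.Lib.H55K.G4A

/-! # H16S, chunk F8 (M): the polynomial identities -/

open NumberField IsDedekindDomain WeierstrassCurve

namespace H16S

open H55P (IQ Pt ac Inert Dec Nm)
open H35P (WAB Ker tt)
open H55K

variable {F : Type} [Field F] [NumberField F] [IQ F] {A B : F} {Om : ℂ} {Ω : Type} [Field Ω] [DecidableEq Ω]
  [Algebra F Ω] {j : Ω →+* ℂ} {act : 𝓞 F →+* AddMonoid.End (Pt (WAB A B) Ω)} {V : ValuationSubring Ω}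

open Polynomial

omit [DecidableEq Ω] in
/-- Numbers prime to p have value 1. -/
theorem f8_val {p l : ℕ} (hv : V.valuation (p : Ω) < 1) (hc : Nat.Coprime l p) : V.valuation (l : Ω) = 1 := by
  have hint : ∀ z : ℤ, V.valuation (z : Ω) ≤ 1 := fun z =>
    (V.valuation_le_one_iff _).2 (intCast_mem V z)
  have hle : V.valuation (l : Ω) ≤ 1 := by
    have := hint (l : ℤ)
    rwa [Int.cast_natCast] at this
  refine le_antisymm hle ?_
  by_contra hcon
  have hlt : V.valuation (l : Ω) < 1 := not_le.1 hcon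
  have hb := Nat.gcd_eq_gcd_ab l p
  rw [hc] at hb
  have h1 : (1 : Ω) = (l : Ω) * (l.gcdA p : Ω) + (p : Ω) * (l.gcdB p : Ω) := by
    have h2 := congrArg (fun z : ℤ => (z : Ω)) hb
    simpa using h2
  have h3 : V.valuation ((l : Ω) * (l.gcdA p : Ω) + (p : Ω) * (l.gcdB p : Ω)) < 1 := by
    apply V.valuation.map_add_lt
    · rw [map_mul]
      exact mul_lt_one_of_lt_of_le hlt (hint _)
    · rw [map_mul]
      exact mul_lt_one_of_lt_of_le hv (hint _)
  rw [← h1, map_one] at h3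
  exact lt_irrefl _ h3

open Classical in
/-- The residue of the x-coordinate. -/
noncomputable def f8_res (V : ValuationSubring Ω) (T : Pt (WAB A B) Ω) : IsLocalRing.ResidueField V :=
  if h : xc T ∈ V then IsLocalRing.residue V ⟨xc T, h⟩ else 0

/-- The residues at which the relations of F7 hold. -/
def f8_set (A B : F) (V : ValuationSubring Ω) (p : ℕ) : Set (IsLocalRing.ResidueField V) :=
  {x | ∃ (T : Pt (WAB A B) Ω) (l : ℕ) (hx : xc T ∈ V), V.valuation (l : Ω) = 1 ∧ l • T = 0 ∧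
    (∀ i : ℕ, 0 < i → i ≤ p + 2 → i • T ≠ 0) ∧ x = IsLocalRing.residue V ⟨xc T, hx⟩}

theorem f8_inf (h : CMA F A B Om j act) {p : ℕ} (hp : p.Prime) (hV : GV A B V)
    (hv : V.valuation (p : Ω) < 1) : (f8_set A B V p).Infinite := by
  classical
  intro hfin
  obtain ⟨l, hl1, hl⟩ := Nat.exists_infinite_primes (p + 3 + 2 * hfin.toFinset.card + 1)
  have hlp : Nat.Coprime l p := (Nat.coprime_primes hl hp).2 (by omega)
  have hvl := f8_val (V := V) hv hlp
  have hl0 : (l : 𝓞 F) ≠ 0 := Nat.cast_ne_zero.2 hl.ne_zero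
  obtain ⟨S, hS, hSc⟩ := exists_TN h hl0
  have hN : Nm (l : 𝓞 F) = l ^ 2 := by
    show Ideal.absNorm (Ideal.span {(l : 𝓞 F)}) = l ^ 2
    rw [Ideal.absNorm_span_natCast, RingOfIntegers.rank F, IQ.deg]
  rw [hN] at hSc
  have hST : ∀ T ∈ S, l • T = 0 ∧ T ≠ 0 := by
    intro T hT
    obtain ⟨h1, h2⟩ := (hS T).1 hT
    refine ⟨?_, h2⟩
    rw [map_natCast] at h1
    exact h1
  have hK : ∀ T ∈ S, ¬ Ker V T := fun T hT hk =>
    (hST T hT).2 (ker_tors hV l hvl (hST T hT).1 hk)
  have hmem : ∀ T ∈ S, f8_res V T ∈ hfin.toFinset := by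
    intro T hT
    rw [Set.Finite.mem_toFinset]
    have hx : xc T ∈ V := (V.valuation_le_one_iff _).1 (not_ker V (hK T hT)).2
    refine ⟨T, l, hx, hvl, (hST T hT).1, ?_, ?_⟩
    · intro i hi1 hi2 hi3
      have hcop : Nat.Coprime i l :=
        ((Nat.Prime.coprime_iff_not_dvd hl).2
          (fun hd => absurd (Nat.le_of_dvd hi1 hd) (by omega))).symm
      apply (hST T hT).2
      have h5 : addOrderOf T ∣ i := addOrderOf_dvd_of_nsmul_eq_zero hi3
      have h6 : addOrderOf T ∣ l := addOrderOf_dvd_of_nsmul_eq_zero (hST T hT).1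
      have h7 : addOrderOf T ∣ 1 := by
        rw [← hcop]
        exact Nat.dvd_gcd h5 h6
      exact AddMonoid.addOrderOf_eq_one_iff.1 (Nat.dvd_one.1 h7)
    · unfold f8_res
      rw [dif_pos hx]
  have hfib : ∀ y ∈ S.image (f8_res V), (S.filter fun T => f8_res V T = y).card ≤ 2 := by
    intro y hy
    obtain ⟨T, hT, rfl⟩ := Finset.mem_image.1 hy
    refine (Finset.card_le_card (t := {T, -T}) ?_).trans Finset.card_le_two
    intro T' hT'
    rw [Finset.mem_filter] at hT'
    obtain ⟨hT'S, he⟩ := hT'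
    have hx : xc T ∈ V := (V.valuation_le_one_iff _).1 (not_ker V (hK T hT)).2
    have hx' : xc T' ∈ V := (V.valuation_le_one_iff _).1 (not_ker V (hK T' hT'S)).2
    unfold f8_res at he
    rw [dif_pos hx, dif_pos hx', ← sub_eq_zero, ← map_sub] at he
    have hlt : V.valuation (xc T' - xc T) < 1 :=
      (V.valuation_lt_one_iff (⟨xc T', hx'⟩ - ⟨xc T, hx⟩ : V)).1 ((IsLocalRing.residue_eq_zero_iff _).1 he)
    have h5 : Ker V (T' - T) ∨ Ker V (T' + T) := by
      by_contra hcon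
      push Not at hcon
      have h6 := cls_diff hV (hK T' hT'S) (hK T hT) hcon.1 hcon.2
      rw [h6] at hlt
      exact lt_irrefl _ hlt
    rw [Finset.mem_insert, Finset.mem_singleton]
    rcases h5 with h5 | h5
    · left
      refine sub_eq_zero.1 (ker_tors hV l hvl ?_ h5)
      rw [nsmul_sub, (hST T hT).1, (hST T' hT'S).1, sub_zero]
    · right
      refine eq_neg_of_add_eq_zero_left (ker_tors hV l hvl ?_ h5)
      rw [nsmul_add, (hST T hT).1, (hST T' hT'S).1, add_zero]
  have hcard := Finset.card_le_mul_card_image S 2 hfib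
  have hsub : S.image (f8_res V) ⊆ hfin.toFinset := by
    intro y hy
    obtain ⟨T, hT, rfl⟩ := Finset.mem_image.1 hy
    exact hmem T hT
  have hc2 := Finset.card_le_card hsub
  rw [hSc] at hcard
  have h8 : l ≤ l ^ 2 := Nat.le_self_pow (by norm_num) l
  omega

/-- Chunk F8 (M). PROOF. Two polynomials over the residue field of V which agree at infinitely many elements are equal (Polynomial.eq_of_infinite_eval_eq). Infinitely many residues xc T: for every prime number l > p + 2 (V l = 1: l is prime to p) the l² - 1 nonzero points T killed by l (h.gen / exists_TN: Nm l = l²) satisfy f7 (order l > p + 2), and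
V(xc T - xc T') = 1 unless T' = ± T (cls_diff, ker_tors: T - T', T + T' are killed by l): so at least (l² - 1)/2 different residues, l arbitrarily large. This gives Φ_p = X^(p²) ΨSq_p. Φ_p is monic of degree p² (natDegree_Φ, leadingCoeff_Φ), so ΨSq_p has degree 0 and is monic: ΨSq_p = 1, Φ_p = X^(p²). The second identity of f7 in the same way;
preΨ_p^2 = ΨSq_p = 1 for p odd (ΨSq definition). -/
theorem f8 [IsAlgClosure F Ω] (h : CMA F A B Om j act) {p : ℕ} (hp : p.Prime) (h5 : 5 ≤ p) (hβ : Prime (p : 𝓞 F))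
    (hS : Sup act p) (hV : GV A B V) (hv : V.valuation (p : Ω) < 1)
    (a b : IsLocalRing.ResidueField V) (ha : a = IsLocalRing.residue V ⟨algebraMap F Ω A, hV.a⟩)
    (hb : b = IsLocalRing.residue V ⟨algebraMap F Ω B, hV.b⟩) :
    (WR a b).ΨSq p = 1 ∧ (WR a b).Φ p = X ^ (p ^ 2) ∧ (WR a b).preΨ p ^ 2 = 1 ∧
    (WR a b).preΨ (p + 2) * (WR a b).preΨ (p - 1) ^ 2 - (WR a b).preΨ (p - 2) * (WR a b).preΨ (p + 1) ^ 2 =
      -((X ^ 3 + C a * X + C b) ^ ((p ^ 2 - 1) / 2) * (WR a b).preΨ p ^ 3) := by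
  have hinf := f8_inf h hp hV hv
  have e1 : (WR a b).Φ p = X ^ (p ^ 2) * (WR a b).ΨSq p := by
    refine Polynomial.eq_of_infinite_eval_eq _ _ (hinf.mono ?_)
    rintro x ⟨T, l, hx, hvl, hT, h0, hxx⟩
    have h7 := (f7 h hp h5 hβ hS hV hv hvl hT h0 hx a b x ha hb hxx).1
    show ((WR a b).Φ p).eval x = (X ^ (p ^ 2) * (WR a b).ΨSq p).eval x
    rw [eval_mul, eval_pow, eval_X]
    exact h7
  have e2 : (WR a b).preΨ (p + 2) * (WR a b).preΨ (p - 1) ^ 2 - (WR a b).preΨ (p - 2) * (WR a b).preΨ (p + 1) ^ 2 =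
      -((X ^ 3 + C a * X + C b) ^ ((p ^ 2 - 1) / 2) * (WR a b).preΨ p ^ 3) := by
    refine Polynomial.eq_of_infinite_eval_eq _ _ (hinf.mono ?_)
    rintro x ⟨T, l, hx, hvl, hT, h0, hxx⟩
    have h7 := (f7 h hp h5 hβ hS hV hv hvl hT h0 hx a b x ha hb hxx).2
    show Polynomial.eval x _ = Polynomial.eval x _
    simp only [eval_sub, eval_mul, eval_pow, eval_neg, eval_add, eval_X, eval_C]
    exact h7
  have hlead := (WR a b).leadingCoeff_Φ p
  have hdeg := (WR a b).natDegree_Φ p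
  rw [Int.natAbs_natCast] at hdeg
  have hne : (WR a b).ΨSq p ≠ 0 := by
    intro h0
    rw [e1, h0, mul_zero, leadingCoeff_zero] at hlead
    exact zero_ne_one hlead
  rw [e1, leadingCoeff_mul, leadingCoeff_X_pow, one_mul] at hlead
  rw [e1, natDegree_mul (pow_ne_zero _ X_ne_zero) hne, natDegree_X_pow] at hdeg
  have hdeg0 : ((WR a b).ΨSq p).natDegree = 0 := by omega
  have e3 : (WR a b).ΨSq p = 1 := by
    rw [eq_C_of_natDegree_eq_zero hdeg0]
    rw [leadingCoeff, hdeg0] at hlead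
    rw [hlead, C_1]
  refine ⟨e3, ?_, ?_, e2⟩
  · rw [e1, e3, mul_one]
  · have hodd : ¬ Even (p : ℤ) := by
      rw [Int.not_even_iff_odd]
      exact_mod_cast hp.odd_of_ne_two (by omega)
    have h9 := e3
    unfold WeierstrassCurve.ΨSq at h9
    rw [if_neg hodd, mul_one] at h9
    exact h9

end H16S
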