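import Mathlib
import Pool.Agent.Lib.H16S.F8
import Pool.Agent.Lib.H16S.F10
import Pool.Agent.Lib.H16S.B4
import Pool.Agent.Lib.H13S.IN4
import Pool.Agent.Lib.H55K.G7A

/-! # H16S, chunk F11 (M): the series f of multiplication by -p -/

open NumberField IsDedekindDomain WeierstrassCurve

namespace H16S

open H55P (IQ Pt ac Inert Dec Nm)
open H35P (WAB Ker tt)
open H55K

variable {F : Type} [Field F] [NumberField F] [IQ F] {A B : F} {Om : ℂ} {Ω : Type} [Field Ω] [DecidableEq Ω]
  [Algebra F Ω] {j : Ω →+* ℂ} {act : 𝓞 F →+* AddMonoid.End (Pt (WAB A B) Ω)} {V : ValuationSubring Ω}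

omit [NumberField F] [IQ F] [DecidableEq Ω] in
theorem f11_nat (n : ℕ) : ak Ω (n : 𝓞 F) = (n : Ω) := by
  unfold ak
  simp

omit [NumberField F] [IQ F] [DecidableEq Ω] in
theorem f11_mul (a b : 𝓞 F) : ak Ω (a * b) = ak Ω a * ak Ω b := by
  unfold ak
  simp

omit [NumberField F] [IQ F] [DecidableEq Ω] in
theorem f11_pow (a : 𝓞 F) (n : ℕ) : ak Ω (a ^ n) = ak Ω a ^ n := by
  unfold ak
  simp

/-- Chunk F11a (S/M). An element of F of value < 1 at V above the inert prime p has value at most V p. PROOF. x = a/b with a, b in 𝓞 F; V b can be made 1: p is a prime element; V(c) = 1 for integers c not divisible by p (qv_unit or g7a_unit with β = p), V(p^k c) = V(p)^k. So V x = V(p)^k with k in ℤ (x = p^k c/d, c, d not divisible by p), and V x < 1 gives k ≥ 1. -/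
theorem val_F {p : ℕ} (hβ : Prime (p : 𝓞 F)) (hv : V.valuation (p : Ω) < 1) (x : F)
    (hx : V.valuation (algebraMap F Ω x) < 1) : V.valuation (algebraMap F Ω x) ≤ V.valuation (p : Ω) := by
  by_cases hx0 : x = 0
  · rw [hx0, map_zero, map_zero]
    exact zero_le
  have hp0 : V.valuation (p : Ω) ≠ 0 := by
    rw [Ne, map_eq_zero]
    intro h
    apply hβ.ne_zero
    have h1 : ((p : ℕ) : Ω) = algebraMap F Ω ((p : ℕ) : F) := (map_natCast _ _).symm
    rw [h1, map_eq_zero] at h
    exact_mod_cast h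
  have key : ∀ c : 𝓞 F, c ≠ 0 → ∃ i : ℕ, V.valuation (ak Ω c) = V.valuation (p : Ω) ^ i := by
    intro c hc
    obtain ⟨c', hcc, hc'⟩ := (FiniteMultiplicity.of_prime_left hβ hc).exists_eq_pow_mul_and_not_dvd
    refine ⟨multiplicity (p : 𝓞 F) c, ?_⟩
    have h1 := g7a_unit hβ (V := V) (by
      rw [f11_nat]
      exact hv) hc'
    have h2 := congrArg (fun z => V.valuation (ak Ω z)) hcc
    rw [h2, f11_mul, f11_pow, map_mul, map_pow, h1, mul_one, f11_nat]
  obtain ⟨a, b, hb, hab⟩ := IsFractionRing.div_surjective (A := 𝓞 F) x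
  have hb0 : b ≠ 0 := nonZeroDivisors.ne_zero hb
  have ha0 : a ≠ 0 := by
    rintro rfl
    rw [map_zero, zero_div] at hab
    exact hx0 hab.symm
  obtain ⟨i, hi⟩ := key a ha0
  obtain ⟨k, hk⟩ := key b hb0
  have e : V.valuation (algebraMap F Ω x) = V.valuation (p : Ω) ^ i / V.valuation (p : Ω) ^ k := by
    rw [← hab, map_div₀, map_div₀, ← hi, ← hk]
  rw [e] at hx ⊢
  rcases Nat.lt_or_ge k i with hki | hki
  · obtain ⟨d, rfl⟩ := Nat.exists_eq_add_of_lt hki
    rw [show k + d + 1 = k + (d + 1) by ring, pow_add, mul_div_cancel_left₀ _ (pow_ne_zero _ hp0)]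
    rw [pow_succ]
    exact mul_le_of_le_one_left' (pow_le_one' hv.le _)
  · exfalso
    obtain ⟨d, rfl⟩ := Nat.exists_eq_add_of_le hki
    rw [pow_add, div_mul_eq_div_div, div_self (pow_ne_zero _ hp0)] at hx
    have h1 : V.valuation (p : Ω) ^ d ≤ 1 := pow_le_one' hv.le _
    have h2 : (1 : V.ValueGroup) ≤ 1 / V.valuation (p : Ω) ^ d := by
      rw [le_div_iff₀ (zero_lt_iff.2 (pow_ne_zero _ hp0)), one_mul]
      exact h1
    exact absurd hx (not_lt.2 h2)

/-- Chunk F11b (M). The series T_p over F (U the series W over F for A, B). Its coefficients are integral at V, the linear coefficient is p, and modulo p it is -X^(p²). PROOF. A, B lie in R = V.comap (algebraMap F Ω) (a valuation ring of F): U_R, T over R, TW_map and W_map, W_unique for R → F and for R → residue field k of V. TW_one. f8, f10 over k: T_p = -X^(p²) in k⟦X⟧: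
the coefficients of T_p (plus 1 for n = p²) have value < 1, val_F. Δ of WR a b is not 0 in k: GV.disc (Δ = -16 (4 a³ + 27 b²), V 2 = 1). (p : k) = 0. -/
theorem f11 [IsAlgClosure F Ω] (h : CMA F A B Om j act) {p : ℕ} (hp : p.Prime) (h5 : 5 ≤ p) (hβ : Prime (p : 𝓞 F))
    (hS : Sup act p) (hV : GV A B V) (hv : V.valuation (p : Ω) < 1) {U : PowerSeries F} (hU : IsW A B U) :
    (∀ n, V.valuation (algebraMap F Ω (PowerSeries.coeff n U)) ≤ 1) ∧
    PowerSeries.coeff 0 (TW A B U p).1 = 0 ∧ PowerSeries.coeff 1 (TW A B U p).1 = p ∧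
    (∀ n, n ≠ p ^ 2 → V.valuation (algebraMap F Ω (PowerSeries.coeff n (TW A B U p).1)) ≤ V.valuation (p : Ω)) ∧
    V.valuation (algebraMap F Ω (PowerSeries.coeff (p ^ 2) (TW A B U p).1 + 1)) ≤ V.valuation (p : Ω) := by
  classical
  let R : ValuationSubring F := V.comap (algebraMap F Ω)
  have hR : ∀ x : F, x ∈ R ↔ algebraMap F Ω x ∈ V := fun x => Iff.rfl
  let A' : R := ⟨A, hV.a⟩
  let B' : R := ⟨B, hV.b⟩
  obtain ⟨U', hU'⟩ := exists_W (a := A') (b := B')
  let ι : R →+* F := R.subtype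
  have hUU : U = PowerSeries.map ι U' := W_unique hU (W_map hU' ι)
  have hTW : TW A B U p = (PowerSeries.map ι (TW A' B' U' p).1, PowerSeries.map ι (TW A' B' U' p).2) := by
    rw [hUU]
    exact TW_map hU' ι p
  -- the map to the residue field
  let κ : R →+* V := RingHom.codRestrict ((algebraMap F Ω).comp ι) V.toSubring (fun x => x.2)
  have hκ : ∀ x : R, ((κ x : V) : Ω) = algebraMap F Ω (x : F) := fun x => rfl
  let ρ : R →+* IsLocalRing.ResidueField V := (IsLocalRing.residue V).comp κ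
  let a := ρ A'
  let b := ρ B'
  have f8' := f8 h hp h5 hβ hS hV hv a b rfl rfl
  have hres : ∀ x : V, IsLocalRing.residue V x = 0 ↔ V.valuation (x : Ω) < 1 := by
    intro x
    rw [IsLocalRing.residue_eq_zero_iff, ValuationSubring.valuation_lt_one_iff]
  have hchar : ((p : ℕ) : IsLocalRing.ResidueField V) = 0 := by
    rw [← map_natCast (IsLocalRing.residue V), hres]
    exact hv
  have hΔ : (WR a b).Δ ≠ 0 := by
    have e : (WR a b).Δ = -(IsLocalRing.residue V 2) ^ 4 * IsLocalRing.residue V (κ (4 * A' ^ 3 + 27 * B' ^ 2)) := by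
      have e1 : IsLocalRing.residue V (κ (4 * A' ^ 3 + 27 * B' ^ 2)) = 4 * a ^ 3 + 27 * b ^ 2 := by
        show ρ (4 * A' ^ 3 + 27 * B' ^ 2) = _
        simp only [map_add, map_mul, map_pow, map_ofNat]
        rfl
      rw [e1]
      simp only [WR, WeierstrassCurve.Δ, WeierstrassCurve.b₂, WeierstrassCurve.b₄, WeierstrassCurve.b₆,
        WeierstrassCurve.b₈, map_ofNat]
      ring
    rw [e]
    refine mul_ne_zero (neg_ne_zero.2 (pow_ne_zero _ ?_)) ?_
    · rw [Ne, hres]
      exact not_lt.2 hV.two.ge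
    · rw [Ne, hres, hκ]
      have := hV.disc
      refine not_lt.2 (le_of_eq ?_)
      rw [← this]
      rfl
  have hW : IsW a b (PowerSeries.map ρ U') := W_map hU' ρ
  have f10' := f10 hp h5 hchar hΔ f8'.1 f8'.2.1 f8'.2.2.1 f8'.2.2.2 hW
  have hTρ : TW a b (PowerSeries.map ρ U') p =
      (PowerSeries.map ρ (TW A' B' U' p).1, PowerSeries.map ρ (TW A' B' U' p).2) := TW_map hU' ρ p
  have hc : ∀ n, ρ (PowerSeries.coeff n (TW A' B' U' p).1) =
      PowerSeries.coeff n (-(PowerSeries.X ^ (p ^ 2)) : PowerSeries (IsLocalRing.ResidueField V)) := by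
    intro n
    rw [← f10', hTρ, PowerSeries.coeff_map]
  have hcF : ∀ n, PowerSeries.coeff n (TW A B U p).1 = ((PowerSeries.coeff n (TW A' B' U' p).1 : R) : F) := by
    intro n
    rw [hTW, PowerSeries.coeff_map]
    rfl
  refine ⟨?_, ?_, (TW_one hU p).1, ?_, ?_⟩
  · intro n
    rw [hUU, PowerSeries.coeff_map, ValuationSubring.valuation_le_one_iff]
    exact (PowerSeries.coeff n U').2
  · rw [PowerSeries.coeff_zero_eq_constantCoeff_apply]
    exact (TW_const hU p).1
  · intro n hn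
    refine val_F hβ hv _ ?_
    have h1 := hc n
    rw [map_neg, PowerSeries.coeff_X_pow, if_neg hn, neg_zero] at h1
    have h2 := (hres _).1 h1
    rw [hκ, ← hcF] at h2
    exact h2
  · refine val_F hβ hv _ ?_
    have h1 := hc (p ^ 2)
    rw [map_neg, PowerSeries.coeff_X_pow, if_pos rfl] at h1
    have h2 : IsLocalRing.residue V (κ (PowerSeries.coeff (p ^ 2) (TW A' B' U' p).1 + 1)) = 0 := by
      show ρ (PowerSeries.coeff (p ^ 2) (TW A' B' U' p).1 + 1) = 0
      rw [map_add, map_one, h1]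
      ring
    have h3 := (hres _).1 h2
    rw [hκ] at h3
    rw [hcF]
    exact h3

end H16S
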