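import Mathlib
import Pool.Agent.Lib.H16S.F11
import Pool.Agent.Lib.H16S.B4

/-! # H16S, chunk F12 (M): multiplication by p in the kernel of reduction over a complete field -/

open NumberField IsDedekindDomain WeierstrassCurve

namespace H16S

open H55P (IQ Pt ac Inert Dec Nm)
open H35P (WAB Ker tt)
open H55K

variable {F : Type} [Field F] [NumberField F] [IQ F] {A B : F} {Om : ℂ} {Ω : Type} [Field Ω] [DecidableEq Ω]
  [Algebra F Ω] {j : Ω →+* ℂ} {act : 𝓞 F →+* AddMonoid.End (Pt (WAB A B) Ω)} {V : ValuationSubring Ω}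

/-- Valuations and norms. -/
theorem f12_le {K : Type} [NormedField K] (i : Ω →+* K) (hi : ∀ x, x ∈ V ↔ ‖i x‖ ≤ 1) {x y : Ω}
    (h : V.valuation x ≤ V.valuation y) : ‖i x‖ ≤ ‖i y‖ := by
  by_cases hy : y = 0
  · rw [hy, map_zero, le_zero_iff] at h
    rw [(map_eq_zero _).1 h, map_zero, norm_zero]
    exact norm_nonneg _
  · have h0 : i y ≠ 0 := (map_ne_zero i).2 hy
    have h1 : V.valuation (x / y) ≤ 1 := by
      rw [map_div₀]
      exact div_le_one_of_le₀ h zero_le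
    have h2 := (hi _).1 ((V.valuation_le_one_iff _).1 h1)
    rw [map_div₀, norm_div, div_le_one₀ (norm_pos_iff.2 h0)] at h2
    exact h2

theorem f12_lt {K : Type} [NormedField K] (i : Ω →+* K) (hi : ∀ x, x ∈ V ↔ ‖i x‖ ≤ 1) {x : Ω}
    (h : V.valuation x < 1) : ‖i x‖ < 1 := by
  by_contra hc
  have hc' : 1 ≤ ‖i x‖ := not_lt.1 hc
  have hx : x ≠ 0 := by
    rintro rfl
    rw [map_zero, norm_zero] at hc'
    linarith
  have h1 : ‖i x⁻¹‖ ≤ 1 := by
    rw [map_inv₀, norm_inv]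
    exact inv_le_one_of_one_le₀ hc'
  have h2 := (V.valuation_le_one_iff _).2 ((hi _).2 h1)
  rw [map_inv₀] at h2
  have h3 : V.valuation x ≠ 0 := (map_ne_zero _).2 hx
  have h4 : 1 ≤ V.valuation x := (inv_le_one₀ (zero_lt_iff.2 h3)).1 h2
  exact absurd h (not_lt.2 h4)

/-- Differences of powers. -/
theorem f12_pow {K : Type} [NormedField K] [IsUltrametricDist K] {r : ℝ} (z z' : K) (hz : ‖z‖ ≤ r) (hz' : ‖z'‖ ≤ r) (n : ℕ) :
    ‖z ^ n - z' ^ n‖ ≤ r ^ (n - 1) * ‖z - z'‖ := by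
  have hr : 0 ≤ r := (norm_nonneg z).trans hz
  rw [← geom_sum₂_mul, norm_mul]
  refine mul_le_mul_of_nonneg_right ?_ (norm_nonneg _)
  refine IsUltrametricDist.norm_sum_le_of_forall_le_of_nonneg (pow_nonneg hr _) fun k hk => ?_
  have hk' := Finset.mem_range.1 hk
  rw [norm_mul, norm_pow, norm_pow]
  calc ‖z‖ ^ k * ‖z'‖ ^ (n - 1 - k) ≤ r ^ k * r ^ (n - 1 - k) :=
        mul_le_mul (pow_le_pow_left₀ (norm_nonneg _) hz _) (pow_le_pow_left₀ (norm_nonneg _) hz' _)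
          (pow_nonneg (norm_nonneg _) _) (pow_nonneg hr _)
    _ = r ^ (n - 1) := by
        rw [← pow_add]
        congr 1
        omega

/-- The abstract statement. -/
theorem f12_abs {K : Type} [NormedField K] [IsUltrametricDist K] [CompleteSpace K] {c : ℕ → K} {p : ℕ} (h5 : 5 ≤ p)
    (hp1 : ‖(p : K)‖ < 1) (c0 : c 0 = 0) (c1 : c 1 = p) (cn : ∀ n, n ≠ p ^ 2 → ‖c n‖ ≤ ‖(p : K)‖)
    (cp : ‖c (p ^ 2) + 1‖ ≤ ‖(p : K)‖) :
    (∀ z : K, ‖z‖ < 1 → Summable (fun n => c n * z ^ n) ∧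
      ‖(∑' n, c n * z ^ n) - p * z + z ^ (p ^ 2)‖ ≤ ‖(p : K)‖ * ‖z‖ ^ 2) ∧
    ∀ z z' : K, ‖z‖ ≤ ‖(p : K)‖ → ‖z'‖ ≤ ‖(p : K)‖ →
      ‖((∑' n, c n * z ^ n) - p * z) - ((∑' n, c n * z' ^ n) - p * z')‖ ≤ ‖(p : K)‖ ^ 2 * ‖z - z'‖ := by
  have hp0 : 0 ≤ ‖(p : K)‖ := norm_nonneg _
  have hpp : 25 ≤ p ^ 2 := by nlinarith
  have call : ∀ n, ‖c n‖ ≤ 1 := by
    intro n
    by_cases hn : n = p ^ 2
    · have h1 : c n = (c n + 1) + (-1) := by ring
      rw [h1, hn]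
      refine (IsUltrametricDist.norm_add_le_max _ _).trans (max_le (cp.trans hp1.le) ?_)
      rw [norm_neg, norm_one]
    · exact (cn n hn).trans hp1.le
  have hsum : ∀ z : K, ‖z‖ < 1 → Summable (fun n => c n * z ^ n) := by
    intro z hz
    refine Summable.of_norm ?_
    refine Summable.of_nonneg_of_le (fun n => norm_nonneg _) (fun n => ?_)
      (summable_geometric_of_lt_one (norm_nonneg z) hz)
    rw [norm_mul, norm_pow]
    exact mul_le_of_le_one_left (by positivity) (call _)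
  constructor
  · intro z hz
    refine ⟨hsum z hz, ?_⟩
    have h1 := (hsum z hz).hasSum
    have h2 : HasSum (fun n : ℕ => if n = 1 then (p : K) * z else 0) ((p : K) * z) := hasSum_ite_eq 1 _
    have h3 : HasSum (fun n : ℕ => if n = p ^ 2 then z ^ (p ^ 2) else 0) (z ^ (p ^ 2)) := hasSum_ite_eq (p ^ 2) _
    have h4 := (h1.sub h2).add h3
    rw [← h4.tsum_eq]
    refine IsUltrametricDist.norm_tsum_le_of_forall_le fun n => ?_
    by_cases hn1 : n = 1
    · rw [hn1, if_pos rfl, if_neg (by omega), c1, pow_one, sub_self, add_zero, norm_zero]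
      positivity
    rw [if_neg hn1, sub_zero]
    by_cases hn0 : n = 0
    · rw [hn0, if_neg (by omega), c0, zero_mul, add_zero, norm_zero]
      positivity
    have hzn : ∀ k, 2 ≤ k → ‖z‖ ^ k ≤ ‖z‖ ^ 2 := fun k hk => pow_le_pow_of_le_one (norm_nonneg _) hz.le hk
    by_cases hn : n = p ^ 2
    · rw [if_pos hn, hn]
      have h5 : c (p ^ 2) * z ^ (p ^ 2) + z ^ (p ^ 2) = (c (p ^ 2) + 1) * z ^ (p ^ 2) := by ring
      rw [h5, norm_mul, norm_pow]
      exact mul_le_mul cp (hzn _ (by omega)) (by positivity) hp0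
    · rw [if_neg hn, add_zero, norm_mul, norm_pow]
      exact mul_le_mul (cn n hn) (hzn _ (by omega)) (by positivity) hp0
  · intro z z' hz hz'
    have h1 := (hsum z (lt_of_le_of_lt hz hp1)).hasSum
    have h1' := (hsum z' (lt_of_le_of_lt hz' hp1)).hasSum
    have h2 : ∀ z : K, HasSum (fun n : ℕ => if n = 1 then (p : K) * z else 0) ((p : K) * z) := fun z => hasSum_ite_eq 1 _
    have h4 := (h1.sub (h2 z)).sub (h1'.sub (h2 z'))
    rw [← h4.tsum_eq]
    refine IsUltrametricDist.norm_tsum_le_of_forall_le fun n => ?_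
    by_cases hn1 : n = 1
    · rw [hn1, if_pos rfl, if_pos rfl, c1, pow_one, pow_one, sub_self, sub_self, sub_self, norm_zero]
      positivity
    rw [if_neg hn1, if_neg hn1, sub_zero, sub_zero]
    by_cases hn0 : n = 0
    · rw [hn0, c0, zero_mul, zero_mul, sub_self, norm_zero]
      positivity
    rw [← mul_sub, norm_mul]
    have h5 := f12_pow z z' hz hz' n
    by_cases hn : n = p ^ 2
    · calc ‖c n‖ * ‖z ^ n - z' ^ n‖ ≤ 1 * (‖(p : K)‖ ^ (n - 1) * ‖z - z'‖) :=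
            mul_le_mul (call n) h5 (norm_nonneg _) zero_le_one
        _ = ‖(p : K)‖ ^ (n - 1) * ‖z - z'‖ := one_mul _
        _ ≤ ‖(p : K)‖ ^ 2 * ‖z - z'‖ :=
            mul_le_mul_of_nonneg_right (pow_le_pow_of_le_one hp0 hp1.le (by omega)) (norm_nonneg _)
    · calc ‖c n‖ * ‖z ^ n - z' ^ n‖ ≤ ‖(p : K)‖ * (‖(p : K)‖ ^ (n - 1) * ‖z - z'‖) :=
            mul_le_mul (cn n hn) h5 (norm_nonneg _) hp0
        _ = ‖(p : K)‖ ^ (n - 1 + 1) * ‖z - z'‖ := by ring
        _ ≤ ‖(p : K)‖ ^ 2 * ‖z - z'‖ :=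
            mul_le_mul_of_nonneg_right (pow_le_pow_of_le_one hp0 hp1.le (by omega)) (norm_nonneg _)

/-- Chunk F12a (M). The value of T_p. K complete, i : Ω → K inducing V. For z in K, ‖z‖ < 1, e(z) = the value at z of the series T_p (coefficients mapped by i): ‖e(z) - p z + z^(p²)‖ ≤ ‖p‖ ‖z‖², and for ‖z‖, ‖z'‖ ≤ ‖p‖: ‖(e(z) - p z) - (e(z') - p z')‖ ≤ ‖p‖² ‖z - z'‖. PROOF. f11:
coefficients c_n with ‖c_n‖ ≤ ‖p‖ (n ≠ p²), ‖c_(p²) + 1‖ ≤ ‖p‖, c_0 = 0, c_1 = p. Termwise: e(z) - p z + z^(p²) is the sum over n ≥ 2 of c'_n z^n with ‖c'_n‖ ≤ ‖p‖; z^n - z'^n is divisible by z - z' with quotient of norm ≤ ‖p‖^(n-1), for n ≥ 2 and n ≠ p²: ‖c_n‖ ‖p‖^(n-1) ≤ ‖p‖²; n = p²: ‖p‖^(p²-1) ≤ ‖p‖².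
The series: ev over the ring R = V.comap (algebraMap F Ω) or directly over F with HasSum (the coefficients of T_p are integral: summability by comparison). -/
theorem f12_val [IsAlgClosure F Ω] (h : CMA F A B Om j act) {p : ℕ} (hp : p.Prime) (h5 : 5 ≤ p) (hβ : Prime (p : 𝓞 F))
    (hS : Sup act p) (hV : GV A B V) (hv : V.valuation (p : Ω) < 1) {U : PowerSeries F} (hU : IsW A B U)
    {K : Type} [NormedField K] [IsUltrametricDist K] [CompleteSpace K] (i : Ω →+* K) (hi : ∀ x, x ∈ V ↔ ‖i x‖ ≤ 1) :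
    (∀ z : K, ‖z‖ < 1 → Summable (fun n => i (algebraMap F Ω (PowerSeries.coeff n (TW A B U p).1)) * z ^ n) ∧
      ‖ev (i.comp (algebraMap F Ω)) z (TW A B U p).1 - p * z + z ^ (p ^ 2)‖ ≤ ‖(p : K)‖ * ‖z‖ ^ 2) ∧
    ∀ z z' : K, ‖z‖ ≤ ‖(p : K)‖ → ‖z'‖ ≤ ‖(p : K)‖ →
      ‖(ev (i.comp (algebraMap F Ω)) z (TW A B U p).1 - p * z) -
        (ev (i.comp (algebraMap F Ω)) z' (TW A B U p).1 - p * z')‖ ≤ ‖(p : K)‖ ^ 2 * ‖z - z'‖ := by
  obtain ⟨-, f0, f1, fn, fp⟩ := f11 h hp h5 hβ hS hV hv hU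
  have hip : i (p : Ω) = (p : K) := map_natCast i p
  refine f12_abs (c := fun n => i (algebraMap F Ω (PowerSeries.coeff n (TW A B U p).1))) h5 ?_ ?_ ?_ ?_ ?_
  · rw [← hip]
    exact f12_lt i hi hv
  · show i (algebraMap F Ω (PowerSeries.coeff 0 (TW A B U p).1)) = 0
    rw [f0, map_zero, map_zero]
  · show i (algebraMap F Ω (PowerSeries.coeff 1 (TW A B U p).1)) = p
    rw [f1, map_natCast, map_natCast]
  · intro n hn
    rw [← hip]
    exact f12_le i hi (fn n hn)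
  · rw [← hip]
    have h1 := f12_le i hi fp
    rw [map_add, map_add, map_one, map_one] at h1
    exact h1

/-- Chunk F12b (M). For the points over K: B4 with R = V.comap (algebraMap F Ω) (ValuationSubring F), φ = i restricted: ‖φ r‖ ≤ 1; TW_map, ev_map. The curve over K is WR (i A) (i B). -/
theorem f12_pt [IsAlgClosure F Ω] (hV : GV A B V) {p : ℕ} {U : PowerSeries F} (hU : IsW A B U)
    {K : Type} [NormedField K] [IsUltrametricDist K] [CompleteSpace K] [DecidableEq K] (i : Ω →+* K)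
    (hi : ∀ x, x ∈ V ↔ ‖i x‖ ≤ 1) :
    (∀ P : (WR (i (algebraMap F Ω A)) (i (algebraMap F Ω B))).toAffine.Point, Ker (ball K) P →
      tt (p • P) = ev (i.comp (algebraMap F Ω)) (tt P) (TW A B U p).1) ∧
    ∀ z : K, ‖z‖ < 1 → ∃ P : (WR (i (algebraMap F Ω A)) (i (algebraMap F Ω B))).toAffine.Point, Ker (ball K) P ∧ tt P = z := by
  let R : ValuationSubring F := V.comap (algebraMap F Ω)
  let a0 : R := ⟨A, hV.a⟩
  let b0 : R := ⟨B, hV.b⟩
  let φ : R →+* K := (i.comp (algebraMap F Ω)).comp R.subtype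
  have hφ : ∀ r, ‖φ r‖ ≤ 1 := fun r => (hi _).1 r.2
  obtain ⟨U0, hU0⟩ := exists_W (a := a0) (b := b0)
  have hU1 : IsW A B (PowerSeries.map R.subtype U0) := W_map hU0 R.subtype
  have hUU : U = PowerSeries.map R.subtype U0 := W_unique hU hU1
  have h2 : (2 : K) ≠ 0 := by
    have h3 : (2 : Ω) ≠ 0 := by
      intro h4
      have h5 := hV.two
      rw [h4, map_zero] at h5
      exact zero_ne_one h5
    have h6 : i (2 : Ω) = (2 : K) := map_ofNat i 2
    rw [← h6]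
    exact (map_ne_zero i).2 h3
  have ha : φ a0 = (WR (i (algebraMap F Ω A)) (i (algebraMap F Ω B))).a₄ := rfl
  have hb : φ b0 = (WR (i (algebraMap F Ω A)) (i (algebraMap F Ω B))).a₆ := rfl
  have hΔ : (WR (i (algebraMap F Ω A)) (i (algebraMap F Ω B))).Δ ≠ 0 := by
    have h3 : (WR (i (algebraMap F Ω A)) (i (algebraMap F Ω B))).Δ =
        -(2 : K) ^ 4 * i (algebraMap F Ω (4 * A ^ 3 + 27 * B ^ 2)) := by
      have h4 : i (algebraMap F Ω (4 * A ^ 3 + 27 * B ^ 2)) = 4 * i (algebraMap F Ω A) ^ 3 + 27 * i (algebraMap F Ω B) ^ 2 := by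
        simp only [map_add, map_mul, map_pow, map_ofNat]
      rw [h4]
      simp only [WR, WeierstrassCurve.Δ, WeierstrassCurve.b₂, WeierstrassCurve.b₄, WeierstrassCurve.b₆, WeierstrassCurve.b₈]
      ring
    rw [h3]
    refine mul_ne_zero (neg_ne_zero.2 (pow_ne_zero _ h2)) ((map_ne_zero i).2 ?_)
    intro h4
    have h5 := hV.disc
    rw [h4, map_zero] at h5
    exact zero_ne_one h5
  constructor
  · intro P hP
    have h3 := (tt_nsmul h2 hφ ha hb hU0 hP p).1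
    have h4 : (TW A B U p).1 = PowerSeries.map R.subtype (TW a0 b0 U0 p).1 := by
      have h5 := TW_map hU0 R.subtype p
      have h6 : TW A B U p = (PowerSeries.map R.subtype (TW a0 b0 U0 p).1, PowerSeries.map R.subtype (TW a0 b0 U0 p).2) := by
        rw [hUU]
        exact h5
      rw [h6]
    rw [h3, h4, ev_map]
  · intro z hz
    exact exists_tt hφ ha hb hU0 hΔ hz

end H16S
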