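import Mathlib
import Pool.Agent.Lib.H16S.F12

/-! # H16S, chunk F13 (M): points over Ω and over K; the final statement on [-p] -/

open NumberField IsDedekindDomain WeierstrassCurve

namespace H16S

open H55P (IQ Pt ac Inert Dec Nm)
open H35P (WAB Ker tt)
open H55K

variable {F : Type} [Field F] [NumberField F] [IQ F] {A B : F} {Om : ℂ} {Ω : Type} [Field Ω] [DecidableEq Ω]
  [Algebra F Ω] {j : Ω →+* ℂ} {act : 𝓞 F →+* AddMonoid.End (Pt (WAB A B) Ω)} {V : ValuationSubring Ω}

/-- Points of equal curves. -/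
theorem f13_cast {K : Type} [Field K] [DecidableEq K] {W W' : WeierstrassCurve K} (h : W = W') :
    ∃ e : W.toAffine.Point ≃+ W'.toAffine.Point, ∀ P, xc (e P) = xc P ∧ yc (e P) = yc P ∧ tt (e P) = tt P := by
  subst h
  exact ⟨AddEquiv.refl _, fun _ => ⟨rfl, rfl, rfl⟩⟩

/-- Chunk F13a (S/M). The map of points induced by i. PROOF. WAB_eq identifies the curve over Ω with WR (algebraMap F Ω A) (algebraMap F Ω B) (for equal curves the groups of points are identified by subst, coordinates preserved); WeierstrassCurve.Affine.Point.map for the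
ring homomorphism i (Algebra Ω K by i.toAlgebra, or Algebra F K), WR_map. -/
theorem pt_map {K : Type} [NormedField K] [DecidableEq K] (i : Ω →+* K) :
    ∃ μ : Pt (WAB A B) Ω →+ (WR (i (algebraMap F Ω A)) (i (algebraMap F Ω B))).toAffine.Point,
      Function.Injective μ ∧ ∀ P, xc (μ P) = i (xc P) ∧ yc (μ P) = i (yc P) ∧ tt (μ P) = i (tt P) := by
  let _ : Algebra F K := (i.comp (algebraMap F Ω)).toAlgebra
  let f : Ω →ₐ[F] K := { i with commutes' := fun _ => rfl }
  have hf : ∀ x, f x = i x := fun _ => rfl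
  obtain ⟨e, he⟩ := f13_cast (WAB_eq A B K)
  refine ⟨e.toAddMonoidHom.comp (Affine.Point.map (W' := (WAB A B).toAffine) f), ?_, ?_⟩
  · intro P Q hPQ
    exact Affine.Point.map_injective f (e.injective hPQ)
  · intro P
    show xc (e (Affine.Point.map (W' := (WAB A B).toAffine) f P)) = _ ∧ yc (e (Affine.Point.map (W' := (WAB A B).toAffine) f P)) = _ ∧
      tt (e (Affine.Point.map (W' := (WAB A B).toAffine) f P)) = _
    rw [(he _).1, (he _).2.1, (he _).2.2]
    cases P with
    | zero =>
      refine ⟨?_, ?_, ?_⟩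
      · exact (map_zero i).symm
      · exact (map_zero i).symm
      · exact (map_zero i).symm
    | some x y h =>
      refine ⟨rfl, rfl, ?_⟩
      exact (map_div₀ i x y).symm

/-- Chunk F13b (S/M). i maps Ker V to Ker (ball K) and conversely. -/
theorem ker_map {K : Type} [NormedField K] [IsUltrametricDist K] [DecidableEq K] (i : Ω →+* K) (hi : ∀ x, x ∈ V ↔ ‖i x‖ ≤ 1)
    {μ : Pt (WAB A B) Ω →+ (WR (i (algebraMap F Ω A)) (i (algebraMap F Ω B))).toAffine.Point} (hμ : Function.Injective μ)
    (h : ∀ P, xc (μ P) = i (xc P)) (P : Pt (WAB A B) Ω) : Ker (ball K) (μ P) ↔ Ker V P := by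
  have key : ∀ x : Ω, 1 < (ball K).valuation (i x) ↔ 1 < V.valuation x := by
    intro x
    rw [← not_le, ← not_le, not_iff_not, ball_le_one, V.valuation_le_one_iff, hi]
  have hP := h P
  rcases hQ : P with _ | ⟨x, y, hxy⟩
  · have h1 : μ (Affine.Point.zero : Pt (WAB A B) Ω) = 0 := map_zero μ
    rw [h1]
    exact ⟨fun _ => trivial, fun _ => trivial⟩
  · rw [hQ] at hP
    rcases hR : μ (Affine.Point.some x y hxy) with _ | ⟨x', y', hxy'⟩
    · exfalso
      have h1 : μ (Affine.Point.some x y hxy) = μ 0 := by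
        rw [hR, map_zero]
        rfl
      have h2 := hμ h1
      exact absurd h2 (by intro h3; cases h3)
    · rw [hR] at hP
      have h1 : x' = i x := hP
      show 1 < (ball K).valuation x' ↔ 1 < V.valuation x
      rw [h1]
      exact key x

/-- Chunk F13c (S/M). The final statement: the series of multiplication by -p. PROOF. f = - T_p (f11), U from exists_W. HasSum: the sum is summable (f12_val) with value ev; f12_pt for μ P: tt (p • μ P) = ev; t(-Q) = - t Q (tt_neg). -/
theorem FRmain [IsAlgClosure F Ω] (h : CMA F A B Om j act) {p : ℕ} (hp : p.Prime) (h5 : 5 ≤ p) (hβ : Prime (p : 𝓞 F))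
    (hS : Sup act p) (hgood : ∀ V : ValuationSubring Ω, V.valuation (p : Ω) < 1 → GV A B V) :
    ∃ f : PowerSeries F, PowerSeries.coeff 0 f = 0 ∧ PowerSeries.coeff 1 f = -(p : F) ∧
      ∀ V : ValuationSubring Ω, V.valuation (p : Ω) < 1 →
        (∀ n, V.valuation (algebraMap F Ω (PowerSeries.coeff n f)) ≤ 1) ∧
        (∀ n, n ≠ p ^ 2 → V.valuation (algebraMap F Ω (PowerSeries.coeff n f)) ≤ V.valuation (p : Ω)) ∧
        V.valuation (algebraMap F Ω (PowerSeries.coeff (p ^ 2) f - 1)) ≤ V.valuation (p : Ω) ∧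
        ∀ (K : Type) [NormedField K] [IsUltrametricDist K] [CompleteSpace K] (i : Ω →+* K), (∀ x, x ∈ V ↔ ‖i x‖ ≤ 1) →
          ∀ P : Pt (WAB A B) Ω, Ker V P →
            HasSum (fun n => i (algebraMap F Ω (PowerSeries.coeff n f)) * i (tt P) ^ n) (i (tt (-(p • P)))) := by
  classical
  obtain ⟨U, hU⟩ := exists_W (a := A) (b := B)
  refine ⟨-(TW A B U p).1, ?_, ?_, ?_⟩
  · rw [map_neg, PowerSeries.coeff_zero_eq_constantCoeff_apply, (TW_const hU p).1, neg_zero]
  · rw [map_neg, (TW_one hU p).1]
  · intro V hv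
    have hV := hgood V hv
    obtain ⟨-, f0, f1, fn, fp⟩ := f11 h hp h5 hβ hS hV hv hU
    have hneg : ∀ n, V.valuation (algebraMap F Ω (PowerSeries.coeff n (-(TW A B U p).1))) =
        V.valuation (algebraMap F Ω (PowerSeries.coeff n (TW A B U p).1)) := by
      intro n
      rw [map_neg, map_neg, Valuation.map_neg]
    have hp2 : V.valuation (algebraMap F Ω (PowerSeries.coeff (p ^ 2) (-(TW A B U p).1) - 1)) ≤ V.valuation (p : Ω) := by
      have h1 : PowerSeries.coeff (p ^ 2) (-(TW A B U p).1) - 1 = -(PowerSeries.coeff (p ^ 2) (TW A B U p).1 + 1) := by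
        rw [map_neg]
        ring
      rw [h1, map_neg, Valuation.map_neg]
      exact fp
    refine ⟨fun n => ?_, fun n hn => ?_, hp2, ?_⟩
    · rw [hneg]
      by_cases hn : n = p ^ 2
      · have h1 : algebraMap F Ω (PowerSeries.coeff n (TW A B U p).1) =
            algebraMap F Ω (PowerSeries.coeff (p ^ 2) (TW A B U p).1 + 1) + (-1) := by
          rw [hn, map_add, map_one]
          ring
        rw [h1]
        refine (V.valuation.map_add _ _).trans (max_le (fp.trans hv.le) ?_)
        rw [Valuation.map_neg, map_one]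
      · exact (fn n hn).trans hv.le
    · rw [hneg]
      exact fn n hn
    · intro K _ _ _ i hi P hP
      obtain ⟨μ, hμ, hc⟩ := pt_map (A := A) (B := B) i
      have hker := (ker_map i hi hμ (fun P => (hc P).1) P).2 hP
      have h1 := (f12_pt (p := p) hV hU i hi).1 (μ P) hker
      have hz : ‖tt (μ P)‖ < 1 := by
        have hI : H35P.IntW (WR (i (algebraMap F Ω A)) (i (algebraMap F Ω B))) (ball K) :=
          { a1 := zero_mem _, a2 := zero_mem _, a3 := zero_mem _, a4 := (hi _).1 hV.a, a6 := (hi _).1 hV.b }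
        obtain ⟨-, ht, -⟩ := ker_tw hI hker
        exact (ball_lt_one _).1 ht
      have h2 := ((f12_val h hp h5 hβ hS hV hv hU i hi).1 _ hz).1.hasSum
      have h3 : (∑' n, i (algebraMap F Ω (PowerSeries.coeff n (TW A B U p).1)) * (tt (μ P)) ^ n) = tt (p • μ P) := h1.symm
      rw [h3, ← map_nsmul, (hc _).2.2, (hc _).2.2] at h2
      have h4 := h2.neg
      have h5' : -i (tt (p • P)) = i (tt (-(p • P))) := by
        rw [← map_neg, H55K.tt_neg]
      rw [h5'] at h4
      refine h4.congr_fun ?_
      intro n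
      rw [map_neg, map_neg, map_neg, neg_mul]

end H16S
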