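import Mathlib

/-! # H16S, chunk F3 (S/M): finite abelian groups with one element of order 2 -/

namespace H16S

/-- Chunk F3 (S/M). If 4 divides the order of M and M has at most one element of order 2 there is an element of order 4. PROOF. |M| = |M[2]| |2 M| (first isomorphism theorem for x ↦ 2 x), |M[2]| ≤ 2, so |2M| is even; Cauchy (exists_prime_addOrderOf_dvd_card): an element of
order 2 in 2 M, u = 2 z. -/
theorem f3 {M : Type} [AddCommGroup M] [Finite M] (h4 : 4 ∣ Nat.card M)
    (h1 : ∀ x y : M, 2 • x = 0 → 2 • y = 0 → x ≠ 0 → y ≠ 0 → x = y) : ∃ z : M, 4 • z = 0 ∧ 2 • z ≠ 0 := by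
  classical
  set g : M →+ M := nsmulAddMonoidHom 2 with hg
  have hgx : ∀ x, g x = 2 • x := fun x => rfl
  have hker : Nat.card g.ker ≤ 2 := by
    have hb : Nat.card Bool = 2 := by
      rw [Nat.card_eq_fintype_card, Fintype.card_bool]
    rw [← hb]
    refine Nat.card_le_card_of_injective (fun x : g.ker => decide (x = 0)) fun x y hxy => ?_
    have hxy' : (x = 0) ↔ (y = 0) := decide_eq_decide.1 hxy
    by_cases hx : x = 0
    · rw [hx, hxy'.1 hx]
    · have hy : y ≠ 0 := fun h => hx (hxy'.2 h)
      refine Subtype.ext (h1 _ _ ?_ ?_ ?_ ?_)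
      · rw [← hgx]
        exact x.2
      · rw [← hgx]
        exact y.2
      · exact fun h => hx (Subtype.ext h)
      · exact fun h => hy (Subtype.ext h)
  have hc : Nat.card M = Nat.card g.range * Nat.card g.ker := by
    rw [AddSubgroup.card_eq_card_quotient_mul_card_addSubgroup g.ker,
      Nat.card_congr (QuotientAddGroup.quotientKerEquivRange g).toEquiv]
  have hpos : 0 < Nat.card g.ker := Nat.card_pos
  have h2 : 2 ∣ Nat.card g.range := by
    rw [hc] at h4
    generalize Nat.card g.ker = k at *
    generalize Nat.card g.range = r at *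
    have hk : k = 1 ∨ k = 2 := by omega
    rcases hk with rfl | rfl
    · omega
    · omega
  obtain ⟨u, hu⟩ := exists_prime_addOrderOf_dvd_card' (G := g.range) 2 h2
  obtain ⟨z, hz⟩ := u.2
  rw [hgx] at hz
  refine ⟨z, ?_, ?_⟩
  · have e : (4 : ℕ) • z = 2 • (2 • z) := by rw [← mul_nsmul]
    rw [e, hz]
    have := addOrderOf_nsmul_eq_zero u
    rw [hu] at this
    exact congrArg Subtype.val this
  · rw [hz]
    intro h0
    have : u = 0 := Subtype.ext h0
    rw [this, addOrderOf_zero] at hu
    exact absurd hu (by norm_num)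

end H16S
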