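import Mathlib
import Pool.Agent.Lib.H55K.G9
import Pool.Agent.Lib.H16S.FD
import Pool.Agent.Lib.H16S.F3

/-! # H16S, chunk F4 (M): kappa = 1 -/

open NumberField IsDedekindDomain WeierstrassCurve

namespace H16S

open H55P (IQ Pt ac Inert Dec Nm)
open H35P (WAB Ker tt)
open H55K

variable {F : Type} [Field F] [NumberField F] [IQ F] {A B : F} {Om : ℂ} {Ω : Type} [Field Ω] [DecidableEq Ω]
  [Algebra F Ω] {j : Ω →+* ℂ} {act : 𝓞 F →+* AddMonoid.End (Pt (WAB A B) Ω)} {V : ValuationSubring Ω}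

/-- The subgroup of the classes of points modulo the kernel of reduction fixed by s. -/
def Ms (hV : GV A B V) (s : Ω ≃ₐ[F] Ω) (hs : Dec V s) : AddSubgroup (Pt (WAB A B) Ω ⧸ kerG hV) where
  carrier := {c | ∃ X : Pt (WAB A B) Ω, (X : Pt (WAB A B) Ω ⧸ kerG hV) = c ∧ Ker V (ac (WAB A B) s X - X)}
  zero_mem' := ⟨0, rfl, by rw [map_zero, sub_zero]; exact ker_zero V⟩
  add_mem' := by
    rintro a b ⟨X, rfl, hX⟩ ⟨Y, rfl, hY⟩
    refine ⟨X + Y, rfl, ?_⟩
    have e : ac (WAB A B) s (X + Y) - (X + Y) = (ac (WAB A B) s X - X) + (ac (WAB A B) s Y - Y) := by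
      rw [map_add]
      abel
    rw [e]
    exact kadd hV hX hY
  neg_mem' := by
    rintro a ⟨X, rfl, hX⟩
    refine ⟨-X, rfl, ?_⟩
    have e : ac (WAB A B) s (-X) - (-X) = 0 - (ac (WAB A B) s X - X) := by
      rw [map_neg]
      abel
    rw [e]
    exact ksub hV (ker_zero V) hX

theorem f4_small (hV : GV A B V) {p : ℕ} (s : Ω ≃ₐ[F] Ω) (hs : ∀ x ∈ V, V.valuation (s x - x ^ (p ^ 2)) < 1) {κ : Ω}
    (hκ : V.valuation κ = 1)
    (hx : ∀ X : Pt (WAB A B) Ω, ¬ Ker V X → V.valuation (κ * xc (p • X) - xc X ^ (p ^ 2)) < 1)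
    (hcon : V.valuation (κ - 1) = 1) {X : Pt (WAB A B) Ω} (hX : ¬ Ker V X) (hK : Ker V (ac (WAB A B) s X - X))
    (hp : V.valuation (xc (p • X) - xc X) < 1) : V.valuation (xc X) < 1 := by
  obtain ⟨hX0, hX1⟩ := not_ker V hX
  have c1 := (cls_conv hV hX hK).2.1
  rw [xc_ac] at c1
  have c2 := hs (xc X) ((V.valuation_le_one_iff _).1 hX1)
  have c3 := hx X hX
  have e : (κ - 1) * xc X = (κ * xc (p • X) - xc X ^ (p ^ 2)) - κ * (xc (p • X) - xc X) -
      (s (xc X) - xc X ^ (p ^ 2)) + (s (xc X) - xc X) := by ring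
  have h1 : V.valuation ((κ - 1) * xc X) < 1 := by
    rw [e]
    refine V.valuation.map_add_lt (V.valuation.map_sub_lt (V.valuation.map_sub_lt c3 ?_) c2) c1
    rw [map_mul, hκ, one_mul]
    exact hp
  rwa [map_mul, hcon, one_mul] at h1

theorem f4_two (h : CMA F A B Om j act) (hV : GV A B V) {p : ℕ} (hodd : Odd p) (s : Ω ≃ₐ[F] Ω) (hd : Dec V s)
    (hs : ∀ x ∈ V, V.valuation (s x - x ^ (p ^ 2)) < 1) {κ : Ω} (hκ : V.valuation κ = 1)
    (hx : ∀ X : Pt (WAB A B) Ω, ¬ Ker V X → V.valuation (κ * xc (p • X) - xc X ^ (p ^ 2)) < 1)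
    (hcon : V.valuation (κ - 1) = 1) {X : Pt (WAB A B) Ω} (hX : ¬ Ker V X) (hK : Ker V (ac (WAB A B) s X - X))
    (h2 : Ker V (X + X)) : ∃ T : Pt (WAB A B) Ω, T + T = 0 ∧ Ker V (X - T) ∧ ¬ Ker V T ∧ V.valuation (xc T) < 1 := by
  have hak : V.valuation (ak Ω (2 : 𝓞 F)) = 1 := by
    have e : ak Ω (2 : 𝓞 F) = 2 := by
      show algebraMap F Ω (algebraMap (𝓞 F) F 2) = 2
      rw [map_ofNat, map_ofNat]
    rw [e]
    exact hV.two
  have ha2 : ∀ T : Pt (WAB A B) Ω, act 2 T = T + T := by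
    intro T
    rw [← one_add_one_eq_two, map_add, map_one]
    rfl
  obtain ⟨T, hT, hXT⟩ := g9_surj h hV hak (X := X) (by rw [ha2]; exact h2)
  have hT2 : T + T = 0 := by
    rw [← ha2]
    exact hT
  have hTk : ¬ Ker V T := by
    intro hk
    apply hX
    have := kadd hV hXT hk
    rwa [sub_add_cancel] at this
  have hTs : Ker V (ac (WAB A B) s T - T) := by
    have e : ac (WAB A B) s T - T = (ac (WAB A B) s X - X) - (ac (WAB A B) s (X - T) - (X - T)) := by
      rw [map_sub]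
      abel
    rw [e]
    exact ksub hV hK (ksub hV ((ker_ac s hd).2 hXT) hXT)
  have hpT : p • T = T := by
    obtain ⟨k, hk⟩ := hodd
    rw [hk, add_nsmul, one_nsmul, mul_nsmul, two_nsmul, hT2, nsmul_zero, zero_add]
  refine ⟨T, hT2, hXT, hTk, f4_small hV s hs hκ hx hcon hTk hTs ?_⟩
  rw [hpT, sub_self, map_zero]
  exact zero_lt_one

/-- Chunk F4 (M). The scaling factor is 1. p is odd and ≥ 5 (V 2 = V 3 = 1, V p < 1 exclude p = 2, 3). PROOF. Suppose V(κ - 1) = 1 (not < 1). For a fixed class X (not in Ker): x(X)^q is congruent to s(x(X)) = x(sX), congruent to x(X) (cls_conv); so κ x(pX) is congruent to x(X). (a) If c in Ms has order 2: c = class of X, g9_surj (b = 2): we may take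
2 X = 0; p X = X, so (κ - 1) x(X) is congruent to 0: V(x(X)) < 1; y(X) = 0 (2X = 0), so V(B) < 1 (B = y² - x³ - A x), and V(x(X) - x(X')) < 1 for two such points: cls_x gives X' = ± X modulo Ker, so c' = c: at most one element of order 2. (b) |Ms| = (p+1)², divisible by 4: F3 gives c = class of Y with 4 c = 0,
2 c ≠ 0. p Y is Y or -Y modulo Ker (p is 1 or 3 modulo 4), so x(pY) is congruent to x(Y): (κ - 1) x(Y) congruent to 0, V(x(Y)) < 1. Cauchy: there is c' in Ms of order 2, X as in (a), V(x(X)) < 1: cls_x: Y = ± X modulo Ker, 2 Y in Ker: a contradiction. -/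
theorem kap_one [IsAlgClosed Ω] (h : CMA F A B Om j act) (hV : GV A B V) {p : ℕ} (hp : p.Prime) (hv : V.valuation (p : Ω) < 1)
    (hβ : Prime (p : 𝓞 F)) (s : Ω ≃ₐ[F] Ω) (hd : Dec V s) (hs : ∀ x ∈ V, V.valuation (s x - x ^ (p ^ 2)) < 1)
    (hc : Nat.card (Ms hV s hd) = (p + 1) ^ 2) {κ : Ω} (hκ : V.valuation κ = 1)
    (hx : ∀ X : Pt (WAB A B) Ω, ¬ Ker V X → V.valuation (κ * xc (p • X) - xc X ^ (p ^ 2)) < 1) :
    V.valuation (κ - 1) < 1 := by
  have hp2 : p ≠ 2 := by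
    intro h2
    rw [h2, Nat.cast_ofNat, hV.two] at hv
    exact lt_irrefl _ hv
  have hodd : Odd p := hp.odd_of_ne_two hp2
  by_contra hcon0
  have hcon : V.valuation (κ - 1) = 1 := by
    refine le_antisymm ?_ (not_lt.1 hcon0)
    exact (V.valuation.map_sub _ _).trans (max_le hκ.le (map_one _).le)
  have hq0 : ∀ X : Pt (WAB A B) Ω, (X : Pt (WAB A B) Ω ⧸ kerG hV) = 0 ↔ Ker V X :=
    fun X => QuotientAddGroup.eq_zero_iff X
  have hfin : Finite (Ms hV s hd) := Nat.finite_of_card_ne_zero (by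
    rw [hc]
    positivity)
  have h4 : 4 ∣ Nat.card (Ms hV s hd) := by
    rw [hc]
    obtain ⟨k, hk⟩ := hodd
    refine ⟨(k + 1) ^ 2, ?_⟩
    rw [hk]
    ring
  have hone : ∀ x y : Ms hV s hd, 2 • x = 0 → 2 • y = 0 → x ≠ 0 → y ≠ 0 → x = y := by
    rintro ⟨_, X, rfl, hX⟩ ⟨_, Y, rfl, hY⟩ hx2 hy2 hx0 hy0
    have hXk : ¬ Ker V X := fun hk => hx0 (Subtype.ext ((hq0 X).2 hk))
    have hYk : ¬ Ker V Y := fun hk => hy0 (Subtype.ext ((hq0 Y).2 hk))
    have hX2 : Ker V (X + X) := by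
      rw [← hq0, ← two_nsmul]
      exact congrArg Subtype.val hx2
    have hY2 : Ker V (Y + Y) := by
      rw [← hq0, ← two_nsmul]
      exact congrArg Subtype.val hy2
    obtain ⟨T, t1, t2, t3, t4⟩ := f4_two h hV hodd s hd hs hκ hx hcon hXk hX hX2
    obtain ⟨T', t1', t2', t3', t4'⟩ := f4_two h hV hodd s hd hs hκ hx hcon hYk hY hY2
    have hTT : Ker V (T - T') := by
      rcases cls_x hV t3 t3' (V.valuation.map_sub_lt t4 t4') with hk | hk
      · exact hk
      · have e : T - T' = (T + T') - (T' + T') := by abel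
        rw [e, t1', sub_zero]
        exact hk
    refine Subtype.ext ?_
    have e : X - Y = (X - T) + (T - T') - (Y - T') := by abel
    have hXY : Ker V (X - Y) := by
      rw [e]
      exact ksub hV (kadd hV t2 hTT) t2'
    have := (hq0 _).2 hXY
    exact sub_eq_zero.1 this
  obtain ⟨⟨_, Y, rfl, hY⟩, z4, z2⟩ := f3 h4 hone
  have hY4 : Ker V (4 • Y) := by
    rw [← hq0]
    exact congrArg Subtype.val z4
  have hY2 : ¬ Ker V (2 • Y) := fun hk => z2 (Subtype.ext ((hq0 _).2 hk))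
  have hYk : ¬ Ker V Y := fun hk => hY2 (knsmul hV hk 2)
  have hYs2 : Ker V (ac (WAB A B) s (2 • Y) - 2 • Y) := by
    have e : ac (WAB A B) s (2 • Y) - 2 • Y = 2 • (ac (WAB A B) s Y - Y) := by
      rw [map_nsmul, nsmul_sub]
    rw [e]
    exact knsmul hV hY 2
  have hYp : V.valuation (xc (p • Y) - xc Y) < 1 := by
    obtain ⟨k, hk⟩ := hodd
    rcases Nat.even_or_odd k with ⟨m, hm⟩ | ⟨m, hm⟩
    · have e : p • Y - Y = m • (4 • Y) := by
        have e1 : p • Y = (4 * m + 1) • Y := by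
          rw [hk, hm]
          congr 1
          ring
        rw [e1, add_nsmul, one_nsmul, add_sub_cancel_right, mul_nsmul]
      have hk1 : Ker V (p • Y - Y) := by
        rw [e]
        exact knsmul hV hY4 m
      exact (cls_conv hV hYk hk1).2.1
    · have e : p • Y - -Y = (m + 1) • (4 • Y) := by
        have e1 : p • Y + Y = (4 * (m + 1)) • Y := by
          rw [← succ_nsmul, hk, hm]
          congr 1
          ring
        rw [sub_neg_eq_add, e1, mul_nsmul]
      have hk1 : Ker V (p • Y - -Y) := by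
        rw [e]
        exact knsmul hV hY4 (m + 1)
      have hYn : ¬ Ker V (-Y) := fun hk' => hYk (by
        have := kneg hk'
        rwa [neg_neg] at this)
      have h5 := (cls_conv hV hYn hk1).2.1
      rwa [xc_neg] at h5
  have hYx : V.valuation (xc Y) < 1 := f4_small hV s hs hκ hx hcon hYk hY hYp
  obtain ⟨T, t1, t2, t3, t4⟩ := f4_two h hV hodd s hd hs hκ hx hcon hY2 hYs2 (by
    rw [← two_nsmul, ← mul_nsmul]
    exact hY4)
  apply hY2
  rcases cls_x hV hYk t3 (V.valuation.map_sub_lt hYx t4) with hk | hk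
  · have e : 2 • Y = 2 • (Y - T) + (T + T) := by
      rw [nsmul_sub, two_nsmul T]
      abel
    rw [e, t1, add_zero]
    exact knsmul hV hk 2
  · have e : 2 • Y = 2 • (Y + T) - (T + T) := by
      rw [nsmul_add, two_nsmul T]
      abel
    rw [e, t1, sub_zero]
    exact knsmul hV hk 2

end H16S
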