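import Mathlib
import Pool.Agent.Lib.H55K.G8B
import Pool.Agent.Lib.H55K.G5E
import Pool.Agent.Lib.H55K.G9
import Pool.Agent.Lib.H16S.F4

/-! # H16S, chunk F5 (M): the sign -/

open NumberField IsDedekindDomain WeierstrassCurve

namespace H16S

open H55P (IQ Pt ac Inert Dec Nm)
open H35P (WAB Ker tt)
open H55K

variable {F : Type} [Field F] [NumberField F] [IQ F] {A B : F} {Om : ℂ} {Ω : Type} [Field Ω] [DecidableEq Ω]
  [Algebra F Ω] {j : Ω →+* ℂ} {act : 𝓞 F →+* AddMonoid.End (Pt (WAB A B) Ω)} {V : ValuationSubring Ω}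

/-- Chunk F5 (M). PROOF. κ = 1 modulo V: for X not in Ker, p X is not in Ker (ker_red with β = p; act p X = p • X: map_natCast) and x(pX) is congruent to x(X)^q, congruent to s(x(X)) = x(sX); so (cls_x) Ker (sX - pX) or Ker (sX + pX); for X in Ker both hold. two_sub (H55K/G8B.lean) with K = kerG, f = ac s, g = multiplication by p.
Suppose s X - p X in Ker for all X. On Ms: (p - 1) c = 0. If an odd prime l divides p + 1: an element of order l (Cauchy) gives l | p - 1, l | 2: contradiction. So p + 1 = 2^k, k ≥ 3 (p ≥ 5), p - 1 is twice an odd number, the order of every c in Ms is a power of 2 dividing p - 1, so 2 c = 0; cls_card with b = 2 (Nm 2 = 4) gives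
(p+1)² ≤ 4: contradiction. -/
theorem sup_one [IsAlgClosed Ω] (h : CMA F A B Om j act) (hV : GV A B V) {p : ℕ} (hp : p.Prime) (hv : V.valuation (p : Ω) < 1)
    (hβ : Prime (p : 𝓞 F)) (s : Ω ≃ₐ[F] Ω) (hd : Dec V s) (hs : ∀ x ∈ V, V.valuation (s x - x ^ (p ^ 2)) < 1)
    (hc : Nat.card (Ms hV s hd) = (p + 1) ^ 2) {κ : Ω} (hκ : V.valuation κ = 1) (hκ1 : V.valuation (κ - 1) < 1)
    (hx : ∀ X : Pt (WAB A B) Ω, ¬ Ker V X → V.valuation (κ * xc (p • X) - xc X ^ (p ^ 2)) < 1)
    (X : Pt (WAB A B) Ω) : Ker V (ac (WAB A B) s X + p • X) := by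
  have hakn : ∀ m : ℕ, ak Ω ((m : ℕ) : 𝓞 F) = (m : Ω) := by
    intro m
    rw [← g9h_eq]
    exact map_natCast _ _
  have hactn : ∀ (m : ℕ) (Y : Pt (WAB A B) Ω), act ((m : ℕ) : 𝓞 F) Y = m • Y := by
    intro m Y
    rw [map_natCast]
    exact AddMonoid.End.natCast_apply m Y
  have hv' : V.valuation (ak Ω ((p : ℕ) : 𝓞 F)) < 1 := by
    rw [hakn]
    exact hv
  have hkey : ∀ Y : Pt (WAB A B) Ω, ¬ Ker V Y →
      Ker V (ac (WAB A B) s Y - p • Y) ∨ Ker V (ac (WAB A B) s Y + p • Y) := by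
    intro Y hY
    have n1 : ¬ Ker V (p • Y) := by
      intro h'
      apply hY
      rw [← hactn] at h'
      exact ker_red h hV hβ hv' h'
    have n3 : ¬ Ker V (ac (WAB A B) s Y) := fun h' => hY ((ker_ac s hd).1 h')
    refine cls_x hV n3 n1 ?_
    have v1 := hx Y hY
    have v2 : V.valuation ((κ - 1) * xc (p • Y)) < 1 := by
      rw [map_mul]
      exact mul_lt_one_of_lt_of_le hκ1 (not_ker V n1).2
    have v3 : V.valuation (s (xc Y) - xc Y ^ (p ^ 2)) < 1 :=
      hs _ ((V.valuation_le_one_iff _).1 (not_ker V hY).2)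
    have e : xc (ac (WAB A B) s Y) - xc (p • Y) = (s (xc Y) - xc Y ^ (p ^ 2)) -
        ((κ * xc (p • Y) - xc Y ^ (p ^ 2)) - (κ - 1) * xc (p • Y)) := by
      rw [xc_ac]
      ring
    rw [e]
    exact (V.valuation.map_sub_lt v3 (V.valuation.map_sub_lt v1 v2))
  have hall : ∀ Y : Pt (WAB A B) Ω, (ac (WAB A B) s Y - nsmulAddMonoidHom p Y ∈ kerG hV) ∨
      (ac (WAB A B) s Y + nsmulAddMonoidHom p Y ∈ kerG hV) := by
    intro Y
    by_cases hY : Ker V Y
    · left
      exact ksub hV ((ker_ac s hd).2 hY) (knsmul hV hY p)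
    · exact hkey Y hY
  rcases two_sub (kerG hV) (ac (WAB A B) s : Pt (WAB A B) Ω →+ Pt (WAB A B) Ω) (nsmulAddMonoidHom p) hall with h5 | h5
  · exfalso
    -- every class of Ms is killed by four
    have h4 : ∀ Y : Pt (WAB A B) Ω, Ker V (ac (WAB A B) s Y - Y) → 4 • Y ∈ kerG hV := by
      intro Y hY
      have h6 : p • Y - Y ∈ kerG hV := by
        have e : p • Y - Y = (ac (WAB A B) s Y - Y) - (ac (WAB A B) s Y - nsmulAddMonoidHom p Y) := by
          change p • Y - Y = (ac (WAB A B) s Y - Y) - (ac (WAB A B) s Y - p • Y)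
          abel
        rw [e]
        exact AddSubgroup.sub_mem _ hY (h5 Y)
      have h7 : (p + 1) ^ 2 • Y ∈ kerG hV := by
        have h8 := card_nsmul_eq_zero' (x := (⟨(Y : Pt (WAB A B) Ω ⧸ kerG hV), Y, rfl, hY⟩ : Ms hV s hd))
        rw [hc] at h8
        have h9 := congrArg (fun z : Ms hV s hd => (z : Pt (WAB A B) Ω ⧸ kerG hV)) h8
        have h10 : (((p + 1) ^ 2 • Y : Pt (WAB A B) Ω) : Pt (WAB A B) Ω ⧸ kerG hV) = 0 := h9
        exact (QuotientAddGroup.eq_zero_iff _).1 h10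
      have h11 : (p + 3) • (p • Y - Y) ∈ kerG hV := AddSubgroup.nsmul_mem _ h6 _
      have e : 4 • Y = (p + 1) ^ 2 • Y - (p + 3) • (p • Y - Y) := by
        rw [nsmul_sub, ← mul_nsmul', eq_sub_iff_add_eq, ← add_sub_assoc, sub_eq_iff_eq_add, ← add_nsmul,
          ← add_nsmul]
        apply congrArg (fun m : ℕ => m • Y)
        ring
      rw [e]
      exact AddSubgroup.sub_mem _ h7 h11
    have hV4 : V.valuation (ak Ω ((4 : ℕ) : 𝓞 F)) = 1 := by
      rw [hakn]
      have e : ((4 : ℕ) : Ω) = 2 ^ 2 := by norm_num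
      rw [e, map_pow, hV.two, one_pow]
    have hcc := cls_card h hV hV4
    rw [Nm_nat] at hcc
    have hfin : Finite {c : Pt (WAB A B) Ω ⧸ kerG hV // ∃ X : Pt (WAB A B) Ω,
        (X : Pt (WAB A B) Ω ⧸ kerG hV) = c ∧ Ker V (act ((4 : ℕ) : 𝓞 F) X)} := by
      apply Nat.finite_of_card_ne_zero
      rw [hcc]
      norm_num
    have hle : Nat.card (Ms hV s hd) ≤ Nat.card {c : Pt (WAB A B) Ω ⧸ kerG hV // ∃ X : Pt (WAB A B) Ω,
        (X : Pt (WAB A B) Ω ⧸ kerG hV) = c ∧ Ker V (act ((4 : ℕ) : 𝓞 F) X)} := by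
      refine Nat.card_le_card_of_injective (fun c => ⟨c.1, ?_⟩) ?_
      · obtain ⟨Y, hY1, hY2⟩ := c.2
        refine ⟨Y, hY1, ?_⟩
        rw [hactn]
        exact h4 Y hY2
      · intro c c' hcc'
        have h12 := congrArg Subtype.val hcc'
        exact Subtype.ext h12
    rw [hcc, hc] at hle
    have hp3 : p ≤ 3 := by nlinarith
    have hp2 := hp.two_le
    have hp' : p = 2 ∨ p = 3 := by omega
    rcases hp' with rfl | rfl
    · have := hV.two
      push_cast at hv
      rw [this] at hv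
      exact lt_irrefl _ hv
    · have := hV.three
      push_cast at hv
      rw [this] at hv
      exact lt_irrefl _ hv
  · exact h5 X

end H16S
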