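import Mathlib
import Pool.Agent.Lib.H55K.G8C
import Pool.Agent.Lib.H16S.F2
import Pool.Agent.Lib.H16S.F5

/-! # H16S, chunk F6 (S/M): the supersingular relation from the number of points -/

open NumberField IsDedekindDomain WeierstrassCurve

namespace H16S

open H55P (IQ Pt ac Inert Dec Nm)
open H35P (WAB Ker tt)
open H55K

variable {F : Type} [Field F] [NumberField F] [IQ F] {A B : F} {Om : ℂ} {Ω : Type} [Field Ω] [DecidableEq Ω]
  [Algebra F Ω] {j : Ω →+* ℂ} {act : 𝓞 F →+* AddMonoid.End (Pt (WAB A B) Ω)} {V : ValuationSubring Ω}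

/-- Chunk F6 (S/M). PROOF. V above p: V(a) < 1 for a in v = (p) (V(p) < 1, V(a) ≤ 1 for integers: ak_le). Nm (p : 𝓞 F) = p² (Nm_nat), Ideal.absNorm v = p². Dec V s: g8c_dec (or H55K.g8c_dec in G8C.lean). red_card: |Ms| = (p+1)². frob_x2 with β = p, l = p, f = 2 (ak Ω p = p, act p X = p • X), kap_one, sup_one. -/
theorem sup_of_card [IsAlgClosed Ω] (h : CMA F A B Om j act) (W₀ : WeierstrassCurve (𝓞 F))
    (hA : A = -(algebraMap (𝓞 F) F W₀.c₄) / 48) (hB : B = -(algebraMap (𝓞 F) F W₀.c₆) / 864) {p : ℕ} (hp : p.Prime)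
    (hβ : Prime (p : 𝓞 F)) (hgood : ∀ V : ValuationSubring Ω, V.valuation (p : Ω) < 1 → GV A B V)
    (v : HeightOneSpectrum (𝓞 F)) (hv : v.asIdeal = Ideal.span {(p : 𝓞 F)}) (hΔ : W₀.Δ ∉ v.asIdeal)
    (hc : Nat.card (W₀⁄(𝓞 F ⧸ v.asIdeal)).toAffine.Point = (p + 1) ^ 2) : Sup act p := by
  refine ⟨fun V hVp s hs X => ?_⟩
  have hG : GV A B V := hgood V hVp
  have hak : ak Ω (p : 𝓞 F) = (p : Ω) :=
    (congrArg (algebraMap F Ω) (map_natCast (algebraMap (𝓞 F) F) p)).trans (map_natCast _ p)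
  have hNm : Nm (p : 𝓞 F) = p ^ 2 := Nm_nat p
  have habs : Ideal.absNorm v.asIdeal = p ^ 2 := by
    rw [hv]
    exact hNm
  have hd : Dec V s := g8c_dec (pow_pos hp.pos 2) s hs
  have hv' : ∀ a : 𝓞 F, a ∈ v.asIdeal → V.valuation (ak Ω a) < 1 := by
    intro a ha
    rw [hv, Ideal.mem_span_singleton] at ha
    obtain ⟨c, rfl⟩ := ha
    have e : ak Ω ((p : 𝓞 F) * c) = ak Ω (p : 𝓞 F) * ak Ω c :=
      (congrArg (algebraMap F Ω) (map_mul (algebraMap (𝓞 F) F) _ _)).trans (map_mul _ _ _)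
    rw [e, hak, map_mul]
    exact mul_lt_one_of_lt_of_le hVp (ak_le V c)
  have hc1 := red_card hG W₀ hA hB v hΔ hv' s (by rw [habs]; exact hs)
  have hMs : Nat.card (Ms hG s hd) = (p + 1) ^ 2 := by
    rw [← hc, hc1]
    rfl
  obtain ⟨κ, hκ, hx, -, -⟩ := frob_x2 h hG hβ (by rw [hak]; exact hVp) hp hVp (by norm_num : 0 < 2) hNm
  have hx' : ∀ X : Pt (WAB A B) Ω, ¬ Ker V X → V.valuation (κ * xc (p • X) - xc X ^ (p ^ 2)) < 1 := by
    intro X hX
    have h1 := hx X hX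
    rw [hNm] at h1
    have e : act (p : 𝓞 F) X = p • X := by
      rw [map_natCast]
      exact AddMonoid.End.natCast_apply p X
    rw [e] at h1
    exact h1
  exact sup_one h hG hp hVp hβ s hd hs hMs hκ (kap_one h hG hp hVp hβ s hd hs hMs hκ hx') hx' X

end H16S
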