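import Mathlib
import Pool.Agent.Lib.H35K.Defs

/-!
# H16S: abstract ramified towers and formal groups (definitions)

L is a field with an ultrametric norm, H 0 ≤ H 1 ≤ .. subfields, g an isometric automorphism: H n is totally ramified of degree p^n over H 0,
cyclic with generator g, the residue field of H 0 has p^2 elements (representatives r). G is a group (the kernel of reduction of the supersingular elliptic curve) with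
the coordinate t, E n the subgroup of level n. See PROOF.md.
-/

namespace H16S

/-- The trace from level n + 1 to level n. -/
noncomputable def trc {L : Type} [Field L] (p : ℕ) (g : RingAut L) (n : ℕ) (x : L) : L :=
  ∑ i ∈ Finset.range p, (g ^ (i * p ^ n)) x

/-- The trace of points from level n + 1 to level n. -/
noncomputable def trG {G : Type} [AddCommGroup G] (p : ℕ) (γ : AddMonoid.End G) (n : ℕ) (P : G) : G :=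
  ∑ i ∈ Finset.range p, (γ ^ (i * p ^ n)) P

/-- The tower of fields. -/
structure Twr (p : ℕ) {L : Type} [NormedField L] [IsUltrametricDist L] (H : ℕ → Subfield L) (g : RingAut L)
    (π : ℕ → L) (r : Fin (p ^ 2) → L) : Prop where
  pr : p.Prime
  five : 5 ≤ p
  lt : ‖(p : L)‖ < 1
  ne : (p : L) ≠ 0
  mono : ∀ n, H n ≤ H (n + 1)
  iso : ∀ x, ‖g x‖ = ‖x‖
  gH : ∀ n, ∀ x ∈ H n, g x ∈ H n
  fix : ∀ n, ∀ x ∈ H n, (g ^ p ^ n) x = x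
  down : ∀ n, ∀ x ∈ H (n + 1), (g ^ p ^ n) x = x → x ∈ H n
  piH : ∀ n, π n ∈ H n
  piv : ∀ n, ‖π n‖ ^ p ^ n = ‖(p : L)‖
  val : ∀ n, ∀ x ∈ H n, x ≠ 0 → ∃ k : ℤ, ‖x‖ = ‖π n‖ ^ k
  rH : ∀ i, r i ∈ H 0 ∧ ‖r i‖ ≤ 1
  rs : ∀ i j, i ≠ j → ‖r i - r j‖ = 1
  res : ∀ n, ∀ x ∈ H n, ‖x‖ ≤ 1 → ∃ i, ‖x - r i‖ < 1
  fr : ∀ x ∈ H 0, ‖x‖ ≤ 1 → ‖x ^ p ^ 2 - x‖ < 1
  pip : ∀ n, ‖π (n + 1) ^ p - π n‖ ≤ ‖(p : L)‖
  pi1 : ‖π 1 ^ p - p‖ < ‖(p : L)‖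
  tr0 : ∀ n j, ‖trc p g n (π (n + 1) ^ j)‖ ≤ ‖(p : L)‖
  tr2 : ∀ n j, 2 ≤ j → ‖trc p g n (π (n + 1) ^ j)‖ < ‖(p : L)‖
  tr1 : ∀ n, ‖trc p g n (π (n + 1)) + p‖ < ‖(p : L)‖

/-- The group of points. -/
structure Fgp (p : ℕ) {L : Type} [NormedField L] [IsUltrametricDist L] (H : ℕ → Subfield L) (g : RingAut L)
    (r : Fin (p ^ 2) → L) {G : Type} [AddCommGroup G] (t : G → L) (γ : AddMonoid.End G) (E : ℕ → AddSubgroup G)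
    (al : Fin (p ^ 2) → AddMonoid.End G) : Prop where
  lt : ∀ P, ‖t P‖ < 1
  zero : ∀ P, t P = 0 ↔ P = 0
  neg : ∀ P, t (-P) = -t P
  sub : ∀ P Q, ‖t (P - Q) - (t P - t Q)‖ ≤ ‖t P - t Q‖ * max ‖t P‖ ‖t Q‖ ^ 2
  mem : ∀ n P, P ∈ E n ↔ t P ∈ H n
  surj : ∀ n, ∀ z ∈ H n, ‖z‖ < 1 → ∃ P ∈ E n, t P = z
  act : ∀ P, t (γ P) = g (t P)
  mul : ∀ P, ‖t (p • P) - p * t P + t P ^ p ^ 2‖ ≤ ‖(p : L)‖ * ‖t P‖ ^ 2
  div : ∀ n, ∀ R ∈ E n, ‖t R‖ ≤ ‖(p : L)‖ ^ 2 → ∃ P ∈ E n, ‖t P‖ ≤ ‖(p : L)‖ ∧ p • P = R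
  alt : ∀ i P, ‖t (al i P) - r i * t P‖ ≤ ‖t P‖ ^ 2
  alc : ∀ i P, al i (γ P) = γ (al i P)
  ale : ∀ i n, ∀ P ∈ E n, al i P ∈ E n

end H16S
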