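import Mathlib
import Pool.Agent.Lib.H16S.LD

/-! # H16S, chunk LA (M): values in the tower -/

namespace H16S

variable {p : ℕ} {L : Type} [NormedField L] [IsUltrametricDist L] {H : ℕ → Subfield L} {g : RingAut L} {π : ℕ → L}
  {r : Fin (p ^ 2) → L}

theorem la_mono (T : Twr p H g π r) {m n : ℕ} (h : m ≤ n) : H m ≤ H n :=
  monotone_nat_of_le_succ T.mono h

theorem la_npos (T : Twr p H g π r) : 0 < ‖(p : L)‖ := norm_pos_iff.2 T.ne

/-- Chunk LA (S). -/
theorem la_pos (T : Twr p H g π r) (n : ℕ) : 0 < ‖π n‖ ∧ ‖π n‖ < 1 := by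
  have h := T.piv n
  have hp := la_npos T
  have hpn : p ^ n ≠ 0 := pow_ne_zero _ T.pr.ne_zero
  constructor
  · rcases (norm_nonneg (π n)).lt_or_eq with h1 | h1
    · exact h1
    · rw [← h1, zero_pow hpn] at h
      exact absurd h hp.ne
  · by_contra hc
    rw [not_lt] at hc
    have := one_le_pow₀ (n := p ^ n) hc
    rw [h] at this
    exact absurd T.lt (not_lt.2 this)

/-- Chunk LA (S/M). ‖π (n+1)‖^p = ‖π n‖: both are positive and have the same p^n-th power; ‖π 0‖ = ‖p‖. -/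
theorem la_succ (T : Twr p H g π r) (n : ℕ) : ‖π (n + 1)‖ ^ p = ‖π n‖ ∧ ‖π 0‖ = ‖(p : L)‖ := by
  have hpn : p ^ n ≠ 0 := pow_ne_zero _ T.pr.ne_zero
  constructor
  · have h1 : (‖π (n + 1)‖ ^ p) ^ p ^ n = ‖π n‖ ^ p ^ n := by
      rw [← pow_mul, T.piv n, ← T.piv (n + 1), pow_succ, mul_comm p]
    exact (pow_left_inj₀ (pow_nonneg (norm_nonneg _) _) (norm_nonneg _) hpn).1 h1
  · have := T.piv 0
    rwa [pow_zero, pow_one] at this

/-- Chunk LA (S/M). The values are discrete (T.val). -/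
theorem la_step (T : Twr p H g π r) {n : ℕ} {x : L} (hx : x ∈ H n) {k : ℕ} (h : ‖x‖ < ‖π n‖ ^ k) :
    ‖x‖ ≤ ‖π n‖ ^ (k + 1) := by
  obtain ⟨h0, h1⟩ := la_pos T n
  by_cases hx0 : x = 0
  · rw [hx0, norm_zero]
    positivity
  obtain ⟨j, hj⟩ := T.val n x hx hx0
  rw [hj, ← zpow_natCast, zpow_lt_zpow_iff_right_of_lt_one₀ h0 h1] at h
  rw [hj, ← zpow_natCast, zpow_le_zpow_iff_right_of_lt_one₀ h0 h1]
  push_cast
  omega

/-- Chunk LA (S). g is the identity on H 0 (T.fix 0); powers of g are isometries and preserve H n. -/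
theorem la_g (T : Twr p H g π r) (k : ℕ) : (∀ x, ‖(g ^ k) x‖ = ‖x‖) ∧ (∀ n, ∀ x ∈ H n, (g ^ k) x ∈ H n) ∧
    ∀ x ∈ H 0, (g ^ k) x = x := by
  have hs : ∀ (k : ℕ) (x : L), (g ^ (k + 1)) x = (g ^ k) (g x) := by
    intro k x
    rw [pow_succ]
    rfl
  refine ⟨?_, ?_, ?_⟩
  · induction k with
    | zero => intro x; rfl
    | succ k ih => intro x; rw [hs, ih, T.iso]
  · intro n
    induction k with
    | zero => intro x hx; exact hx
    | succ k ih => intro x hx; rw [hs]; exact ih _ (T.gH n x hx)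
  · induction k with
    | zero => intro x _; rfl
    | succ k ih =>
      intro x hx
      have h1 := T.fix 0 x hx
      rw [pow_zero, pow_one] at h1
      rw [hs, h1, ih x hx]

/-- Chunk LA (S/M). The leading coefficient: x/π^k is integral (T.res); its residue is a unit if ‖x‖ = ‖π‖^k. -/
theorem la_lead (T : Twr p H g π r) {n : ℕ} {x : L} (hx : x ∈ H n) {k : ℕ} (h : ‖x‖ ≤ ‖π n‖ ^ k) :
    ∃ i, ‖x - r i * π n ^ k‖ ≤ ‖π n‖ ^ (k + 1) ∧ (‖x‖ = ‖π n‖ ^ k → ‖r i‖ = 1) := by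
  obtain ⟨h0, h1⟩ := la_pos T n
  have hpi : π n ≠ 0 := norm_pos_iff.1 h0
  have hpk : 0 < ‖π n‖ ^ k := pow_pos h0 k
  have hy : x / π n ^ k ∈ H n := div_mem hx (pow_mem (T.piH n) k)
  have hy1 : ‖x / π n ^ k‖ ≤ 1 := by
    rw [norm_div, norm_pow]
    exact (div_le_one hpk).2 h
  obtain ⟨i, hi⟩ := T.res n _ hy hy1
  refine ⟨i, ?_, ?_⟩
  · apply la_step T
    · exact sub_mem hx (mul_mem (la_mono T (Nat.zero_le n) (T.rH i).1) (pow_mem (T.piH n) k))
    · have e : x - r i * π n ^ k = (x / π n ^ k - r i) * π n ^ k := by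
        field_simp
      rw [e, norm_mul, norm_pow]
      exact mul_lt_of_lt_one_left hpk hi
  · intro hxe
    have hy2 : ‖x / π n ^ k‖ = 1 := by
      rw [norm_div, norm_pow, hxe]
      exact div_self hpk.ne'
    have e : r i = x / π n ^ k - (x / π n ^ k - r i) := by ring
    rw [e, sub_eq_add_neg]
    have h3 : ‖-(x / π n ^ k - r i)‖ < ‖x / π n ^ k‖ := by
      rw [norm_neg, hy2]
      exact hi
    rw [IsUltrametricDist.norm_add_eq_max_of_norm_ne_norm h3.ne', max_eq_left h3.le, hy2]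

/-- Chunk LA (M). Expansions from the order l to the order m: induction on m with la_lead (x minus the sum lies in H n). -/
theorem la_exp (T : Twr p H g π r) {n : ℕ} {x : L} (hx : x ∈ H n) {l m : ℕ} (hl : l ≤ m) (h : ‖x‖ ≤ ‖π n‖ ^ l) :
    ∃ c : ℕ → Fin (p ^ 2), ‖x - ∑ j ∈ Finset.Ico l m, r (c j) * π n ^ j‖ ≤ ‖π n‖ ^ m := by
  induction m, hl using Nat.le_induction with
  | base =>
    refine ⟨fun _ => ⟨0, pow_pos T.pr.pos 2⟩, ?_⟩
    rw [Finset.Ico_self, Finset.sum_empty, sub_zero]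
    exact h
  | succ m hl ih =>
    obtain ⟨c, hc⟩ := ih
    have hmem : x - ∑ j ∈ Finset.Ico l m, r (c j) * π n ^ j ∈ H n := by
      apply sub_mem hx
      apply sum_mem
      intro j _
      exact mul_mem (la_mono T (Nat.zero_le n) (T.rH _).1) (pow_mem (T.piH n) j)
    obtain ⟨i, hi, _⟩ := la_lead T hmem hc
    refine ⟨Function.update c m i, ?_⟩
    rw [Finset.sum_Ico_succ_top hl, Function.update_self]
    have e : ∑ j ∈ Finset.Ico l m, r (Function.update c m i j) * π n ^ j =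
        ∑ j ∈ Finset.Ico l m, r (c j) * π n ^ j := by
      apply Finset.sum_congr rfl
      intro j hj
      rw [Function.update_of_ne (Finset.mem_Ico.1 hj).2.ne]
    rw [e, ← sub_sub]
    exact hi

end H16S
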