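import Mathlib
import Pool.Agent.Lib.H16S.LA

/-! # H16S, chunk LB (M): traces in the tower -/

namespace H16S

variable {p : ℕ} {L : Type} [NormedField L] [IsUltrametricDist L] {H : ℕ → Subfield L} {g : RingAut L} {π : ℕ → L}
  {r : Fin (p ^ 2) → L}

theorem lbx_sum_le {ι : Type} (S : Finset ι) (f : ι → L) {B : ℝ} (hB : 0 ≤ B) (h : ∀ i ∈ S, ‖f i‖ ≤ B) :
    ‖∑ i ∈ S, f i‖ ≤ B := by
  classical
  induction S using Finset.induction_on with
  | empty => rw [Finset.sum_empty, norm_zero]; exact hB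
  | insert a s ha ih =>
    rw [Finset.sum_insert ha]
    exact (IsUltrametricDist.norm_add_le_max _ _).trans
      (max_le (h a (Finset.mem_insert_self a s)) (ih fun i hi => h i (Finset.mem_insert_of_mem hi)))

theorem lbx_sum_lt {ι : Type} (S : Finset ι) (f : ι → L) {B : ℝ} (hB : 0 < B) (h : ∀ i ∈ S, ‖f i‖ < B) :
    ‖∑ i ∈ S, f i‖ < B := by
  classical
  induction S using Finset.induction_on with
  | empty => rw [Finset.sum_empty, norm_zero]; exact hB
  | insert a s ha ih =>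
    rw [Finset.sum_insert ha]
    exact (IsUltrametricDist.norm_add_le_max _ _).trans_lt
      (max_lt (h a (Finset.mem_insert_self a s)) (ih fun i hi => h i (Finset.mem_insert_of_mem hi)))

theorem lbx_mono (T : Twr p H g π r) {m n : ℕ} (h : m ≤ n) : H m ≤ H n :=
  monotone_nat_of_le_succ T.mono h

/-- Chunk LB (S). The trace is additive and linear over H 0. -/
theorem lb_add (T : Twr p H g π r) (n : ℕ) (x y : L) : trc p g n (x + y) = trc p g n x + trc p g n y ∧
    trc p g n (x - y) = trc p g n x - trc p g n y ∧ ∀ c ∈ H 0, trc p g n (c * x) = c * trc p g n x := by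
  refine ⟨?_, ?_, fun c hc => ?_⟩
  · unfold trc
    rw [← Finset.sum_add_distrib]
    exact Finset.sum_congr rfl fun i _ => map_add _ _ _
  · unfold trc
    rw [← Finset.sum_sub_distrib]
    exact Finset.sum_congr rfl fun i _ => map_sub _ _ _
  · unfold trc
    rw [Finset.mul_sum]
    refine Finset.sum_congr rfl fun i _ => ?_
    rw [map_mul, (la_g T (i * p ^ n)).2.2 c hc]

/-- Chunk LB (S). A trivial bound. -/
theorem lb_le (T : Twr p H g π r) (n : ℕ) (x : L) : ‖trc p g n x‖ ≤ ‖x‖ := by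
  unfold trc
  exact lbx_sum_le _ _ (norm_nonneg x) fun i _ => ((la_g T (i * p ^ n)).1 x).le

theorem lbx_trc_sum (T : Twr p H g π r) (n : ℕ) {ι : Type} (S : Finset ι) (f : ι → L) :
    trc p g n (∑ i ∈ S, f i) = ∑ i ∈ S, trc p g n (f i) := by
  unfold trc
  rw [Finset.sum_comm]
  exact Finset.sum_congr rfl fun i _ => map_sum _ _ _

/-- Chunk LB (S/M). The trace of an element of H (n+1) lies in H n: T.down; g^(p^n) permutes the terms cyclically because g^(p^(n+1)) x = x. -/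
theorem lb_mem (T : Twr p H g π r) {n : ℕ} {x : L} (hx : x ∈ H (n + 1)) : trc p g n x ∈ H n := by
  refine T.down n _ ?_ ?_
  · unfold trc
    exact Subfield.sum_mem _ fun i _ => (la_g T (i * p ^ n)).2.1 _ x hx
  · unfold trc
    rw [map_sum]
    have h1 : ∀ i, (g ^ p ^ n) ((g ^ (i * p ^ n)) x) = (g ^ ((i + 1) * p ^ n)) x := by
      intro i
      have h2 : (i + 1) * p ^ n = p ^ n + i * p ^ n := by ring
      rw [h2, pow_add]
      rfl
    simp only [h1]
    have h3 := Finset.sum_range_succ (fun i => (g ^ (i * p ^ n)) x) p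
    have h4 := Finset.sum_range_succ' (fun i => (g ^ (i * p ^ n)) x) p
    rw [h4] at h3
    have h5 : (g ^ (p * p ^ n)) x = x := by
      have h6 := T.fix (n + 1) x hx
      rwa [pow_succ'] at h6
    rw [h5] at h3
    have h6 : (g ^ (0 * p ^ n)) x = x := by
      rw [zero_mul, pow_zero]
      rfl
    rw [h6] at h3
    exact add_right_cancel h3

/-- Chunk LB (M). The trace of integral elements is divisible by p. PROOF. c = 1 first: la_exp with l = 0, m = p^(n+1): x = sum of r π^j + δ, ‖δ‖ ≤ ‖p‖; lb_add, T.tr0, lb_le. In general apply it to x/c (c ≠ 0; for c = 0 both sides are 0). -/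
theorem lb_tr (T : Twr p H g π r) {n : ℕ} {x : L} (hx : x ∈ H (n + 1)) {c : L} (hc : c ∈ H 0) (h : ‖x‖ ≤ ‖c‖) :
    ‖trc p g n x‖ ≤ ‖(p : L)‖ * ‖c‖ := by
  by_cases h0 : c = 0
  · rw [h0, norm_zero] at h
    have hx0 : x = 0 := norm_le_zero_iff.1 h
    rw [hx0, h0, norm_zero, mul_zero]
    exact (lb_le T n 0).trans (norm_zero (E := L)).le
  · have hc' : 0 < ‖c‖ := norm_pos_iff.2 h0
    have hx' : x / c ∈ H (n + 1) := Subfield.div_mem _ hx (lbx_mono T (Nat.zero_le _) hc)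
    have hn : ‖x / c‖ ≤ ‖π (n + 1)‖ ^ 0 := by
      rw [pow_zero, norm_div]
      exact (div_le_one hc').2 h
    obtain ⟨d, hd⟩ := la_exp T hx' (Nat.zero_le (p ^ (n + 1))) hn
    rw [T.piv] at hd
    have h1 : ‖trc p g n (x / c)‖ ≤ ‖(p : L)‖ := by
      have h2 : trc p g n (x / c) = trc p g n (x / c - ∑ j ∈ Finset.Ico 0 (p ^ (n + 1)), r (d j) * π (n + 1) ^ j) +
          ∑ j ∈ Finset.Ico 0 (p ^ (n + 1)), r (d j) * trc p g n (π (n + 1) ^ j) := by
        rw [(lb_add T n _ _).2.1, lbx_trc_sum T]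
        have h3 : ∀ j ∈ Finset.Ico 0 (p ^ (n + 1)), trc p g n (r (d j) * π (n + 1) ^ j) =
            r (d j) * trc p g n (π (n + 1) ^ j) := fun j _ => (lb_add T n _ 0).2.2 _ (T.rH (d j)).1
        rw [Finset.sum_congr rfl h3]
        ring
      rw [h2]
      refine (IsUltrametricDist.norm_add_le_max _ _).trans (max_le ((lb_le T n _).trans hd) ?_)
      refine lbx_sum_le _ _ (norm_nonneg _) fun j _ => ?_
      rw [norm_mul]
      have h4 := mul_le_mul (T.rH (d j)).2 (T.tr0 n j) (norm_nonneg _) zero_le_one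
      rwa [one_mul] at h4
    have h2 : x = c * (x / c) := by
      field_simp
    rw [h2, (lb_add T n _ 0).2.2 c hc, norm_mul, mul_comm]
    exact mul_le_mul_of_nonneg_right h1 (norm_nonneg _)

/-- Chunk LB (M). PROOF. As lb_tr with l = 2, m = p^(n+1) + 1 (‖π‖^m < ‖p‖) and T.tr2. -/
theorem lb_tr2 (T : Twr p H g π r) {n : ℕ} {x : L} (hx : x ∈ H (n + 1)) {c : L} (hc : c ∈ H 0) (h0 : c ≠ 0)
    (h : ‖x‖ ≤ ‖c‖ * ‖π (n + 1)‖ ^ 2) : ‖trc p g n x‖ < ‖(p : L)‖ * ‖c‖ := by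
  have hc' : 0 < ‖c‖ := norm_pos_iff.2 h0
  have hp0 : 0 < ‖(p : L)‖ := norm_pos_iff.2 T.ne
  have hx' : x / c ∈ H (n + 1) := Subfield.div_mem _ hx (lbx_mono T (Nat.zero_le _) hc)
  have hn : ‖x / c‖ ≤ ‖π (n + 1)‖ ^ 2 := by
    rw [norm_div, div_le_iff₀ hc', mul_comm]
    exact h
  have hp1 : 1 ≤ p ^ (n + 1) := Nat.one_le_pow _ _ T.pr.pos
  obtain ⟨d, hd⟩ := la_exp T hx' (show 2 ≤ p ^ (n + 1) + 1 by omega) hn
  rw [pow_succ ‖π (n + 1)‖, T.piv] at hd
  have hd' : ‖x / c - ∑ j ∈ Finset.Ico 2 (p ^ (n + 1) + 1), r (d j) * π (n + 1) ^ j‖ < ‖(p : L)‖ := by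
    refine hd.trans_lt ?_
    have h1 := (la_pos T (n + 1)).2
    nlinarith
  have h1 : ‖trc p g n (x / c)‖ < ‖(p : L)‖ := by
    have h2 : trc p g n (x / c) = trc p g n (x / c - ∑ j ∈ Finset.Ico 2 (p ^ (n + 1) + 1), r (d j) * π (n + 1) ^ j) +
        ∑ j ∈ Finset.Ico 2 (p ^ (n + 1) + 1), r (d j) * trc p g n (π (n + 1) ^ j) := by
      rw [(lb_add T n _ _).2.1, lbx_trc_sum T]
      have h3 : ∀ j ∈ Finset.Ico 2 (p ^ (n + 1) + 1), trc p g n (r (d j) * π (n + 1) ^ j) =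
          r (d j) * trc p g n (π (n + 1) ^ j) := fun j _ => (lb_add T n _ 0).2.2 _ (T.rH (d j)).1
      rw [Finset.sum_congr rfl h3]
      ring
    rw [h2]
    refine (IsUltrametricDist.norm_add_le_max _ _).trans_lt (max_lt ((lb_le T n _).trans_lt hd') ?_)
    refine lbx_sum_lt _ _ hp0 fun j hj => ?_
    rw [norm_mul]
    have h4 := mul_le_mul_of_nonneg_right (T.rH (d j)).2 (norm_nonneg (trc p g n (π (n + 1) ^ j)))
    rw [one_mul] at h4
    exact h4.trans_lt (T.tr2 n j (Finset.mem_Ico.1 hj).1)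
  have h2 : x = c * (x / c) := by
    field_simp
  rw [h2, (lb_add T n _ 0).2.2 c hc, norm_mul, mul_comm]
  exact mul_lt_mul_of_pos_right h1 hc'

/-- Chunk LB (S/M). x = r_i π + (small): Tr x = r_i Tr π + .. = - r_i p + ..: T.tr1, lb_tr2 with c = 1. -/
theorem lb_lead (T : Twr p H g π r) {n : ℕ} {x : L} (hx : x ∈ H (n + 1)) {i : Fin (p ^ 2)}
    (h : ‖x - r i * π (n + 1)‖ ≤ ‖π (n + 1)‖ ^ 2) : ‖trc p g n x + r i * p‖ < ‖(p : L)‖ := by
  have he : x - r i * π (n + 1) ∈ H (n + 1) :=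
    Subfield.sub_mem _ hx (Subfield.mul_mem _ (lbx_mono T (Nat.zero_le _) (T.rH i).1) (T.piH (n + 1)))
  have h1 : ‖trc p g n (x - r i * π (n + 1))‖ < ‖(p : L)‖ := by
    have h2 := lb_tr2 T he (Subfield.one_mem (H 0)) one_ne_zero (by rw [norm_one, one_mul]; exact h)
    rwa [norm_one, mul_one] at h2
  have h2 : trc p g n x + r i * p = trc p g n (x - r i * π (n + 1)) +
      r i * (trc p g n (π (n + 1)) + p) := by
    rw [(lb_add T n _ _).2.1, (lb_add T n (π (n + 1)) 0).2.2 _ (T.rH i).1]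
    ring
  rw [h2]
  refine (IsUltrametricDist.norm_add_le_max _ _).trans_lt (max_lt h1 ?_)
  rw [norm_mul]
  have h4 := mul_le_mul_of_nonneg_right (T.rH i).2 (norm_nonneg (trc p g n (π (n + 1)) + p))
  rw [one_mul] at h4
  exact h4.trans_lt (T.tr1 n)

end H16S
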