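import Mathlib
import Pool.Agent.Lib.H16S.LA

/-! # H16S, chunk LC (M): p-th powers in the tower -/

namespace H16S

variable {p : ℕ} {L : Type} [NormedField L] [IsUltrametricDist L] {H : ℕ → Subfield L} {g : RingAut L} {π : ℕ → L}
  {r : Fin (p ^ 2) → L}

/-- The ring of integral elements. -/
def lcO (L : Type) [NormedField L] [IsUltrametricDist L] : Subring L where
  carrier := {x | ‖x‖ ≤ 1}
  mul_mem' := by
    intro a b ha hb
    change ‖a * b‖ ≤ 1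
    rw [norm_mul]
    exact mul_le_one₀ ha (norm_nonneg _) hb
  one_mem' := by
    change ‖(1 : L)‖ ≤ 1
    rw [norm_one]
  add_mem' := by
    intro a b ha hb
    exact (IsUltrametricDist.norm_add_le_max a b).trans (max_le ha hb)
  zero_mem' := by
    change ‖(0 : L)‖ ≤ 1
    rw [norm_zero]
    exact zero_le_one
  neg_mem' := by
    intro a ha
    change ‖-a‖ ≤ 1
    rwa [norm_neg]

theorem lc_add (hp : p.Prime) {x y : L} (hx : ‖x‖ ≤ 1) (hy : ‖y‖ ≤ 1) :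
    ‖(x + y) ^ p - (x ^ p + y ^ p)‖ ≤ ‖(p : L)‖ * ‖x‖ * ‖y‖ := by
  obtain ⟨r, hr⟩ := exists_add_pow_prime_eq hp (⟨x, hx⟩ : lcO L) ⟨y, hy⟩
  have h := congrArg (fun z : lcO L => (z : L)) hr
  simp only [Subring.coe_pow, Subring.coe_add, Subring.coe_mul, Subring.coe_natCast] at h
  rw [h]
  have e : x ^ p + y ^ p + (p : L) * x * y * (r : L) - (x ^ p + y ^ p) = (p : L) * x * y * (r : L) := by ring
  rw [e, norm_mul, norm_mul, norm_mul]
  have hr1 : ‖(r : L)‖ ≤ 1 := r.2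
  exact mul_le_of_le_one_right (by positivity) hr1

theorem lc_natle : ‖(p : L)‖ ≤ 1 := IsUltrametricDist.norm_natCast_le_one L p

theorem lc_powsub {u v : L} (hu : ‖u‖ ≤ 1) (hv : ‖v‖ ≤ 1) (j : ℕ) : ‖u ^ j - v ^ j‖ ≤ ‖u - v‖ := by
  induction j with
  | zero =>
    rw [pow_zero, pow_zero, sub_self, norm_zero]
    exact norm_nonneg _
  | succ j ih =>
    have e : u ^ (j + 1) - v ^ (j + 1) = u * (u ^ j - v ^ j) + (u - v) * v ^ j := by ring
    rw [e]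
    refine (IsUltrametricDist.norm_add_le_max _ _).trans (max_le ?_ ?_)
    · rw [norm_mul]
      exact (mul_le_of_le_one_left (norm_nonneg _) hu).trans ih
    · rw [norm_mul, norm_pow]
      exact mul_le_of_le_one_right (norm_nonneg _) (pow_le_one₀ (norm_nonneg _) hv)

theorem lc_sumle {ι : Type} (S : Finset ι) (f : ι → L) {c : ℝ} (hc : 0 ≤ c) (h : ∀ i ∈ S, ‖f i‖ ≤ c) :
    ‖∑ i ∈ S, f i‖ ≤ c := by
  classical
  induction S using Finset.induction_on with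
  | empty =>
    rw [Finset.sum_empty, norm_zero]
    exact hc
  | insert a S ha ih =>
    rw [Finset.sum_insert ha]
    exact (IsUltrametricDist.norm_add_le_max _ _).trans
      (max_le (h a (Finset.mem_insert_self a S)) (ih fun i hi => h i (Finset.mem_insert_of_mem hi)))

/-- Chunk LC (S/M). u = v + d, ‖d‖ ≤ ‖p‖: u^p - v^p is a sum of binom(p,k) v^(p-k) d^k, for 0 < k < p divisible by p d, and d^p. -/
theorem lc_diff (hp : p.Prime) (h5 : 5 ≤ p) (hlt : ‖(p : L)‖ < 1) {u v : L} (hu : ‖u‖ ≤ 1) (hv : ‖v‖ ≤ 1)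
    (h : ‖u - v‖ ≤ ‖(p : L)‖) : ‖u ^ p - v ^ p‖ ≤ ‖(p : L)‖ ^ 2 := by
  have hd : ‖u - v‖ ≤ 1 := h.trans hlt.le
  have h1 := lc_add hp hv hd
  rw [add_sub_cancel] at h1
  have e : u ^ p - v ^ p = (u ^ p - (v ^ p + (u - v) ^ p)) + (u - v) ^ p := by ring
  rw [e]
  refine (IsUltrametricDist.norm_add_le_max _ _).trans (max_le (h1.trans ?_) ?_)
  · rw [sq]
    calc ‖(p : L)‖ * ‖v‖ * ‖u - v‖ ≤ ‖(p : L)‖ * 1 * ‖(p : L)‖ := by gcongr
      _ = ‖(p : L)‖ * ‖(p : L)‖ := by ring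
  · rw [norm_pow]
    calc ‖u - v‖ ^ p ≤ ‖(p : L)‖ ^ p := pow_le_pow_left₀ (norm_nonneg _) h p
      _ ≤ ‖(p : L)‖ ^ 2 := pow_le_pow_of_le_one (norm_nonneg _) hlt.le (by omega)

/-- Chunk LC (S/M). The p-th power of a finite sum of integral elements is the sum of the p-th powers modulo p: induction, exists_add_pow_prime_eq or the binomial coefficients. -/
theorem lc_sum (hp : p.Prime) {ι : Type} (S : Finset ι) (f : ι → L) (hf : ∀ i ∈ S, ‖f i‖ ≤ 1) :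
    ‖(∑ i ∈ S, f i) ^ p - ∑ i ∈ S, f i ^ p‖ ≤ ‖(p : L)‖ := by
  classical
  induction S using Finset.induction_on with
  | empty =>
    rw [Finset.sum_empty, Finset.sum_empty, zero_pow hp.ne_zero, sub_zero, norm_zero]
    exact norm_nonneg _
  | insert a S ha ih =>
    rw [Finset.sum_insert ha, Finset.sum_insert ha]
    have h1 := ih (fun i hi => hf i (Finset.mem_insert_of_mem hi))
    have h2 : ‖∑ i ∈ S, f i‖ ≤ 1 :=
      lc_sumle S f zero_le_one (fun i hi => hf i (Finset.mem_insert_of_mem hi))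
    have h3 := lc_add hp (hf a (Finset.mem_insert_self a S)) h2
    have e : (f a + ∑ i ∈ S, f i) ^ p - (f a ^ p + ∑ i ∈ S, f i ^ p) =
        ((f a + ∑ i ∈ S, f i) ^ p - (f a ^ p + (∑ i ∈ S, f i) ^ p)) +
          ((∑ i ∈ S, f i) ^ p - ∑ i ∈ S, f i ^ p) := by ring
    rw [e]
    refine (IsUltrametricDist.norm_add_le_max _ _).trans (max_le (h3.trans ?_) h1)
    calc ‖(p : L)‖ * ‖f a‖ * ‖∑ i ∈ S, f i‖ ≤ ‖(p : L)‖ * 1 * 1 := by
          gcongr
          exact hf a (Finset.mem_insert_self a S)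
      _ = ‖(p : L)‖ := by ring

/-- Chunk LC (M). The p-th power of an integral element of H (n+1) lies in H n modulo p. PROOF. la_exp (l = 0, m = p^(n+1), ‖π‖^m = ‖p‖): x^p = (sum of r_j π^j + δ)^p is the sum of r_j^p π^(jp) modulo p (lc_sum), and π (n+1)^(jp) is
(π n)^j modulo p (T.pip; u^j - v^j is divisible by u - v). y = sum of r_j^p (π n)^j. -/
theorem lc_pow (T : Twr p H g π r) {n : ℕ} {x : L} (hx : x ∈ H (n + 1)) (h : ‖x‖ ≤ 1) :
    ∃ y ∈ H n, ‖y‖ ≤ 1 ∧ ‖x ^ p - y‖ ≤ ‖(p : L)‖ := by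
  obtain ⟨c, hc⟩ := la_exp T hx (Nat.zero_le (p ^ (n + 1))) (by rwa [pow_zero])
  rw [T.piv (n + 1)] at hc
  have hpi1 : ‖π (n + 1)‖ ≤ 1 := (la_pos T (n + 1)).2.le
  have hpi : ‖π n‖ ≤ 1 := (la_pos T n).2.le
  have hterm : ∀ j ∈ Finset.Ico 0 (p ^ (n + 1)), ‖r (c j) * π (n + 1) ^ j‖ ≤ 1 := by
    intro j _
    rw [norm_mul, norm_pow]
    exact mul_le_one₀ (T.rH _).2 (by positivity) (pow_le_one₀ (norm_nonneg _) hpi1)
  have hs1 := lc_sumle (Finset.Ico 0 (p ^ (n + 1))) _ zero_le_one hterm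
  have h1 := lc_diff T.pr T.five T.lt h hs1 hc
  have h2 := lc_sum T.pr (Finset.Ico 0 (p ^ (n + 1))) _ hterm
  refine ⟨∑ j ∈ Finset.Ico 0 (p ^ (n + 1)), r (c j) ^ p * π n ^ j, ?_, ?_, ?_⟩
  · apply sum_mem
    intro j _
    exact mul_mem (pow_mem (la_mono T (Nat.zero_le n) (T.rH _).1) p) (pow_mem (T.piH n) j)
  · apply lc_sumle _ _ zero_le_one
    intro j _
    rw [norm_mul, norm_pow, norm_pow]
    exact mul_le_one₀ (pow_le_one₀ (norm_nonneg _) (T.rH _).2) (by positivity)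
      (pow_le_one₀ (norm_nonneg _) hpi)
  · have e : x ^ p - ∑ j ∈ Finset.Ico 0 (p ^ (n + 1)), r (c j) ^ p * π n ^ j =
        (x ^ p - (∑ j ∈ Finset.Ico 0 (p ^ (n + 1)), r (c j) * π (n + 1) ^ j) ^ p) +
        (((∑ j ∈ Finset.Ico 0 (p ^ (n + 1)), r (c j) * π (n + 1) ^ j) ^ p -
          ∑ j ∈ Finset.Ico 0 (p ^ (n + 1)), (r (c j) * π (n + 1) ^ j) ^ p) +
        ∑ j ∈ Finset.Ico 0 (p ^ (n + 1)), ((r (c j) * π (n + 1) ^ j) ^ p - r (c j) ^ p * π n ^ j)) := by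
      rw [Finset.sum_sub_distrib]
      ring
    rw [e]
    refine (IsUltrametricDist.norm_add_le_max _ _).trans (max_le ?_ ?_)
    · refine h1.trans ?_
      rw [sq]
      exact mul_le_of_le_one_left (norm_nonneg _) T.lt.le
    · refine (IsUltrametricDist.norm_add_le_max _ _).trans (max_le h2 ?_)
      apply lc_sumle _ _ (norm_nonneg _)
      intro j _
      have e2 : (r (c j) * π (n + 1) ^ j) ^ p - r (c j) ^ p * π n ^ j =
          r (c j) ^ p * ((π (n + 1) ^ p) ^ j - π n ^ j) := by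
        rw [mul_pow, ← pow_mul, ← pow_mul, mul_comm j p]
        ring
      rw [e2, norm_mul]
      have h3 : ‖r (c j) ^ p‖ ≤ 1 := by
        rw [norm_pow]
        exact pow_le_one₀ (norm_nonneg _) (T.rH _).2
      have h4 : ‖(π (n + 1) ^ p) ^ j - π n ^ j‖ ≤ ‖(p : L)‖ := by
        refine (lc_powsub ?_ hpi j).trans (T.pip n)
        rw [norm_pow]
        exact pow_le_one₀ (norm_nonneg _) hpi1
      exact (mul_le_of_le_one_left (norm_nonneg _) h3).trans h4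

/-- Chunk LC (M). At level 2: x = r_i π_2 + (small) in H 2, y in H 1 with ‖x^p - y‖ ≤ ‖p‖. Then y^p is r_i p modulo something smaller than p. PROOF. x = π_2 (r_i + e), ‖e‖ ≤ ‖π_2‖, so ‖x^p - r_i^p π_2^p‖ < ‖π_2‖^p = ‖π_1‖ (u^p - v^p is divisible by
u - v), ‖π_2^p - π_1‖ ≤ ‖p‖ < ‖π_1‖: ‖y - r_i^p π_1‖ < ‖π_1‖. In the same way ‖y^p - r_i^(p^2) π_1^p‖ < ‖π_1‖^p = ‖p‖, T.pi1 and T.fr. -/
theorem lc_two (T : Twr p H g π r) {x y : L} (hx : x ∈ H 2) (hy : y ∈ H 1) (h1 : ‖x ^ p - y‖ ≤ ‖(p : L)‖)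
    {i : Fin (p ^ 2)} (h : ‖x - r i * π 2‖ ≤ ‖π 2‖ ^ 2) : ‖y ^ p - r i * p‖ < ‖(p : L)‖ := by
  obtain ⟨a0, a1⟩ := la_pos T 2
  obtain ⟨b0, b1⟩ := la_pos T 1
  have hp0 := la_npos T
  have hpi2 : π 2 ≠ 0 := norm_pos_iff.1 a0
  have hpi1 : π 1 ≠ 0 := norm_pos_iff.1 b0
  have hs : ‖π 2‖ ^ p = ‖π 1‖ := (la_succ T 1).1
  have hs' : ‖π 1‖ ^ p = ‖(p : L)‖ := by
    have := T.piv 1
    rwa [pow_one] at this
  have hlt : ‖(p : L)‖ < ‖π 1‖ := by
    rw [← hs']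
    exact pow_lt_self_of_lt_one₀ b0 b1 (by have := T.five; omega)
  have hri := (T.rH i).2
  have hri' : ‖r i ^ p‖ ≤ 1 := by
    rw [norm_pow]
    exact pow_le_one₀ (norm_nonneg _) hri
  -- level 2
  have hu : ‖x / π 2 - r i‖ ≤ ‖π 2‖ := by
    have e : x / π 2 - r i = (x - r i * π 2) / π 2 := by
      field_simp
    rw [e, norm_div, div_le_iff₀ a0, ← sq]
    exact h
  have hu1 : ‖x / π 2‖ ≤ 1 := by
    have e : x / π 2 = (x / π 2 - r i) + r i := by ring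
    rw [e]
    exact (IsUltrametricDist.norm_add_le_max _ _).trans (max_le (hu.trans a1.le) hri)
  have h2 : ‖x ^ p - r i ^ p * π 2 ^ p‖ < ‖π 1‖ := by
    have e : x ^ p - r i ^ p * π 2 ^ p = π 2 ^ p * ((x / π 2) ^ p - r i ^ p) := by
      rw [div_pow]
      field_simp
    rw [e, norm_mul, norm_pow, hs]
    exact mul_lt_of_lt_one_right b0 (((lc_powsub hu1 hri p).trans hu).trans_lt a1)
  have h3 : ‖y - r i ^ p * π 1‖ < ‖π 1‖ := by
    have e : y - r i ^ p * π 1 = -(x ^ p - y) + ((x ^ p - r i ^ p * π 2 ^ p) + r i ^ p * (π 2 ^ p - π 1)) := by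
      ring
    rw [e]
    refine (IsUltrametricDist.norm_add_le_max _ _).trans_lt (max_lt ?_ ?_)
    · rw [norm_neg]
      exact h1.trans_lt hlt
    · refine (IsUltrametricDist.norm_add_le_max _ _).trans_lt (max_lt h2 ?_)
      rw [norm_mul]
      exact ((mul_le_of_le_one_left (norm_nonneg _) hri').trans (T.pip 1)).trans_lt hlt
  -- level 1
  have hw : ‖y / π 1 - r i ^ p‖ < 1 := by
    have e : y / π 1 - r i ^ p = (y - r i ^ p * π 1) / π 1 := by
      field_simp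
    rw [e, norm_div, div_lt_one b0]
    exact h3
  have hw1 : ‖y / π 1‖ ≤ 1 := by
    have e : y / π 1 = (y / π 1 - r i ^ p) + r i ^ p := by ring
    rw [e]
    exact (IsUltrametricDist.norm_add_le_max _ _).trans (max_le hw.le hri')
  have h4 : ‖y ^ p - (r i ^ p) ^ p * π 1 ^ p‖ < ‖(p : L)‖ := by
    have e : y ^ p - (r i ^ p) ^ p * π 1 ^ p = π 1 ^ p * ((y / π 1) ^ p - (r i ^ p) ^ p) := by
      rw [div_pow]
      field_simp
    rw [e, norm_mul, norm_pow, hs']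
    exact mul_lt_of_lt_one_right hp0 ((lc_powsub hw1 hri' p).trans_lt hw)
  have e : y ^ p - r i * p = (y ^ p - (r i ^ p) ^ p * π 1 ^ p) +
      (r i ^ p ^ 2 * (π 1 ^ p - p) + (r i ^ p ^ 2 - r i) * p) := by
    rw [← pow_mul, ← sq]
    ring
  rw [e]
  refine (IsUltrametricDist.norm_add_le_max _ _).trans_lt (max_lt h4 ?_)
  refine (IsUltrametricDist.norm_add_le_max _ _).trans_lt (max_lt ?_ ?_)
  · rw [norm_mul]
    refine (mul_le_of_le_one_left (norm_nonneg _) ?_).trans_lt T.pi1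
    rw [norm_pow]
    exact pow_le_one₀ (norm_nonneg _) hri
  · rw [norm_mul]
    exact mul_lt_of_lt_one_left hp0 (T.fr _ (T.rH i).1 hri)

end H16S
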