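import Mathlib
import Pool.Agent.Lib.H16S.LA

/-! # H16S, chunk M1 (M): the group of points, basic estimates -/

namespace H16S

variable {p : ℕ} {L : Type} [NormedField L] [IsUltrametricDist L] {H : ℕ → Subfield L} {g : RingAut L} {π : ℕ → L}
  {r : Fin (p ^ 2) → L} {G : Type} [AddCommGroup G] {t : G → L} {γ : AddMonoid.End G} {E : ℕ → AddSubgroup G}
  {al : Fin (p ^ 2) → AddMonoid.End G}

/-- Chunk M1 (S/M). t is an isometry for differences: F.sub and ‖t P‖, ‖t Q‖ < 1 (if t P ≠ t Q the right side of F.sub is smaller than ‖t P - t Q‖; if t P = t Q then t (P - Q) = 0). In particular t is injective. -/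
theorem m1_iso (F : Fgp p H g r t γ E al) (P Q : G) : ‖t (P - Q)‖ = ‖t P - t Q‖ := by
  have h := F.sub P Q
  by_cases h0 : t P - t Q = 0
  · rw [h0, norm_zero, zero_mul] at h
    rw [h0, norm_zero]
    have h1 := le_antisymm h (norm_nonneg _)
    rwa [sub_zero] at h1
  · have hpos : 0 < ‖t P - t Q‖ := norm_pos_iff.2 h0
    have hm : max ‖t P‖ ‖t Q‖ ^ 2 < 1 := by
      apply pow_lt_one₀ (le_max_of_le_left (norm_nonneg _)) _ two_ne_zero
      exact max_lt (F.lt P) (F.lt Q)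
    have h1 : ‖t (P - Q) - (t P - t Q)‖ < ‖t P - t Q‖ :=
      lt_of_le_of_lt h (mul_lt_of_lt_one_right hpos hm)
    have e : t (P - Q) = (t (P - Q) - (t P - t Q)) + (t P - t Q) := by ring
    rw [e, IsUltrametricDist.norm_add_eq_max_of_norm_ne_norm h1.ne, max_eq_right h1.le]

/-- Chunk M1 (S). -/
theorem m1_inj (F : Fgp p H g r t γ E al) {P Q : G} (h : t P = t Q) : P = Q := by
  have h1 := m1_iso F P Q
  rw [h, sub_self, norm_zero, norm_eq_zero, F.zero] at h1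
  exact sub_eq_zero.1 h1

/-- Chunk M1 (S). F.sub with -Q, F.neg. -/
theorem m1_add (F : Fgp p H g r t γ E al) (P Q : G) :
    ‖t (P + Q) - (t P + t Q)‖ ≤ ‖t P + t Q‖ * max ‖t P‖ ‖t Q‖ ^ 2 ∧ ‖t (P + Q)‖ = ‖t P + t Q‖ := by
  have h1 := F.sub P (-Q)
  have h2 := m1_iso F P (-Q)
  rw [F.neg, sub_neg_eq_add, sub_neg_eq_add, norm_neg] at h1
  rw [F.neg, sub_neg_eq_add, sub_neg_eq_add] at h2
  exact ⟨h1, h2⟩

/-- Chunk M1 (S/M). Finite sums: induction on S, m1_add. -/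
theorem m1_sum (F : Fgp p H g r t γ E al) {ι : Type} (S : Finset ι) (f : ι → G) {c : ℝ} (hc : 0 ≤ c)
    (h : ∀ i ∈ S, ‖t (f i)‖ ≤ c) : ‖t (∑ i ∈ S, f i)‖ ≤ c ∧ ‖t (∑ i ∈ S, f i) - ∑ i ∈ S, t (f i)‖ ≤ c ^ 3 := by
  classical
  induction S using Finset.induction_on with
  | empty =>
    rw [Finset.sum_empty, Finset.sum_empty, (F.zero 0).2 rfl, sub_zero, norm_zero]
    exact ⟨hc, by positivity⟩
  | insert a S ha ih =>
    obtain ⟨h1, h2⟩ := ih (fun i hi => h i (Finset.mem_insert_of_mem hi))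
    have h3 := h a (Finset.mem_insert_self a S)
    rw [Finset.sum_insert ha, Finset.sum_insert ha]
    obtain ⟨h4, h5⟩ := m1_add F (f a) (∑ i ∈ S, f i)
    have h6 : ‖t (f a) + t (∑ i ∈ S, f i)‖ ≤ c :=
      (IsUltrametricDist.norm_add_le_max _ _).trans (max_le h3 h1)
    refine ⟨h5.le.trans h6, ?_⟩
    have h7 : ‖t (f a) + t (∑ i ∈ S, f i)‖ * max ‖t (f a)‖ ‖t (∑ i ∈ S, f i)‖ ^ 2 ≤ c ^ 3 := by
      have h8 : max ‖t (f a)‖ ‖t (∑ i ∈ S, f i)‖ ^ 2 ≤ c ^ 2 :=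
        pow_le_pow_left₀ (le_max_of_le_left (norm_nonneg _)) (max_le h3 h1) 2
      calc ‖t (f a) + t (∑ i ∈ S, f i)‖ * max ‖t (f a)‖ ‖t (∑ i ∈ S, f i)‖ ^ 2 ≤ c * c ^ 2 :=
            mul_le_mul h6 h8 (by positivity) hc
        _ = c ^ 3 := by ring
    have e : t (f a + ∑ i ∈ S, f i) - (t (f a) + ∑ i ∈ S, t (f i)) =
        (t (f a + ∑ i ∈ S, f i) - (t (f a) + t (∑ i ∈ S, f i))) +
          (t (∑ i ∈ S, f i) - ∑ i ∈ S, t (f i)) := by ring
    rw [e]
    exact (IsUltrametricDist.norm_add_le_max _ _).trans (max_le (h4.trans h7) h2)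

/-- Chunk M1 (S/M). A perturbation: t(X + D) - t X = t D + small. F.sub for P = X + D, Q = X: ‖t D - (t(X + D) - t X)‖ ≤ ‖t(X + D) - t X‖ max(..)², and ‖t(X + D) - t X‖ = ‖t D‖ (m1_iso). -/
theorem m1_pert (F : Fgp p H g r t γ E al) (X D : G) {c : ℝ} (h1 : ‖t X‖ ≤ c) (h2 : ‖t D‖ ≤ c) :
    ‖t (X + D) - t X - t D‖ ≤ ‖t D‖ * c ^ 2 := by
  have h3 := F.sub (X + D) X
  have h4 := m1_iso F (X + D) X
  rw [add_sub_cancel_left] at h3 h4
  rw [← h4] at h3
  have h5 : ‖t (X + D)‖ ≤ c := by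
    rw [(m1_add F X D).2]
    exact (IsUltrametricDist.norm_add_le_max _ _).trans (max_le h1 h2)
  have h6 : max ‖t (X + D)‖ ‖t X‖ ^ 2 ≤ c ^ 2 :=
    pow_le_pow_left₀ (le_max_of_le_left (norm_nonneg _)) (max_le h5 h1) 2
  rw [norm_sub_rev]
  exact h3.trans (mul_le_mul_of_nonneg_left h6 (norm_nonneg _))

/-- Chunk M1 (S/M). Multiplication by p: F.mul. -/
theorem m1_mul (hlt : ‖(p : L)‖ < 1) (F : Fgp p H g r t γ E al) (P : G) :
    ‖t (p • P)‖ ≤ max (‖(p : L)‖ * ‖t P‖) (‖t P‖ ^ p ^ 2) := by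
  have h := F.mul P
  have e : t (p • P) = (t (p • P) - p * t P + t P ^ p ^ 2) + (p * t P - t P ^ p ^ 2) := by ring
  rw [e]
  refine (IsUltrametricDist.norm_add_le_max _ _).trans (max_le ?_ ?_)
  · refine h.trans (le_max_of_le_left ?_)
    apply mul_le_mul_of_nonneg_left _ (norm_nonneg _)
    rw [sq]
    exact mul_le_of_le_one_right (norm_nonneg _) (F.lt P).le
  · rw [sub_eq_add_neg]
    refine (IsUltrametricDist.norm_add_le_max _ _).trans ?_
    rw [norm_neg, norm_mul, norm_pow]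

/-- Chunk M1 (S). The action of powers of γ. -/
theorem m1_act (F : Fgp p H g r t γ E al) (k : ℕ) (P : G) : t ((γ ^ k) P) = (g ^ k) (t P) := by
  induction k generalizing P with
  | zero => rfl
  | succ k ih =>
    have e1 : (γ ^ (k + 1)) P = (γ ^ k) (γ P) := by
      rw [pow_succ]
      rfl
    have e2 : (g ^ (k + 1)) (t P) = (g ^ k) (g (t P)) := by
      rw [pow_succ]
      rfl
    rw [e1, e2, ih, F.act]

/-- Chunk M1 (S/M). Levels: E n ≤ E (n+1), γ preserves E n, γ^(p^n) is the identity on E n; a point of E (n+1) fixed by γ^(p^n) lies in E n (T.down); the trace of a point of E (n+1) lies in E n (γ^(p^n) permutes the terms). -/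
theorem m1_lev (T : Twr p H g π r) (F : Fgp p H g r t γ E al) (n : ℕ) : E n ≤ E (n + 1) ∧
    (∀ k, ∀ P ∈ E n, (γ ^ k) P ∈ E n) ∧ (∀ P ∈ E n, (γ ^ p ^ n) P = P) ∧
    (∀ P ∈ E (n + 1), (γ ^ p ^ n) P = P → P ∈ E n) ∧
    (∀ P ∈ E (n + 1), trG p γ n P ∈ E n) ∧ ∀ P ∈ E n, trG p γ n P = p • P := by
  have hpow : ∀ (a b : ℕ) (P : G), (γ ^ a) ((γ ^ b) P) = (γ ^ (a + b)) P := by
    intro a b P
    rw [pow_add]
    rfl
  have h1 : ∀ n, E n ≤ E (n + 1) := by
    intro n P hP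
    rw [F.mem] at hP ⊢
    exact T.mono n hP
  have h2 : ∀ n k, ∀ P ∈ E n, (γ ^ k) P ∈ E n := by
    intro n k P hP
    rw [F.mem] at hP ⊢
    rw [m1_act F]
    exact (la_g T k).2.1 n _ hP
  have h3 : ∀ n, ∀ P ∈ E n, (γ ^ p ^ n) P = P := by
    intro n P hP
    apply m1_inj F
    rw [m1_act F]
    exact T.fix n _ ((F.mem n P).1 hP)
  have h4 : ∀ P ∈ E (n + 1), (γ ^ p ^ n) P = P → P ∈ E n := by
    intro P hP hf
    rw [F.mem]
    apply T.down n _ ((F.mem _ P).1 hP)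
    rw [← m1_act F, hf]
  refine ⟨h1 n, h2 n, h3 n, h4, ?_, ?_⟩
  · intro P hP
    apply h4
    · rw [trG]
      exact sum_mem fun i _ => h2 (n + 1) _ P hP
    · rw [trG, map_sum]
      have e1 : ∀ i ∈ Finset.range p, (γ ^ p ^ n) ((γ ^ (i * p ^ n)) P) = (γ ^ ((i + 1) * p ^ n)) P := by
        intro i _
        rw [hpow]
        congr 2
        ring
      rw [Finset.sum_congr rfl e1]
      have e2 := Finset.sum_range_succ' (fun i => (γ ^ (i * p ^ n)) P) p
      rw [Finset.sum_range_succ] at e2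
      have e3 : (γ ^ (p * p ^ n)) P = P := by
        rw [mul_comm, ← pow_succ]
        exact h3 (n + 1) P hP
      have e4 : (γ ^ (0 * p ^ n)) P = P := by
        rw [zero_mul]
        rfl
      rw [e3, e4] at e2
      exact (add_right_cancel e2).symm
  · intro P hP
    rw [trG]
    have e1 : ∀ i : ℕ, (γ ^ (i * p ^ n)) P = P := by
      intro i
      induction i with
      | zero => rw [zero_mul]; rfl
      | succ i ih =>
        rw [add_mul, one_mul, ← hpow, h3 n P hP, ih]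
    rw [Finset.sum_congr rfl fun i _ => e1 i, Finset.sum_const, Finset.card_range]

end H16S
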