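import Mathlib
import Pool.Agent.Lib.H16S.M1
import Pool.Agent.Lib.H16S.LA

/-! # H16S, chunk M2 (S/M): no p-torsion -/

namespace H16S

variable {p : ℕ} {L : Type} [NormedField L] [IsUltrametricDist L] {H : ℕ → Subfield L} {g : RingAut L} {π : ℕ → L}
  {r : Fin (p ^ 2) → L} {G : Type} [AddCommGroup G] {t : G → L} {γ : AddMonoid.End G} {E : ℕ → AddSubgroup G}
  {al : Fin (p ^ 2) → AddMonoid.End G}

/-- Chunk M2 (S/M). PROOF. Let P ≠ 0, z = t P ≠ 0, p P = 0: F.mul gives ‖p z - z^(p²)‖ ≤ ‖p‖ ‖z‖² < ‖p z‖, so ‖z‖^(p²) = ‖p‖ ‖z‖, ‖z‖^(p²-1) = ‖p‖. z is in H n: ‖z‖ = ‖π n‖^k (T.val), ‖p‖ = ‖π n‖^(p^n): k (p² - 1) = p^n (‖π n‖ is positive and < 1: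
zpow injective). p² - 1 > 1 is prime to p: impossible. -/
theorem m2 (T : Twr p H g π r) (F : Fgp p H g r t γ E al) {n : ℕ} {P : G} (hP : P ∈ E n) (h : p • P = 0) : P = 0 := by
  by_contra hP0
  have hz : t P ≠ 0 := fun h0 => hP0 ((F.zero P).1 h0)
  have hzH : t P ∈ H n := (F.mem n P).1 hP
  have hzp : 0 < ‖t P‖ := norm_pos_iff.2 hz
  have hz1 := F.lt P
  have hp0 := la_npos T
  obtain ⟨hq0, hq1⟩ := la_pos T n
  have h1 := F.mul P
  rw [h, (F.zero 0).2 rfl, zero_sub] at h1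
  have h2 : ‖-((p : L) * t P) + t P ^ p ^ 2‖ < ‖-((p : L) * t P)‖ := by
    refine lt_of_le_of_lt h1 ?_
    rw [norm_neg, norm_mul]
    apply mul_lt_mul_of_pos_left _ hp0
    rw [sq]
    exact mul_lt_of_lt_one_right hzp hz1
  have h3 : ‖t P ^ p ^ 2‖ = ‖(p : L)‖ * ‖t P‖ := by
    have e : t P ^ p ^ 2 = (-((p : L) * t P) + t P ^ p ^ 2) + (p : L) * t P := by ring
    rw [norm_neg] at h2
    rw [e, IsUltrametricDist.norm_add_eq_max_of_norm_ne_norm h2.ne, max_eq_right h2.le, norm_mul]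
  rw [norm_pow] at h3
  obtain ⟨k, hk⟩ := T.val n _ hzH hz
  have h4 : ‖π n‖ ^ (k * (p : ℤ) ^ 2) = ‖π n‖ ^ ((p : ℤ) ^ n + k) := by
    rw [zpow_add₀ hq0.ne', zpow_mul, ← hk]
    have e1 : ‖t P‖ ^ ((p : ℤ) ^ 2) = ‖t P‖ ^ (p ^ 2) := by
      rw [← zpow_natCast]
      push_cast
      rfl
    have e2 : ‖π n‖ ^ ((p : ℤ) ^ n) = ‖π n‖ ^ (p ^ n) := by
      rw [← zpow_natCast]
      push_cast
      rfl
    rw [e1, e2, h3, T.piv n]
  have h5 : k * (p : ℤ) ^ 2 = (p : ℤ) ^ n + k := zpow_right_injective₀ hq0 hq1.ne h4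
  have h6 : k * ((p : ℤ) ^ 2 - 1) = (p : ℤ) ^ n := by linear_combination h5
  have h7 : IsCoprime ((p : ℤ) ^ 2 - 1) ((p : ℤ) ^ n) := by
    apply IsCoprime.pow_right
    exact ⟨-1, p, by ring⟩
  have h8 : IsUnit ((p : ℤ) ^ 2 - 1) := by
    apply h7.isUnit_of_dvd' dvd_rfl
    exact ⟨k, by rw [← h6]; ring⟩
  have h9 : (5 : ℤ) ≤ p := by exact_mod_cast T.five
  rcases Int.isUnit_iff.1 h8 with h10 | h10 <;> nlinarith

/-- Chunk M2 (S). If p P lies in E m for P in E n, m ≤ n, then P lies in E m: for n = m + j by induction on j: γ^(p^(n-1)) P - P is in E n and killed by p (p P is in E m ≤ E (n-1), fixed by γ^(p^(n-1))), so 0 by m2; m1_lev. -/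
theorem m2_down (T : Twr p H g π r) (F : Fgp p H g r t γ E al) {m n : ℕ} (hmn : m ≤ n) {P : G} (hP : P ∈ E n)
    (h : p • P ∈ E m) : P ∈ E m := by
  induction n, hmn using Nat.le_induction with
  | base => exact hP
  | succ n hmn ih =>
    apply ih
    obtain ⟨a1, a2, a3, a4, _, _⟩ := m1_lev T F n
    apply a4 P hP
    have hmono : ∀ n, m ≤ n → E m ≤ E n := by
      intro n hn
      induction n, hn using Nat.le_induction with
      | base => exact le_rfl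
      | succ n _ ih2 => exact ih2.trans (m1_lev T F n).1
    have h1 : (γ ^ p ^ n) (p • P) = p • P := a3 _ (hmono n hmn h)
    have h2 : (γ ^ p ^ n) P - P ∈ E (n + 1) :=
      sub_mem ((m1_lev T F (n + 1)).2.1 _ P hP) hP
    have h3 : p • ((γ ^ p ^ n) P - P) = 0 := by
      rw [smul_sub, ← map_nsmul, h1, sub_self]
    exact sub_eq_zero.1 (m2 T F h2 h3)

end H16S
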