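import Mathlib
import Pool.Agent.Lib.H16S.M2
import Pool.Agent.Lib.H16S.LB
import Pool.Agent.Lib.H16S.LC

/-! # H16S, chunk M5 (M/L): the trace of a point -/

namespace H16S

variable {p : ℕ} {L : Type} [NormedField L] [IsUltrametricDist L] {H : ℕ → Subfield L} {g : RingAut L} {π : ℕ → L}
  {r : Fin (p ^ 2) → L} {G : Type} [AddCommGroup G] {t : G → L} {γ : AddMonoid.End G} {E : ℕ → AddSubgroup G}
  {al : Fin (p ^ 2) → AddMonoid.End G}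

theorem m5_add {p : ℕ} {G : Type} [AddCommGroup G] (γ : AddMonoid.End G) (n : ℕ) (A B : G) :
    trG p γ n (A + B) = trG p γ n A + trG p γ n B := by
  unfold trG
  rw [← Finset.sum_add_distrib]
  exact Finset.sum_congr rfl fun i _ => map_add _ _ _

theorem m5_smul {p : ℕ} {G : Type} [AddCommGroup G] (γ : AddMonoid.End G) (n m : ℕ) (A : G) :
    trG p γ n (m • A) = m • trG p γ n A := by
  unfold trG
  rw [Finset.smul_sum]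
  exact Finset.sum_congr rfl fun i _ => map_nsmul _ _ _

theorem m5_sub {L : Type} [NormedField L] [IsUltrametricDist L] {x y : L} {c : ℝ} (hx : ‖x‖ ≤ c) (hy : ‖y‖ ≤ c) :
    ‖x - y‖ ≤ c := by
  rw [sub_eq_add_neg]
  exact (IsUltrametricDist.norm_add_le_max _ _).trans (max_le hx (by rwa [norm_neg]))

theorem m5_addle {L : Type} [NormedField L] [IsUltrametricDist L] {x y : L} {c : ℝ} (hx : ‖x‖ ≤ c) (hy : ‖y‖ ≤ c) :
    ‖x + y‖ ≤ c :=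
  (IsUltrametricDist.norm_add_le_max _ _).trans (max_le hx hy)

theorem m5_sublt {L : Type} [NormedField L] [IsUltrametricDist L] {x y : L} {c : ℝ} (hx : ‖x‖ < c) (hy : ‖y‖ < c) :
    ‖x - y‖ < c := by
  rw [sub_eq_add_neg]
  exact (IsUltrametricDist.norm_add_le_max _ _).trans_lt (max_lt hx (by rwa [norm_neg]))

theorem m5_addlt {L : Type} [NormedField L] [IsUltrametricDist L] {x y : L} {c : ℝ} (hx : ‖x‖ < c) (hy : ‖y‖ < c) :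
    ‖x + y‖ < c :=
  (IsUltrametricDist.norm_add_le_max _ _).trans_lt (max_lt hx hy)

/-- Chunk M5 (M/L). P of level n + 1, y in H n close to (t P)^p. The trace of P is Q + D with t Q = - y^p, ‖t D‖ ≤ ‖p‖, t D = Tr (t P) modulo something smaller than p.
PROOF. z = t P, ϖ = π (n+1), ‖z‖ ≤ ‖ϖ‖ (la_step), ‖p‖ = ‖ϖ‖^(p^(n+1)) ≤ ‖ϖ‖^5. ‖y‖ ≤ max (‖z‖^p) ‖p‖ < 1: Q in E n with t Q = - y^p. D₀ = p P - Q in E (n+1). t(p P) = p z - z^(p²) + e, ‖e‖ ≤ ‖p‖ ‖z‖² (F.mul), ‖z^(p²) - y^p‖ ≤ ‖p‖² (lc_diff, z^(p²) = (z^p)^p). So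
t(p P) - t Q = p z + e - (z^(p²) - y^p) has norm at most ‖p‖ ‖ϖ‖, and by F.sub t D₀ = p z + e₁, ‖e₁‖ ≤ ‖p‖ ‖ϖ‖² (max (‖t(p P)‖, ‖t Q‖) ≤ ‖ϖ‖). e₁ is in H (n+1): Tr (t D₀) = p Tr z + Tr e₁, ‖Tr e₁‖ < ‖p‖² (lb_tr2, c = p). t(Tr D₀) = Tr(t D₀) + (norm ≤ (‖p‖ ‖ϖ‖)³ < ‖p‖²)
(m1_sum, m1_act, isometries). So ‖t(Tr D₀) - p Tr z‖ < ‖p‖², ‖t(Tr D₀)‖ ≤ ‖p‖² (lb_tr with c = 1), Tr D₀ in E n (m1_lev): F.div gives D in E n with p D = Tr D₀, ‖t D‖ ≤ ‖p‖; F.mul: ‖t(p D) - p t D‖ ≤ ‖p‖³, so ‖p t D - p Tr z‖ < ‖p‖². Finally p Tr P = Tr(p P) = Tr Q + Tr D₀ = p Q + p D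
(m1_lev: Tr Q = p Q), and Tr P = Q + D by m2 in E n. -/
theorem m5 (T : Twr p H g π r) (F : Fgp p H g r t γ E al) {n : ℕ} {P : G} (hP : P ∈ E (n + 1)) {y : L} (hy : y ∈ H n)
    (h : ‖t P ^ p - y‖ ≤ ‖(p : L)‖) :
    ∃ Q ∈ E n, ∃ D ∈ E n, trG p γ n P = Q + D ∧ t Q = -y ^ p ∧ ‖t D‖ ≤ ‖(p : L)‖ ∧
      ‖t D - trc p g n (t P)‖ < ‖(p : L)‖ := by
  obtain ⟨hϖ0, hϖ1⟩ := la_pos T (n + 1)
  have hp := T.pr
  have h5 := T.five
  set q : ℝ := ‖(p : L)‖ with hq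
  have hq1 : q < 1 := T.lt
  have hq0 : 0 < q := norm_pos_iff.mpr T.ne
  set ϖ := π (n + 1) with hϖ
  have hqe : ‖ϖ‖ ^ p ^ (n + 1) = q := T.piv (n + 1)
  have hexp : 5 ≤ p ^ (n + 1) := by
    calc 5 ≤ p := h5
      _ = p ^ 1 := (pow_one p).symm
      _ ≤ p ^ (n + 1) := Nat.pow_le_pow_right hp.pos (by omega)
  have hq5 : q ≤ ‖ϖ‖ ^ 5 := by
    rw [← hqe]
    exact pow_le_pow_of_le_one hϖ0.le hϖ1.le hexp
  have hq2 : q ≤ ‖ϖ‖ ^ 2 := hq5.trans (pow_le_pow_of_le_one hϖ0.le hϖ1.le (by norm_num))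
  have hqϖ : q ≤ ‖ϖ‖ := by
    refine hq5.trans ?_
    calc ‖ϖ‖ ^ 5 ≤ ‖ϖ‖ ^ 1 := pow_le_pow_of_le_one hϖ0.le hϖ1.le (by norm_num)
      _ = ‖ϖ‖ := pow_one _
  have hstep : ∀ R ∈ E (n + 1), ‖t R‖ ≤ ‖ϖ‖ := by
    intro R hR
    have h1 : ‖t R‖ < ‖ϖ‖ ^ 0 := by rw [pow_zero]; exact F.lt R
    have h2 := la_step T ((F.mem (n + 1) R).mp hR) h1
    rwa [zero_add, pow_one] at h2
  obtain ⟨hmono, -, -, -, htrE, htrp⟩ := m1_lev T F n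
  set z := t P with hz
  have hzH : z ∈ H (n + 1) := (F.mem (n + 1) P).mp hP
  have hzϖ : ‖z‖ ≤ ‖ϖ‖ := hstep P hP
  have hz1 : ‖z‖ < 1 := F.lt P
  have hzp : ‖z ^ p‖ < 1 := by
    rw [norm_pow]
    exact pow_lt_one₀ (norm_nonneg _) hz1 hp.ne_zero
  have hy1 : ‖y‖ < 1 := by
    have e : y = z ^ p - (z ^ p - y) := by ring
    rw [e]
    exact m5_sublt hzp (h.trans_lt hq1)
  have hypH : -y ^ p ∈ H n := (H n).neg_mem ((H n).pow_mem hy p)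
  have hyp1 : ‖-y ^ p‖ < 1 := by
    rw [norm_neg, norm_pow]
    exact pow_lt_one₀ (norm_nonneg _) hy1 hp.ne_zero
  obtain ⟨Q, hQ, hQt⟩ := F.surj n _ hypH hyp1
  have hpP : p • P ∈ E (n + 1) := (E (n + 1)).nsmul_mem hP p
  set D₀ := p • P - Q with hD₀
  have hD₀E : D₀ ∈ E (n + 1) := (E (n + 1)).sub_mem hpP (hmono hQ)
  have hmul := F.mul P
  rw [← hz, ← hq] at hmul
  have he : ‖t (p • P) - p * z + z ^ p ^ 2‖ ≤ q * ‖ϖ‖ ^ 2 :=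
    hmul.trans (mul_le_mul_of_nonneg_left (pow_le_pow_left₀ (norm_nonneg _) hzϖ 2) hq0.le)
  have hdiff : ‖z ^ p ^ 2 - y ^ p‖ ≤ q ^ 2 := by
    have h1 := lc_diff hp h5 T.lt hzp.le hy1.le h
    have e : z ^ p ^ 2 = (z ^ p) ^ p := by rw [← pow_mul, sq]
    rw [e]
    exact h1
  have hq2' : q ^ 2 ≤ q * ‖ϖ‖ ^ 2 := by
    rw [sq]
    exact mul_le_mul_of_nonneg_left hq2 hq0.le
  have hϖ2 : ‖ϖ‖ ^ 2 ≤ ‖ϖ‖ := by
    calc ‖ϖ‖ ^ 2 ≤ ‖ϖ‖ ^ 1 := pow_le_pow_of_le_one hϖ0.le hϖ1.le (by norm_num)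
      _ = ‖ϖ‖ := pow_one _
  have hqϖ2 : q * ‖ϖ‖ ^ 2 ≤ q * ‖ϖ‖ := mul_le_mul_of_nonneg_left hϖ2 hq0.le
  have hpz : ‖(p : L) * z‖ ≤ q * ‖ϖ‖ := by
    rw [norm_mul]
    exact mul_le_mul_of_nonneg_left hzϖ hq0.le
  have hdt : ‖t (p • P) - t Q‖ ≤ q * ‖ϖ‖ := by
    have e : t (p • P) - t Q = p * z + (t (p • P) - p * z + z ^ p ^ 2) - (z ^ p ^ 2 - y ^ p) := by
      rw [hQt]
      ring
    rw [e]
    exact m5_sub (m5_addle hpz (he.trans hqϖ2)) (hdiff.trans (hq2'.trans hqϖ2))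
  have hsub : ‖t D₀ - (t (p • P) - t Q)‖ ≤ q * ‖ϖ‖ ^ 2 := by
    refine (F.sub (p • P) Q).trans ?_
    have hm : max ‖t (p • P)‖ ‖t Q‖ ≤ ‖ϖ‖ := max_le (hstep _ hpP) (hstep _ (hmono hQ))
    have hm0 : 0 ≤ max ‖t (p • P)‖ ‖t Q‖ := le_max_of_le_left (norm_nonneg _)
    calc ‖t (p • P) - t Q‖ * max ‖t (p • P)‖ ‖t Q‖ ^ 2 ≤ (q * ‖ϖ‖) * ‖ϖ‖ ^ 2 :=
          mul_le_mul hdt (pow_le_pow_left₀ hm0 hm 2) (by positivity) (by positivity)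
      _ = (q * ‖ϖ‖ ^ 2) * ‖ϖ‖ := by ring
      _ ≤ (q * ‖ϖ‖ ^ 2) * 1 := mul_le_mul_of_nonneg_left hϖ1.le (by positivity)
      _ = q * ‖ϖ‖ ^ 2 := mul_one _
  set e₁ := t D₀ - p * z with he₁
  have he₁n : ‖e₁‖ ≤ q * ‖ϖ‖ ^ 2 := by
    have e : e₁ = (t D₀ - (t (p • P) - t Q)) + (t (p • P) - p * z + z ^ p ^ 2) - (z ^ p ^ 2 - y ^ p) := by
      rw [he₁, hQt]
      ring
    rw [e]
    exact m5_sub (m5_addle hsub he) (hdiff.trans hq2')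
  have hpH0 : (p : L) ∈ H 0 := natCast_mem (H 0) p
  have hpHn : (p : L) ∈ H (n + 1) := natCast_mem (H (n + 1)) p
  have htD₀H : t D₀ ∈ H (n + 1) := (F.mem _ _).mp hD₀E
  have he₁H : e₁ ∈ H (n + 1) := (H (n + 1)).sub_mem htD₀H ((H (n + 1)).mul_mem hpHn hzH)
  have htr1 : trc p g n (t D₀) = p * trc p g n z + trc p g n e₁ := by
    have e : t D₀ = p * z + e₁ := by rw [he₁]; ring
    rw [e, (lb_add T n _ _).1, (lb_add T n z z).2.2 _ hpH0]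
  have htre : ‖trc p g n e₁‖ < q * q := lb_tr2 T he₁H hpH0 T.ne he₁n
  have htDn : ‖t D₀‖ ≤ q * ‖ϖ‖ := by
    have e : t D₀ = p * z + e₁ := by rw [he₁]; ring
    rw [e]
    exact m5_addle hpz (he₁n.trans hqϖ2)
  have hsum := m1_sum F (Finset.range p) (fun i => (γ ^ (i * p ^ n)) D₀) (c := ‖t D₀‖) (norm_nonneg _)
    (fun i _ => by rw [m1_act F, (la_g T _).1])
  have hsum2 : ‖t (trG p γ n D₀) - trc p g n (t D₀)‖ ≤ ‖t D₀‖ ^ 3 := by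
    have e : ∑ i ∈ Finset.range p, t ((γ ^ (i * p ^ n)) D₀) = trc p g n (t D₀) :=
      Finset.sum_congr rfl fun i _ => m1_act F _ _
    rw [← e]
    exact hsum.2
  have hcube : ‖t D₀‖ ^ 3 < q * q := by
    calc ‖t D₀‖ ^ 3 ≤ (q * ‖ϖ‖) ^ 3 := pow_le_pow_left₀ (norm_nonneg _) htDn 3
      _ = (q * q) * (q * ‖ϖ‖ ^ 3) := by ring
      _ < (q * q) * 1 := by
        refine mul_lt_mul_of_pos_left ?_ (by positivity)
        calc q * ‖ϖ‖ ^ 3 ≤ q * 1 := mul_le_mul_of_nonneg_left (pow_le_one₀ hϖ0.le hϖ1.le) hq0.le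
          _ < 1 := by rw [mul_one]; exact hq1
      _ = q * q := mul_one _
  have hmain : ‖t (trG p γ n D₀) - p * trc p g n z‖ < q * q := by
    have e : t (trG p γ n D₀) - p * trc p g n z =
        (t (trG p γ n D₀) - trc p g n (t D₀)) + trc p g n e₁ := by
      rw [htr1]
      ring
    rw [e]
    exact m5_addlt (hsum2.trans_lt hcube) htre
  have htrz : ‖trc p g n z‖ ≤ q := by
    have h1 := lb_tr T hzH (H 0).one_mem (by rw [norm_one]; exact hz1.le)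
    rwa [norm_one, mul_one] at h1
  have hpt : ‖(p : L) * trc p g n z‖ ≤ q * q := by
    rw [norm_mul]
    exact mul_le_mul_of_nonneg_left htrz hq0.le
  have hnT : ‖t (trG p γ n D₀)‖ ≤ q ^ 2 := by
    have e : t (trG p γ n D₀) = (t (trG p γ n D₀) - p * trc p g n z) + p * trc p g n z := by ring
    rw [e, sq]
    exact m5_addle hmain.le hpt
  obtain ⟨D, hD, hDt, hDp⟩ := F.div n (trG p γ n D₀) (htrE _ hD₀E) hnT
  have hmulD := F.mul D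
  rw [← hq] at hmulD
  have hq3 : q ^ 3 < q * q := by
    have : q ^ 3 = (q * q) * q := by ring
    rw [this]
    calc (q * q) * q < (q * q) * 1 := mul_lt_mul_of_pos_left hq1 (by positivity)
      _ = q * q := mul_one _
  have hpD : ‖t (p • D) - p * t D‖ < q * q := by
    have e : t (p • D) - p * t D = (t (p • D) - p * t D + t D ^ p ^ 2) - t D ^ p ^ 2 := by ring
    rw [e]
    refine m5_sublt (hmulD.trans_lt ?_) ?_
    · calc q * ‖t D‖ ^ 2 ≤ q * q ^ 2 := mul_le_mul_of_nonneg_left (pow_le_pow_left₀ (norm_nonneg _) hDt 2) hq0.le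
        _ = q ^ 3 := by ring
        _ < q * q := hq3
    · rw [norm_pow]
      calc ‖t D‖ ^ p ^ 2 ≤ q ^ p ^ 2 := pow_le_pow_left₀ (norm_nonneg _) hDt _
        _ ≤ q ^ 3 := pow_le_pow_of_le_one hq0.le hq1.le (by nlinarith)
        _ < q * q := hq3
  have hfin : ‖t D - trc p g n z‖ < q := by
    have h1 : ‖(p : L) * (t D - trc p g n z)‖ < q * q := by
      have e : (p : L) * (t D - trc p g n z) = (t (p • D) - p * trc p g n z) - (t (p • D) - p * t D) := by ring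
      rw [e]
      refine m5_sublt ?_ hpD
      rw [hDp]
      exact hmain
    rw [norm_mul, ← hq] at h1
    exact lt_of_mul_lt_mul_left h1 hq0.le
  refine ⟨Q, hQ, D, hD, ?_, hQt, hDt, hfin⟩
  have h1 : p • (trG p γ n P - (Q + D)) = 0 := by
    rw [smul_sub, ← m5_smul]
    have e : p • P = Q + D₀ := by rw [hD₀]; abel
    rw [e, m5_add, htrp Q hQ, ← hDp, smul_add, sub_self]
  have h2 := m2 T F ((E n).sub_mem (htrE P hP) ((E n).add_mem hQ hD)) h1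
  exact sub_eq_zero.mp h2

end H16S
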