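import Mathlib
import Pool.Agent.Lib.H16S.M2

/-! # H16S, chunk M3 (M): divisibility by p at the levels 0 and 1 -/

namespace H16S

variable {p : ℕ} {L : Type} [NormedField L] [IsUltrametricDist L] {H : ℕ → Subfield L} {g : RingAut L} {π : ℕ → L}
  {r : Fin (p ^ 2) → L} {G : Type} [AddCommGroup G] {t : G → L} {γ : AddMonoid.End G} {E : ℕ → AddSubgroup G}
  {al : Fin (p ^ 2) → AddMonoid.End G}

/-- Chunk M3 (S). Level 0: ‖t P‖ ≤ ‖p‖ (la_step with k = 0, ‖π 0‖ = ‖p‖), m1_mul. -/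
theorem m3_zero (T : Twr p H g π r) (F : Fgp p H g r t γ E al) {P : G} (hP : P ∈ E 0) :
    ‖t P‖ ≤ ‖(p : L)‖ ∧ ‖t (p • P)‖ ≤ ‖(p : L)‖ ^ 2 := by
  have h1 : ‖t P‖ ≤ ‖(p : L)‖ := by
    have h2 := la_step T ((F.mem 0 P).1 hP) (k := 0) (by rw [pow_zero]; exact F.lt P)
    rw [zero_add, pow_one, (la_succ T 0).2] at h2
    exact h2
  refine ⟨h1, (m1_mul T.lt F P).trans (max_le ?_ ?_)⟩
  · rw [pow_two]
    exact mul_le_mul_of_nonneg_left h1 (norm_nonneg _)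
  · refine (pow_le_pow_left₀ (norm_nonneg _) h1 _).trans ?_
    refine pow_le_pow_of_le_one (norm_nonneg _) T.lt.le ?_
    have := T.five
    nlinarith

theorem m3x_one (T : Twr p H g π r) (F : Fgp p H g r t γ E al) {P : G} (hP : P ∈ E 1) :
    ‖t P‖ ≤ ‖π 1‖ ∧ ‖π 1‖ ^ p = ‖(p : L)‖ := by
  refine ⟨?_, ?_⟩
  · have h2 := la_step T ((F.mem 1 P).1 hP) (k := 0) (by rw [pow_zero]; exact F.lt P)
    rw [zero_add, pow_one] at h2
    exact h2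
  · rw [(la_succ T 0).1, (la_succ T 0).2]

/-- Chunk M3 (S/M). Level 1: ‖t P‖ ≤ ‖π 1‖, ‖π 1‖^p = ‖p‖, m1_mul: ‖p‖ ‖π 1‖ < ‖p‖, ‖π 1‖^(p²) < ‖π 1‖^p. -/
theorem m3_one (T : Twr p H g π r) (F : Fgp p H g r t γ E al) {P : G} (hP : P ∈ E 1) : ‖t (p • P)‖ < ‖(p : L)‖ := by
  obtain ⟨h1, h2⟩ := m3x_one T F hP
  obtain ⟨h3, h4⟩ := la_pos T 1
  have hp0 : 0 < ‖(p : L)‖ := norm_pos_iff.2 T.ne
  refine (m1_mul T.lt F P).trans_lt (max_lt ?_ ?_)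
  · have h5 := mul_le_mul_of_nonneg_left h1 hp0.le
    have h6 : ‖(p : L)‖ * ‖π 1‖ < ‖(p : L)‖ * 1 := mul_lt_mul_of_pos_left h4 hp0
    linarith
  · refine (pow_le_pow_left₀ (norm_nonneg _) h1 _).trans_lt ?_
    rw [← h2]
    refine pow_lt_pow_right_of_lt_one₀ h3 h4 ?_
    have := T.five
    nlinarith

omit [IsUltrametricDist L] in
theorem m3x_sub [IsUltrametricDist L] (a b : L) : ‖a - b‖ ≤ max ‖a‖ ‖b‖ := by
  rw [sub_eq_add_neg, ← norm_neg b]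
  exact IsUltrametricDist.norm_add_le_max a (-b)

theorem m3x_div (T : Twr p H g π r) (F : Fgp p H g r t γ E al) (j : ℕ) : ∀ k : ℕ, 1 ≤ k → p ≤ k + j →
    ∀ R ∈ E 1, ‖t R‖ ≤ ‖(p : L)‖ * ‖π 1‖ ^ k → ∃ P ∈ E 1, p • P = R := by
  obtain ⟨hπ0, hπ1⟩ := la_pos T 1
  have hp0 : 0 < ‖(p : L)‖ := norm_pos_iff.2 T.ne
  have hpp : ‖π 1‖ ^ p = ‖(p : L)‖ := by rw [(la_succ T 0).1, (la_succ T 0).2]
  induction j with
  | zero =>
    intro k _ hk R hR h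
    obtain ⟨P, hP, -, h2⟩ := F.div 1 R hR (by
      refine h.trans ?_
      rw [pow_two]
      refine mul_le_mul_of_nonneg_left ?_ hp0.le
      rw [← hpp]
      exact pow_le_pow_of_le_one hπ0.le hπ1.le (by omega))
    exact ⟨P, hP, h2⟩
  | succ j ih =>
    intro k hk1 hk R hR h
    by_cases hkj : p ≤ k + j
    · exact ih k hk1 hkj R hR h
    have htR : t R ∈ H 1 := (F.mem 1 R).1 hR
    have hz : t R / p ∈ H 1 := Subfield.div_mem _ htR (natCast_mem (H 1) p)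
    have hzn : ‖t R / p‖ ≤ ‖π 1‖ ^ k := by
      rw [norm_div, div_le_iff₀ hp0, mul_comm]
      exact h
    have hz1 : ‖t R / p‖ < 1 := hzn.trans_lt (pow_lt_one₀ hπ0.le hπ1 (by omega))
    obtain ⟨P, hP, htP⟩ := F.surj 1 _ hz hz1
    have hPn : ‖t P‖ ≤ ‖π 1‖ ^ k := by rw [htP]; exact hzn
    have hmul := F.mul P
    have hpt : (p : L) * t P = t R := by
      rw [htP]
      field_simp [T.ne]
    rw [hpt] at hmul
    have hb1 : ‖(p : L)‖ * ‖t P‖ ^ 2 ≤ ‖(p : L)‖ * ‖π 1‖ ^ (k + 1) := by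
      refine mul_le_mul_of_nonneg_left ?_ hp0.le
      refine (pow_le_pow_left₀ (norm_nonneg _) hPn 2).trans ?_
      rw [← pow_mul]
      exact pow_le_pow_of_le_one hπ0.le hπ1.le (by omega)
    have hb2 : ‖t P ^ p ^ 2‖ ≤ ‖(p : L)‖ * ‖π 1‖ ^ (k + 1) := by
      rw [norm_pow]
      refine (pow_le_pow_left₀ (norm_nonneg _) hPn _).trans ?_
      rw [← pow_mul, ← hpp, ← pow_add]
      refine pow_le_pow_of_le_one hπ0.le hπ1.le ?_
      have h5 := T.five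
      have h6 : p * p = p ^ 2 := by ring
      rw [← h6]
      have h7 : 5 * p ≤ p * p := Nat.mul_le_mul_right p h5
      have h8 : k * (5 * p) ≤ k * (p * p) := Nat.mul_le_mul_left k h7
      have h9 : k * (5 * p) = p * k + 4 * (p * k) := by ring
      have h10 : p ≤ p * k := Nat.le_mul_of_pos_right p (by omega)
      have h11 : 5 * k ≤ p * k := Nat.mul_le_mul_right k h5
      omega
    have hdiff : ‖t (p • P - R)‖ ≤ ‖(p : L)‖ * ‖π 1‖ ^ (k + 1) := by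
      rw [m1_iso F]
      have e : t (p • P) - t R = (t (p • P) - t R + t P ^ p ^ 2) - t P ^ p ^ 2 := by ring
      rw [e]
      exact (m3x_sub _ _).trans (max_le (hmul.trans hb1) hb2)
    obtain ⟨P', hP', h'⟩ := ih (k + 1) (by omega) (by omega) (p • P - R)
      (AddSubgroup.sub_mem _ (AddSubgroup.nsmul_mem _ hP p) hR) hdiff
    refine ⟨P - P', AddSubgroup.sub_mem _ hP hP', ?_⟩
    rw [nsmul_sub, h']
    abel

/-- Chunk M3 (M). Level 1: the converse. PROOF. Claim for all k ≥ 1: if ‖t R‖ ≤ ‖p‖ ‖π 1‖^k then R is in p E 1; downward induction, for k ≥ p by F.div (‖π 1‖^p = ‖p‖). For 1 ≤ k < p: P in E 1 with t P = t R/p (F.surj), ‖t P‖ ≤ ‖π 1‖^k. By F.mul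
‖t(p P) - t R‖ ≤ max (‖t P‖^(p²)) (‖p‖ ‖t P‖²) ≤ ‖p‖ ‖π 1‖^(k+1) (k p² ≥ p + k + 1), and this is ‖t(p P - R)‖ (m1_iso). Finally ‖t R‖ < ‖p‖ = ‖π 1‖^p gives ‖t R‖ ≤ ‖p‖ ‖π 1‖ (la_step). -/
theorem m3_div (T : Twr p H g π r) (F : Fgp p H g r t γ E al) {R : G} (hR : R ∈ E 1) (h : ‖t R‖ < ‖(p : L)‖) :
    ∃ P ∈ E 1, p • P = R := by
  have hpp : ‖π 1‖ ^ p = ‖(p : L)‖ := by rw [(la_succ T 0).1, (la_succ T 0).2]
  have h1 := la_step T ((F.mem 1 R).1 hR) (k := p) (by rw [hpp]; exact h)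
  rw [pow_succ, hpp] at h1
  exact m3x_div T F p 1 le_rfl (by omega) R hR (by rw [pow_one]; exact h1)

end H16S
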