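import Mathlib
import Pool.Agent.Lib.H16S.M5
import Pool.Agent.Lib.H16S.M3

/-! # H16S, chunk M6 (M): the traces to the levels 0 and 1 -/

namespace H16S

variable {p : ℕ} {L : Type} [NormedField L] [IsUltrametricDist L] {H : ℕ → Subfield L} {g : RingAut L} {π : ℕ → L}
  {r : Fin (p ^ 2) → L} {G : Type} [AddCommGroup G] {t : G → L} {γ : AddMonoid.End G} {E : ℕ → AddSubgroup G}
  {al : Fin (p ^ 2) → AddMonoid.End G}


/-- Names for the ultrametric inequality. -/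
theorem m6_lt {a b : L} {c : ℝ} (h1 : ‖a‖ < c) (h2 : ‖b‖ < c) : ‖a + b‖ < c :=
  (IsUltrametricDist.norm_add_le_max a b).trans_lt (max_lt h1 h2)


theorem m6_le {a b : L} {c : ℝ} (h1 : ‖a‖ ≤ c) (h2 : ‖b‖ ≤ c) : ‖a + b‖ ≤ c :=
  (IsUltrametricDist.norm_add_le_max a b).trans (max_le h1 h2)


/-- If a - b is smaller than b then a and b have the same norm. -/
theorem m6_eq {a b : L} (h : ‖a - b‖ < ‖b‖) : ‖a‖ = ‖b‖ := by
  have h1 : a = (a - b) + b := by ring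
  rw [h1, IsUltrametricDist.norm_add_eq_max_of_norm_ne_norm h.ne, max_eq_right h.le]

/-- The element y of lc_pow for a point. -/
theorem m6_y (T : Twr p H g π r) {x y : L} {n : ℕ} (hx : ‖x‖ < 1) (hy : y ∈ H n) (h : ‖x ^ p - y‖ ≤ ‖(p : L)‖) :
    ‖y‖ ≤ ‖π n‖ := by
  have h1 : ‖y‖ < 1 := by
    have e : y = -(x ^ p - y) + x ^ p := by ring
    rw [e]
    refine m6_lt ?_ ?_
    · rw [norm_neg]
      exact h.trans_lt T.lt
    · rw [norm_pow]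
      exact pow_lt_one₀ (norm_nonneg _) hx T.pr.ne_zero
  have h2 := la_step T hy (k := 0) (by rw [pow_zero]; exact h1)
  rwa [zero_add, pow_one] at h2

/-- Chunk M6 (S/M). Level 1 to level 0. PROOF. y from lc_pow, ‖y‖ < 1 in H 0, so ‖y‖ ≤ ‖p‖, ‖y^p‖ < ‖p‖. m5: t Q = -y^p, ‖t D‖ ≤ ‖p‖. If ‖t P‖ = ‖π 1‖: t P = r_i π 1 + .., ‖r_i‖ = 1 (la_lead with k = 1), ‖Tr (t P)‖ = ‖p‖ (lb_lead), ‖t D‖ = ‖p‖,
‖t(Q + D)‖ = ‖t Q + t D‖ = ‖p‖ (m1_add). ‖π 0‖ = ‖p‖. -/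
theorem m6_zero (T : Twr p H g π r) (F : Fgp p H g r t γ E al) {P : G} (hP : P ∈ E 1) :
    trG p γ 0 P ∈ E 0 ∧ (‖t P‖ = ‖π 1‖ → ‖t (trG p γ 0 P)‖ = ‖π 0‖) := by
  have hz := (F.mem 1 P).1 hP
  have hz1 := F.lt P
  obtain ⟨y, hy, -, hyp⟩ := lc_pow T (n := 0) hz hz1.le
  have h0 : ‖π 0‖ = ‖(p : L)‖ := (la_succ T 0).2
  have hp0 : 0 < ‖(p : L)‖ := norm_pos_iff.2 T.ne
  have hyle := m6_y T hz1 hy hyp
  rw [h0] at hyle
  have hyp1 : ‖-y ^ p‖ < ‖(p : L)‖ := by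
    rw [norm_neg, norm_pow]
    have h5 := T.five
    calc ‖y‖ ^ p ≤ ‖(p : L)‖ ^ p := pow_le_pow_left₀ (norm_nonneg _) hyle p
      _ < ‖(p : L)‖ ^ 1 := pow_lt_pow_right_of_lt_one₀ hp0 T.lt (by omega)
      _ = ‖(p : L)‖ := pow_one _
  obtain ⟨Q, hQ, D, hD, hS, htQ, htD, hDt⟩ := m5 T F (n := 0) hP hy hyp
  refine ⟨by rw [hS]; exact add_mem hQ hD, fun hP1 => ?_⟩
  obtain ⟨i, hi, hi1⟩ := la_lead T (n := 1) hz (k := 1) (by rw [pow_one]; exact hP1.le)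
  have hri := hi1 (by rw [pow_one]; exact hP1)
  have h3 := lb_lead T (n := 0) hz (i := i) (by rw [pow_one] at hi; exact hi)
  have hrp : ‖-(r i * (p : L))‖ = ‖(p : L)‖ := by rw [norm_neg, norm_mul, hri, one_mul]
  have htr : ‖trc p g 0 (t P)‖ = ‖(p : L)‖ := by
    rw [← hrp]
    refine m6_eq ?_
    rw [sub_neg_eq_add, hrp]
    exact h3
  have htD1 : ‖t D‖ = ‖(p : L)‖ := by
    rw [← htr]
    refine m6_eq ?_
    rw [htr]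
    exact hDt
  rw [hS, (m1_add F Q D).2, h0, ← htD1]
  refine m6_eq ?_
  rw [add_sub_cancel_right, htQ, htD1]
  exact hyp1

/-- Chunk M6 (M). Level 2 to level 1, reduced to level 0. PROOF. y from lc_pow (n = 1), ‖y‖ < 1: ‖y‖ ≤ ‖π 1‖, ‖y^p‖ ≤ ‖p‖. m5: S = Tr P = Q + D, ‖t Q‖, ‖t D‖ ≤ ‖p‖, so ‖t S‖ ≤ ‖p‖ and ‖t S + y^p - Tr (t P)‖ < ‖p‖ (m1_add: the error is at most ‖p‖³). t S = p a, a in H 1 integral, ‖a - r_k‖ < 1 (T.res);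
Q₀ in E 0 with t Q₀ = p r_k: ‖t(S - Q₀)‖ < ‖p‖ (m1_iso), S - Q₀ in E 1 (m1_lev), m3_div: S = Q₀ + p B. If ‖t P‖ = ‖π 2‖: la_lead (k = 1): ‖t P - r_i π 2‖ ≤ ‖π 2‖², ‖r_i‖ = 1; lb_lead: Tr (t P) = - r_i p + .., lc_two: y^p = r_i p + ..: ‖t S + 2 r_i p‖ < ‖p‖,
‖2‖ = 1 (p odd, ‖p‖ < 1): ‖t S‖ = ‖p‖, ‖t Q₀‖ = ‖p‖ = ‖π 0‖. -/
theorem m6_one (T : Twr p H g π r) (F : Fgp p H g r t γ E al) {P : G} (hP : P ∈ E 2) :
    ∃ Q ∈ E 0, ∃ B ∈ E 1, trG p γ 1 P = Q + p • B ∧ (‖t P‖ = ‖π 2‖ → ‖t Q‖ = ‖π 0‖) := by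
  have hz := (F.mem 2 P).1 hP
  have hz1 := F.lt P
  obtain ⟨y, hy, -, hyp⟩ := lc_pow T (n := 1) hz hz1.le
  have h0 : ‖π 0‖ = ‖(p : L)‖ := (la_succ T 0).2
  have hp0 : 0 < ‖(p : L)‖ := norm_pos_iff.2 T.ne
  have hyle := m6_y T hz1 hy hyp
  have hyp1 : ‖-y ^ p‖ ≤ ‖(p : L)‖ := by
    rw [norm_neg, norm_pow, ← h0, ← (la_succ T 0).1]
    exact pow_le_pow_left₀ (norm_nonneg _) hyle p
  obtain ⟨Q, hQ, D, hD, hS, htQ, htD, hDt⟩ := m5 T F (n := 1) hP hy hyp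
  obtain ⟨a1, a2⟩ := m1_add F Q D
  have htQ1 : ‖t Q‖ ≤ ‖(p : L)‖ := by rw [htQ]; exact hyp1
  have hsum : ‖t Q + t D‖ ≤ ‖(p : L)‖ := m6_le htQ1 htD
  have htS : ‖t (trG p γ 1 P)‖ ≤ ‖(p : L)‖ := by rw [hS, a2]; exact hsum
  have hmem : trG p γ 1 P ∈ E 1 := by rw [hS]; exact add_mem hQ hD
  have herr : ‖t (trG p γ 1 P) + y ^ p - trc p g 1 (t P)‖ < ‖(p : L)‖ := by
    have e : t (trG p γ 1 P) + y ^ p - trc p g 1 (t P) =
        (t (trG p γ 1 P) - (t Q + t D)) + (t D - trc p g 1 (t P)) := by rw [htQ]; ring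
    rw [e]
    refine m6_lt ?_ hDt
    rw [hS]
    refine a1.trans_lt ?_
    have b1 : max ‖t Q‖ ‖t D‖ ≤ ‖(p : L)‖ := max_le htQ1 htD
    have b0 : 0 ≤ max ‖t Q‖ ‖t D‖ := (norm_nonneg _).trans (le_max_left _ _)
    calc ‖t Q + t D‖ * max ‖t Q‖ ‖t D‖ ^ 2 ≤ ‖(p : L)‖ * ‖(p : L)‖ ^ 2 :=
          mul_le_mul hsum (pow_le_pow_left₀ b0 b1 2) (by positivity) hp0.le
      _ < ‖(p : L)‖ * 1 := mul_lt_mul_of_pos_left (pow_lt_one₀ hp0.le T.lt two_ne_zero) hp0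
      _ = ‖(p : L)‖ := mul_one _
  -- the residue of t S / p
  have hpH : ∀ n, (p : L) ∈ H n := fun n => natCast_mem (H n) p
  have haH : t (trG p γ 1 P) / (p : L) ∈ H 1 := div_mem ((F.mem 1 _).1 hmem) (hpH 1)
  have ha1 : ‖t (trG p γ 1 P) / (p : L)‖ ≤ 1 := by
    rw [norm_div]
    exact (div_le_one hp0).2 htS
  obtain ⟨k, hk⟩ := T.res 1 _ haH ha1
  have hQ0 : ‖(p : L) * r k‖ < 1 := by
    rw [norm_mul]
    calc ‖(p : L)‖ * ‖r k‖ ≤ ‖(p : L)‖ * 1 := mul_le_mul_of_nonneg_left (T.rH k).2 hp0.le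
      _ < 1 := by rw [mul_one]; exact T.lt
  obtain ⟨Q₀, hQ₀, htQ₀⟩ := F.surj 0 ((p : L) * r k) (mul_mem (hpH 0) (T.rH k).1) hQ0
  have hdiff : ‖t (trG p γ 1 P) - t Q₀‖ < ‖(p : L)‖ := by
    have e : t (trG p γ 1 P) - t Q₀ = (p : L) * (t (trG p γ 1 P) / (p : L) - r k) := by
      rw [htQ₀, mul_sub, mul_div_cancel₀ _ T.ne]
    rw [e, norm_mul]
    calc ‖(p : L)‖ * ‖t (trG p γ 1 P) / (p : L) - r k‖ < ‖(p : L)‖ * 1 := mul_lt_mul_of_pos_left hk hp0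
      _ = ‖(p : L)‖ := mul_one _
  obtain ⟨B, hB, hBe⟩ := m3_div T F (R := trG p γ 1 P - Q₀) (sub_mem hmem ((m1_lev T F 0).1 hQ₀))
    (by rw [m1_iso F]; exact hdiff)
  refine ⟨Q₀, hQ₀, B, hB, by rw [hBe]; abel, fun hP1 => ?_⟩
  obtain ⟨i, hi, hi1⟩ := la_lead T (n := 2) hz (k := 1) (by rw [pow_one]; exact hP1.le)
  have hri := hi1 (by rw [pow_one]; exact hP1)
  rw [pow_one] at hi
  have h3 := lb_lead T (n := 1) hz (i := i) hi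
  have h4 := lc_two T hz hy hyp hi
  have h2 : ‖(2 : L)‖ = 1 := by
    refine le_antisymm ?_ ?_
    · have := IsUltrametricDist.norm_natCast_le_one L 2
      rwa [Nat.cast_ofNat] at this
    · by_contra hcon
      push Not at hcon
      obtain ⟨j, hj⟩ := T.pr.odd_of_ne_two (by have := T.five; omega)
      have e : (1 : L) = (p : L) + -(2 * (j : L)) := by
        rw [hj]
        push_cast
        ring
      have h5 : ‖(1 : L)‖ < 1 := by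
        rw [e]
        refine m6_lt T.lt ?_
        rw [norm_neg, norm_mul]
        calc ‖(2 : L)‖ * ‖(j : L)‖ ≤ ‖(2 : L)‖ * 1 :=
              mul_le_mul_of_nonneg_left (IsUltrametricDist.norm_natCast_le_one L j) (norm_nonneg _)
          _ < 1 := by rw [mul_one]; exact hcon
      rw [norm_one] at h5
      exact lt_irrefl _ h5
  have hrp : ‖-(2 * (r i * (p : L)))‖ = ‖(p : L)‖ := by rw [norm_neg, norm_mul, norm_mul, h2, hri, one_mul, one_mul]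
  have htS1 : ‖t (trG p γ 1 P)‖ = ‖(p : L)‖ := by
    rw [← hrp]
    refine m6_eq ?_
    have e : t (trG p γ 1 P) - -(2 * (r i * (p : L))) = (t (trG p γ 1 P) + y ^ p - trc p g 1 (t P)) +
        ((trc p g 1 (t P) + r i * p) + -(y ^ p - r i * p)) := by ring
    rw [e, hrp]
    refine m6_lt herr (m6_lt h3 ?_)
    rw [norm_neg]
    exact h4
  rw [h0, ← htS1]
  refine m6_eq ?_
  rw [← norm_neg, neg_sub, htS1]
  exact hdiff

end H16S
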