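import Mathlib
import Pool.Agent.Lib.H16S.M2
import Pool.Agent.Lib.H16S.LC

/-! # H16S, chunk M7 (M/L): small points -/

namespace H16S

variable {p : ℕ} {L : Type} [NormedField L] [IsUltrametricDist L] {H : ℕ → Subfield L} {g : RingAut L} {π : ℕ → L}
  {r : Fin (p ^ 2) → L} {G : Type} [AddCommGroup G] {t : G → L} {γ : AddMonoid.End G} {E : ℕ → AddSubgroup G}
  {al : Fin (p ^ 2) → AddMonoid.End G}

theorem m7_sub {L : Type} [NormedField L] [IsUltrametricDist L] {x y : L} {c : ℝ} (hx : ‖x‖ ≤ c) (hy : ‖y‖ ≤ c) :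
    ‖x - y‖ ≤ c := by
  rw [sub_eq_add_neg]
  exact (IsUltrametricDist.norm_add_le_max _ _).trans (max_le hx (by rwa [norm_neg]))

theorem m7_addle {L : Type} [NormedField L] [IsUltrametricDist L] {x y : L} {c : ℝ} (hx : ‖x‖ ≤ c) (hy : ‖y‖ ≤ c) :
    ‖x + y‖ ≤ c :=
  (IsUltrametricDist.norm_add_le_max _ _).trans (max_le hx hy)

theorem m7_sublt {L : Type} [NormedField L] [IsUltrametricDist L] {x y : L} {c : ℝ} (hx : ‖x‖ < c) (hy : ‖y‖ < c) :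
    ‖x - y‖ < c := by
  rw [sub_eq_add_neg]
  exact (IsUltrametricDist.norm_add_le_max _ _).trans_lt (max_lt hx (by rwa [norm_neg]))

/-- Chunk M7 (M/L). n ≥ 1. A point X of level n + 1 with ‖t X‖ ≤ ‖p‖ is a point of level n, small, plus a multiple of p. PROOF. ϖ = π (n+1), e = p^(n+1), ‖ϖ‖^e = ‖p‖, ‖ϖ‖^p = ‖π n‖. Claim for all k ≤ e: if ‖t X‖ ≤ ‖p‖ ‖ϖ‖^k then X = A + p B; downward induction on k.
k = e: F.div (A = 0). k < e: t X = p a, a in H (n+1), ‖a‖ ≤ ‖ϖ‖^k.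
k = 0: ‖a - r_i‖ < 1 (T.res), P₀ in E 0 with t P₀ = p r_i: ‖t(X - P₀)‖ < ‖p‖, so ≤ ‖p‖ ‖ϖ‖ (apply la_step to (t X - t P₀)/p); ‖t P₀‖ ≤ ‖p‖ = ‖π n‖^(p^n) ≤ ‖π n‖², P₀ in E n.
k ≥ 1: Y in E (n+1) with t Y = a (F.surj), Z = - p Y, t Z = -(p a - a^(p²) + e₁), ‖e₁‖ ≤ ‖p‖ ‖a‖² ≤ ‖p‖ ‖ϖ‖^(k+1), ‖t Z‖ ≤ ‖a‖. m1_pert with c = ‖a‖ (‖t X‖ = ‖p a‖ ≤ ‖a‖): t(X + Z) = t X + t Z + (≤ ‖p a‖ ‖a‖²) = a^(p²) + (≤ ‖p‖ ‖ϖ‖^(k+1)).
y in H n with ‖a^p - y‖ ≤ ‖p‖ (lc_pow), ‖a^(p²) - y^p‖ ≤ ‖p‖² ≤ ‖p‖ ‖ϖ‖^(k+1) (lc_diff; k + 1 ≤ e), ‖y‖ ≤ max (‖a‖^p) ‖p‖ < 1, so ‖y‖ ≤ ‖π n‖ and A₁ in E n with t A₁ = y^p has ‖t A₁‖ ≤ ‖π n‖^p ≤ ‖π n‖². X' = X - p Y - A₁ has ‖t X'‖ = ‖t(X + Z) - t A₁‖ ≤ ‖p‖ ‖ϖ‖^(k+1) (m1_iso): induction;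
the sums of the A's stay of norm at most ‖π n‖² (m1_add). -/
theorem m7 (T : Twr p H g π r) (F : Fgp p H g r t γ E al) {n : ℕ} (hn : 1 ≤ n) {X : G} (hX : X ∈ E (n + 1))
    (h : ‖t X‖ ≤ ‖(p : L)‖) : ∃ A ∈ E n, ∃ B ∈ E (n + 1), ‖t A‖ ≤ ‖π n‖ ^ 2 ∧ X = A + p • B := by
  obtain ⟨hϖ0, hϖ1⟩ := la_pos T (n + 1)
  obtain ⟨hν0, hν1⟩ := la_pos T n
  have hp := T.pr
  have h5 := T.five
  have hq1 : ‖(p : L)‖ < 1 := T.lt
  have hq0 : 0 < ‖(p : L)‖ := norm_pos_iff.mpr T.ne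
  have hqe : ‖π (n + 1)‖ ^ p ^ (n + 1) = ‖(p : L)‖ := T.piv (n + 1)
  have hmono1 : E n ≤ E (n + 1) := (m1_lev T F n).1
  have hmono0 : E 0 ≤ E n := by
    have hm : Monotone E := monotone_nat_of_le_succ fun m => (m1_lev T F m).1
    exact hm (Nat.zero_le n)
  have hqn2 : ‖(p : L)‖ ≤ ‖π n‖ ^ 2 := by
    rw [← T.piv n]
    refine pow_le_pow_of_le_one hν0.le hν1.le ?_
    calc 2 ≤ p := hp.two_le
      _ = p ^ 1 := (pow_one p).symm
      _ ≤ p ^ n := Nat.pow_le_pow_right hp.pos hn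
  have hclaim : ∀ j k : ℕ, k + j = p ^ (n + 1) → ∀ X ∈ E (n + 1), ‖t X‖ ≤ ‖(p : L)‖ * ‖π (n + 1)‖ ^ k →
      ∃ A ∈ E n, ∃ B ∈ E (n + 1), ‖t A‖ ≤ ‖π n‖ ^ 2 ∧ X = A + p • B := by
    intro j
    induction j with
    | zero =>
      intro k hk X hX hXt
      rw [add_zero] at hk
      rw [hk, hqe, ← sq] at hXt
      obtain ⟨B, hB, -, hB2⟩ := F.div (n + 1) X hX hXt
      refine ⟨0, (E n).zero_mem, B, hB, ?_, by rw [zero_add, hB2]⟩
      rw [(F.zero 0).mpr rfl, norm_zero]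
      positivity
    | succ j ih =>
      intro k hk X hX hXt
      have hke : k + 1 ≤ p ^ (n + 1) := by omega
      have hih := ih (k + 1) (by omega)
      have hXH : t X ∈ H (n + 1) := (F.mem _ _).mp hX
      have hpHn : (p : L) ∈ H (n + 1) := natCast_mem (H (n + 1)) p
      set a := t X / p with ha
      have htX : t X = p * a := by
        rw [ha]
        have := T.ne
        field_simp
      have haH : a ∈ H (n + 1) := (H (n + 1)).div_mem hXH hpHn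
      have han : ‖a‖ ≤ ‖π (n + 1)‖ ^ k := by
        rw [htX, norm_mul] at hXt
        exact le_of_mul_le_mul_left hXt hq0
      have hqk : ‖(p : L)‖ ≤ ‖π (n + 1)‖ ^ (k + 1) := by
        rw [← hqe]
        exact pow_le_pow_of_le_one hϖ0.le hϖ1.le hke
      rcases Nat.eq_zero_or_pos k with hk0 | hk0
      · subst hk0
        rw [pow_zero] at han
        obtain ⟨i, hi⟩ := T.res (n + 1) a haH han
        have hrH0 : (p : L) * r i ∈ H 0 := (H 0).mul_mem (natCast_mem (H 0) p) (T.rH i).1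
        have hrn : ‖(p : L) * r i‖ ≤ ‖(p : L)‖ := by
          rw [norm_mul]
          calc ‖(p : L)‖ * ‖r i‖ ≤ ‖(p : L)‖ * 1 := mul_le_mul_of_nonneg_left (T.rH i).2 hq0.le
            _ = ‖(p : L)‖ := mul_one _
        obtain ⟨P₀, hP₀, hP₀t⟩ := F.surj 0 _ hrH0 (hrn.trans_lt hq1)
        have hP₀n : P₀ ∈ E n := hmono0 hP₀
        have hriH : r i ∈ H (n + 1) := by
          have hm : Monotone H := monotone_nat_of_le_succ T.mono
          exact hm (Nat.zero_le _) (T.rH i).1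
        have h1 : ‖a - r i‖ ≤ ‖π (n + 1)‖ ^ (0 + 1) :=
          la_step T ((H (n + 1)).sub_mem haH hriH) (by rw [pow_zero]; exact hi)
        have h2 : ‖t (X - P₀)‖ ≤ ‖(p : L)‖ * ‖π (n + 1)‖ ^ (0 + 1) := by
          rw [m1_iso F, hP₀t, htX, ← mul_sub, norm_mul]
          exact mul_le_mul_of_nonneg_left h1 hq0.le
        obtain ⟨A', hA', B, hB, hA't, hXAB⟩ := hih (X - P₀) ((E (n + 1)).sub_mem hX (hmono1 hP₀n)) h2
        refine ⟨P₀ + A', (E n).add_mem hP₀n hA', B, hB, ?_, ?_⟩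
        · rw [(m1_add F P₀ A').2]
          refine m7_addle ?_ hA't
          rw [hP₀t]
          exact hrn.trans hqn2
        · rw [add_assoc, ← hXAB]
          abel
      · have ha1 : ‖a‖ < 1 := han.trans_lt (pow_lt_one₀ hϖ0.le hϖ1 (by omega))
        obtain ⟨Y, hY, hYt⟩ := F.surj (n + 1) a haH ha1
        have hmulY := F.mul Y
        rw [hYt] at hmulY
        have hpow : ∀ m : ℕ, k + 1 ≤ m → ‖π (n + 1)‖ ^ m ≤ ‖π (n + 1)‖ ^ (k + 1) := fun m hm =>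
          pow_le_pow_of_le_one hϖ0.le hϖ1.le hm
        have ha2 : ‖(p : L)‖ * ‖a‖ ^ 2 ≤ ‖(p : L)‖ * ‖π (n + 1)‖ ^ (k + 1) := by
          refine mul_le_mul_of_nonneg_left ?_ hq0.le
          calc ‖a‖ ^ 2 ≤ (‖π (n + 1)‖ ^ k) ^ 2 := pow_le_pow_left₀ (norm_nonneg _) han 2
            _ = ‖π (n + 1)‖ ^ (k * 2) := (pow_mul _ _ _).symm
            _ ≤ _ := hpow _ (by omega)
        have hZt : t (-(p • Y)) = -t (p • Y) := F.neg _
        have hpY : p • Y ∈ E (n + 1) := (E (n + 1)).nsmul_mem hY p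
        have hpa : ‖(p : L) * a‖ ≤ ‖a‖ := by
          rw [norm_mul]
          calc ‖(p : L)‖ * ‖a‖ ≤ 1 * ‖a‖ := mul_le_mul_of_nonneg_right hq1.le (norm_nonneg _)
            _ = ‖a‖ := one_mul _
        have hZn : ‖t (-(p • Y))‖ ≤ ‖a‖ := by
          rw [hZt, norm_neg]
          refine (m1_mul hq1 F Y).trans ?_
          rw [hYt]
          refine max_le ?_ ?_
          · rw [← norm_mul]
            exact hpa
          · have h1p : 1 ≤ p ^ 2 := Nat.one_le_iff_ne_zero.mpr (pow_ne_zero _ hp.ne_zero)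
            calc ‖a‖ ^ p ^ 2 ≤ ‖a‖ ^ 1 := pow_le_pow_of_le_one (norm_nonneg _) ha1.le h1p
              _ = ‖a‖ := pow_one _
        have hpert := m1_pert F (-(p • Y)) X hZn (by rw [htX]; exact hpa)
        have hpert2 : ‖t (-(p • Y) + X) - t (-(p • Y)) - t X‖ ≤ ‖(p : L)‖ * ‖π (n + 1)‖ ^ (k + 1) := by
          refine hpert.trans (le_trans ?_ ha2)
          have h1 : ‖t X‖ ≤ ‖(p : L)‖ := by
            rw [htX, norm_mul]
            calc ‖(p : L)‖ * ‖a‖ ≤ ‖(p : L)‖ * 1 := mul_le_mul_of_nonneg_left ha1.le hq0.le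
              _ = ‖(p : L)‖ := mul_one _
          exact mul_le_mul_of_nonneg_right h1 (by positivity)
        obtain ⟨y, hyH, hy1, hyd⟩ := lc_pow T haH ha1.le
        have hap1 : ‖a ^ p‖ < 1 := by
          rw [norm_pow]
          exact pow_lt_one₀ (norm_nonneg _) ha1 hp.ne_zero
        have hy1' : ‖y‖ < 1 := by
          have e : y = a ^ p - (a ^ p - y) := by ring
          rw [e]
          exact m7_sublt hap1 (hyd.trans_lt hq1)
        have hyn : ‖y‖ ≤ ‖π n‖ := by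
          have h1 := la_step T hyH (k := 0) (by rw [pow_zero]; exact hy1')
          rwa [zero_add, pow_one] at h1
        have hdiff : ‖a ^ p ^ 2 - y ^ p‖ ≤ ‖(p : L)‖ * ‖π (n + 1)‖ ^ (k + 1) := by
          have e : a ^ p ^ 2 = (a ^ p) ^ p := by rw [← pow_mul, sq]
          rw [e]
          refine (lc_diff hp h5 hq1 hap1.le hy1 hyd).trans ?_
          rw [sq]
          exact mul_le_mul_of_nonneg_left hqk hq0.le
        have hypn : ‖y ^ p‖ ≤ ‖π n‖ ^ 2 := by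
          rw [norm_pow]
          calc ‖y‖ ^ p ≤ ‖π n‖ ^ p := pow_le_pow_left₀ (norm_nonneg _) hyn p
            _ ≤ ‖π n‖ ^ 2 := pow_le_pow_of_le_one hν0.le hν1.le hp.two_le
        have hyp1 : ‖y ^ p‖ < 1 := by
          rw [norm_pow]
          exact pow_lt_one₀ (norm_nonneg _) hy1' hp.ne_zero
        obtain ⟨A₁, hA₁, hA₁t⟩ := F.surj n (y ^ p) ((H n).pow_mem hyH p) hyp1
        have hX' : ‖t ((-(p • Y) + X) - A₁)‖ ≤ ‖(p : L)‖ * ‖π (n + 1)‖ ^ (k + 1) := by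
          rw [m1_iso F, hA₁t]
          have e : t (-(p • Y) + X) - y ^ p = (t (-(p • Y) + X) - t (-(p • Y)) - t X) -
              (t (p • Y) - p * a + a ^ p ^ 2) + (a ^ p ^ 2 - y ^ p) := by
            rw [hZt, htX]
            ring
          rw [e]
          exact m7_addle (m7_sub hpert2 (hmulY.trans ha2)) hdiff
        have hX'E : (-(p • Y) + X) - A₁ ∈ E (n + 1) :=
          (E (n + 1)).sub_mem ((E (n + 1)).add_mem ((E (n + 1)).neg_mem hpY) hX) (hmono1 hA₁)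
        obtain ⟨A', hA', B', hB', hA't, hAB⟩ := hih _ hX'E hX'
        refine ⟨A₁ + A', (E n).add_mem hA₁ hA', Y + B', (E (n + 1)).add_mem hY hB', ?_, ?_⟩
        · rw [(m1_add F A₁ A').2]
          refine m7_addle ?_ hA't
          rw [hA₁t]
          exact hypn
        · have e : X = ((-(p • Y) + X) - A₁) + A₁ + p • Y := by abel
          rw [smul_add]
          calc X = ((-(p • Y) + X) - A₁) + A₁ + p • Y := e
            _ = (A' + p • B') + A₁ + p • Y := by rw [← hAB]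
            _ = A₁ + A' + (p • Y + p • B') := by abel
  exact hclaim (p ^ (n + 1)) 0 (by rw [zero_add]) X hX (by rw [pow_zero, mul_one]; exact h)

end H16S
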