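import Mathlib
import Pool.Agent.Lib.H16S.M5
import Pool.Agent.Lib.H16S.M6
import Pool.Agent.Lib.H16S.M7

/-! # H16S, chunk M8 (M): the trace two levels down -/

namespace H16S

variable {p : ℕ} {L : Type} [NormedField L] [IsUltrametricDist L] {H : ℕ → Subfield L} {g : RingAut L} {π : ℕ → L}
  {r : Fin (p ^ 2) → L} {G : Type} [AddCommGroup G] {t : G → L} {γ : AddMonoid.End G} {E : ℕ → AddSubgroup G}
  {al : Fin (p ^ 2) → AddMonoid.End G}

theorem m8x_sub (a b : L) : ‖a - b‖ ≤ max ‖a‖ ‖b‖ := by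
  rw [sub_eq_add_neg, ← norm_neg b]
  exact IsUltrametricDist.norm_add_le_max a (-b)

theorem m8x_eq {a b : L} (h : ‖a - b‖ < ‖a‖) : ‖b‖ = ‖a‖ := by
  apply le_antisymm
  · have h1 : b = a - (a - b) := by ring
    have h2 := m8x_sub a (a - b)
    rw [← h1] at h2
    exact h2.trans (max_le le_rfl h.le)
  · by_contra hlt
    push Not at hlt
    have h1 : a = (a - b) + b := by ring
    have h2 := IsUltrametricDist.norm_add_le_max (a - b) b
    rw [← h1] at h2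
    exact absurd (h2.trans_lt (max_lt h hlt)) (lt_irrefl _)

theorem m8x_pi (T : Twr p H g π r) {n : ℕ} (hn : 1 ≤ n) : ‖(p : L)‖ < ‖π n‖ := by
  obtain ⟨h1, h2⟩ := la_pos T n
  rw [← T.piv n]
  have h3 : 1 < p ^ n := Nat.one_lt_pow (by omega) T.pr.one_lt
  have h4 := pow_lt_pow_right_of_lt_one₀ h1 h2 h3
  rwa [pow_one] at h4

/-- Chunk M8 (M). PROOF. k = 0 is m6_one. k ≥ 1, n = k + 1: P in E (n+1), y in H n with ‖(t P)^p - y‖ ≤ ‖p‖ (lc_pow), S = Tr P = Q₁ + D, t Q₁ = -y^p, ‖t D‖ ≤ ‖p‖ (m5). y' in H k with ‖y^p - y'‖ ≤ ‖p‖ (lc_pow for y in H (k+1)), ‖y'‖ < 1; P' in E k with t P' = - y'. X = S - P' in E n: ‖t X‖ ≤ ‖p‖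
(X = (Q₁ - P') + D, ‖t(Q₁ - P')‖ = ‖y^p - y'‖ by m1_iso, m1_add). m7 with its n equal to k: X = A + p B, A in E k, ‖t A‖ ≤ ‖π k‖², B in E (k+1). Q = P' + A. If ‖t P‖ = ‖π (k+2)‖: ‖y‖ = ‖π (k+2)‖^p = ‖π (k+1)‖ (> ‖p‖), ‖y'‖ = ‖π (k+1)‖^p = ‖π k‖ > ‖p‖ since k ≥ 1,
‖t Q‖ = ‖t P' + t A‖ = ‖π k‖ (m1_add). -/
theorem m8 (T : Twr p H g π r) (F : Fgp p H g r t γ E al) (k : ℕ) {P : G} (hP : P ∈ E (k + 2)) :
    ∃ Q ∈ E k, ∃ B ∈ E (k + 1), trG p γ (k + 1) P = Q + p • B ∧ (‖t P‖ = ‖π (k + 2)‖ → ‖t Q‖ = ‖π k‖) := by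
  rcases Nat.eq_zero_or_pos k with hk | hk
  · subst hk
    exact m6_one T F hP
  · have hp0 : 0 < ‖(p : L)‖ := norm_pos_iff.2 T.ne
    have hzH : t P ∈ H (k + 1 + 1) := (F.mem _ P).1 hP
    obtain ⟨y, hyH, hy1, hy⟩ := lc_pow T hzH (F.lt P).le
    obtain ⟨Q₁, hQ₁, D, hD, hTr, htQ₁, htD, -⟩ := m5 T F hP hyH hy
    obtain ⟨y', hy'H, hy'1, hy'⟩ := lc_pow T hyH hy1
    have hylt : ‖y‖ < 1 := by
      have h1 : y = t P ^ p - (t P ^ p - y) := by ring
      have h2 := m8x_sub (t P ^ p) (t P ^ p - y)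
      rw [← h1] at h2
      refine h2.trans_lt (max_lt ?_ (hy.trans_lt T.lt))
      rw [norm_pow]
      exact pow_lt_one₀ (norm_nonneg _) (F.lt P) T.pr.ne_zero
    have hy'lt : ‖y'‖ < 1 := by
      have h1 : y' = y ^ p - (y ^ p - y') := by ring
      have h2 := m8x_sub (y ^ p) (y ^ p - y')
      rw [← h1] at h2
      refine h2.trans_lt (max_lt ?_ (hy'.trans_lt T.lt))
      rw [norm_pow]
      exact pow_lt_one₀ (norm_nonneg _) hylt T.pr.ne_zero
    obtain ⟨P', hP', htP'⟩ := F.surj k (-y') (Subfield.neg_mem _ hy'H) (by rw [norm_neg]; exact hy'lt)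
    have hlev := m1_lev T F k
    have hX : Q₁ + D - P' ∈ E (k + 1) :=
      AddSubgroup.sub_mem _ (AddSubgroup.add_mem _ hQ₁ hD) (hlev.1 hP')
    have hXn : ‖t (Q₁ + D - P')‖ ≤ ‖(p : L)‖ := by
      have e : Q₁ + D - P' = (Q₁ - P') + D := by abel
      rw [e, (m1_add F _ _).2]
      refine (IsUltrametricDist.norm_add_le_max _ _).trans (max_le ?_ htD)
      rw [m1_iso F, htQ₁, htP']
      have e2 : -y ^ p - -y' = -(y ^ p - y') := by ring
      rw [e2, norm_neg]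
      exact hy'
    obtain ⟨A, hA, B, hB, htA, hXe⟩ := m7 T F hk hX hXn
    refine ⟨P' + A, AddSubgroup.add_mem _ hP' hA, B, hB, ?_, fun hPn => ?_⟩
    · have h1 : Q₁ + D = P' + (Q₁ + D - P') := by abel
      rw [hTr, h1, hXe]
      abel
    · have h1 : ‖t P ^ p‖ = ‖π (k + 1)‖ := by
        rw [norm_pow, hPn]
        exact (la_succ T (k + 1)).1
      have h2 : ‖y‖ = ‖π (k + 1)‖ := by
        rw [← h1]
        refine m8x_eq (hy.trans_lt ?_)
        rw [h1]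
        exact m8x_pi T (by omega)
      have h3 : ‖y ^ p‖ = ‖π k‖ := by
        rw [norm_pow, h2]
        exact (la_succ T k).1
      have h4 : ‖y'‖ = ‖π k‖ := by
        rw [← h3]
        refine m8x_eq (hy'.trans_lt ?_)
        rw [h3]
        exact m8x_pi T hk
      have h5 : ‖t P'‖ = ‖π k‖ := by rw [htP', norm_neg, h4]
      have h6 : ‖t A‖ < ‖t P'‖ := by
        rw [h5]
        refine htA.trans_lt ?_
        obtain ⟨h7, h8⟩ := la_pos T k
        nlinarith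
      rw [(m1_add F _ _).2, ← h5]
      have h9 : ‖t P' - (t P' + t A)‖ < ‖t P'‖ := by
        have e : t P' - (t P' + t A) = - t A := by ring
        rw [e, norm_neg]
        exact h6
      exact m8x_eq h9

end H16S
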