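import Mathlib
import Pool.Agent.Lib.H16S.M8
import Pool.Agent.Lib.H35K.A0
import Pool.Agent.Lib.H35K.B1

/-! # H16S, chunk M9 (M): the induction -/

namespace H16S

variable {p : ℕ} {L : Type} [NormedField L] [IsUltrametricDist L] {H : ℕ → Subfield L} {g : RingAut L} {π : ℕ → L}
  {r : Fin (p ^ 2) → L} {G : Type} [AddCommGroup G] {t : G → L} {γ : AddMonoid.End G} {E : ℕ → AddSubgroup G}
  {al : Fin (p ^ 2) → AddMonoid.End G}

open Polynomial

theorem m9_sum {G : Type} [AddCommGroup G] {ι : Type} (S : Finset ι) (f : ι → AddMonoid.End G) (P : G) :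
    (∑ i ∈ S, f i) P = ∑ i ∈ S, f i P := by
  classical
  induction S using Finset.induction_on with
  | empty => rfl
  | insert a S ha ih =>
    rw [Finset.sum_insert ha, Finset.sum_insert ha, ← ih]
    rfl

theorem m9_one (T : Twr p H g π r) (F : Fgp p H g r t γ E al) (m : ℕ) (k : ℕ) {P : G} (hP : P ∈ E m) :
    ((γ - 1) ^ k) P ∈ E m := by
  induction k with
  | zero =>
    rw [pow_zero]
    exact hP
  | succ k ih =>
    rw [pow_succ']
    have h1 := (m1_lev T F m).2.1 1 _ ih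
    rw [pow_one] at h1
    exact (E m).sub_mem h1 ih

theorem m9_aeval (T : Twr p H g π r) (F : Fgp p H g r t γ E al) (m : ℕ) (f : ℤ[X]) :
    ∀ P ∈ E m, (Polynomial.aeval (γ - 1) f : AddMonoid.End G) P ∈ E m := by
  induction f using Polynomial.induction_on' with
  | add f₁ f₂ h1 h2 =>
    intro P hP
    rw [map_add]
    exact (E m).add_mem (h1 P hP) (h2 P hP)
  | monomial k c =>
    intro P hP
    rw [Polynomial.aeval_monomial, Algebra.algebraMap_eq_smul_one, smul_mul_assoc, one_mul]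
    exact (E m).zsmul_mem (m9_one T F m k hP) c

/-- Chunk M9 (S/M). The trace is (γ - 1)^(p^(n+1) - p^n) modulo p: H35K.nrm_poly, apply the ring homomorphism Polynomial.aeval (γ - 1) (ℤ-algebra AddMonoid.End G); h(γ - 1) P lies in E (n+1) because γ preserves it (m1_lev; aeval of a polynomial is a sum of
integer multiples of powers). -/
theorem m9_tr (T : Twr p H g π r) (F : Fgp p H g r t γ E al) (n : ℕ) {P : G} (hP : P ∈ E (n + 1)) :
    ∃ B ∈ E (n + 1), ((γ - 1) ^ (p ^ (n + 1) - p ^ n)) P = trG p γ n P + p • B := by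
  obtain ⟨h, hh, -⟩ := H35K.nrm_poly T.pr n
  have h1 := congrArg (fun f : ℤ[X] => (Polynomial.aeval (γ - 1) f : AddMonoid.End G) P) hh
  have h2 : (Polynomial.aeval (γ - 1) (∑ i ∈ Finset.range p, (X + 1 : ℤ[X]) ^ (i * p ^ n)) : AddMonoid.End G) P =
      trG p γ n P := by
    rw [map_sum]
    unfold trG
    rw [m9_sum]
    refine Finset.sum_congr rfl fun i _ => ?_
    rw [map_pow, map_add, Polynomial.aeval_X, map_one, sub_add_cancel]
  have h3 : (Polynomial.aeval (γ - 1) ((X : ℤ[X]) ^ (p ^ (n + 1) - p ^ n) + C (p : ℤ) * h) : AddMonoid.End G) P =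
      ((γ - 1) ^ (p ^ (n + 1) - p ^ n)) P + p • (Polynomial.aeval (γ - 1) h : AddMonoid.End G) P := by
    rw [map_add, map_mul, map_pow, Polynomial.aeval_X, Polynomial.aeval_C]
    change ((γ - 1) ^ (p ^ (n + 1) - p ^ n)) P + ((algebraMap ℤ (AddMonoid.End G) (p : ℤ)) * (Polynomial.aeval (γ - 1) h : AddMonoid.End G)) P = _
    congr 1
    rw [map_natCast, ← nsmul_eq_mul]
    rfl
  rw [h2, h3] at h1
  refine ⟨-(Polynomial.aeval (γ - 1) h : AddMonoid.End G) P, (E (n + 1)).neg_mem (m9_aeval T F (n + 1) h P hP), ?_⟩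
  rw [h1, smul_neg]
  abel

/-- Chunk M9 (M). s n = p^n - 1 - J p n. PROOF by induction in steps of two. n = 0: s = 0 (H35K.J_zero), Q = P. n = 1: s = p - 1 (J_one), m9_tr and m6_zero, Q = Tr P. n + 2: s (n+2) = s n + (p^(n+2) - p^(n+1)) (H35K.J_step, J_two):
(γ-1)^(s(n+2)) P = (γ-1)^(s n) (Tr P + p B₁) = (γ-1)^(s n) (Q' + p B') (m8) = Q + p B. The points (γ-1)^j B stay in E. ‖t Q'‖ = ‖π n‖ if ‖t P‖ = ‖π (n+2)‖. -/
theorem m9 (T : Twr p H g π r) (F : Fgp p H g r t γ E al) (n : ℕ) {P : G} (hP : P ∈ E n) :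
    ∃ Q ∈ E 0, ∃ B ∈ E n, ((γ - 1) ^ (p ^ n - 1 - H35K.J p n)) P = Q + p • B ∧ (‖t P‖ = ‖π n‖ → ‖t Q‖ = ‖(p : L)‖) := by
  have hp := T.pr
  have hπ0 : ‖π 0‖ = ‖(p : L)‖ := (la_succ T 0).2
  have hmono : Monotone E := monotone_nat_of_le_succ fun m => (m1_lev T F m).1
  induction n using Nat.strong_induction_on generalizing P with
  | _ n ih =>
    rcases n with _ | _ | n
    · refine ⟨P, hP, 0, (E 0).zero_mem, ?_, fun h => by rw [h, hπ0]⟩
      have e : p ^ 0 - 1 - H35K.J p 0 = 0 := by simp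
      rw [e, pow_zero, smul_zero, add_zero]
      rfl
    · obtain ⟨B, hB, h1⟩ := m9_tr T F 0 hP
      obtain ⟨h2, h3⟩ := m6_zero T F hP
      refine ⟨trG p γ 0 P, h2, B, hB, ?_, fun h => by rw [h3 h, hπ0]⟩
      have e : p ^ (0 + 1) - 1 - H35K.J p (0 + 1) = p ^ (0 + 1) - p ^ 0 := by
        rw [zero_add, H35K.J_one hp.one_le, pow_zero, Nat.sub_zero]
      rw [e]
      exact h1
    · obtain ⟨B₁, hB₁, h1⟩ := m9_tr T F (n + 1) hP
      obtain ⟨Q', hQ', B', hB', h2, h3⟩ := m8 T F n hP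
      obtain ⟨Q, hQ, B'', hB'', h4, h5⟩ := ih n (by omega) hQ'
      have e : p ^ (n + 2) - 1 - H35K.J p (n + 2) =
          (p ^ n - 1 - H35K.J p n) + (p ^ (n + 1 + 1) - p ^ (n + 1)) := by
        have j1 := H35K.J_step hp.one_le n
        have j2 := H35K.J_two (p := p) (by have := T.five; omega) n
        have j3 := H35K.J_two (p := p) (by have := T.five; omega) (n + 2)
        have j4 : p ^ n ≤ p ^ (n + 1) := Nat.pow_le_pow_right hp.pos (by omega)
        have j5 : p ^ (n + 1) ≤ p ^ (n + 2) := Nat.pow_le_pow_right hp.pos (by omega)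
        have j6 : p ^ (n + 1 + 1) = p ^ (n + 2) := rfl
        omega
      set D := ((γ - 1) ^ (p ^ n - 1 - H35K.J p n) : AddMonoid.End G) with hD
      refine ⟨Q, hQ, B'' + D (B' + B₁), ?_, ?_, fun h => h5 (h3 h)⟩
      · have h6 : B' + B₁ ∈ E (n + 2) := (E (n + 2)).add_mem (hmono (by omega) hB') hB₁
        exact (E (n + 2)).add_mem (hmono (by omega) hB'') (m9_one T F (n + 2) _ h6)
      · have e2 : ((γ - 1) ^ (p ^ (n + 2) - 1 - H35K.J p (n + 2))) P =
            D (((γ - 1) ^ (p ^ (n + 1 + 1) - p ^ (n + 1))) P) := by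
          rw [e, pow_add]
          rfl
        rw [e2, h1, h2, map_add, map_add, h4, map_nsmul, map_nsmul, smul_add, map_add, smul_add]
        abel

end H16S
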