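import Mathlib
import Pool.Agent.Lib.H16S.M9

/-! # H16S, chunk M10 (M): the classes of level 0 -/

namespace H16S

variable {p : ℕ} {L : Type} [NormedField L] [IsUltrametricDist L] {H : ℕ → Subfield L} {g : RingAut L} {π : ℕ → L}
  {r : Fin (p ^ 2) → L} {G : Type} [AddCommGroup G] {t : G → L} {γ : AddMonoid.End G} {E : ℕ → AddSubgroup G}
  {al : Fin (p ^ 2) → AddMonoid.End G}

theorem m10_comm (F : Fgp p H g r t γ E al) (i : Fin (p ^ 2)) (k : ℕ) (P : G) :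
    ((γ - 1) ^ k) (al i P) = al i (((γ - 1) ^ k) P) := by
  induction k with
  | zero => rfl
  | succ k ih =>
    rw [pow_succ']
    change (γ - 1) (((γ - 1) ^ k) (al i P)) = al i ((γ - 1) (((γ - 1) ^ k) P))
    rw [ih]
    change γ (al i (((γ - 1) ^ k) P)) - al i (((γ - 1) ^ k) P) = al i (γ (((γ - 1) ^ k) P) - ((γ - 1) ^ k) P)
    rw [map_sub, F.alc]

/-- Chunk M10 (M). PROOF. P₁ in E n with t P₁ = π n (F.surj), m9: X^s P₁ = Q₁ + p B₁, ‖t Q₁‖ = ‖p‖. t Q/t Q₁ is in H 0, integral (m3_zero): ‖t Q - r_i t Q₁‖ < ‖p‖, so ≤ ‖p‖² (la_step at level 0, ‖π 0‖ = ‖p‖). ‖t(al i Q₁) - r_i t Q₁‖ ≤ ‖p‖² (F.alt), so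
‖t(Q - al i Q₁)‖ ≤ ‖p‖² and Q - al i Q₁ = p B₂ (F.div at level 0; F.ale). P = al i P₁: X^s (al i P₁) = al i (X^s P₁) (F.alc) = al i Q₁ + p al i B₁ = Q - p B₂ + p al i B₁. -/
theorem m10 (T : Twr p H g π r) (F : Fgp p H g r t γ E al) (n : ℕ) {Q : G} (hQ : Q ∈ E 0) :
    ∃ P ∈ E n, ∃ B ∈ E n, ((γ - 1) ^ (p ^ n - 1 - H35K.J p n)) P = Q + p • B := by
  have hq0 : 0 < ‖(p : L)‖ := norm_pos_iff.mpr T.ne
  have hπ0 : ‖π 0‖ = ‖(p : L)‖ := (la_succ T 0).2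
  have hmono : Monotone E := monotone_nat_of_le_succ fun m => (m1_lev T F m).1
  obtain ⟨P₁, hP₁, hP₁t⟩ := F.surj n (π n) (T.piH n) (la_pos T n).2
  obtain ⟨Q₁, hQ₁, B₁, hB₁, h1, h2⟩ := m9 T F n hP₁
  have hQ₁t : ‖t Q₁‖ = ‖(p : L)‖ := h2 (by rw [hP₁t])
  have hQ₁0 : t Q₁ ≠ 0 := by
    intro h
    rw [h, norm_zero] at hQ₁t
    exact hq0.ne hQ₁t
  have hQt : ‖t Q‖ ≤ ‖(p : L)‖ := (m3_zero T F hQ).1
  have hQH : t Q ∈ H 0 := (F.mem 0 Q).mp hQ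
  have hQ₁H : t Q₁ ∈ H 0 := (F.mem 0 Q₁).mp hQ₁
  have haH : t Q / t Q₁ ∈ H 0 := (H 0).div_mem hQH hQ₁H
  have ha1 : ‖t Q / t Q₁‖ ≤ 1 := by
    rw [norm_div, hQ₁t]
    exact div_le_one_of_le₀ hQt hq0.le
  obtain ⟨i, hi⟩ := T.res 0 _ haH ha1
  have h3 : ‖t Q - r i * t Q₁‖ ≤ ‖(p : L)‖ ^ 2 := by
    have h4 : ‖t Q - r i * t Q₁‖ < ‖π 0‖ ^ 1 := by
      have e : t Q - r i * t Q₁ = (t Q / t Q₁ - r i) * t Q₁ := by field_simp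
      rw [e, norm_mul, hQ₁t, pow_one, hπ0]
      calc ‖t Q / t Q₁ - r i‖ * ‖(p : L)‖ < 1 * ‖(p : L)‖ := mul_lt_mul_of_pos_right hi hq0
        _ = ‖(p : L)‖ := one_mul _
    have h5 := la_step T ((H 0).sub_mem hQH ((H 0).mul_mem (T.rH i).1 hQ₁H)) h4
    rw [hπ0] at h5
    exact h5
  have h4 : ‖t (al i Q₁) - r i * t Q₁‖ ≤ ‖(p : L)‖ ^ 2 := by
    rw [← hQ₁t]
    exact F.alt i Q₁
  have h5 : ‖t (Q - al i Q₁)‖ ≤ ‖(p : L)‖ ^ 2 := by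
    rw [m1_iso F]
    have e : t Q - t (al i Q₁) = (t Q - r i * t Q₁) + -(t (al i Q₁) - r i * t Q₁) := by ring
    rw [e]
    exact (IsUltrametricDist.norm_add_le_max _ _).trans (max_le h3 (by rwa [norm_neg]))
  obtain ⟨B₂, hB₂, -, hB₂p⟩ := F.div 0 _ ((E 0).sub_mem hQ (F.ale i 0 _ hQ₁)) h5
  refine ⟨al i P₁, F.ale i n _ hP₁, al i B₁ - B₂, (E n).sub_mem (F.ale i n _ hB₁) (hmono (Nat.zero_le n) hB₂), ?_⟩
  rw [m10_comm F, h1, map_add, map_nsmul, smul_sub, hB₂p]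
  abel

end H16S
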