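import Mathlib
import Pool.Agent.Lib.H16S.M1
import Pool.Agent.Lib.H16S.LA

/-! # H16S, chunk M4A (M): counting -/

namespace H16S

variable {p : ℕ} {L : Type} [NormedField L] [IsUltrametricDist L] {H : ℕ → Subfield L} {g : RingAut L} {π : ℕ → L}
  {r : Fin (p ^ 2) → L} {G : Type} [AddCommGroup G] {t : G → L} {γ : AddMonoid.End G} {E : ℕ → AddSubgroup G}
  {al : Fin (p ^ 2) → AddMonoid.End G}

/-- The points of level n whose parameter has norm at most c (0 ≤ c). -/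
def ES (F : Fgp p H g r t γ E al) (n : ℕ) (c : ℝ) (hc : 0 ≤ c) : AddSubgroup (E n) where
  carrier := {P | ‖t (P : G)‖ ≤ c}
  zero_mem' := by
    show ‖t ((0 : E n) : G)‖ ≤ c
    rw [AddSubgroup.coe_zero, (F.zero 0).2 rfl, norm_zero]
    exact hc
  add_mem' := fun {P Q} hP hQ => by
    show ‖t ((P : G) + (Q : G))‖ ≤ c
    rw [(m1_add F (P : G) (Q : G)).2]
    exact (IsUltrametricDist.norm_add_le_max _ _).trans (max_le hP hQ)
  neg_mem' := fun {P} hP => by
    show ‖t (-(P : G))‖ ≤ c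
    rw [F.neg, norm_neg]
    exact hP

theorem m4a_mono (F : Fgp p H g r t γ E al) (n : ℕ) {c d : ℝ} (hc : 0 ≤ c) (hd : 0 ≤ d)
    (h : c ≤ d) : ES F n c hc ≤ ES F n d hd := fun _ hP => le_trans hP h

theorem m4a_step (T : Twr p H g π r) (F : Fgp p H g r t γ E al) (n k : ℕ) (hk : 1 ≤ k) :
    (ES F n (‖π n‖ ^ (k + 1)) (by positivity)).relIndex (ES F n (‖π n‖ ^ k) (by positivity)) =
      p ^ 2 := by
  obtain ⟨h0, h1⟩ := la_pos T n
  have hex : ∀ i : Fin (p ^ 2), ∃ P ∈ E n, t P = r i * π n ^ k := by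
    intro i
    apply F.surj n
    · exact mul_mem (la_mono T (Nat.zero_le n) (T.rH i).1) (pow_mem (T.piH n) k)
    · rw [norm_mul, norm_pow]
      have h2 : ‖π n‖ ^ k < 1 := pow_lt_one₀ h0.le h1 (by omega)
      calc ‖r i‖ * ‖π n‖ ^ k ≤ 1 * ‖π n‖ ^ k :=
            mul_le_mul_of_nonneg_right (T.rH i).2 (by positivity)
        _ < 1 := by rwa [one_mul]
  choose P hPE hPt using hex
  have hPn : ∀ i, ‖t (P i)‖ ≤ ‖π n‖ ^ k := by
    intro i
    rw [hPt, norm_mul, norm_pow]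
    exact mul_le_of_le_one_left (by positivity) (T.rH i).2
  let Q : Fin (p ^ 2) → ES F n (‖π n‖ ^ k) (by positivity) := fun i => ⟨⟨P i, hPE i⟩, hPn i⟩
  let U := (ES F n (‖π n‖ ^ (k + 1)) (by positivity)).addSubgroupOf
    (ES F n (‖π n‖ ^ k) (by positivity))
  have hrel : ∀ a b : ES F n (‖π n‖ ^ k) (by positivity),
      (QuotientAddGroup.mk a : _ ⧸ U) = QuotientAddGroup.mk b ↔
        ‖t ((b : E n) : G) - t ((a : E n) : G)‖ ≤ ‖π n‖ ^ (k + 1) := by
    intro a b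
    rw [QuotientAddGroup.eq]
    change ‖t (-((a : E n) : G) + ((b : E n) : G))‖ ≤ _ ↔ _
    rw [neg_add_eq_sub, m1_iso F]
  change Nat.card (_ ⧸ U) = p ^ 2
  rw [← Nat.card_congr (Equiv.ofBijective (fun i => (QuotientAddGroup.mk (Q i) : _ ⧸ U)) ⟨?_, ?_⟩),
    Nat.card_eq_fintype_card, Fintype.card_fin]
  · intro i j hij
    by_contra hne
    have h2 := (hrel _ _).1 hij
    change ‖t (P j) - t (P i)‖ ≤ _ at h2
    rw [hPt, hPt, ← sub_mul, norm_mul, T.rs j i (fun h => hne h.symm), one_mul, norm_pow,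
      pow_succ] at h2
    have h3 : 0 < ‖π n‖ ^ k := pow_pos h0 k
    nlinarith
  · intro x
    obtain ⟨a, rfl⟩ := QuotientAddGroup.mk_surjective x
    obtain ⟨i, hi, -⟩ := la_lead T ((F.mem n _).1 (a : E n).2) (k := k) a.2
    refine ⟨i, ?_⟩
    apply (hrel _ _).2
    change ‖t ((a : E n) : G) - t (P i)‖ ≤ _
    rw [hPt]
    exact hi

/-- Chunk M4A (M). From norm ‖π‖^k to ‖π‖^l, k ≤ l, k ≥ 1: the index is (p²)^(l-k). PROOF. Induction on l - k (AddSubgroup.relIndex_mul_relIndex); one step: the quotient of ES ‖π‖^k by ES ‖π‖^(k+1) is in bijection with Fin (p²): i ↦ the point with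
parameter r_i π^k (F.surj; ‖r_i π^k‖ < 1); two points P, Q are congruent iff ‖t P - t Q‖ ≤ ‖π‖^(k+1) (m1_iso); surjective by la_lead, injective by T.rs. -/
theorem m4a (T : Twr p H g π r) (F : Fgp p H g r t γ E al) (n k l : ℕ) (hk : 1 ≤ k) (hl : k ≤ l) :
    (ES F n (‖π n‖ ^ l) (by positivity)).relIndex (ES F n (‖π n‖ ^ k) (by positivity)) = (p ^ 2) ^ (l - k) := by
  obtain ⟨h0, h1⟩ := la_pos T n
  induction l, hl using Nat.le_induction with
  | base => rw [AddSubgroup.relIndex_self, Nat.sub_self, pow_zero]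
  | succ l hl ih =>
    rw [← AddSubgroup.relIndex_mul_relIndex (ES F n (‖π n‖ ^ (l + 1)) (by positivity))
      (ES F n (‖π n‖ ^ l) (by positivity)) (ES F n (‖π n‖ ^ k) (by positivity))
      (m4a_mono F n _ _ (pow_le_pow_of_le_one h0.le h1.le (Nat.le_succ l)))
      (m4a_mono F n _ _ (pow_le_pow_of_le_one h0.le h1.le hl)), ih, m4a_step T F n l (by omega),
      Nat.succ_sub hl, pow_succ (p ^ 2), mul_comm]

/-- Chunk M4A (S). All points of level n have norm at most ‖π n‖ (la_step with k = 0). -/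
theorem m4a_top (T : Twr p H g π r) (F : Fgp p H g r t γ E al) (n : ℕ) :
    ES F n (‖π n‖ ^ 1) (by positivity) = ⊤ := by
  rw [eq_top_iff]
  intro P _
  change ‖t (P : G)‖ ≤ ‖π n‖ ^ 1
  have h1 := la_step T ((F.mem n _).1 P.2) (k := 0) (by rw [pow_zero]; exact F.lt P)
  rwa [zero_add] at h1

end H16S
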