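import Mathlib

/-! # H16S, chunk M4B (S/M): the index of an injective endomorphism -/

namespace H16S

/-- Chunk M4B (S/M). f injective, U of finite index with f(U) ≤ U: the index of f(M) is the index of f(U) in U. PROOF. [M : f(U)] = [M : U] [U : f(U)] = [M : f(M)] [f(M) : f(U)] and [f(M) : f(U)] = [M : U] (f is an isomorphism of M onto f(M)), [M : U] is finite and not 0. -/
theorem m4b {M : Type} [AddCommGroup M] (f : M →+ M) (hf : Function.Injective f) (U : AddSubgroup M) (hU : U.index ≠ 0)
    (h : U.map f ≤ U) : f.range.index = (U.map f).relIndex U := by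
  have h1 : (U.map f).relIndex U * U.index = (U.map f).index := AddSubgroup.relIndex_mul_index h
  have h2 : (U.map f).index = U.index * f.range.index := AddSubgroup.index_map_of_injective U hf
  rw [h2, mul_comm] at h1
  exact (Nat.eq_of_mul_eq_mul_left (Nat.pos_of_ne_zero hU) h1).symm

end H16S
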