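import Mathlib
import Pool.Agent.Lib.H16S.M4A
import Pool.Agent.Lib.H16S.M4B
import Pool.Agent.Lib.H16S.M2

/-! # H16S, chunk M4C (M): the number of classes modulo p -/

namespace H16S

variable {p : ℕ} {L : Type} [NormedField L] [IsUltrametricDist L] {H : ℕ → Subfield L} {g : RingAut L} {π : ℕ → L}
  {r : Fin (p ^ 2) → L} {G : Type} [AddCommGroup G] {t : G → L} {γ : AddMonoid.End G} {E : ℕ → AddSubgroup G}
  {al : Fin (p ^ 2) → AddMonoid.End G}

theorem m4c_two (F : Fgp p H g r t γ E al) (T : Twr p H g π r) (n : ℕ) (U : AddSubgroup (E n))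
    (hU : U = ES F n (‖π n‖ ^ (p ^ n)) (by positivity)) :
    U.map (nsmulAddMonoidHom (α := E n) p) = ES F n (‖π n‖ ^ (2 * p ^ n)) (by positivity) := by
  subst hU
  have hp0 := la_npos T
  have e2 : ‖π n‖ ^ (2 * p ^ n) = ‖(p : L)‖ ^ 2 := by
    rw [mul_comm, pow_mul, T.piv n]
  ext R
  constructor
  · rintro ⟨P, hP, rfl⟩
    have hP' : ‖t ((P : E n) : G)‖ ≤ ‖π n‖ ^ (p ^ n) := hP
    change ‖t (((p • P : E n)) : G)‖ ≤ ‖π n‖ ^ (2 * p ^ n)
    rw [AddSubgroup.coe_nsmul, e2]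
    rw [T.piv n] at hP'
    refine (m1_mul T.lt F _).trans (max_le ?_ ?_)
    · rw [sq]
      exact mul_le_mul_of_nonneg_left hP' hp0.le
    · have h2 : 2 ≤ p ^ 2 := by
        have := T.five
        nlinarith
      calc ‖t ((P : E n) : G)‖ ^ p ^ 2 ≤ ‖(p : L)‖ ^ p ^ 2 :=
            pow_le_pow_left₀ (norm_nonneg _) hP' _
        _ ≤ ‖(p : L)‖ ^ 2 := pow_le_pow_of_le_one hp0.le T.lt.le h2
  · intro hR
    have hR' : ‖t ((R : E n) : G)‖ ≤ ‖π n‖ ^ (2 * p ^ n) := hR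
    rw [e2] at hR'
    obtain ⟨P, hP, hPt, hPR⟩ := F.div n R R.2 hR'
    refine ⟨⟨P, hP⟩, ?_, ?_⟩
    · change ‖t P‖ ≤ ‖π n‖ ^ (p ^ n)
      rw [T.piv n]
      exact hPt
    · apply Subtype.ext
      exact hPR

/-- Chunk M4C (M). PROOF. M = E n, f = multiplication by p (injective by m2), U = ES ‖p‖ = ES ‖π n‖^(p^n); f(U) = ES ‖p‖² (⊆: m1_mul; ⊇: F.div) = ES ‖π n‖^(2 p^n); U has finite index (m4a with k = 1, m4a_top). m4b and m4a:
the index is (p²)^(p^n). -/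
theorem m4c (T : Twr p H g π r) (F : Fgp p H g r t γ E al) (n : ℕ) :
    (AddMonoidHom.range (nsmulAddMonoidHom (α := E n) p)).index = (p ^ 2) ^ p ^ n := by
  obtain ⟨h0, h1⟩ := la_pos T n
  have hpn : 1 ≤ p ^ n := Nat.one_le_pow _ _ T.pr.pos
  have hinj : Function.Injective (nsmulAddMonoidHom (α := E n) p) := by
    rw [injective_iff_map_eq_zero]
    intro P hP
    apply Subtype.ext
    apply m2 T F P.2
    have h2 := congrArg (fun x : E n => (x : G)) hP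
    exact h2
  have hidx : (ES F n (‖π n‖ ^ (p ^ n)) (by positivity)).index = (p ^ 2) ^ (p ^ n - 1) := by
    rw [← AddSubgroup.relIndex_top_right, ← m4a_top T F n]
    exact m4a T F n 1 (p ^ n) le_rfl hpn
  have hidx0 : (ES F n (‖π n‖ ^ (p ^ n)) (by positivity)).index ≠ 0 := by
    rw [hidx]
    exact pow_ne_zero _ (pow_ne_zero _ T.pr.ne_zero)
  have hmap := m4c_two F T n _ rfl
  have hle : (ES F n (‖π n‖ ^ (p ^ n)) (by positivity)).map (nsmulAddMonoidHom (α := E n) p) ≤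
      ES F n (‖π n‖ ^ (p ^ n)) (by positivity) := by
    rw [hmap]
    exact m4a_mono F n _ _ (pow_le_pow_of_le_one h0.le h1.le (by omega))
  rw [m4b _ hinj _ hidx0 hle, hmap, m4a T F n (p ^ n) (2 * p ^ n) hpn (by omega)]
  congr 1
  omega

end H16S
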