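import Mathlib
import Pool.Agent.Lib.H16S.F6
import Pool.Agent.Lib.H55K.PZ
import Pool.Agent.Lib.H55K.BH

/-! # H16S, chunk S1 (S/M): the supersingular relation for curves over the integers -/

open NumberField IsDedekindDomain WeierstrassCurve

namespace H16S

open H55P (IQ Pt ac Inert Dec Nm)
open H35P (WAB Ker tt)
open H55K H55K.TQ

/-- Chunk S1 (S/M). PROOF. v = the prime (p) (HeightOneSpectrum from hin). W⁄(𝓞 F) = W.map (Int.castRingHom (𝓞 F)) (rfl or RingHom.ext_int). Δ is not in v: hp.cop. hH.deu v: the number of points modulo v is Nm (1 - ψ v). H55P.IsHecke.gen (d.hecke, v coprime to m by d.cop): span {ψ v} = v. psi_inert (PZ.lean; p does not divide W.Δ in ℤ: otherwise Δ in v): ψ v = -p.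
So the number is Nm (1 + p) = (p + 1)² (Nm_nat). sup_of_card (F6.lean) with W₀ = W⁄(𝓞 F), d.cma, d.good. -/
theorem s1 {F : Type} [Field F] [NumberField F] [IQ F] {W : WeierstrassCurve ℤ} {Om : ℂ} {m : Ideal (𝓞 F)} {ψ : Ideal (𝓞 F) →*₀ 𝓞 F} {p : ℕ}
    (hH : BaseH F (W⁄(𝓞 F)) Om m ψ) (hp : PrimeH F (W⁄(𝓞 F)) p) (hin : Prime (p : 𝓞 F)) {A B : F} {Ω : Type} [Field Ω] [DecidableEq Ω]
    [Algebra F Ω] [IsAlgClosure F Ω] {j : Ω →+* ℂ} {act : 𝓞 F →+* AddMonoid.End (Pt (WAB A B) Ω)}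
    (hA : A = -(algebraMap (𝓞 F) F (W⁄(𝓞 F)).c₄) / 48) (hB : B = -(algebraMap (𝓞 F) F (W⁄(𝓞 F)).c₆) / 864)
    (d : Dta A B Om j act m ψ p) : Sup act p := by
  have hpp := hp.prime
  have hfact : Fact p.Prime := ⟨hpp⟩
  have hac : IsAlgClosed Ω := IsAlgClosure.isAlgClosed F
  have hp0 : (p : 𝓞 F) ≠ 0 := hin.ne_zero
  let v : HeightOneSpectrum (𝓞 F) := ⟨Ideal.span {(p : 𝓞 F)}, (Ideal.span_singleton_prime hp0).2 hin, by
    rw [Ne, Ideal.span_singleton_eq_bot]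
    exact hp0⟩
  have hvΔ : (W⁄(𝓞 F)).Δ ∉ v.asIdeal := by
    intro h
    have h1 := hp.cop
    rw [Ideal.isCoprime_iff_sup_eq] at h1
    have h2 : (⊤ : Ideal (𝓞 F)) ≤ v.asIdeal := by
      rw [← h1]
      exact sup_le ((Ideal.span_singleton_le_iff_mem _).2 h) le_rfl
    exact v.isPrime.ne_top (top_le_iff.1 h2)
  have hΔ : ¬ (p : ℤ) ∣ W.Δ := by
    rintro ⟨c, hc⟩
    apply hvΔ
    have h1 : (W⁄(𝓞 F)).Δ = algebraMap ℤ (𝓞 F) W.Δ := WeierstrassCurve.map_Δ W (algebraMap ℤ (𝓞 F))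
    rw [h1, hc, map_mul]
    refine Ideal.mul_mem_right _ _ ?_
    have h2 : algebraMap ℤ (𝓞 F) (p : ℤ) = (p : 𝓞 F) := map_natCast _ p
    rw [h2]
    exact Ideal.mem_span_singleton_self _
  have hdeu := hH.deu v hvΔ
  have hcop : IsCoprime v.asIdeal m := d.cop.symm
  have hgen := d.hecke.gen v.asIdeal hcop
  obtain ⟨hψ, -⟩ := psi_inert W hΔ v rfl hgen hdeu
  have hcard : Nat.card ((W⁄(𝓞 F))⁄(𝓞 F ⧸ v.asIdeal)).toAffine.Point = (p + 1) ^ 2 := by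
    rw [hdeu, hψ]
    have h1 : (1 : 𝓞 F) - -(p : 𝓞 F) = ((p + 1 : ℕ) : 𝓞 F) := by
      push_cast
      ring
    rw [h1, Nm_nat]
  exact sup_of_card d.cma (W⁄(𝓞 F)) hA hB hpp hin d.good v rfl hvΔ hcard

end H16S
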