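import Mathlib
import Pool.Agent.Lib.H16S.LD

/-! # H16S: the cyclotomic tower (definitions) -/

namespace H16S

/-- The Teichmüller elements modulo p^(n+1). -/
def Tm (p n : ℕ) [Fact p.Prime] : Finset (ZMod (p ^ (n + 1)))ˣ := Finset.univ.filter fun u => u ^ (p - 1) = 1

/-- The uniformizer of level n: the product of 1 - ζ^u over the Teichmüller elements u. -/
noncomputable def piT (p : ℕ) [Fact p.Prime] {L : Type} [Field L] (ζ : ℕ → L) (n : ℕ) : L :=
  ∏ u ∈ Tm p n, (1 - ζ n ^ ((u : ZMod (p ^ (n + 1))).val))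

/-- A compatible system of roots of unity: ζ n has order p^(n+1). -/
structure Zt (p : ℕ) {L : Type} [Field L] (ζ : ℕ → L) : Prop where
  z0 : IsPrimitiveRoot (ζ 0) p
  zs : ∀ n, ζ (n + 1) ^ p = ζ n

/-- The polynomial whose value at ζ n is the j-th power of piT. -/
noncomputable def pol (p n : ℕ) [Fact p.Prime] (j : ℕ) : Polynomial ℤ :=
  (∏ u ∈ Tm p n, (1 - Polynomial.X ^ ((u : ZMod (p ^ (n + 1))).val))) ^ j

end H16S
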