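import Mathlib
import Pool.Agent.Lib.H16S.TD
import Pool.Agent.Lib.H35L.Ar
import Pool.Agent.Lib.H13X.XG

/-!
# H16S: the concrete tower (definitions)

V is a valuation ring of Ω above p, i : Ω → C an embedding into an ultrametric field inducing V. OC i is Ω with the norm of C,
Hn V p i n is the field of the elements fixed by the elements of the decomposition group which act trivially on the layer n of the cyclotomic
Z_p-extension.
-/

open NumberField IsDedekindDomain WeierstrassCurve

namespace H16S

open H55P (IQ Pt ac Inert Dec Nm)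
open H35L (Gc Gen dV)

section

variable {Ω C : Type} [Field Ω] [NormedField C]

/-- Ω with the norm of C. -/
def OC (i : Ω →+* C) : Type :=
  let _ := i
  Ω

variable (i : Ω →+* C)

/-- The norm of C on Ω (a local instance in the files which use it, not a global one: as a global instance it makes every search for a field
structure slow). -/
@[reducible] noncomputable def nfOC : NormedField (OC i) := NormedField.induced Ω C i i.injective

attribute [local instance] nfOC

theorem OC_norm (x : Ω) : ‖(show OC i from x)‖ = ‖i x‖ := rfl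

theorem ultOC [IsUltrametricDist C] : IsUltrametricDist (OC i) :=
  IsUltrametricDist.isUltrametricDist_of_forall_norm_add_le_max_norm fun x y =>
    (le_of_eq (congrArg norm (i.map_add (show Ω from x) (show Ω from y)))).trans
      (IsUltrametricDist.norm_add_le_max (i (show Ω from x)) (i (show Ω from y)))

attribute [local instance] ultOC

/-- The inclusion. -/
def toC : Ω → OC i := fun x => x

theorem toC_norm (x : Ω) : ‖toC i x‖ = ‖i x‖ := rfl

theorem toC_add (x y : Ω) : toC i (x + y) = toC i x + toC i y := rfl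

theorem toC_sub (x y : Ω) : toC i (x - y) = toC i x - toC i y := rfl

theorem toC_mul (x y : Ω) : toC i (x * y) = toC i x * toC i y := rfl

theorem toC_neg (x : Ω) : toC i (-x) = -toC i x := rfl

theorem toC_zero : toC i 0 = 0 := rfl

theorem toC_one : toC i 1 = 1 := rfl

theorem toC_inj {x y : Ω} : toC i x = toC i y ↔ x = y := Iff.rfl

/-- The inclusion as an isomorphism of fields. -/
noncomputable def eC : Ω ≃+* OC i where
  toFun := toC i
  invFun x := x
  left_inv _ := rfl
  right_inv _ := rfl
  map_mul' _ _ := rfl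
  map_add' _ _ := rfl

theorem eC_apply (x : Ω) : eC i x = toC i x := rfl

theorem toC_pow (x : Ω) (n : ℕ) : toC i (x ^ n) = toC i x ^ n := map_pow (eC i) x n

theorem toC_nat (n : ℕ) : toC i (n : Ω) = (n : OC i) := map_natCast (eC i) n

theorem toC_surj (x : OC i) : ∃ y : Ω, toC i y = x := ⟨x, rfl⟩

end

section

variable {F : Type} [Field F] {Ω C : Type} [Field Ω] [Algebra F Ω] [NormedField C]

attribute [local instance] nfOC ultOC

/-- An automorphism of Ω as an automorphism of OC i. -/
noncomputable def gO (i : Ω →+* C) (γ : Ω ≃ₐ[F] Ω) : RingAut (OC i) := ((eC i).symm.trans γ.toRingEquiv).trans (eC i)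

theorem gO_apply (i : Ω →+* C) (γ : Ω ≃ₐ[F] Ω) (x : Ω) : gO i γ (toC i x) = toC i (γ x) := rfl

theorem gO_pow (i : Ω →+* C) (γ : Ω ≃ₐ[F] Ω) (n : ℕ) (x : Ω) : (gO i γ ^ n) (toC i x) = toC i ((γ ^ n) x) := by
  induction n generalizing x with
  | zero => rfl
  | succ n ih =>
    rw [pow_succ, RingAut.mul_apply, gO_apply, ih, pow_succ, AlgEquiv.mul_apply]

/-- The field of level n. -/
def Hn (V : ValuationSubring Ω) (p : ℕ) (i : Ω →+* C) (F : Type) [Field F] [Algebra F Ω] (n : ℕ) : Subfield (OC i) where
  carrier := {x | ∀ s : Ω ≃ₐ[F] Ω, Dec V s → Gc p n s → gO i s x = x}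
  one_mem' := fun s _ _ => map_one _
  mul_mem' := fun {x y} hx hy s h1 h2 => by rw [map_mul, hx s h1 h2, hy s h1 h2]
  zero_mem' := fun s _ _ => map_zero _
  add_mem' := fun {x y} hx hy s h1 h2 => by rw [map_add, hx s h1 h2, hy s h1 h2]
  neg_mem' := fun {x} hx s h1 h2 => by rw [map_neg, hx s h1 h2]
  inv_mem' := fun x hx s h1 h2 => by rw [map_inv₀, hx s h1 h2]

theorem mem_Hn (V : ValuationSubring Ω) (p : ℕ) (i : Ω →+* C) (n : ℕ) (x : Ω) :
    toC i x ∈ Hn V p i F n ↔ ∀ s : Ω ≃ₐ[F] Ω, Dec V s → Gc p n s → s x = x := Iff.rfl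

end

/-- Representatives of the classes modulo p. -/
structure Rp {F : Type} [Field F] (p : ℕ) (ρ : Fin (p ^ 2) → 𝓞 F) : Prop where
  ex : ∀ a : 𝓞 F, ∃ k, (p : 𝓞 F) ∣ a - ρ k
  inj : ∀ k l, (p : 𝓞 F) ∣ ρ k - ρ l → k = l

/-- The setting. -/
structure Ctx (F : Type) [Field F] [NumberField F] (p : ℕ) {Ω C : Type} [Field Ω] [Algebra F Ω] [NormedField C]
    (V : ValuationSubring Ω) (i : Ω →+* C) : Prop where
  pr : p.Prime
  five : 5 ≤ p
  inert : Prime (p : 𝓞 F)
  above : V.valuation (p : Ω) < 1
  mem : ∀ x : Ω, x ∈ V ↔ ‖i x‖ ≤ 1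

end H16S
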