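import Mathlib
import Pool.Agent.Lib.H16S.ND

/-! # H16S, chunk N1 (S/M): norms and the valuation ring -/

open NumberField IsDedekindDomain WeierstrassCurve

namespace H16S

attribute [local instance] H16S.nfOC H16S.ultOC

open H55P (IQ Pt ac Inert Dec Nm)
open H35L (Gc Gen dV)

variable {F : Type} [Field F] [NumberField F] {p : ℕ} {Ω C : Type} [Field Ω] [Algebra F Ω] [NormedField C] [IsUltrametricDist C]
  {V : ValuationSubring Ω} {i : Ω →+* C}

/-- Chunk N1 (S). As ball_le (Defs.lean): for y ≠ 0, V x ≤ V y iff x/y in V iff ‖i (x/y)‖ ≤ 1. -/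
theorem n1_le (h : Ctx F p V i) (x y : Ω) : V.valuation x ≤ V.valuation y ↔ ‖i x‖ ≤ ‖i y‖ := by
  by_cases hy : y = 0
  · rw [hy, map_zero, le_zero_iff, map_zero, norm_zero, norm_le_zero_iff, map_eq_zero, map_eq_zero]
  · have h1 : V.valuation x ≤ V.valuation y ↔ V.valuation (x / y) ≤ 1 := by
      rw [map_div₀, div_le_one₀ (zero_lt_iff.2 ((map_ne_zero _).2 hy))]
    rw [h1, ValuationSubring.valuation_le_one_iff, h.mem, map_div₀, norm_div,
      div_le_one₀ (norm_pos_iff.2 ((map_ne_zero i).2 hy))]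

/-- Chunk N1 (S). -/
theorem n1_lt (h : Ctx F p V i) (x y : Ω) : V.valuation x < V.valuation y ↔ ‖i x‖ < ‖i y‖ := by
  rw [← not_le, n1_le h, not_le]

/-- Chunk N1 (S). -/
theorem n1_lt1 (h : Ctx F p V i) (x : Ω) : V.valuation x < 1 ↔ ‖i x‖ < 1 := by
  have := n1_lt h x 1
  rwa [map_one, map_one, norm_one] at this

/-- Chunk N1 (S). Elements of the decomposition group are isometries: H13X.Dec.val (XG.lean): V (s x) = V x, n1_le twice. -/
theorem n1_dec [Algebra.IsAlgebraic F Ω] (h : Ctx F p V i) {s : Ω ≃ₐ[F] Ω} (hs : Dec V s) (x : Ω) : ‖i (s x)‖ = ‖i x‖ := by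
  have h1 := H13X.Dec.val hs x
  exact le_antisymm ((n1_le h _ _).1 h1.le) ((n1_le h _ _).1 h1.ge)

/-- Chunk N1 (S). 0 < ‖p‖ < 1 (characteristic 0: V ≠ .. p ≠ 0 in Ω because F has characteristic 0). -/
theorem n1_p (h : Ctx F p V i) : ‖i (p : Ω)‖ < 1 ∧ 0 < ‖i (p : Ω)‖ := by
  refine ⟨(n1_lt1 h _).1 h.above, norm_pos_iff.2 ((map_ne_zero i).2 ?_)⟩
  have h0 : (p : F) ≠ 0 := Nat.cast_ne_zero.2 h.pr.ne_zero
  have h1 : (algebraMap F Ω) (p : F) ≠ 0 := (map_ne_zero _).2 h0
  rwa [map_natCast] at h1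

/-- Chunk N1 (S). Integers of F are in V; an integer of F not divisible by p has norm 1. PROOF. They are integral over ℤ, V is integrally closed (H55K.ak_le or H13S.in2_mem). p is a prime element of the Dedekind ring 𝓞 F, so (p) is a maximal ideal: if p does not divide a then 1 = x p + y a; if ‖a‖ < 1 then ‖1‖ < 1. -/
theorem n1_int (h : Ctx F p V i) (a : 𝓞 F) : ‖i (algebraMap F Ω (a : F))‖ ≤ 1 ∧ (¬ (p : 𝓞 F) ∣ a → ‖i (algebraMap F Ω (a : F))‖ = 1) := by
  have key : ∀ b : 𝓞 F, ‖i (algebraMap F Ω (b : F))‖ ≤ 1 := by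
    intro b
    rw [← h.mem]
    have h1 : IsIntegral ℤ (algebraMap F Ω (b : F)) := (RingOfIntegers.isIntegral_coe b).map ((algebraMap F Ω).toIntAlgHom)
    have h3 : IsIntegral V (algebraMap F Ω (b : F)) := h1.tower_top
    obtain ⟨y, hy⟩ := IsIntegrallyClosed.isIntegral_iff.1 h3
    rw [← hy]
    exact y.2
  refine ⟨key a, fun hpa => ?_⟩
  by_contra hne
  have hlt : ‖i (algebraMap F Ω (a : F))‖ < 1 := lt_of_le_of_ne (key a) hne
  have hmax : (Ideal.span {(p : 𝓞 F)}).IsMaximal :=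
    Ideal.IsPrime.isMaximal ((Ideal.span_singleton_prime h.inert.ne_zero).2 h.inert)
      (by rw [Ne, Ideal.span_singleton_eq_bot]; exact h.inert.ne_zero)
  have hna : a ∉ Ideal.span {(p : 𝓞 F)} := fun hm => hpa (Ideal.mem_span_singleton.1 hm)
  obtain ⟨y, m, hm, hym⟩ := hmax.exists_inv hna
  obtain ⟨x, hx⟩ := Ideal.mem_span_singleton'.1 hm
  have e : (y : F) * (a : F) + (x : F) * (p : F) = 1 := by
    rw [← hx] at hym
    exact_mod_cast congrArg (fun z : 𝓞 F => (z : F)) hym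
  have e2 : i (algebraMap F Ω (y : F)) * i (algebraMap F Ω (a : F)) + i (algebraMap F Ω (x : F)) * i (p : Ω) = 1 := by
    have := congrArg (fun z => i (algebraMap F Ω z)) e
    simp only [map_add, map_mul, map_natCast, map_one] at this
    simpa only [map_natCast] using this
  have h1 : ‖(1 : C)‖ < 1 := by
    rw [← e2]
    refine (IsUltrametricDist.norm_add_le_max _ _).trans_lt (max_lt ?_ ?_)
    · rw [norm_mul]
      exact (mul_le_of_le_one_left (norm_nonneg _) (key y)).trans_lt hlt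
    · rw [norm_mul]
      exact (mul_le_of_le_one_left (norm_nonneg _) (key x)).trans_lt (n1_p h).1
  rw [norm_one] at h1
  exact lt_irrefl _ h1

end H16S
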