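import Mathlib
import Pool.Agent.Lib.H16S.N1
import Pool.Agent.Lib.H13S.IN4

/-! # H16S, chunk N2 (M): values of the elements fixed by inertia -/

open NumberField IsDedekindDomain WeierstrassCurve

namespace H16S

attribute [local instance] H16S.nfOC H16S.ultOC

open H55P (IQ Pt ac Inert Dec Nm)
open H35L (Gc Gen dV)

variable {F : Type} [Field F] [NumberField F] {p : ℕ} {Ω C : Type} [Field Ω] [Algebra F Ω] [NormedField C] [IsUltrametricDist C]
  {V : ValuationSubring Ω} {i : Ω →+* C}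

theorem n2_int (h : Ctx F p V i) {a : 𝓞 F} (ha : a ≠ 0) : ∃ k : ℕ, ‖i (algebraMap F Ω (a : F))‖ = ‖i (p : Ω)‖ ^ k := by
  have hf : FiniteMultiplicity (p : 𝓞 F) a := FiniteMultiplicity.of_prime_left h.inert ha
  obtain ⟨c, hc, hpc⟩ := hf.exists_eq_pow_mul_and_not_dvd
  refine ⟨multiplicity (p : 𝓞 F) a, ?_⟩
  have e : (a : F) = (p : F) ^ multiplicity (p : 𝓞 F) a * (c : F) := by
    have := congrArg (fun z : 𝓞 F => (z : F)) hc
    exact_mod_cast this
  rw [e, map_mul, map_mul, norm_mul, (n1_int h c).2 hpc, mul_one, map_pow, map_pow, norm_pow, map_natCast]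

/-- Chunk N2 (S/M). The nonzero elements of F have norms ‖p‖^k. PROOF. x = a/b with a, b in 𝓞 F (IsFractionRing.div_surjective); a nonzero integer is p^m c with c not divisible by p (multiplicity, finite because 𝓞 F is noetherian: WfDvdMonoid.exists_irreducible.. or FiniteMultiplicity, or Nat.find), n1_int. -/
theorem n2_F (h : Ctx F p V i) {x : F} (hx : x ≠ 0) : ∃ k : ℤ, ‖i (algebraMap F Ω x)‖ = ‖i (p : Ω)‖ ^ k := by
  obtain ⟨a, b, hb, hab⟩ := IsFractionRing.div_surjective (A := 𝓞 F) x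
  have hb0 : b ≠ 0 := nonZeroDivisors.ne_zero hb
  have ha0 : a ≠ 0 := by
    intro h0
    apply hx
    rw [← hab, h0, map_zero, zero_div]
  obtain ⟨m, hm⟩ := n2_int h ha0
  obtain ⟨n, hn⟩ := n2_int h hb0
  refine ⟨(m : ℤ) - n, ?_⟩
  have e : x = (a : F) / (b : F) := hab.symm
  have hp0 : ‖i (p : Ω)‖ ≠ 0 := (n1_p h).2.ne'
  rw [e, map_div₀, map_div₀, norm_div, hm, hn, zpow_sub₀ hp0, zpow_natCast, zpow_natCast]

/-- Chunk N2 (S/M). PROOF. H13S.value_fixed with K = ⊥ (NumberField.of_module_finite F ⊥; every s fixes ⊥): V y = V a with a in ⊥, a ≠ 0, a = algebraMap F Ω b (IntermediateField.mem_bot); n1_le twice, n2_F. -/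
theorem n2_val [IsAlgClosure F Ω] (h : Ctx F p V i) {y : Ω} (hy : y ≠ 0) (hI : ∀ s : Ω ≃ₐ[F] Ω, Inert V s → s y = y) :
    ∃ k : ℤ, ‖i y‖ = ‖i (p : Ω)‖ ^ k := by
  haveI : NumberField (⊥ : IntermediateField F Ω) := NumberField.of_module_finite F (⊥ : IntermediateField F Ω)
  obtain ⟨a, ha0, ha⟩ := H13S.value_fixed (⊥ : IntermediateField F Ω) V y hy (fun s _ hs => hI s hs)
  obtain ⟨b, hb⟩ := IntermediateField.mem_bot.1 a.2
  have hb0 : b ≠ 0 := by
    intro h0
    apply ha0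
    apply Subtype.ext
    rw [← hb, h0, map_zero]
    rfl
  obtain ⟨k, hk⟩ := n2_F h hb0
  refine ⟨k, ?_⟩
  rw [← hk, hb]
  exact le_antisymm ((n1_le h _ _).1 ha.le) ((n1_le h _ _).1 ha.ge)

end H16S
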