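import Mathlib
import Pool.Agent.Lib.H16S.TD

/-! # H16S, chunk TB (M): the Teichmüller elements -/

namespace H16S

variable {p : ℕ} [hp : Fact p.Prime]

theorem tb_ne (n : ℕ) : p ^ (n + 1) ≠ 0 := pow_ne_zero _ hp.out.ne_zero

instance tb_nezero (n : ℕ) : NeZero (p ^ (n + 1)) := ⟨tb_ne n⟩

theorem tb_cardG (n : ℕ) : Nat.card (ZMod (p ^ (n + 1)))ˣ = p ^ n * (p - 1) := by
  rw [Nat.card_eq_fintype_card, ZMod.card_units_eq_totient, Nat.totient_prime_pow_succ hp.out]

theorem tb_mem {n : ℕ} {u : (ZMod (p ^ (n + 1)))ˣ} : u ∈ Tm p n ↔ u ^ (p - 1) = 1 := by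
  simp [Tm]

/-- Chunk TB (M). There are p - 1 Teichmüller elements (p odd). PROOF. The group of units modulo p^(n+1) is cyclic of order p^n (p - 1) (ZMod.isCyclic_units_of_prime_pow), so u^(p-1) = 1 has exactly p - 1 solutions (IsCyclic.card_pow_eq_one..). Or: u ↦ u^(p^n) maps onto. -/
theorem tb_card (h2 : p ≠ 2) (n : ℕ) : (Tm p n).card = p - 1 := by
  haveI : IsCyclic (ZMod (p ^ (n + 1)))ˣ := ZMod.isCyclic_units_of_prime_pow p hp.out h2 (n + 1)
  have h1 := IsCyclic.card_powMonoidHom_ker (ZMod (p ^ (n + 1)))ˣ (p - 1)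
  rw [tb_cardG, Nat.gcd_mul_left_left] at h1
  rw [← h1]
  refine (Nat.subtype_card (Tm p n) fun u => ?_).symm
  rw [tb_mem, MonoidHom.mem_ker, powMonoidHom_apply]

/-- Chunk TB (M). Reduction modulo a smaller power is a bijection of the Teichmüller elements (k ≤ n). PROOF. It maps Tm p n into Tm p k; injective: a unit u = 1 modulo p (so u = 1 modulo p^(k+1) implies it) has order a power of p, and u^(p-1) = 1, so u = 1; the cardinalities agree (tb_card). Here the map is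
ZMod.unitsMap (pow_dvd_pow p ..). -/
theorem tb_red (h2 : p ≠ 2) {k n : ℕ} (h : k ≤ n) :
    Set.BijOn (ZMod.unitsMap (pow_dvd_pow p (Nat.succ_le_succ h) : p ^ (k + 1) ∣ p ^ (n + 1))) (Tm p n : Set _) (Tm p k : Set _) := by
  have hmaps : Set.MapsTo (ZMod.unitsMap (pow_dvd_pow p (Nat.succ_le_succ h) : p ^ (k + 1) ∣ p ^ (n + 1)))
      (Tm p n : Set _) (Tm p k : Set _) := by
    intro u hu
    rw [Finset.mem_coe, tb_mem] at hu ⊢
    rw [← map_pow, hu, map_one]
  have hinj : Set.InjOn (ZMod.unitsMap (pow_dvd_pow p (Nat.succ_le_succ h) : p ^ (k + 1) ∣ p ^ (n + 1)))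
      (Tm p n : Set _) := by
    intro u hu w hw huw
    rw [Finset.mem_coe, tb_mem] at hu hw
    have h1 : (u * w⁻¹) ^ (p - 1) = 1 := by rw [mul_pow, inv_pow, hu, hw, inv_one, mul_one]
    have h3 : u * w⁻¹ ∈ (ZMod.unitsMap (pow_dvd_pow p (Nat.succ_le_succ h) : p ^ (k + 1) ∣ p ^ (n + 1))).ker := by
      rw [MonoidHom.mem_ker, map_mul, map_inv, huw, mul_inv_cancel]
    have h4 := Subgroup.card_mul_index
      (ZMod.unitsMap (pow_dvd_pow p (Nat.succ_le_succ h) : p ^ (k + 1) ∣ p ^ (n + 1))).ker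
    rw [Subgroup.index_ker, MonoidHom.range_eq_top.2 (ZMod.unitsMap_surjective _), Subgroup.card_top,
      tb_cardG, tb_cardG] at h4
    have h5 : Nat.card (ZMod.unitsMap (pow_dvd_pow p (Nat.succ_le_succ h) : p ^ (k + 1) ∣ p ^ (n + 1))).ker =
        p ^ (n - k) := by
      have hpos : 0 < p ^ k * (p - 1) := Nat.mul_pos (pow_pos hp.out.pos k) (Nat.sub_pos_of_lt hp.out.one_lt)
      apply Nat.eq_of_mul_eq_mul_right hpos
      rw [h4, ← mul_assoc, ← pow_add, Nat.sub_add_cancel h]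
    have h6 : orderOf (u * w⁻¹) ∣ p ^ (n - k) := by
      rw [← h5]
      exact Subgroup.orderOf_dvd_natCard _ h3
    have h7 : orderOf (u * w⁻¹) ∣ p - 1 := orderOf_dvd_of_pow_eq_one h1
    have h8 : Nat.Coprime (p ^ (n - k)) (p - 1) := by
      apply Nat.Coprime.pow_left
      have h9 : Nat.Coprime (p - 1 + 1) (p - 1) := by simp
      rwa [Nat.sub_add_cancel hp.out.one_lt.le] at h9
    have h10 : orderOf (u * w⁻¹) = 1 := Nat.eq_one_of_dvd_coprimes h8 h6 h7
    rw [orderOf_eq_one_iff] at h10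
    exact mul_inv_eq_one.1 h10
  refine ⟨hmaps, hinj, ?_⟩
  apply Finset.surjOn_of_injOn_of_card_le _ hmaps hinj
  rw [tb_card h2, tb_card h2]

/-- Chunk TB (S). Modulo p all units are Teichmüller elements. -/
theorem tb_zero : Tm p 0 = Finset.univ := by
  ext u
  rw [tb_mem]
  have h1 := ZMod.pow_totient u
  rw [Nat.totient_prime_pow_succ hp.out, pow_zero, one_mul] at h1
  simp [h1]

/-- Chunk TB (S/M). A product over Tm of a function of the residue class is invariant under multiplication by a Teichmüller element: f a function of exponents with f a = f b for a ≡ b modulo p^(n+1). -/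
theorem tb_prod {M : Type} [CommMonoid M] (n : ℕ) (f : ℕ → M) (hf : ∀ a b : ℕ, a ≡ b [MOD p ^ (n + 1)] → f a = f b)
    {m : ℕ} (hm : m ^ (p - 1) ≡ 1 [MOD p ^ (n + 1)]) :
    ∏ u ∈ Tm p n, f (m * (u : ZMod (p ^ (n + 1))).val) = ∏ u ∈ Tm p n, f ((u : ZMod (p ^ (n + 1))).val) := by
  have h1 : Nat.Coprime m (p ^ (n + 1)) := by
    have h2 : Nat.Coprime (m ^ (p - 1)) (p ^ (n + 1)) := by
      rw [Nat.Coprime, hm.gcd_eq, Nat.gcd_one_left]
    exact Nat.Coprime.coprime_dvd_left (dvd_pow_self m (Nat.sub_pos_of_lt hp.out.one_lt).ne') h2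
  obtain ⟨w, hw⟩ : ∃ w : (ZMod (p ^ (n + 1)))ˣ, (w : ZMod (p ^ (n + 1))) = m :=
    ⟨ZMod.unitOfCoprime m h1, ZMod.coe_unitOfCoprime m h1⟩
  have hw1 : w ^ (p - 1) = 1 := by
    apply Units.ext
    have h3 := (ZMod.natCast_eq_natCast_iff (m ^ (p - 1)) 1 (p ^ (n + 1))).2 hm
    rw [Nat.cast_pow, Nat.cast_one] at h3
    rw [Units.val_pow_eq_pow_val, hw, Units.val_one, h3]
  refine Finset.prod_nbij' (fun u => w * u) (fun u => w⁻¹ * u) ?_ ?_ ?_ ?_ ?_
  · intro u hu
    rw [tb_mem] at hu ⊢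
    rw [mul_pow, hw1, hu, one_mul]
  · intro u hu
    rw [tb_mem] at hu ⊢
    rw [mul_pow, inv_pow, hw1, hu, inv_one, one_mul]
  · intro u _
    exact inv_mul_cancel_left w u
  · intro u _
    exact mul_inv_cancel_left w u
  · intro u _
    apply hf
    rw [← ZMod.natCast_eq_natCast_iff, Nat.cast_mul, ZMod.natCast_zmod_val, ZMod.natCast_zmod_val,
      Units.val_mul, hw]

/-- Chunk TB (M). A product over Tm p n of a function which depends on the exponent modulo p^(k+1) only, k ≤ n, is the product over Tm p k (tb_red). -/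
theorem tb_prod_red {M : Type} [CommMonoid M] (h2 : p ≠ 2) {k n : ℕ} (h : k ≤ n) (f : ℕ → M)
    (hf : ∀ a b : ℕ, a ≡ b [MOD p ^ (k + 1)] → f a = f b) :
    ∏ u ∈ Tm p n, f ((u : ZMod (p ^ (n + 1))).val) = ∏ u ∈ Tm p k, f ((u : ZMod (p ^ (k + 1))).val) := by
  obtain ⟨h1, h3, h4⟩ := tb_red (p := p) h2 h
  refine Finset.prod_nbij
    (fun u => ZMod.unitsMap (pow_dvd_pow p (Nat.succ_le_succ h) : p ^ (k + 1) ∣ p ^ (n + 1)) u) ?_ h3 h4 ?_
  · intro u hu
    exact h1 hu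
  · intro u _
    apply hf
    rw [ZMod.unitsMap_val, ← ZMod.natCast_val, ZMod.val_natCast]
    exact (Nat.mod_modEq _ _).symm

end H16S
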