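import Mathlib
import Pool.Agent.Lib.H16S.N1
import Pool.Agent.Lib.H16S.TB
import Pool.Agent.Lib.H35L.C0D

/-! # H16S, chunk N5 (M): the fields Hn -/

open NumberField IsDedekindDomain WeierstrassCurve

namespace H16S

attribute [local instance] H16S.nfOC H16S.ultOC

open H55P (IQ Pt ac Inert Dec Nm)
open H35L (Gc Gen dV)

variable {F : Type} [Field F] [NumberField F] {p : ℕ} {Ω C : Type} [Field Ω] [Algebra F Ω] [NormedField C] [IsUltrametricDist C]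
  {V : ValuationSubring Ω} {i : Ω →+* C}

theorem n5_decpow {γ : Ω ≃ₐ[F] Ω} (hγ : Dec V γ) (k : ℕ) : Dec V (γ ^ k) := by
  induction k with
  | zero =>
    intro x
    rw [pow_zero]
    exact Iff.rfl
  | succ k ih =>
    intro x
    rw [pow_succ]
    exact (ih (γ x)).trans (hγ x)

/-- Chunk N5 (S). Gc_mono. -/
theorem n5_mono (V : ValuationSubring Ω) (p : ℕ) (i : Ω →+* C) (n : ℕ) : Hn V p i F n ≤ Hn V p i F (n + 1) := by
  classical
  intro x hx s h1 h2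
  exact hx s h1 (H35L.Gc_mono h2)

/-- Chunk N5 (S/M). PROOF. s γ x = γ (γ⁻¹ s γ) x, and γ⁻¹ s γ is in Dec V (H13X.Dec.mul', Dec.inv') with Gc p n (H35L.Gc_conj with t = γ⁻¹). -/
theorem n5_g {γ : Ω ≃ₐ[F] Ω} (hγ : Dec V γ) (n : ℕ) {x : OC i} (hx : x ∈ Hn V p i F n) : gO i γ x ∈ Hn V p i F n := by
  classical
  obtain ⟨y, rfl⟩ := toC_surj i x
  rw [gO_apply]
  rw [mem_Hn] at hx ⊢
  intro s hs hg
  have h1 := hx (γ⁻¹ * s * γ) (H13X.Dec.mul' (H13X.Dec.mul' (H13X.Dec.inv' hγ) hs) hγ) (by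
    have h2 := H35L.Gc_conj hg γ⁻¹
    rwa [inv_inv] at h2)
  have h3 : γ ((γ⁻¹ * s * γ) y) = s (γ y) := by
    rw [AlgEquiv.mul_apply, AlgEquiv.mul_apply]
    exact γ.apply_symm_apply _
  rw [← h3, h1]

/-- Chunk N5 (S). gO_pow, H35L.gc_powp. -/
theorem n5_fix [IsAlgClosure F Ω] (hp : p.Prime) {γ : Ω ≃ₐ[F] Ω} (hγ : Dec V γ) (n : ℕ) {x : OC i} (hx : x ∈ Hn V p i F n) :
    (gO i γ ^ p ^ n) x = x := by
  obtain ⟨y, rfl⟩ := toC_surj i x
  rw [mem_Hn] at hx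
  rw [gO_pow, hx (γ ^ p ^ n) (n5_decpow hγ _) (H35L.gc_powp hp γ n)]

theorem n5_iter {γ : Ω ≃ₐ[F] Ω} {m : ℕ} {y : Ω} (h : (γ ^ m) y = y) (k : ℕ) : (γ ^ (k * m)) y = y := by
  induction k with
  | zero =>
    rw [zero_mul, pow_zero]
    rfl
  | succ k ih =>
    rw [Nat.succ_mul, pow_add, AlgEquiv.mul_apply, h, ih]

/-- Chunk N5 (S/M). PROOF. s in Dec V with Gc p n s: H35L.gc_gen (m = n + 1): γ^(k p^n) s has Gc p (n+1), so γ^(k p^n) (s x) = x; also γ^(k p^n) x = x (iterate), so s x = x. -/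
theorem n5_down [IsAlgClosure F Ω] (hp : p.Prime) (h3 : 3 ≤ p) {γ : Ω ≃ₐ[F] Ω} (hγ : Dec V γ) (hg : Gen p γ) (n : ℕ) {x : OC i}
    (hx : x ∈ Hn V p i F (n + 1)) (h : (gO i γ ^ p ^ n) x = x) : x ∈ Hn V p i F n := by
  classical
  obtain ⟨y, rfl⟩ := toC_surj i x
  rw [gO_pow, toC_inj] at h
  rw [mem_Hn] at hx ⊢
  intro s hs hgs
  obtain ⟨k, hk⟩ := H35L.gc_gen hp h3 hg (Nat.le_succ n) hgs
  have h1 := hx (γ ^ (k * p ^ n) * s) (H13X.Dec.mul' (n5_decpow hγ _) hs) hk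
  have h2 := n5_iter h k
  rw [AlgEquiv.mul_apply] at h1
  exact (γ ^ (k * p ^ n)).injective (h1.trans h2.symm)

/-- Chunk N5 (S/M). The elements of Dec V are products of a power of γ and an element with Gc p n: x in Hn n fixed by γ is fixed by all of Dec V, so it lies in Hn 0. PROOF. H35L.gc_zero, gc_gen (n := 0, m := n). -/
theorem n5_zero [IsAlgClosure F Ω] (hp : p.Prime) (h3 : 3 ≤ p) {γ : Ω ≃ₐ[F] Ω} (hγ : Dec V γ) (hg : Gen p γ) (n : ℕ) {x : OC i}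
    (hx : x ∈ Hn V p i F n) (h : gO i γ x = x) : ∀ s : Ω ≃ₐ[F] Ω, Dec V s → gO i s x = x := by
  classical
  obtain ⟨y, rfl⟩ := toC_surj i x
  rw [gO_apply, toC_inj] at h
  rw [mem_Hn] at hx
  intro s hs
  rw [gO_apply, toC_inj]
  obtain ⟨k, hk⟩ := H35L.gc_gen hp h3 hg (Nat.zero_le n) (H35L.gc_zero hp s)
  have h1 := hx (γ ^ (k * p ^ 0) * s) (H13X.Dec.mul' (n5_decpow hγ _) hs) hk
  have h0 : (γ ^ p ^ 0) y = y := by
    rw [pow_zero, pow_one]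
    exact h
  have h2 := n5_iter h0 k
  rw [AlgEquiv.mul_apply] at h1
  exact (γ ^ (k * p ^ 0)).injective (h1.trans h2.symm)

theorem n5_mod {M : Type*} [Monoid M] {z : M} {N a b : ℕ} (hz : z ^ N = 1) (h : a ≡ b [MOD N]) : z ^ a = z ^ b := by
  have h1 : ∀ c, z ^ c = z ^ (c % N) := by
    intro c
    conv_lhs => rw [← Nat.div_add_mod c N]
    rw [pow_add, pow_mul, hz, one_pow, one_mul]
  have h2 : a % N = b % N := h
  rw [h1 a, h1 b, h2]

theorem n5_one {L : Type} [Field L] {ζ : ℕ → L} (Z : Zt p ζ) (n : ℕ) : ζ n ^ p ^ (n + 1) = 1 := by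
  induction n with
  | zero =>
    rw [zero_add, pow_one]
    exact Z.z0.pow_eq_one
  | succ n ih => rw [pow_succ' p (n + 1), pow_mul, Z.zs, ih]

/-- Chunk N5 (S/M). PROOF. s with Gc p n s: s ζ = ζ^a, a^(p-1) = 1 modulo p^(n+1), for ζ = ζ n (of order dividing p^(n+1)). s (piT p ζ n) = the product of 1 - ζ^(a u), tb_prod with f m = 1 - ζ^m (depends on m modulo p^(n+1) only). -/
theorem n5_pi [Fact p.Prime] {ζ : ℕ → OC i} (Z : Zt p ζ) (n : ℕ) : piT p ζ n ∈ Hn V p i F n := by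
  intro s _ hg
  obtain ⟨a, ha, hs⟩ := hg
  have hz := n5_one Z n
  have h1 : gO i s (ζ n) = ζ n ^ a := by
    obtain ⟨y, hy⟩ := toC_surj i (ζ n)
    rw [← hy] at hz ⊢
    rw [gO_apply, ← toC_pow, toC_inj]
    apply hs
    rwa [← toC_pow, ← toC_one, toC_inj] at hz
  unfold piT
  rw [map_prod]
  have h2 := tb_prod n (fun m => 1 - ζ n ^ m) (fun b c hbc => by
    show 1 - ζ n ^ b = 1 - ζ n ^ c
    rw [n5_mod hz hbc]) ha
  rw [← h2]
  refine Finset.prod_congr rfl fun u _ => ?_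
  rw [map_sub, map_one, map_pow, h1, ← pow_mul]

end H16S
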