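import Mathlib
import Pool.Agent.Lib.H16S.N2
import Pool.Agent.Lib.H16S.N5

/-! # H16S, chunk N6 (M): the values of Hn -/

open NumberField IsDedekindDomain WeierstrassCurve

namespace H16S

attribute [local instance] H16S.nfOC H16S.ultOC

open H55P (IQ Pt ac Inert Dec Nm)
open H35L (Gc Gen dV)

variable {F : Type} [Field F] [NumberField F] {p : ℕ} {Ω C : Type} [Field Ω] [Algebra F Ω] [NormedField C] [IsUltrametricDist C]
  {V : ValuationSubring Ω} {i : Ω →+* C}

/-- Chunk N6 (M). PROOF. y = the product over k < p^n of γ^k x. It lies in Hn n (n5_g) and γ y = y, because γ^(p^n) x = x (n5_fix; Finset.prod_range_succ', Finset.prod_range_succ). n5_zero: all of Dec V fixes y, in particular Inert V (H13X.Inert.dec); n2_val: ‖y‖ = ‖p‖^k. All factors have the norm ‖x‖ (n1_dec, γ^k in Dec V): ‖y‖ = ‖x‖^(p^n). -/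
theorem n6 [IsAlgClosure F Ω] (h : Ctx F p V i) {γ : Ω ≃ₐ[F] Ω} (hγ : Dec V γ) (hg : Gen p γ) (n : ℕ) {x : OC i}
    (hx : x ∈ Hn V p i F n) (h0 : x ≠ 0) : ∃ k : ℤ, ‖x‖ ^ p ^ n = ‖(p : OC i)‖ ^ k := by
  have halg : Algebra.IsAlgebraic F Ω := IsAlgClosure.isAlgebraic
  have hmem : ∀ k : ℕ, (gO i γ ^ k) x ∈ Hn V p i F n := by
    intro k
    induction k with
    | zero => exact hx
    | succ k ih =>
      rw [pow_succ', RingAut.mul_apply]
      exact n5_g hγ n ih
  have hnorm : ∀ k : ℕ, ‖(gO i γ ^ k) x‖ = ‖x‖ := by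
    intro k
    induction k with
    | zero => rfl
    | succ k ih =>
      rw [pow_succ', RingAut.mul_apply, ← ih]
      exact n1_dec h hγ (show Ω from (gO i γ ^ k) x)
  set y : OC i := ∏ k ∈ Finset.range (p ^ n), (gO i γ ^ k) x with hy
  have hyH : y ∈ Hn V p i F n := Subfield.prod_mem _ fun k _ => hmem k
  have hyg : gO i γ y = y := by
    have e1 : gO i γ y = ∏ k ∈ Finset.range (p ^ n), (gO i γ ^ (k + 1)) x := by
      rw [hy, map_prod]
      refine Finset.prod_congr rfl fun k _ => ?_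
      rw [pow_succ', RingAut.mul_apply]
    have e2 := Finset.prod_range_succ' (fun k => (gO i γ ^ k) x) (p ^ n)
    have e3 := Finset.prod_range_succ (fun k => (gO i γ ^ k) x) (p ^ n)
    rw [e2] at e3
    have e4 : (gO i γ ^ 0) x = x := rfl
    have e5 : (gO i γ ^ p ^ n) x = x := n5_fix h.pr hγ n hx
    rw [e4, e5, ← e1, ← hy] at e3
    exact mul_right_cancel₀ h0 e3
  have hynorm : ‖y‖ = ‖x‖ ^ p ^ n := by
    rw [hy, norm_prod, Finset.prod_congr rfl fun k _ => hnorm k, Finset.prod_const, Finset.card_range]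
  have hy0 : y ≠ 0 := by
    intro hz
    rw [hz, norm_zero] at hynorm
    exact h0 (norm_eq_zero.1 (pow_eq_zero_iff (pow_pos h.pr.pos n).ne' |>.1 hynorm.symm))
  have hall := n5_zero h.pr (by have := h.five; omega) hγ hg n hyH hyg
  obtain ⟨k, hk⟩ := n2_val h (y := (show Ω from y)) hy0 (fun s hs => hall s (H13X.Inert.dec hs))
  refine ⟨k, ?_⟩
  rw [← hynorm]
  exact hk

end H16S
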