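import Mathlib
import Pool.Agent.Lib.H16S.TD
import Pool.Agent.Lib.H16S.LC

/-! # H16S, chunk TA (M): the values 1 - ζ^a -/

namespace H16S

variable {p : ℕ} [hp : Fact p.Prime] {L : Type} [NormedField L] [IsUltrametricDist L]

/-- Chunk TA (S). ζ n is a primitive p^(n+1)-th root of unity: induction (IsPrimitiveRoot.of_pow or orderOf_eq_prime_pow style: (ζ (n+1))^(p^(n+1)) = ζ 0 ^.. ≠ 1). -/
theorem zt_prim {ζ : ℕ → L} (Z : Zt p ζ) (n : ℕ) : IsPrimitiveRoot (ζ n) (p ^ (n + 1)) := by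
  induction n with
  | zero => rw [zero_add, pow_one]; exact Z.z0
  | succ n ih =>
    have h1 : ¬ ζ (n + 1) ^ p ^ (n + 1) = 1 := by
      rw [pow_succ', pow_mul, Z.zs]
      intro h
      have h2 := ih.dvd_of_pow_eq_one _ h
      have h3 := Nat.le_of_dvd (pow_pos hp.out.pos n) h2
      have h4 : p ^ n < p ^ (n + 1) := Nat.pow_lt_pow_right hp.out.one_lt (Nat.lt_succ_self n)
      omega
    have h2 : ζ (n + 1) ^ p ^ (n + 1 + 1) = 1 := by
      rw [pow_succ' p (n + 1), pow_mul, Z.zs]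
      exact ih.pow_eq_one
    have h3 := orderOf_eq_prime_pow h1 h2
    have h4 := IsPrimitiveRoot.orderOf (ζ (n + 1))
    rwa [h3] at h4

omit hp in
theorem ta_one {m : ℕ} (hm : m ≠ 0) {z : L} (hz : z ^ m = 1) : ‖z‖ = 1 := by
  have h : ‖z‖ ^ m = 1 := by rw [← norm_pow, hz, norm_one]
  exact (pow_eq_one_iff_of_nonneg (norm_nonneg _) hm).1 h

omit hp in
theorem ta_le {m : ℕ} (hm : m ≠ 0) {z : L} (hz : z ^ m = 1) (a : ℕ) : ‖1 - z ^ a‖ ≤ ‖1 - z‖ := by
  have h := lc_powsub (u := (1 : L)) (v := z) (by rw [norm_one]) (ta_one hm hz).le a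
  rwa [one_pow] at h

omit hp in
theorem ta_eq {m : ℕ} (hm : m ≠ 0) {z w : L} (hz : IsPrimitiveRoot z m) (hw : IsPrimitiveRoot w m) :
    ‖1 - z‖ = ‖1 - w‖ := by
  haveI : NeZero m := ⟨hm⟩
  apply le_antisymm
  · obtain ⟨i, _, hi⟩ := hw.eq_pow_of_pow_eq_one hz.pow_eq_one
    rw [← hi]
    exact ta_le hm hw.pow_eq_one i
  · obtain ⟨i, _, hi⟩ := hz.eq_pow_of_pow_eq_one hw.pow_eq_one
    rw [← hi]
    exact ta_le hm hz.pow_eq_one i

/-- Chunk TA (M). PROOF. The product of 1 - z^a over the units a modulo p^(n+1) is the value at 1 of the cyclotomic polynomial, p (Polynomial.eval_one_cyclotomic_prime_pow, cyclotomic_eq_prod_X_sub_primitiveRoots; or IsPrimitiveRoot lemmas). All factors have the same norm: 1 - z^a is (1 - z) times a sum of powers of z, norm ≤ 1, and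
1 - z = 1 - (z^a)^b with a b = 1 modulo p^(n+1). There are p^n (p - 1) factors. ‖z‖ = 1. -/
theorem ta_norm {n : ℕ} {z : L} (hz : IsPrimitiveRoot z (p ^ (n + 1))) {a : ℕ} (ha : ¬ p ∣ a) :
    ‖1 - z ^ a‖ ^ (p ^ n * (p - 1)) = ‖(p : L)‖ := by
  have hm : p ^ (n + 1) ≠ 0 := pow_ne_zero _ hp.out.ne_zero
  have hza : IsPrimitiveRoot (z ^ a) (p ^ (n + 1)) := by
    apply hz.pow_of_coprime
    exact (Nat.Coprime.pow_left _ ((Nat.Prime.coprime_iff_not_dvd hp.out).2 ha)).symm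
  have h1 := Polynomial.eval_one_cyclotomic_prime_pow (R := L) (p := p) n
  rw [Polynomial.cyclotomic_eq_prod_X_sub_primitiveRoots hz, Polynomial.eval_prod] at h1
  rw [← h1, norm_prod]
  have h2 : ∀ μ ∈ primitiveRoots (p ^ (n + 1)) L, ‖Polynomial.eval 1 (Polynomial.X - Polynomial.C μ)‖ = ‖1 - z ^ a‖ := by
    intro μ hμ
    rw [mem_primitiveRoots (Nat.pos_of_ne_zero hm)] at hμ
    rw [Polynomial.eval_sub, Polynomial.eval_X, Polynomial.eval_C]
    exact ta_eq hm hμ hza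
  rw [Finset.prod_congr rfl h2, Finset.prod_const, hz.card_primitiveRoots,
    Nat.totient_prime_pow_succ hp.out]

/-- Chunk TA (S/M). For ‖p‖ < 1 all ‖1 - z^a‖ < 1 (a prime to p: ta_norm; in general 1 - z^a is a multiple of 1 - z), ‖z‖ = 1. -/
theorem ta_lt (hlt : ‖(p : L)‖ < 1) {n : ℕ} {z : L} (hz : IsPrimitiveRoot z (p ^ (n + 1))) (a : ℕ) : ‖1 - z ^ a‖ < 1 ∧ ‖z‖ = 1 := by
  have hm : p ^ (n + 1) ≠ 0 := pow_ne_zero _ hp.out.ne_zero
  refine ⟨lt_of_le_of_lt (ta_le hm hz.pow_eq_one a) ?_, ta_one hm hz.pow_eq_one⟩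
  have h1 := ta_norm hz (a := 1) (Nat.Prime.not_dvd_one hp.out)
  rw [pow_one] at h1
  by_contra hc
  rw [not_lt] at hc
  have h2 := one_le_pow₀ (n := p ^ n * (p - 1)) hc
  rw [h1] at h2
  exact absurd hlt (not_lt.2 h2)

end H16S
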