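import Mathlib
import Pool.Agent.Lib.H16S.N2
import Pool.Agent.Lib.H16S.TA
import Pool.Agent.Lib.H35L.C0D

/-! # H16S, chunk N3 (M): inertia and the cyclotomic character -/

open NumberField IsDedekindDomain WeierstrassCurve

namespace H16S

attribute [local instance] H16S.nfOC H16S.ultOC

open H55P (IQ Pt ac Inert Dec Nm)
open H35L (Gc Gen dV)

variable {F : Type} [Field F] [NumberField F] {p : ℕ} {Ω C : Type} [Field Ω] [Algebra F Ω] [NormedField C] [IsUltrametricDist C]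
  {V : ValuationSubring Ω} {i : Ω →+* C}

theorem n3_mod {M : Type*} [Monoid M] {z : M} {N a b : ℕ} (hz : z ^ N = 1) (h : a ≡ b [MOD N]) : z ^ a = z ^ b := by
  have h1 : ∀ c, z ^ c = z ^ (c % N) := by
    intro c
    conv_lhs => rw [← Nat.div_add_mod c N]
    rw [pow_add, pow_mul, hz, one_pow, one_mul]
  have h2 : a % N = b % N := h
  rw [h1 a, h1 b, h2]

theorem n3_unit {M : Type*} [Monoid M] {z : M} {N a : ℕ} (hz : z ^ N = 1) (ha : a.Coprime N) :
    z ^ ((ZMod.unitOfCoprime a ha : (ZMod N)ˣ) : ZMod N).val = z ^ a := by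
  apply n3_mod hz
  rw [ZMod.coe_unitOfCoprime, ZMod.val_natCast]
  exact Nat.mod_modEq _ _

/-- Chunk N3 (M). The inertia group acts on the roots of unity of order p^(n+1) through all exponents prime to p. PROOF. z a primitive p^(n+1)-th root of unity in Ω (H35L.c0_prim). U = the set of the units u modulo p^(n+1) such that some s in Inert V has s z = z^u: a subgroup (H13X.lcb_mul, lcb_inv, lcb_one), or only: finite, not empty, and u U = U for u in U.
y = the product over u in U of 1 - z^u. It is fixed by Inert V: s in Inert V maps z to z^c with c in U (s z is a primitive root: H35L.root_pow), so it permutes the factors; y ≠ 0. By n2_val ‖y‖ = ‖p‖^k. In the field OC i, or in C with the root i z: all factors have norm r with r^(p^n (p-1)) = ‖p‖ (ta_norm for L = C, z := i z: a primitive root because i is injective).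
So ‖p‖^(card U) = ‖y‖^(p^n (p-1)) = ‖p‖^(k p^n (p-1)), card U = k p^n (p - 1) with k ≥ 1 (‖p‖ < 1, ‖p‖ ≠ 0: zpow injective), and card U ≤ p^n (p - 1) = the number of units: U is everything. c = the class of c. -/
theorem n3 [IsAlgClosure F Ω] (h : Ctx F p V i) (n : ℕ) {c : ℕ} (hc : ¬ p ∣ c) :
    ∃ s : Ω ≃ₐ[F] Ω, Inert V s ∧ ∀ z : Ω, z ^ p ^ (n + 1) = 1 → s z = z ^ c := by
  classical
  have hp := h.pr
  have hfact : Fact p.Prime := ⟨hp⟩
  obtain ⟨z, hz⟩ := H35L.c0_prim F Ω hp (n + 1)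
  have hN0 : p ^ (n + 1) ≠ 0 := pow_ne_zero _ hp.ne_zero
  have hNZ : NeZero (p ^ (n + 1)) := ⟨hN0⟩
  have hval : ∀ x y : (ZMod (p ^ (n + 1)))ˣ, z ^ ((x * y : (ZMod (p ^ (n + 1)))ˣ) : ZMod (p ^ (n + 1))).val =
      z ^ ((x : ZMod (p ^ (n + 1))).val * (y : ZMod (p ^ (n + 1))).val) := by
    intro x y
    apply n3_mod hz.pow_eq_one
    rw [Units.val_mul, ZMod.val_mul]
    exact Nat.mod_modEq _ _
  let U : Finset (ZMod (p ^ (n + 1)))ˣ := Finset.univ.filter fun u =>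
    ∃ s : Ω ≃ₐ[F] Ω, Inert V s ∧ s z = z ^ (u : ZMod (p ^ (n + 1))).val
  have hUmem : ∀ u, u ∈ U ↔ ∃ s : Ω ≃ₐ[F] Ω, Inert V s ∧ s z = z ^ (u : ZMod (p ^ (n + 1))).val := fun u => by
    simp [U]
  have hUs : ∀ s : Ω ≃ₐ[F] Ω, Inert V s → ∃ u ∈ U, s z = z ^ (u : ZMod (p ^ (n + 1))).val := by
    intro s hs
    obtain ⟨a, ha, hsa⟩ := H35L.root_pow hp (n + 1) s
    have hcop : a.Coprime (p ^ (n + 1)) := Nat.Coprime.pow_right _ ha
    have h1 : s z = z ^ ((ZMod.unitOfCoprime a hcop : (ZMod (p ^ (n + 1)))ˣ) : ZMod (p ^ (n + 1))).val := by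
      rw [n3_unit hz.pow_eq_one hcop]
      exact hsa z hz.pow_eq_one
    exact ⟨_, (hUmem _).2 ⟨s, hs, h1⟩, h1⟩
  have hUmul : ∀ w ∈ U, ∀ u ∈ U, w * u ∈ U := by
    intro w hw u hu
    obtain ⟨s, hs, hsz⟩ := (hUmem w).1 hw
    obtain ⟨t, ht, htz⟩ := (hUmem u).1 hu
    refine (hUmem _).2 ⟨s * t, H13X.lcb_mul hs ht, ?_⟩
    rw [AlgEquiv.mul_apply, htz, map_pow, hsz, ← pow_mul, hval]
  have hyI : ∀ s : Ω ≃ₐ[F] Ω, Inert V s → s (∏ u ∈ U, (1 - z ^ (u : ZMod (p ^ (n + 1))).val)) =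
      ∏ u ∈ U, (1 - z ^ (u : ZMod (p ^ (n + 1))).val) := by
    intro s hs
    obtain ⟨w, hw, hwz⟩ := hUs s hs
    rw [map_prod]
    have hmaps : ∀ u ∈ U, w * u ∈ U := hUmul w hw
    have hinj : Set.InjOn (fun u => w * u) (U : Set (ZMod (p ^ (n + 1)))ˣ) := fun a _ b _ hab => mul_left_cancel hab
    have hsurj : Set.SurjOn (fun u => w * u) (U : Set (ZMod (p ^ (n + 1)))ˣ) (U : Set (ZMod (p ^ (n + 1)))ˣ) :=
      Finset.surjOn_of_injOn_of_card_le _ hmaps hinj le_rfl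
    refine Finset.prod_nbij (fun u => w * u) hmaps hinj hsurj ?_
    intro u _
    rw [map_sub, map_one, map_pow, hwz, ← pow_mul, hval]
  have hzC : IsPrimitiveRoot (i z) (p ^ (n + 1)) := hz.map_of_injective i.injective
  have hpC : ‖i (p : Ω)‖ = ‖(p : C)‖ := by rw [map_natCast]
  have hnorm : ∀ u : (ZMod (p ^ (n + 1)))ˣ,
      ‖i (1 - z ^ (u : ZMod (p ^ (n + 1))).val)‖ ^ (p ^ n * (p - 1)) = ‖(p : C)‖ := by
    intro u
    rw [map_sub, map_one, map_pow]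
    refine ta_norm hzC ?_
    intro hd
    have h1 := ZMod.val_coe_unit_coprime u
    have h2 : p ∣ Nat.gcd (u : ZMod (p ^ (n + 1))).val (p ^ (n + 1)) :=
      Nat.dvd_gcd hd (dvd_pow_self p (Nat.succ_ne_zero n))
    rw [Nat.Coprime.gcd_eq_one h1] at h2
    exact hp.one_lt.ne' (Nat.dvd_one.1 h2)
  have hM : ‖i (∏ u ∈ U, (1 - z ^ (u : ZMod (p ^ (n + 1))).val))‖ ^ (p ^ n * (p - 1)) = ‖(p : C)‖ ^ U.card := by
    rw [map_prod, norm_prod, ← Finset.prod_pow, Finset.prod_congr rfl fun u _ => hnorm u, Finset.prod_const]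
  obtain ⟨hp1, hp0⟩ := n1_p h
  have hMpos : 0 < p ^ n * (p - 1) := Nat.mul_pos (pow_pos hp.pos n) (Nat.sub_pos_of_lt hp.one_lt)
  have hy0 : (∏ u ∈ U, (1 - z ^ (u : ZMod (p ^ (n + 1))).val)) ≠ 0 := by
    intro h0
    rw [h0, map_zero, norm_zero, zero_pow hMpos.ne', ← hpC] at hM
    exact (pow_pos hp0 U.card).ne hM
  obtain ⟨k, hk⟩ := n2_val h hy0 hyI
  have hexp : k * ((p ^ n * (p - 1) : ℕ) : ℤ) = (U.card : ℤ) := by
    have h1 : ‖i (p : Ω)‖ ^ (k * ((p ^ n * (p - 1) : ℕ) : ℤ)) = ‖i (p : Ω)‖ ^ (U.card : ℤ) := by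
      rw [zpow_mul, ← hk, zpow_natCast, hM, zpow_natCast, hpC]
    exact zpow_right_injective₀ hp0 hp1.ne h1
  have hcard1 : 0 < U.card := by
    obtain ⟨u, hu, _⟩ := hUs 1 H13X.lcb_one
    exact Finset.card_pos.2 ⟨u, hu⟩
  have hcardM : p ^ n * (p - 1) ≤ U.card := by
    have hk1 : 0 < k := by
      by_contra hk0
      have h2 : k * ((p ^ n * (p - 1) : ℕ) : ℤ) ≤ 0 :=
        mul_nonpos_of_nonpos_of_nonneg (not_lt.1 hk0) (Int.natCast_nonneg _)
      rw [hexp] at h2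
      have h4 : (0 : ℤ) < U.card := by exact_mod_cast hcard1
      linarith
    have h3 : ((p ^ n * (p - 1) : ℕ) : ℤ) ≤ (U.card : ℤ) := by
      rw [← hexp]
      exact le_mul_of_one_le_left (Int.natCast_nonneg _) hk1
    exact_mod_cast h3
  have hUuniv : U = Finset.univ := by
    refine Finset.eq_univ_of_card U (le_antisymm (Finset.card_le_univ U) ?_)
    rw [ZMod.card_units_eq_totient, Nat.totient_prime_pow_succ hp]
    exact hcardM
  have hcop : c.Coprime (p ^ (n + 1)) := by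
    apply Nat.Coprime.pow_right
    exact ((Nat.Prime.coprime_iff_not_dvd hp).2 hc).symm
  have hw : (ZMod.unitOfCoprime c hcop : (ZMod (p ^ (n + 1)))ˣ) ∈ U := by
    rw [hUuniv]
    exact Finset.mem_univ _
  obtain ⟨s, hs, hsz⟩ := (hUmem _).1 hw
  rw [n3_unit hz.pow_eq_one hcop] at hsz
  refine ⟨s, hs, fun x hx => ?_⟩
  obtain ⟨j, _, rfl⟩ := hz.eq_pow_of_pow_eq_one hx
  rw [map_pow, hsz, ← pow_mul, ← pow_mul, mul_comm]

/-- Chunk N3 (S). A generator in the inertia group: n3 with n = 1, c = 1 + p: (1 + p)^(p-1) = 1 - p modulo p² is not 1 (H35L.gc_root). -/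
theorem n3_gen [IsAlgClosure F Ω] (h : Ctx F p V i) : ∃ γ : Ω ≃ₐ[F] Ω, Inert V γ ∧ Gen p γ := by
  have hp := h.pr
  have h5 := h.five
  obtain ⟨γ, hI, hγ⟩ := n3 h 1 (c := 1 + p) (by
    intro hd
    have h1 : p ∣ 1 := (Nat.dvd_add_left (dvd_refl p)).1 hd
    exact hp.one_lt.ne' (Nat.dvd_one.1 h1))
  refine ⟨γ, hI, fun hG => ?_⟩
  have h1 := (H35L.gc_root hp (n := 1) (a := 1 + p) hγ).1 hG
  have h2 : p ^ 1 ∣ p - 1 := by
    refine (H35L.c0d_lte hp (by omega) ?_ ?_ 1 (p - 1)).1 h1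
    · show (1 + p) % p = 1 % p
      rw [Nat.add_mod_right]
    · intro h3
      have h4 : p ^ 2 ∣ (1 + p) - 1 := (Nat.modEq_iff_dvd' (Nat.le_add_right 1 p)).1 h3.symm
      rw [Nat.add_sub_cancel_left] at h4
      have h6 := Nat.le_of_dvd hp.pos h4
      nlinarith
  rw [pow_one] at h2
  have h3 := Nat.le_of_dvd (Nat.sub_pos_of_lt hp.one_lt) h2
  omega

end H16S
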