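import Mathlib
import Pool.Agent.Lib.H16S.N3
import Pool.Agent.Lib.H13S.FR
import Pool.Agent.Lib.H55P.F0

/-! # H16S, chunk N4 (M): Frobenius elements and representatives -/

open NumberField IsDedekindDomain WeierstrassCurve

namespace H16S

attribute [local instance] H16S.nfOC H16S.ultOC

open H55P (IQ Pt ac Inert Dec Nm)
open H35L (Gc Gen dV)

variable {F : Type} [Field F] [NumberField F] {p : ℕ} {Ω C : Type} [Field Ω] [Algebra F Ω] [NormedField C] [IsUltrametricDist C]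
  {V : ValuationSubring Ω} {i : Ω →+* C}

/-- Chunk N4 (S/M). 𝓞 F/(p) has p² elements (Ideal.absNorm_span_natCast or Nm of the natural number p, H55K.Nm_nat; finrank ℚ F = 2 from IQ.deg). -/
theorem n4_card [IQ F] (hp : p.Prime) : Ideal.absNorm (Ideal.span {(p : 𝓞 F)}) = p ^ 2 ∧ Nat.card (𝓞 F ⧸ Ideal.span {(p : 𝓞 F)}) = p ^ 2 := by
  have h1 : Ideal.absNorm (Ideal.span {(p : 𝓞 F)}) = p ^ 2 := by
    rw [Ideal.absNorm_span_natCast, RingOfIntegers.rank, IQ.deg]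
  refine ⟨h1, ?_⟩
  rw [← h1, Ideal.absNorm_apply, Submodule.cardQuot_apply]

/-- Chunk N4 (S/M). Representatives exist: an equivalence of Fin (p^2) with the quotient (n4_card: finite), Quotient.out. -/
theorem n4_rp [IQ F] (hp : p.Prime) : ∃ ρ : Fin (p ^ 2) → 𝓞 F, Rp p ρ := by
  have hcard := (n4_card (F := F) hp).2
  have hfin : Finite (𝓞 F ⧸ Ideal.span {(p : 𝓞 F)}) :=
    Nat.finite_of_card_ne_zero (by rw [hcard]; exact pow_ne_zero 2 hp.ne_zero)
  let e : (𝓞 F ⧸ Ideal.span {(p : 𝓞 F)}) ≃ Fin (p ^ 2) := Finite.equivFinOfCardEq hcard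
  have hsurj := Ideal.Quotient.mk_surjective (I := Ideal.span {(p : 𝓞 F)})
  choose r hr using hsurj
  refine ⟨fun k => r (e.symm k), ⟨fun a => ?_, fun k l hkl => ?_⟩⟩
  · refine ⟨e (Ideal.Quotient.mk _ a), ?_⟩
    rw [← Ideal.mem_span_singleton, ← Ideal.Quotient.eq, hr, Equiv.symm_apply_apply]
  · rw [← Ideal.mem_span_singleton, ← Ideal.Quotient.eq, hr, hr] at hkl
    exact e.symm.injective hkl

/-- Chunk N4 (M). A Frobenius element which acts trivially on the layer n. PROOF. v = the prime ideal (p) of 𝓞 F (h.inert), Ideal.absNorm = p² (n4_card); H13S.exists_frob: φ₀ in Dec V with V (φ₀ x - x^(p²)) < 1 on V (the elements of (p) have value < 1: multiples of p). φ₀ acts on the roots of unity of order p^(n+1) by a, prime to p (H35L.root_pow); b with a b = 1 modulo p^(n+1); n3: s in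
Inert V acting by b. φ = φ₀ s acts trivially on these roots of unity: Gc p n φ (a = 1). φ x - x^(p²) = φ₀ (s x - x) + (φ₀ x - x^(p²)); H13X.Dec.lt_one, Dec.mul', Inert.dec. -/
theorem n4_frob [IQ F] [IsAlgClosure F Ω] (h : Ctx F p V i) (n : ℕ) :
    ∃ φ : Ω ≃ₐ[F] Ω, Dec V φ ∧ Gc p n φ ∧ ∀ x ∈ V, V.valuation (φ x - x ^ (p ^ 2)) < 1 := by
  have hp := h.pr
  have hne : (p : 𝓞 F) ≠ 0 := h.inert.ne_zero
  let v : HeightOneSpectrum (𝓞 F) :=
    ⟨Ideal.span {(p : 𝓞 F)}, (Ideal.span_singleton_prime hne).2 h.inert, by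
      rw [Ne, Ideal.span_singleton_eq_bot]
      exact hne⟩
  have hv : ∀ a : 𝓞 F, a ∈ v.asIdeal → V.valuation (algebraMap F Ω (a : F)) < 1 := by
    intro a ha
    obtain ⟨b, rfl⟩ := Ideal.mem_span_singleton.1 ha
    rw [n1_lt1 h]
    have e1 : i (algebraMap F Ω (((p : 𝓞 F) * b : 𝓞 F) : F)) = i (p : Ω) * i (algebraMap F Ω (b : F)) := by
      have e0 : (((p : 𝓞 F) * b : 𝓞 F) : F) = (p : F) * (b : F) := by
        push_cast
        rfl
      rw [e0, map_mul, map_natCast, map_mul]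
    rw [e1, norm_mul]
    calc ‖i (p : Ω)‖ * ‖i (algebraMap F Ω (b : F))‖ ≤ ‖i (p : Ω)‖ * 1 :=
          mul_le_mul_of_nonneg_left (n1_int h b).1 (norm_nonneg _)
      _ < 1 := by
          rw [mul_one]
          exact (n1_p h).1
  obtain ⟨φ₀, hd, hf⟩ := H13S.exists_frob v V hv
  have hN : Ideal.absNorm v.asIdeal = p ^ 2 := (n4_card (F := F) hp).1
  rw [hN] at hf
  obtain ⟨a, ha, haz⟩ := H35L.root_pow hp (n + 1) φ₀
  have hcop : a.Coprime (p ^ (n + 1)) := Nat.Coprime.pow_right _ ha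
  have hNZ : NeZero (p ^ (n + 1)) := ⟨pow_ne_zero _ hp.ne_zero⟩
  let w : (ZMod (p ^ (n + 1)))ˣ := (ZMod.unitOfCoprime a hcop)⁻¹
  have hb : ¬ p ∣ (w : ZMod (p ^ (n + 1))).val := by
    intro hdv
    have h1 := ZMod.val_coe_unit_coprime w
    have h2 : p ∣ Nat.gcd (w : ZMod (p ^ (n + 1))).val (p ^ (n + 1)) :=
      Nat.dvd_gcd hdv (dvd_pow_self p (Nat.succ_ne_zero n))
    rw [Nat.Coprime.gcd_eq_one h1] at h2
    exact hp.one_lt.ne' (Nat.dvd_one.1 h2)
  have hab : a * (w : ZMod (p ^ (n + 1))).val ≡ 1 [MOD p ^ (n + 1)] := by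
    rw [← ZMod.natCast_eq_natCast_iff]
    push_cast
    rw [ZMod.natCast_zmod_val]
    have h1 : ((ZMod.unitOfCoprime a hcop : (ZMod (p ^ (n + 1)))ˣ) : ZMod (p ^ (n + 1))) * (w : ZMod (p ^ (n + 1))) = 1 := by
      rw [← Units.val_mul, mul_inv_cancel, Units.val_one]
    rwa [ZMod.coe_unitOfCoprime] at h1
  obtain ⟨s, hs, hsz⟩ := n3 h n hb
  have hsd : Dec V s := H13X.Inert.dec hs
  refine ⟨φ₀ * s, H13X.Dec.mul' hd hsd, ⟨1, by rw [one_pow], fun z hz => ?_⟩, fun x hx => ?_⟩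
  · rw [AlgEquiv.mul_apply, hsz z hz, map_pow, haz z hz, ← pow_mul]
    exact n3_mod hz hab
  · have h1 : V.valuation (φ₀ (s x - x)) < 1 := (H13X.Dec.lt_one hd _).2 (hs x hx)
    have h2 := hf x hx
    have h3 : (φ₀ * s) x - x ^ p ^ 2 = φ₀ (s x - x) + (φ₀ x - x ^ p ^ 2) := by
      rw [AlgEquiv.mul_apply, map_sub]
      ring
    rw [h3]
    exact V.valuation.map_add_lt h1 h2

end H16S
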