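import Mathlib
import Pool.Agent.Lib.H16S.N4
import Pool.Agent.Lib.H55K.G9B

/-! # H16S, chunk N7 (M): the residue field -/

open NumberField IsDedekindDomain WeierstrassCurve

namespace H16S

attribute [local instance] H16S.nfOC H16S.ultOC

open H55P (IQ Pt ac Inert Dec Nm)
open H35L (Gc Gen dV)
open H55K (ak g9_frob)

variable {F : Type} [Field F] [NumberField F] {p : ℕ} {Ω C : Type} [Field Ω] [Algebra F Ω] [NormedField C] [IsUltrametricDist C]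
  {V : ValuationSubring Ω} {i : Ω →+* C}

/-- Chunk N7 (M). PROOF. n4_frob: φ fixes x, so V (x - x^(p²)) < 1; H55K.g9_frob with v = (p) (absNorm = p², n4_card): x = a modulo elements of value < 1 with a in 𝓞 F; R.ex: p divides a - ρ k, so V (a - ρ k) < 1. x is in V: ‖x‖ ≤ 1. n1_lt1. (H55K.ak Ω a = algebraMap F Ω a.) -/
theorem n7_res [IQ F] [IsAlgClosure F Ω] (h : Ctx F p V i) {ρ : Fin (p ^ 2) → 𝓞 F} (R : Rp p ρ) (n : ℕ) {x : OC i}
    (hx : x ∈ Hn V p i F n) (h1 : ‖x‖ ≤ 1) : ∃ k, ‖x - toC i (algebraMap F Ω (ρ k : F))‖ < 1 := by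
  have hp0 : (p : 𝓞 F) ≠ 0 := h.inert.ne_zero
  obtain ⟨φ, hφ, hG, hfr⟩ := n4_frob h n
  have hxV : (show Ω from x) ∈ V := (h.mem _).2 h1
  have hfix : φ (show Ω from x) = (show Ω from x) := hx φ hφ hG
  have h2 := hfr _ hxV
  rw [hfix, ← Valuation.map_neg, neg_sub] at h2
  let v : HeightOneSpectrum (𝓞 F) := ⟨Ideal.span {(p : 𝓞 F)}, (Ideal.span_singleton_prime hp0).2 h.inert, by
    rw [Ne, Ideal.span_singleton_eq_bot]
    exact hp0⟩
  have hdvd : ∀ a : 𝓞 F, (p : 𝓞 F) ∣ a → V.valuation (ak Ω a) < 1 := by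
    rintro a ⟨b, rfl⟩
    have e1 : ak Ω ((p : 𝓞 F) * b) = (p : Ω) * ak Ω b := by
      rw [← H55K.g9h_eq, ← H55K.g9h_eq, map_mul, map_natCast]
    rw [e1, map_mul]
    have e2 : V.valuation (ak Ω b) ≤ 1 := (V.valuation_le_one_iff _).2 ((h.mem _).2 (n1_int h b).1)
    exact mul_lt_one_of_lt_of_le h.above e2
  have hv : ∀ a : 𝓞 F, a ∈ v.asIdeal → V.valuation (ak Ω a) < 1 := fun a ha =>
    hdvd a (Ideal.mem_span_singleton.1 ha)
  have h3 : V.valuation ((show Ω from x) ^ Ideal.absNorm v.asIdeal - (show Ω from x)) < 1 := by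
    have e : Ideal.absNorm v.asIdeal = p ^ 2 := (n4_card h.pr).1
    rw [e]
    exact h2
  obtain ⟨a, ha⟩ := (g9_frob hv ((V.valuation_le_one_iff _).2 hxV)).1 h3
  obtain ⟨k, hk⟩ := R.ex a
  refine ⟨k, (n1_lt1 h _).1 ?_⟩
  have h4 := hdvd _ hk
  have e3 : (show Ω from x) - algebraMap F Ω (ρ k : F) = ((show Ω from x) - ak Ω a) + ak Ω (a - ρ k) := by
    have e4 : algebraMap F Ω (ρ k : F) = H55K.g9h F Ω (ρ k) := rfl
    rw [e4, ← H55K.g9h_eq, ← H55K.g9h_eq, map_sub]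
    ring
  have h5 : V.valuation ((show Ω from x) - algebraMap F Ω (ρ k : F)) < 1 := by
    rw [e3]
    exact Valuation.map_add_lt _ ha h4
  exact h5

/-- Chunk N7 (S). n4_frob with n = 0. -/
theorem n7_fr [IQ F] [IsAlgClosure F Ω] (h : Ctx F p V i) {x : OC i} (hx : x ∈ Hn V p i F 0) (h1 : ‖x‖ ≤ 1) :
    ‖x ^ p ^ 2 - x‖ < 1 := by
  obtain ⟨φ, hφ, hG, hfr⟩ := n4_frob h 0
  have hxV : (show Ω from x) ∈ V := (h.mem _).2 h1
  have hfix : φ (show Ω from x) = (show Ω from x) := hx φ hφ hG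
  have h2 := hfr _ hxV
  rw [hfix, ← Valuation.map_neg, neg_sub] at h2
  exact (n1_lt1 h _).1 h2

/-- Chunk N7 (S). The elements of F are fixed; n1_int. -/
theorem n7_r (h : Ctx F p V i) (a : 𝓞 F) : toC i (algebraMap F Ω (a : F)) ∈ Hn V p i F 0 ∧ ‖toC i (algebraMap F Ω (a : F))‖ ≤ 1 := by
  refine ⟨fun s _ _ => ?_, (n1_int h a).1⟩
  rw [gO_apply, AlgEquiv.commutes]

/-- Chunk N7 (S). n1_int for ρ k - ρ l. -/
theorem n7_rs (h : Ctx F p V i) {ρ : Fin (p ^ 2) → 𝓞 F} (R : Rp p ρ) {k l : Fin (p ^ 2)} (hkl : k ≠ l) :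
    ‖toC i (algebraMap F Ω (ρ k : F)) - toC i (algebraMap F Ω (ρ l : F))‖ = 1 := by
  have h1 := (n1_int h (ρ k - ρ l)).2 fun hd => hkl (R.inj k l hd)
  have e : toC i (algebraMap F Ω (ρ k : F)) - toC i (algebraMap F Ω (ρ l : F)) =
      toC i (algebraMap F Ω ((ρ k - ρ l : 𝓞 F) : F)) := by
    have e1 : algebraMap F Ω ((ρ k - ρ l : 𝓞 F) : F) = H55K.g9h F Ω (ρ k - ρ l) := rfl
    rw [e1, map_sub, toC_sub]
    rfl
  rw [e, toC_norm]
  exact h1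

end H16S
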