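import Mathlib
import Pool.Agent.Lib.H16S.TA
import Pool.Agent.Lib.H16S.TB

/-! # H16S, chunk TC (M): the uniformizers -/

namespace H16S

variable {p : ℕ} [hp : Fact p.Prime] {L : Type} [NormedField L] [IsUltrametricDist L] {ζ : ℕ → L}

omit hp in
theorem tc_modEq {m : ℕ} {z : L} (hz : z ^ m = 1) {a b : ℕ} (h : a ≡ b [MOD m]) : z ^ a = z ^ b := by
  rw [pow_eq_pow_mod a hz, pow_eq_pow_mod b hz, h]

theorem tc_prim {n : ℕ} {z : L} (hz : IsPrimitiveRoot z (p ^ (n + 1))) (u : (ZMod (p ^ (n + 1)))ˣ) :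
    IsPrimitiveRoot (z ^ (u : ZMod (p ^ (n + 1))).val) (p ^ (n + 1)) :=
  hz.pow_of_coprime _ (ZMod.val_coe_unit_coprime u)

theorem tc_cyc {n : ℕ} {z : L} (hz : IsPrimitiveRoot z (p ^ (n + 1))) :
    ∏ u : (ZMod (p ^ (n + 1)))ˣ, (1 - z ^ (u : ZMod (p ^ (n + 1))).val) = p := by
  have hm : p ^ (n + 1) ≠ 0 := tb_ne n
  have h1 := Polynomial.eval_one_cyclotomic_prime_pow (R := L) (p := p) n
  rw [Polynomial.cyclotomic_eq_prod_X_sub_primitiveRoots hz, Polynomial.eval_prod] at h1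
  rw [← h1]
  refine Finset.prod_nbij (fun u => z ^ (u : ZMod (p ^ (n + 1))).val) ?_ ?_ ?_ ?_
  · intro u _
    rw [mem_primitiveRoots (Nat.pos_of_ne_zero hm)]
    exact tc_prim hz u
  · intro u _ w _ huw
    apply Units.ext
    apply ZMod.val_injective
    exact hz.pow_inj (ZMod.val_lt _) (ZMod.val_lt _) huw
  · intro μ hμ
    rw [Finset.mem_coe, mem_primitiveRoots (Nat.pos_of_ne_zero hm)] at hμ
    rw [hz.isPrimitiveRoot_iff] at hμ
    obtain ⟨i, hi, hc, hμ⟩ := hμ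
    refine ⟨ZMod.unitOfCoprime i hc, Finset.mem_coe.2 (Finset.mem_univ _), ?_⟩
    show z ^ ((ZMod.unitOfCoprime i hc : (ZMod (p ^ (n + 1)))ˣ) : ZMod (p ^ (n + 1))).val = μ
    rw [ZMod.coe_unitOfCoprime, ZMod.val_natCast, Nat.mod_eq_of_lt hi]
    exact hμ
  · intro u _
    rw [Polynomial.eval_sub, Polynomial.eval_X, Polynomial.eval_C]

omit hp in
theorem tc_prod {ι : Type} (S : Finset ι) (a b : ι → L) {c : ℝ} (hc : 0 ≤ c) (ha : ∀ i ∈ S, ‖a i‖ ≤ 1)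
    (hb : ∀ i ∈ S, ‖b i‖ ≤ 1) (h : ∀ i ∈ S, ‖a i - b i‖ ≤ c) : ‖∏ i ∈ S, a i - ∏ i ∈ S, b i‖ ≤ c := by
  classical
  induction S using Finset.induction_on with
  | empty =>
    rw [Finset.prod_empty, Finset.prod_empty, sub_self, norm_zero]
    exact hc
  | insert i S hi ih =>
    rw [Finset.prod_insert hi, Finset.prod_insert hi]
    have h1 := ih (fun j hj => ha j (Finset.mem_insert_of_mem hj)) (fun j hj => hb j (Finset.mem_insert_of_mem hj))
      (fun j hj => h j (Finset.mem_insert_of_mem hj))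
    have h2 : ‖∏ j ∈ S, b j‖ ≤ 1 := by
      rw [norm_prod]
      exact Finset.prod_le_one (fun j _ => norm_nonneg _) (fun j hj => hb j (Finset.mem_insert_of_mem hj))
    have e : a i * ∏ j ∈ S, a j - b i * ∏ j ∈ S, b j =
        a i * (∏ j ∈ S, a j - ∏ j ∈ S, b j) + (a i - b i) * ∏ j ∈ S, b j := by ring
    rw [e]
    refine (IsUltrametricDist.norm_add_le_max _ _).trans (max_le ?_ ?_)
    · rw [norm_mul]
      exact (mul_le_of_le_one_left (norm_nonneg _) (ha i (Finset.mem_insert_self i S))).trans h1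
    · rw [norm_mul]
      exact (mul_le_of_le_one_right (norm_nonneg _) h2).trans (h i (Finset.mem_insert_self i S))

omit hp in
theorem tc_prod1 {ι : Type} (S : Finset ι) (a : ι → L) (ha : ∀ i ∈ S, ‖a i‖ < 1) :
    ‖∏ i ∈ S, (1 + a i) - 1‖ < 1 := by
  classical
  induction S using Finset.induction_on with
  | empty =>
    rw [Finset.prod_empty, sub_self, norm_zero]
    exact zero_lt_one
  | insert i S hi ih =>
    rw [Finset.prod_insert hi]
    have h1 := ih (fun j hj => ha j (Finset.mem_insert_of_mem hj))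
    have h3 : ‖∏ j ∈ S, (1 + a j)‖ ≤ 1 := by
      have e : ∏ j ∈ S, (1 + a j) = (∏ j ∈ S, (1 + a j) - 1) + 1 := by ring
      rw [e]
      refine (IsUltrametricDist.norm_add_le_max _ _).trans (max_le h1.le ?_)
      rw [norm_one]
    have e : (1 + a i) * ∏ j ∈ S, (1 + a j) - 1 = a i * ∏ j ∈ S, (1 + a j) + (∏ j ∈ S, (1 + a j) - 1) := by ring
    rw [e]
    refine (IsUltrametricDist.norm_add_le_max _ _).trans_lt (max_lt ?_ h1)
    rw [norm_mul]
    exact (mul_le_of_le_one_right (norm_nonneg _) h3).trans_lt (ha i (Finset.mem_insert_self i S))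

/-- Chunk TC (S/M). ‖π n‖^(p^n) = ‖p‖: the p - 1 factors (tb_card) have the same norm c, c^(p^n (p-1)) = ‖p‖ (ta_norm; the values of units are prime to p). -/
theorem tc_piv (h2 : p ≠ 2) (Z : Zt p ζ) (n : ℕ) : ‖piT p ζ n‖ ^ p ^ n = ‖(p : L)‖ := by
  have hz := zt_prim Z n
  have h1 : ∀ u ∈ Tm p n, ‖1 - ζ n ^ (u : ZMod (p ^ (n + 1))).val‖ = ‖1 - ζ n‖ := fun u _ =>
    ta_eq (tb_ne n) (tc_prim hz u) hz
  rw [piT, norm_prod, Finset.prod_congr rfl h1, Finset.prod_const, tb_card h2, ← pow_mul, mul_comm]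
  have h3 := ta_norm hz (a := 1) (Nat.Prime.not_dvd_one hp.out)
  rwa [pow_one] at h3

/-- Chunk TC (S/M). π 0 = p: tb_zero, the product of 1 - ζ^a over all a = 1..p-1 is p. -/
theorem tc_zero (Z : Zt p ζ) : piT p ζ 0 = p := by
  rw [piT, tb_zero]
  exact tc_cyc (zt_prim Z 0)

/-- Chunk TC (S/M). (1 - z)^p = 1 - z^p + p (1 - z) e with ‖e‖ ≤ 1, for ‖z‖ = 1 (p odd). PROOF. The polynomial (1 - X)^p - 1 + X^p has coefficients divisible by p and vanishes at 1: it is p (1 - X) times a polynomial with integer coefficients. -/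
theorem tc_pow (h2 : p ≠ 2) {z : L} (hz : ‖z‖ = 1) : ∃ e : L, ‖e‖ ≤ 1 ∧ (1 - z) ^ p = 1 - z ^ p + p * (1 - z) * e := by
  have hodd : Odd p := hp.out.odd_of_ne_two h2
  have hw : ‖-(1 - z)‖ ≤ 1 := by
    rw [norm_neg, sub_eq_add_neg]
    refine (IsUltrametricDist.norm_add_le_max _ _).trans (max_le ?_ ?_)
    · rw [norm_one]
    · rw [norm_neg, hz]
  obtain ⟨r, hr⟩ := exists_add_pow_prime_eq hp.out (1 : lcO L) ⟨-(1 - z), hw⟩
  have h := congrArg (fun x : lcO L => (x : L)) hr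
  simp only [Subring.coe_pow, Subring.coe_add, Subring.coe_mul, Subring.coe_natCast, Subring.coe_one,
    one_pow] at h
  rw [hodd.neg_pow] at h
  have e1 : (1 : L) + -(1 - z) = z := by ring
  rw [e1] at h
  refine ⟨-(r : L), ?_, ?_⟩
  · rw [norm_neg]
    exact r.2
  · rw [h]
    ring

/-- Chunk TC (M). ‖π (n+1)^p - π n‖ ≤ ‖p‖. PROOF. tc_pow for z = ζ (n+1)^u: z^p = (ζ n)^u; the product over Tm p (n+1) of 1 - (ζ n)^u is π n (tb_prod_red with k = n: (ζ n)^u depends on u modulo p^(n+1)). All factors are integral, so the product of the p-th powers is the product of the 1 - z^p modulo p. -/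
theorem tc_pip (h2 : p ≠ 2) (hlt : ‖(p : L)‖ < 1) (Z : Zt p ζ) (n : ℕ) : ‖piT p ζ (n + 1) ^ p - piT p ζ n‖ ≤ ‖(p : L)‖ := by
  have hz := zt_prim Z n
  have hz1 := zt_prim Z (n + 1)
  have h1 : piT p ζ n = ∏ u ∈ Tm p (n + 1), (1 - ζ n ^ (u : ZMod (p ^ (n + 1 + 1))).val) := by
    rw [piT]
    refine (tb_prod_red h2 (Nat.le_succ n) (fun a => 1 - ζ n ^ a) ?_).symm
    intro a b hab
    show 1 - ζ n ^ a = 1 - ζ n ^ b
    rw [tc_modEq hz.pow_eq_one hab]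
  rw [h1, piT, ← Finset.prod_pow]
  have hle : ∀ (x : L), ‖x‖ = 1 → ‖1 - x‖ ≤ 1 := by
    intro x hx
    rw [sub_eq_add_neg]
    refine (IsUltrametricDist.norm_add_le_max _ _).trans (max_le ?_ ?_)
    · rw [norm_one]
    · rw [norm_neg, hx]
  have hn1 : ∀ k : ℕ, ‖ζ (n + 1) ^ k‖ = 1 := fun k => by
    rw [norm_pow, ta_one (tb_ne (n + 1)) hz1.pow_eq_one, one_pow]
  have hn0 : ∀ k : ℕ, ‖ζ n ^ k‖ = 1 := fun k => by
    rw [norm_pow, ta_one (tb_ne n) hz.pow_eq_one, one_pow]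
  apply tc_prod _ _ _ (norm_nonneg _)
  · intro u _
    rw [norm_pow]
    exact pow_le_one₀ (norm_nonneg _) (hle _ (hn1 _))
  · intro u _
    exact hle _ (hn0 _)
  · intro u _
    obtain ⟨e, he, he2⟩ := tc_pow h2 (hn1 (u : ZMod (p ^ (n + 1 + 1))).val)
    rw [he2, ← pow_mul, mul_comm (u : ZMod (p ^ (n + 1 + 1))).val p, pow_mul, Z.zs]
    have e1 : 1 - ζ n ^ (u : ZMod (p ^ (n + 1 + 1))).val +
        (p : L) * (1 - ζ (n + 1) ^ (u : ZMod (p ^ (n + 1 + 1))).val) * e -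
        (1 - ζ n ^ (u : ZMod (p ^ (n + 1 + 1))).val) =
        (p : L) * ((1 - ζ (n + 1) ^ (u : ZMod (p ^ (n + 1 + 1))).val) * e) := by ring
    rw [e1, norm_mul, norm_mul]
    exact mul_le_of_le_one_right (norm_nonneg _) (mul_le_one₀ (hle _ (hn1 _)) (norm_nonneg _) he)

/-- Chunk TC (M). ‖π 1^p - p‖ < ‖p‖. PROOF. As tc_pip with relative errors: (1 - z)^p = (1 - z^p)(1 + e'), ‖e'‖ < 1, because ‖1 - z^p‖^(p-1) = ‖p‖ (ta_norm, n = 0; p - 1 ≥ 2), so ‖1 - z^p‖ > ‖p‖ ≥ ‖p (1 - z) e‖. The product of the 1 + e' is 1 + (something of norm < 1), the product of the 1 - z^p is π 0 = p. -/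
theorem tc_pi1 (h2 : p ≠ 2) (hlt : ‖(p : L)‖ < 1) (hne : (p : L) ≠ 0) (Z : Zt p ζ) : ‖piT p ζ 1 ^ p - p‖ < ‖(p : L)‖ := by
  have hz0 := zt_prim Z 0
  have hz1 := zt_prim Z 1
  have hp0 : 0 < ‖(p : L)‖ := norm_pos_iff.2 hne
  have h1 : (p : L) = ∏ u ∈ Tm p 1, (1 - ζ 0 ^ (u : ZMod (p ^ (1 + 1))).val) := by
    rw [← tc_zero Z, piT]
    refine (tb_prod_red h2 (Nat.zero_le 1) (fun a => 1 - ζ 0 ^ a) ?_).symm
    intro a b hab
    show 1 - ζ 0 ^ a = 1 - ζ 0 ^ b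
    rw [tc_modEq hz0.pow_eq_one hab]
  have hn1 : ∀ k : ℕ, ‖ζ 1 ^ k‖ = 1 := fun k => by
    rw [norm_pow, ta_one (tb_ne 1) hz1.pow_eq_one, one_pow]
  have h3 : ∀ u : (ZMod (p ^ (1 + 1)))ˣ, ∃ e : L, ‖e‖ < 1 ∧
      (1 - ζ 1 ^ (u : ZMod (p ^ (1 + 1))).val) ^ p = (1 - ζ 0 ^ (u : ZMod (p ^ (1 + 1))).val) * (1 + e) := by
    intro u
    obtain ⟨e, he, he2⟩ := tc_pow h2 (hn1 (u : ZMod (p ^ (1 + 1))).val)
    rw [← pow_mul, mul_comm (u : ZMod (p ^ (1 + 1))).val p, pow_mul, Z.zs] at he2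
    have hu : ¬ p ∣ (u : ZMod (p ^ (1 + 1))).val := by
      intro hd
      have h4 := ZMod.val_coe_unit_coprime u
      have h5 : p ∣ p ^ (1 + 1) := dvd_pow_self p (by norm_num)
      exact Nat.not_coprime_of_dvd_of_dvd hp.out.one_lt hd h5 h4
    have h6 := ta_norm hz0 hu
    rw [pow_zero, one_mul] at h6
    have h7 : ‖1 - ζ 0 ^ (u : ZMod (p ^ (1 + 1))).val‖ ≤ 1 := (ta_lt hlt hz0 _).1.le
    have h8 : ‖(p : L)‖ ≤ ‖1 - ζ 0 ^ (u : ZMod (p ^ (1 + 1))).val‖ := by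
      rw [← h6]
      exact pow_le_of_le_one (norm_nonneg _) h7 (Nat.sub_pos_of_lt hp.out.one_lt).ne'
    have h9 : 0 < ‖1 - ζ 0 ^ (u : ZMod (p ^ (1 + 1))).val‖ := hp0.trans_le h8
    have h10 : 1 - ζ 0 ^ (u : ZMod (p ^ (1 + 1))).val ≠ 0 := norm_pos_iff.1 h9
    refine ⟨(p : L) * (1 - ζ 1 ^ (u : ZMod (p ^ (1 + 1))).val) * e / (1 - ζ 0 ^ (u : ZMod (p ^ (1 + 1))).val), ?_, ?_⟩
    · rw [norm_div, div_lt_one h9]
      refine lt_of_lt_of_le ?_ h8
      rw [mul_assoc, norm_mul]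
      apply mul_lt_of_lt_one_right hp0
      rw [norm_mul]
      exact (mul_le_of_le_one_right (norm_nonneg _) he).trans_lt (ta_lt hlt hz1 _).1
    · rw [he2, mul_add, mul_one]
      congr 1
      field_simp
  choose e he he2 using h3
  have h4 : piT p ζ 1 ^ p = (p : L) * ∏ u ∈ Tm p 1, (1 + e u) := by
    rw [piT, ← Finset.prod_pow, Finset.prod_congr rfl fun u _ => he2 u, Finset.prod_mul_distrib, ← h1]
  have h5 := tc_prod1 (Tm p 1) e (fun u _ => he u)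
  have e1 : piT p ζ 1 ^ p - p = (p : L) * (∏ u ∈ Tm p 1, (1 + e u) - 1) := by
    rw [h4]
    ring
  rw [e1, norm_mul]
  exact mul_lt_of_lt_one_right hp0 h5

end H16S
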