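import Mathlib
import Pool.Agent.Lib.H16S.TA
import Pool.Agent.Lib.H16S.TB

import Pool.Agent.Lib.H16S.LC

/-! # H16S, chunk TE (M): sums over the p-th roots of unity -/

namespace H16S

variable {p : ℕ} [hp : Fact p.Prime] {L : Type} [NormedField L] [IsUltrametricDist L]

theorem te_cyc {K : Type} [Field K] {n : ℕ} {z : K} (hz : IsPrimitiveRoot z (p ^ (n + 1))) :
    ∏ u : (ZMod (p ^ (n + 1)))ˣ, (1 - z ^ (u : ZMod (p ^ (n + 1))).val) = p := by
  have hm : p ^ (n + 1) ≠ 0 := pow_ne_zero _ hp.out.ne_zero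
  have h1 := Polynomial.eval_one_cyclotomic_prime_pow (R := K) (p := p) n
  rw [Polynomial.cyclotomic_eq_prod_X_sub_primitiveRoots hz, Polynomial.eval_prod] at h1
  rw [← h1]
  refine Finset.prod_nbij (fun u => z ^ (u : ZMod (p ^ (n + 1))).val) ?_ ?_ ?_ ?_
  · intro u _
    rw [mem_primitiveRoots (Nat.pos_of_ne_zero hm)]
    exact hz.pow_of_coprime _ (ZMod.val_coe_unit_coprime u)
  · intro u _ w _ huw
    apply Units.ext
    apply ZMod.val_injective
    exact hz.pow_inj (ZMod.val_lt _) (ZMod.val_lt _) huw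
  · intro μ hμ
    rw [Finset.mem_coe, mem_primitiveRoots (Nat.pos_of_ne_zero hm)] at hμ
    rw [hz.isPrimitiveRoot_iff] at hμ
    obtain ⟨i, hi, hc, hμ⟩ := hμ
    refine ⟨ZMod.unitOfCoprime i hc, Finset.mem_coe.2 (Finset.mem_univ _), ?_⟩
    show z ^ ((ZMod.unitOfCoprime i hc : (ZMod (p ^ (n + 1)))ˣ) : ZMod (p ^ (n + 1))).val = μ
    rw [ZMod.coe_unitOfCoprime, ZMod.val_natCast, Nat.mod_eq_of_lt hi]
    exact hμ
  · intro u _
    rw [Polynomial.eval_sub, Polynomial.eval_X, Polynomial.eval_C]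

/-- Chunk TE (S/M). For a polynomial P over ℤ let Q be the polynomial with Q(X^p) = the terms of P of degree divisible by p. The sum of P(z η^i), i < p, is p Q(z^p) (η a primitive p-th root of unity: the sum of η^(im) is p or 0). Here L may be any field with a primitive p-th root of unity. -/
theorem te_sum (P : Polynomial ℤ) : ∃ Q : Polynomial ℤ, ∀ (K : Type) [Field K] (z η : K), IsPrimitiveRoot η p →
    ∑ i ∈ Finset.range p, P.eval₂ (Int.castRingHom K) (z * η ^ i) = p * Q.eval₂ (Int.castRingHom K) (z ^ p) := by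
  induction P using Polynomial.induction_on' with
  | add P P' ih ih' =>
    obtain ⟨Q, hQ⟩ := ih
    obtain ⟨Q', hQ'⟩ := ih'
    refine ⟨Q + Q', ?_⟩
    intro K _ z η hη
    rw [Polynomial.eval₂_add, mul_add, ← hQ K z η hη, ← hQ' K z η hη, ← Finset.sum_add_distrib]
    exact Finset.sum_congr rfl fun i _ => Polynomial.eval₂_add _ _
  | monomial m a =>
    by_cases hm : p ∣ m
    · obtain ⟨l, rfl⟩ := hm
      refine ⟨Polynomial.monomial l a, ?_⟩
      intro K _ z η hη
      have h1 : ∀ i ∈ Finset.range p, (Polynomial.monomial (p * l) a).eval₂ (Int.castRingHom K) (z * η ^ i) =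
          (Int.castRingHom K) a * (z ^ p) ^ l := by
        intro i _
        rw [Polynomial.eval₂_monomial, mul_pow, ← pow_mul, ← pow_mul]
        have h3 : η ^ (i * (p * l)) = 1 := by
          rw [mul_left_comm, pow_mul, hη.pow_eq_one, one_pow]
        rw [h3, mul_one]
      rw [Finset.sum_congr rfl h1, Finset.sum_const, Finset.card_range, nsmul_eq_mul,
        Polynomial.eval₂_monomial]
    · refine ⟨0, ?_⟩
      intro K _ z η hη
      rw [Polynomial.eval₂_zero, mul_zero]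
      have h1 : ∀ i ∈ Finset.range p, (Polynomial.monomial m a).eval₂ (Int.castRingHom K) (z * η ^ i) =
          (Int.castRingHom K) a * z ^ m * (η ^ m) ^ i := by
        intro i _
        rw [Polynomial.eval₂_monomial, mul_pow, ← pow_mul, ← pow_mul, mul_comm i m, mul_assoc]
      rw [Finset.sum_congr rfl h1, ← Finset.mul_sum]
      have h3 : IsPrimitiveRoot (η ^ m) p :=
        hη.pow_of_coprime m ((Nat.Prime.coprime_iff_not_dvd hp.out).2 hm).symm
      rw [h3.geom_sum_eq_zero hp.out.one_lt, mul_zero]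

/-- Chunk TE (S/M). The case P = pol p n j, z = 1: all P(η^i), p not dividing i, are p^j (tb_prod_red with k = 0 and tb_zero: the product of 1 - η^(ia), a = 1..p-1, is p), P(1) = 0 for j ≥ 1. So p Q(1) = (p - 1) p^j for j ≥ 1; for j = 0: p Q(1) = p. Evaluate in ℂ (or the complex numbers, exp(2πi/p)) to get it in ℤ. -/
theorem te_one (h2 : p ≠ 2) (n j : ℕ) {Q : Polynomial ℤ} (hQ : ∀ (K : Type) [Field K] (z η : K), IsPrimitiveRoot η p →
    ∑ i ∈ Finset.range p, (pol p n j).eval₂ (Int.castRingHom K) (z * η ^ i) = p * Q.eval₂ (Int.castRingHom K) (z ^ p)) :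
    (j = 0 → Q.eval 1 = 1) ∧ (0 < j → Q.eval 1 = (p - 1) * p ^ (j - 1)) := by
  obtain ⟨η, hη⟩ : ∃ η : ℂ, IsPrimitiveRoot η p := ⟨_, Complex.isPrimitiveRoot_exp p hp.out.ne_zero⟩
  have h1 := hQ ℂ 1 η hη
  rw [one_pow] at h1
  have hp0 : (p : ℂ) ≠ 0 := Nat.cast_ne_zero.2 hp.out.ne_zero
  have hQ1 : Q.eval₂ (Int.castRingHom ℂ) 1 = ((Q.eval 1 : ℤ) : ℂ) := by
    rw [Polynomial.eval₂_at_one]
    rfl
  rw [hQ1] at h1
  have hev : ∀ w : ℂ, (pol p n j).eval₂ (Int.castRingHom ℂ) w =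
      (∏ u ∈ Tm p n, (1 - w ^ (u : ZMod (p ^ (n + 1))).val)) ^ j := by
    intro w
    rw [pol, Polynomial.eval₂_pow, Polynomial.eval₂_finset_prod]
    congr 1
    refine Finset.prod_congr rfl fun u _ => ?_
    rw [Polynomial.eval₂_sub, Polynomial.eval₂_one, Polynomial.eval₂_pow, Polynomial.eval₂_X]
  simp only [hev, one_mul] at h1
  constructor
  · intro hj
    subst hj
    simp only [pow_zero] at h1
    rw [Finset.sum_const, Finset.card_range, nsmul_eq_mul] at h1
    have h3 : ((Q.eval 1 : ℤ) : ℂ) = 1 := (mul_left_cancel₀ hp0 h1).symm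
    exact_mod_cast h3
  · intro hj
    have h3 : ∀ i ∈ Finset.range (p - 1),
        (∏ u ∈ Tm p n, (1 - (η ^ (i + 1)) ^ (u : ZMod (p ^ (n + 1))).val)) ^ j = (p : ℂ) ^ j := by
      intro i hi
      rw [Finset.mem_range] at hi
      have hi1 : ¬ p ∣ i + 1 := by
        intro hd
        have := Nat.le_of_dvd (Nat.succ_pos i) hd
        omega
      have hw : IsPrimitiveRoot (η ^ (i + 1)) p :=
        hη.pow_of_coprime _ ((Nat.Prime.coprime_iff_not_dvd hp.out).2 hi1).symm
      congr 1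
      rw [tb_prod_red h2 (Nat.zero_le n) (fun a => 1 - (η ^ (i + 1)) ^ a), tb_zero]
      · apply te_cyc
        rwa [zero_add, pow_one]
      · intro a b hab
        rw [zero_add, pow_one] at hab
        show 1 - (η ^ (i + 1)) ^ a = 1 - (η ^ (i + 1)) ^ b
        rw [pow_eq_pow_mod a hw.pow_eq_one, pow_eq_pow_mod b hw.pow_eq_one, hab]
    have hpp : p = (p - 1) + 1 := (Nat.sub_add_cancel hp.out.one_lt.le).symm
    have h4 : ∑ i ∈ Finset.range p, (∏ u ∈ Tm p n, (1 - (η ^ i) ^ (u : ZMod (p ^ (n + 1))).val)) ^ j =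
        ∑ i ∈ Finset.range (p - 1), (∏ u ∈ Tm p n, (1 - (η ^ (i + 1)) ^ (u : ZMod (p ^ (n + 1))).val)) ^ j +
        (∏ u ∈ Tm p n, (1 - (η ^ 0) ^ (u : ZMod (p ^ (n + 1))).val)) ^ j := by
      rw [← Finset.sum_range_succ' (fun i => (∏ u ∈ Tm p n, (1 - (η ^ i) ^ (u : ZMod (p ^ (n + 1))).val)) ^ j),
        ← hpp]
    have h5 : (∏ u ∈ Tm p n, (1 - (η ^ 0) ^ (u : ZMod (p ^ (n + 1))).val)) ^ j = 0 := by
      have h6 : (Tm p n).Nonempty := by
        rw [← Finset.card_pos, tb_card h2]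
        exact Nat.sub_pos_of_lt hp.out.one_lt
      obtain ⟨u, hu⟩ := h6
      have h7 : ∏ u ∈ Tm p n, (1 - (η ^ 0) ^ (u : ZMod (p ^ (n + 1))).val) = 0 := by
        apply Finset.prod_eq_zero hu
        rw [pow_zero, one_pow, sub_self]
      rw [h7, zero_pow hj.ne']
    rw [h4, h5, add_zero, Finset.sum_congr rfl h3, Finset.sum_const, Finset.card_range, nsmul_eq_mul] at h1
    have h8 : ((Q.eval 1 : ℤ) : ℂ) = ((p : ℂ) - 1) * (p : ℂ) ^ (j - 1) := by
      apply mul_left_cancel₀ hp0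
      rw [← h1, Nat.cast_sub hp.out.one_lt.le, Nat.cast_one]
      have h9 : (p : ℂ) ^ j = (p : ℂ) * (p : ℂ) ^ (j - 1) := by
        rw [← pow_succ', Nat.sub_add_cancel hj]
      rw [h9]
      ring
    exact_mod_cast h8

/-- Chunk TE (S). Polynomials with integer coefficients: ‖Q(z)‖ ≤ 1 and ‖Q(z) - Q(1)‖ ≤ ‖z - 1‖ for ‖z‖ ≤ 1. -/
theorem te_lip (Q : Polynomial ℤ) {z : L} (hz : ‖z‖ ≤ 1) : ‖Q.eval₂ (Int.castRingHom L) z‖ ≤ 1 ∧
    ‖Q.eval₂ (Int.castRingHom L) z - ((Q.eval 1 : ℤ) : L)‖ ≤ ‖z - 1‖ := by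
  induction Q using Polynomial.induction_on' with
  | add P P' ih ih' =>
    obtain ⟨a1, a2⟩ := ih
    obtain ⟨b1, b2⟩ := ih'
    rw [Polynomial.eval₂_add, Polynomial.eval_add, Int.cast_add]
    refine ⟨(IsUltrametricDist.norm_add_le_max _ _).trans (max_le a1 b1), ?_⟩
    have e : P.eval₂ (Int.castRingHom L) z + P'.eval₂ (Int.castRingHom L) z -
        (((P.eval 1 : ℤ) : L) + ((P'.eval 1 : ℤ) : L)) =
        (P.eval₂ (Int.castRingHom L) z - ((P.eval 1 : ℤ) : L)) +
          (P'.eval₂ (Int.castRingHom L) z - ((P'.eval 1 : ℤ) : L)) := by ring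
    rw [e]
    exact (IsUltrametricDist.norm_add_le_max _ _).trans (max_le a2 b2)
  | monomial m a =>
    have ha : ‖(a : L)‖ ≤ 1 := IsUltrametricDist.norm_intCast_le_one L a
    rw [Polynomial.eval₂_monomial, Polynomial.eval_monomial, one_pow, mul_one]
    have e0 : (Int.castRingHom L) a = (a : L) := rfl
    rw [e0]
    constructor
    · rw [norm_mul, norm_pow]
      exact mul_le_one₀ ha (by positivity) (pow_le_one₀ (norm_nonneg _) hz)
    · have e : (a : L) * z ^ m - (a : L) = (a : L) * (z ^ m - 1 ^ m) := by rw [one_pow]; ring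
      rw [e, norm_mul]
      exact (mul_le_of_le_one_left (norm_nonneg _) ha).trans (lc_powsub hz (by rw [norm_one]) m)

end H16S
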