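import Mathlib
import Pool.Agent.Lib.H16S.TB

/-! # H16S, chunk TF (M): exponents -/

namespace H16S

variable {p : ℕ} [hp : Fact p.Prime]

theorem tf_euler {c : ℕ} (hc : ¬ p ∣ c) (n : ℕ) : c ^ (p ^ n * (p - 1)) ≡ 1 [MOD p ^ (n + 1)] := by
  have h1 : Nat.Coprime c (p ^ (n + 1)) :=
    (Nat.Coprime.pow_left _ ((Nat.Prime.coprime_iff_not_dvd hp.out).2 hc)).symm
  have h2 := Nat.ModEq.pow_totient h1
  rwa [Nat.totient_prime_pow_succ hp.out] at h2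

omit hp in
theorem tf_pow {R : Type} [CommRing R] {P : R} (hP : P * P = 0) (k : R) (i : ℕ) :
    (1 + k * P) ^ i = 1 + i * k * P := by
  induction i with
  | zero => simp
  | succ i ih =>
    rw [pow_succ, ih]
    push_cast
    linear_combination ((i : R) * k * k) * hP

/-- Chunk TF (M). c prime to p, c^(p-1) not 1 modulo p². Then there are k prime to p and, for every i, t_i with t_i^(p-1) = 1 modulo p^(n+2), such that c^(i p^n) = t_i (1 + i k p^(n+1)) modulo p^(n+2). PROOF. c^(p-1) = 1 + p k₀, p not dividing k₀; (1 + p k₀)^(p^n) = 1 + p^(n+1) k₀ modulo p^(n+2) (p odd; induction). In the group of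
units modulo p^(n+2): t = c^(p^(n+1)) has t^(p-1) = 1 (Euler), and t = c^(p^n) (c^(p-1))^(p^n), so c^(p^n) = t (1 + p^(n+1) k₀)⁻¹ = t (1 - k₀ p^(n+1)) = t (1 + k p^(n+1)), k = (p - 1) k₀ (so that k is a natural number). i-th powers: (1 + k p^(n+1))^i = 1 + i k p^(n+1). t_i = t^i. -/
theorem tf {c : ℕ} (h2 : p ≠ 2) (hc : ¬ p ∣ c) (hg : ¬ c ^ (p - 1) ≡ 1 [MOD p ^ 2]) (n : ℕ) :
    ∃ k : ℕ, ¬ p ∣ k ∧ ∀ i : ℕ, ∃ t : ℕ, t ^ (p - 1) ≡ 1 [MOD p ^ (n + 2)] ∧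
      c ^ (i * p ^ n) ≡ t * (1 + i * k * p ^ (n + 1)) [MOD p ^ (n + 2)] := by
  have hp2 : 2 < p := lt_of_le_of_ne hp.out.two_le (Ne.symm h2)
  -- the number k₀
  have h1 : c ^ (p - 1) ≡ 1 [MOD p] := by
    have h3 := tf_euler hc 0
    rwa [pow_zero, one_mul, zero_add, pow_one] at h3
  have hc1 : 1 ≤ c ^ (p - 1) := Nat.one_le_iff_ne_zero.2 fun h0 => by
    have h4 := pow_eq_zero_iff (Nat.sub_pos_of_lt hp.out.one_lt).ne' |>.1 h0
    exact hc (h4 ▸ dvd_zero p)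
  obtain ⟨k₀, hk₀⟩ := (Nat.modEq_iff_dvd' hc1).1 h1.symm
  have hck : c ^ (p - 1) = 1 + p * k₀ := by omega
  have hk0 : ¬ p ∣ k₀ := by
    rintro ⟨j, hj⟩
    apply hg
    apply Nat.ModEq.symm
    rw [Nat.modEq_iff_dvd' hc1]
    exact ⟨j, by rw [hk₀, hj, sq, mul_assoc]⟩
  obtain ⟨y, hy⟩ := ZMod.exists_one_add_mul_pow_prime_pow_eq (R := ℕ) (u := p) (v := p) hp.out dvd_rfl
    (by
      rw [Nat.cast_id]
      have h5 : p * p * p = p ^ 3 := by ring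
      rw [h5]
      exact pow_dvd_pow p hp2) k₀ n
  refine ⟨(p - 1) * k₀, ?_, ?_⟩
  · intro hd
    rcases (Nat.Prime.dvd_mul hp.out).1 hd with h3 | h3
    · have h4 := Nat.le_of_dvd (Nat.sub_pos_of_lt hp.out.one_lt) h3
      omega
    · exact hk0 h3
  intro i
  refine ⟨(c ^ p ^ (n + 1)) ^ i, ?_, ?_⟩
  · rw [← pow_mul, ← pow_mul]
    have h3 := (tf_euler hc (n + 1)).pow i
    rw [← pow_mul, one_pow] at h3
    have e1 : p ^ (n + 1) * (p - 1) * i = p ^ (n + 1) * (i * (p - 1)) := by ring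
    rw [e1] at h3
    exact h3
  · rw [← ZMod.natCast_eq_natCast_iff]
    have hP0 : ((p : ZMod (p ^ (n + 2))) ^ (n + 2)) = 0 := by
      rw [← Nat.cast_pow]
      exact ZMod.natCast_self _
    have hP : ((p : ZMod (p ^ (n + 2))) ^ (n + 1)) * ((p : ZMod (p ^ (n + 2))) ^ (n + 1)) = 0 := by
      have e1 : ((p : ZMod (p ^ (n + 2))) ^ (n + 1)) * ((p : ZMod (p ^ (n + 2))) ^ (n + 1)) =
          ((p : ZMod (p ^ (n + 2))) ^ (n + 2)) * (p : ZMod (p ^ (n + 2))) ^ n := by ring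
      rw [e1, hP0, zero_mul]
    have hPp : ((p : ZMod (p ^ (n + 2))) ^ (n + 1)) * (p : ZMod (p ^ (n + 2))) = 0 := by
      rw [← pow_succ]
      exact hP0
    have hC : ((c : ZMod (p ^ (n + 2))) ^ p ^ n) ^ (p - 1) = 1 + (p : ZMod (p ^ (n + 2))) ^ (n + 1) * k₀ := by
      rw [← pow_mul, mul_comm, pow_mul]
      have h3 := congrArg (fun z : ℕ => (z : ZMod (p ^ (n + 2)))) hck
      have h4 := congrArg (fun z : ℕ => (z : ZMod (p ^ (n + 2)))) hy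
      push_cast at h3 h4
      rw [h3, h4]
      linear_combination (y : ZMod (p ^ (n + 2))) * hPp
    obtain ⟨C, hCdef⟩ : ∃ C, C = (c : ZMod (p ^ (n + 2))) ^ p ^ n := ⟨_, rfl⟩
    rw [← hCdef] at hC
    have ht : (c : ZMod (p ^ (n + 2))) ^ p ^ (n + 1) = C * (1 + (p : ZMod (p ^ (n + 2))) ^ (n + 1) * k₀) := by
      rw [← hC, ← pow_succ', Nat.sub_add_cancel hp.out.one_lt.le, hCdef, ← pow_mul, ← pow_succ]
    push_cast
    rw [mul_comm i, pow_mul, ← hCdef, ht]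
    have e2 : ((p - 1 : ℕ) : ZMod (p ^ (n + 2))) = (p : ZMod (p ^ (n + 2))) - 1 := by
      rw [Nat.cast_sub hp.out.one_lt.le, Nat.cast_one]
    have e3 : (1 : ZMod (p ^ (n + 2))) + i * ((p - 1 : ℕ) * k₀) * (p : ZMod (p ^ (n + 2))) ^ (n + 1) =
        1 + i * (-(k₀ : ZMod (p ^ (n + 2)))) * (p : ZMod (p ^ (n + 2))) ^ (n + 1) := by
      rw [e2]
      linear_combination ((i : ZMod (p ^ (n + 2))) * k₀) * hPp
    rw [e3, ← tf_pow hP, ← mul_pow]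
    congr 1
    linear_combination (C * k₀ * k₀) * hP

/-- Chunk TF (S/M). If s^(p-1) = 1 modulo p^(n+1) then s = t (1 + v p^(n+1)) modulo p^(n+2) with t^(p-1) = 1 modulo p^(n+2). PROOF. t = s^(p^(n+1)); s = t modulo p^(n+1) because s^(p^(n+1) - 1) = 1 modulo p^(n+1) (p - 1 divides p^(n+1) - 1); t is a unit modulo p^(n+2). -/
theorem tf_split {s : ℕ} (n : ℕ) (hs : s ^ (p - 1) ≡ 1 [MOD p ^ (n + 1)]) :
    ∃ t v : ℕ, t ^ (p - 1) ≡ 1 [MOD p ^ (n + 2)] ∧ s ≡ t * (1 + v * p ^ (n + 1)) [MOD p ^ (n + 2)] := by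
  have hp1 : 0 < p - 1 := Nat.sub_pos_of_lt hp.out.one_lt
  have hsp : ¬ p ∣ s := by
    intro hd
    have h1 : p ∣ s ^ (p - 1) := hd.trans (dvd_pow_self s hp1.ne')
    have h3 : s ^ (p - 1) ≡ 1 [MOD p] := hs.of_dvd (dvd_pow_self p (Nat.succ_ne_zero n))
    have h4 : p ∣ 1 := (Nat.modEq_zero_iff_dvd).1 (h3.symm.trans ((Nat.modEq_zero_iff_dvd).2 h1))
    exact Nat.Prime.not_dvd_one hp.out h4
  have ht : (s ^ p ^ (n + 1)) ^ (p - 1) ≡ 1 [MOD p ^ (n + 2)] := by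
    rw [← pow_mul]
    exact tf_euler hsp (n + 1)
  have hst : s ^ p ^ (n + 1) ≡ s [MOD p ^ (n + 1)] := by
    have h1 : p - 1 ∣ p ^ (n + 1) - 1 := by
      have h3 := Nat.sub_dvd_pow_sub_pow p 1 (n + 1)
      rwa [one_pow] at h3
    obtain ⟨m, hm⟩ := h1
    have h4 : p ^ (n + 1) = (p - 1) * m + 1 := by
      have : 1 ≤ p ^ (n + 1) := Nat.one_le_pow _ _ hp.out.pos
      omega
    have h5 := (hs.pow m).mul_right s
    rw [one_pow, one_mul, ← pow_mul, ← pow_succ, ← h4] at h5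
    exact h5
  obtain ⟨t, htd⟩ : ∃ t, t = s ^ p ^ (n + 1) := ⟨_, rfl⟩
  rw [← htd] at ht hst
  have hw : s * t ^ (p - 2) ≡ 1 [MOD p ^ (n + 1)] := by
    have h1 : s * t ^ (p - 2) ≡ t * t ^ (p - 2) [MOD p ^ (n + 1)] := hst.symm.mul_right _
    have e1 : t * t ^ (p - 2) = t ^ (p - 1) := by
      rw [← pow_succ']
      congr 1
      have := hp.out.two_le
      omega
    rw [e1] at h1
    exact h1.trans (ht.of_dvd (pow_dvd_pow p (Nat.le_succ _)))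
  have hw1 : 1 ≤ s * t ^ (p - 2) := by
    rw [Nat.one_le_iff_ne_zero]
    intro h0
    rw [h0] at hw
    have h4 : p ∣ 1 := (dvd_pow_self p (Nat.succ_ne_zero n)).trans ((Nat.modEq_zero_iff_dvd).1 hw.symm)
    exact Nat.Prime.not_dvd_one hp.out h4
  obtain ⟨v, hv⟩ := (Nat.modEq_iff_dvd' hw1).1 hw.symm
  refine ⟨t, v, ht, ?_⟩
  have e1 : t * (1 + v * p ^ (n + 1)) = s * t ^ (p - 1) := by
    have e2 : 1 + v * p ^ (n + 1) = s * t ^ (p - 2) := by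
      rw [mul_comm v]
      omega
    have e3 : t ^ (p - 1) = t ^ (p - 2) * t := by
      rw [← pow_succ]
      congr 1
      have := hp.out.two_le
      omega
    rw [e2, e3]
    ring
  rw [e1]
  have h6 := (ht.mul_left s).symm
  rwa [mul_one] at h6

end H16S
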