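import Mathlib
import Pool.Agent.Lib.H16S.TC
import Pool.Agent.Lib.H16S.TE
import Pool.Agent.Lib.H16S.TF

/-! # H16S, chunk TG (M): the traces of the powers of the uniformizer -/

namespace H16S

variable {p : ℕ} [hp : Fact p.Prime] {L : Type} [NormedField L] [IsUltrametricDist L] {ζ : ℕ → L}

theorem tg_down (Z : Zt p ζ) (m k : ℕ) : ζ (m + k) ^ p ^ k = ζ m := by
  induction k with
  | zero => rw [pow_zero, pow_one, add_zero]
  | succ k ih => rw [pow_succ', pow_mul, ← add_assoc, Z.zs, ih]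

theorem tg_pow {g : RingAut L} {z : L} {c : ℕ} (hc : g z = z ^ c) (m : ℕ) : (g ^ m) z = z ^ c ^ m := by
  induction m with
  | zero =>
    rw [pow_zero, pow_zero, pow_one]
    rfl
  | succ m ih =>
    have e1 : (g ^ (m + 1)) z = (g ^ m) (g z) := by
      rw [pow_succ]
      rfl
    rw [e1, hc, map_pow, ih, ← pow_mul, pow_succ]

/-- Chunk TG (M). PROOF. ζ' = ζ (n+1), g ζ' = ζ'^c, c = c (n+1); c = c 1 modulo p² (n ≥ 0: raise g ζ' = ζ'^c to the power p^n: g (ζ 1) = (ζ 1)^c and ζ 1 has order p²), p does not divide c (g ζ' is a primitive root again). (g^(i p^n)) ζ' = ζ'^(c^(i p^n)). tf: c^(i p^n) = t (1 + i k p^(n+1)) modulo p^(n+2):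
(g^(i p^n)) (π (n+1)) = product over u of 1 - ζ'^(u t (1 + i k p^(n+1))) = product of 1 - (ζ' η^(ik))^u, η = ζ'^(p^(n+1)) (tb_prod removes t). So (g^(i p^n)) (π (n+1)^j) = P(ζ' η^(ik)), P = pol p (n+1) j; i ↦ i k is a permutation modulo p: the trace is the sum of P(ζ' η^i), i < p, = p Q(ζ'^p) (te_sum). -/
theorem tg_sum (h2 : p ≠ 2) (Z : Zt p ζ) (g : RingAut L) (c : ℕ → ℕ) (hc : ∀ n, g (ζ n) = ζ n ^ c n)
    (hg : ¬ c 1 ^ (p - 1) ≡ 1 [MOD p ^ 2]) (n j : ℕ) :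
    ∃ Q : Polynomial ℤ, trc p g n (piT p ζ (n + 1) ^ j) = p * Q.eval₂ (Int.castRingHom L) (ζ (n + 1) ^ p) ∧
      (j = 0 → Q.eval 1 = 1) ∧ (0 < j → Q.eval 1 = (p - 1) * p ^ (j - 1)) := by
  have hz := zt_prim Z (n + 1)
  have hz1 := zt_prim Z 1
  obtain ⟨z, hzd⟩ : ∃ z, z = ζ (n + 1) := ⟨_, rfl⟩
  obtain ⟨c', hcd⟩ : ∃ c', c' = c (n + 1) := ⟨_, rfl⟩
  have hgz : g z = z ^ c' := by rw [hzd, hcd]; exact hc (n + 1)
  rw [← hzd] at hz
  have hz' : IsPrimitiveRoot z (p ^ (n + 2)) := hz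
  -- c' is c 1 modulo p²
  have h1 : z ^ p ^ n = ζ 1 := by
    have h3 := tg_down Z 1 n
    rw [add_comm 1 n, ← hzd] at h3
    exact h3
  have h3 : ζ 1 ^ c' = ζ 1 ^ c 1 := by
    rw [← hc 1, ← h1, map_pow, hgz, ← pow_mul, ← pow_mul, mul_comm]
  have h4 : c' ≡ c 1 [MOD p ^ 2] := by
    have h5 : orderOf (ζ 1) = p ^ (1 + 1) := hz1.eq_orderOf.symm
    have hu : IsUnit (ζ 1) := hz1.isUnit (pow_ne_zero _ hp.out.ne_zero)
    obtain ⟨w, hw⟩ := hu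
    have h6 : w ^ c' = w ^ c 1 := by
      apply Units.ext
      rw [Units.val_pow_eq_pow_val, Units.val_pow_eq_pow_val, hw, h3]
    rw [pow_eq_pow_iff_modEq, ← orderOf_units, hw, h5] at h6
    exact h6
  have hg' : ¬ c' ^ (p - 1) ≡ 1 [MOD p ^ 2] := fun h5 => hg ((h4.symm.pow _).trans h5)
  have hcp : ¬ p ∣ c' := by
    have h5 : IsPrimitiveRoot (g z) (p ^ (n + 2)) := hz'.map_of_injective g.injective
    rw [hgz, hz'.pow_iff_coprime (pow_pos hp.out.pos _)] at h5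
    intro hd
    exact Nat.not_coprime_of_dvd_of_dvd hp.out.one_lt hd (dvd_pow_self p (Nat.succ_ne_zero _)) h5
  obtain ⟨k, hk, hi⟩ := tf h2 hcp hg' n
  obtain ⟨Q, hQ⟩ := te_sum (p := p) (pol p (n + 1) j)
  refine ⟨Q, ?_, te_one h2 (n + 1) j hQ⟩
  have hη : IsPrimitiveRoot (z ^ p ^ (n + 1)) p := by
    apply hz'.pow (pow_pos hp.out.pos _)
    rw [← pow_succ]
  have hηk : IsPrimitiveRoot ((z ^ p ^ (n + 1)) ^ k) p :=
    hη.pow_of_coprime k ((Nat.Prime.coprime_iff_not_dvd hp.out).2 hk).symm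
  rw [← hzd, ← hQ L z _ hηk, trc]
  refine Finset.sum_congr rfl fun i _ => ?_
  obtain ⟨t, ht1, ht2⟩ := hi i
  rw [map_pow, pol, Polynomial.eval₂_pow, Polynomial.eval₂_finset_prod, piT, map_prod]
  congr 1
  have e0 : z * ((z ^ p ^ (n + 1)) ^ k) ^ i = z ^ (1 + i * k * p ^ (n + 1)) := by
    rw [pow_add, pow_one, ← pow_mul, ← pow_mul]
    congr 2
    ring
  rw [e0, ← hzd]
  have e1 : ∀ u ∈ Tm p (n + 1), (g ^ (i * p ^ n)) (1 - z ^ (u : ZMod (p ^ (n + 1 + 1))).val) =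
      1 - (z ^ (1 + i * k * p ^ (n + 1))) ^ (t * (u : ZMod (p ^ (n + 1 + 1))).val) := by
    intro u _
    rw [map_sub, map_one, map_pow, tg_pow hgz]
    congr 1
    rw [← pow_mul, ← pow_mul]
    have e2 : c' ^ (i * p ^ n) * (u : ZMod (p ^ (n + 1 + 1))).val ≡
        (1 + i * k * p ^ (n + 1)) * (t * (u : ZMod (p ^ (n + 1 + 1))).val) [MOD p ^ (n + 2)] := by
      have e3 := ht2.mul_right (u : ZMod (p ^ (n + 1 + 1))).val
      have e4 : t * (1 + i * k * p ^ (n + 1)) * (u : ZMod (p ^ (n + 1 + 1))).val =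
          (1 + i * k * p ^ (n + 1)) * (t * (u : ZMod (p ^ (n + 1 + 1))).val) := by ring
      rwa [e4] at e3
    rw [pow_eq_pow_mod _ hz'.pow_eq_one, e2, ← pow_eq_pow_mod _ hz'.pow_eq_one]
  rw [Finset.prod_congr rfl e1]
  have hord : (z ^ (1 + i * k * p ^ (n + 1))) ^ p ^ (n + 1 + 1) = 1 := by
    rw [← pow_mul, mul_comm, pow_mul, hz.pow_eq_one, one_pow]
  rw [tb_prod (n + 1) (fun a => 1 - (z ^ (1 + i * k * p ^ (n + 1))) ^ a)
    (fun a b hab => by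
      show 1 - (z ^ (1 + i * k * p ^ (n + 1))) ^ a = 1 - (z ^ (1 + i * k * p ^ (n + 1))) ^ b
      rw [pow_eq_pow_mod a hord, pow_eq_pow_mod b hord, hab]) ht1]
  refine Finset.prod_congr rfl fun u _ => ?_
  rw [Polynomial.eval₂_sub, Polynomial.eval₂_one, Polynomial.eval₂_pow, Polynomial.eval₂_X]

/-- Chunk TG (S/M). The three trace conditions of Twr: te_lip with z = ζ (n+1)^p = ζ n, ‖z - 1‖ < 1 (ta_lt). j ≥ 2: ‖Q(1)‖ ≤ ‖p‖ < 1; j = 1: p Q(z) + p = p (Q(z) - Q(1)) + p². -/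
theorem tg (h2 : p ≠ 2) (hlt : ‖(p : L)‖ < 1) (hne : (p : L) ≠ 0) (Z : Zt p ζ) (g : RingAut L) (c : ℕ → ℕ)
    (hc : ∀ n, g (ζ n) = ζ n ^ c n) (hg : ¬ c 1 ^ (p - 1) ≡ 1 [MOD p ^ 2]) (n : ℕ) :
    (∀ j, ‖trc p g n (piT p ζ (n + 1) ^ j)‖ ≤ ‖(p : L)‖) ∧ (∀ j, 2 ≤ j → ‖trc p g n (piT p ζ (n + 1) ^ j)‖ < ‖(p : L)‖) ∧
      ‖trc p g n (piT p ζ (n + 1)) + p‖ < ‖(p : L)‖ := by
  have hp0 : 0 < ‖(p : L)‖ := norm_pos_iff.2 hne
  have hz := zt_prim Z n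
  obtain ⟨h1, h3⟩ := ta_lt hlt hz 1
  rw [pow_one, norm_sub_rev] at h1
  refine ⟨?_, ?_, ?_⟩
  · intro j
    obtain ⟨Q, hQ, _, _⟩ := tg_sum h2 Z g c hc hg n j
    rw [hQ, Z.zs, norm_mul]
    exact mul_le_of_le_one_right (norm_nonneg _) (te_lip Q h3.le).1
  · intro j hj
    obtain ⟨Q, hQ, _, hQ1⟩ := tg_sum h2 Z g c hc hg n j
    rw [hQ, Z.zs, norm_mul]
    apply mul_lt_of_lt_one_right hp0
    have h4 : ‖((Q.eval 1 : ℤ) : L)‖ < 1 := by
      rw [hQ1 (by omega)]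
      push_cast
      rw [norm_mul]
      have h5 : ‖(p : L) - 1‖ ≤ 1 := by
        have h6 := IsUltrametricDist.norm_intCast_le_one L ((p : ℤ) - 1)
        push_cast at h6
        exact h6
      have h7 : ‖(p : L) ^ (j - 1)‖ < 1 := by
        rw [norm_pow]
        exact pow_lt_one₀ (norm_nonneg _) hlt (by omega)
      exact (mul_le_of_le_one_left (norm_nonneg _) h5).trans_lt h7
    have e : Q.eval₂ (Int.castRingHom L) (ζ n) =
        (Q.eval₂ (Int.castRingHom L) (ζ n) - ((Q.eval 1 : ℤ) : L)) + ((Q.eval 1 : ℤ) : L) := by ring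
    rw [e]
    exact (IsUltrametricDist.norm_add_le_max _ _).trans_lt
      (max_lt ((te_lip Q h3.le).2.trans_lt h1) h4)
  · obtain ⟨Q, hQ, _, hQ1⟩ := tg_sum h2 Z g c hc hg n 1
    rw [pow_one] at hQ
    have h4 : ((Q.eval 1 : ℤ) : L) = (p : L) - 1 := by
      rw [hQ1 zero_lt_one]
      push_cast
      simp
    rw [hQ, Z.zs]
    have e : (p : L) * Q.eval₂ (Int.castRingHom L) (ζ n) + p =
        (p : L) * (Q.eval₂ (Int.castRingHom L) (ζ n) - ((Q.eval 1 : ℤ) : L)) + (p : L) * p := by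
      rw [h4]
      ring
    rw [e]
    refine (IsUltrametricDist.norm_add_le_max _ _).trans_lt (max_lt ?_ ?_)
    · rw [norm_mul]
      exact mul_lt_of_lt_one_right hp0 ((te_lip Q h3.le).2.trans_lt h1)
    · rw [norm_mul]
      exact mul_lt_of_lt_one_right hp0 hlt

end H16S
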