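import Mathlib
import Pool.Agent.Lib.H16S.N6
import Pool.Agent.Lib.H16S.N7
import Pool.Agent.Lib.H16S.TG

/-! # H16S, chunk N8 (M): the tower -/

open NumberField IsDedekindDomain WeierstrassCurve

namespace H16S

attribute [local instance] H16S.nfOC H16S.ultOC

open H55P (IQ Pt ac Inert Dec Nm)
open H35L (Gc Gen dV)

variable {F : Type} [Field F] [NumberField F] {p : ℕ} {Ω C : Type} [Field Ω] [Algebra F Ω] [NormedField C] [IsUltrametricDist C]
  {V : ValuationSubring Ω} {i : Ω →+* C}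

/-- Chunk N8 (S/M). Compatible roots of unity: Ω is algebraically closed of characteristic 0; ζ 0 a primitive p-th root of unity (H35L.c0_prim), ζ (n+1) a p-th root of ζ n (IsAlgClosed.exists_pow_nat_eq; recursion with Classical.choose). As elements of OC i (toC, eC). -/
theorem n8_zt [IsAlgClosure F Ω] (hp : p.Prime) : ∃ ζ : ℕ → OC i, Zt p ζ := by
  have : IsAlgClosed Ω := IsAlgClosure.isAlgClosed F
  obtain ⟨z, hz⟩ := H35L.c0_prim F Ω hp 1
  rw [pow_one] at hz
  have hex : ∀ x : Ω, ∃ y : Ω, y ^ p = x := fun x => IsAlgClosed.exists_pow_nat_eq x hp.pos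
  choose f hf using hex
  refine ⟨fun n => toC i (f^[n] z), ?_, ?_⟩
  · exact hz.map_of_injective (f := eC i) (eC i).injective
  · intro n
    show toC i (f^[n + 1] z) ^ p = toC i (f^[n] z)
    rw [← toC_pow, Function.iterate_succ_apply', hf]

/-- Chunk N8 (S/M). g = gO i γ acts on ζ n by an exponent c n (H35L.root_pow; zt_prim: ζ n has order p^(n+1)), and c 1^(p-1) is not 1 modulo p² (Gen p γ, H35L.gc_root with n = 1: every z with z^(p²) = 1 is a power of ζ 1). -/
theorem n8_c [IsAlgClosure F Ω] [Fact p.Prime] {γ : Ω ≃ₐ[F] Ω} (hg : Gen p γ) {ζ : ℕ → OC i} (Z : Zt p ζ) :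
    ∃ c : ℕ → ℕ, (∀ n, gO i γ (ζ n) = ζ n ^ c n) ∧ ¬ c 1 ^ (p - 1) ≡ 1 [MOD p ^ 2] := by
  have hp : p.Prime := Fact.out
  have hex : ∀ n : ℕ, ∃ a : ℕ, ∀ z : Ω, z ^ p ^ (n + 1) = 1 → γ z = z ^ a := by
    intro n
    obtain ⟨a, _, ha⟩ := H35L.root_pow hp (n + 1) γ
    exact ⟨a, ha⟩
  choose c hc using hex
  refine ⟨c, ?_, ?_⟩
  · intro n
    have hz := n5_one Z n
    obtain ⟨y, hy⟩ := toC_surj i (ζ n)
    rw [← hy] at hz ⊢
    rw [gO_apply, ← toC_pow, toC_inj]
    exact hc n y hz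
  · intro h1
    exact hg ((H35L.gc_root hp (hc 1)).2 h1)

/-- Chunk N8 (M). The tower. All fields: h.pr, h.five, n1_p (toC_nat), n5_mono, n1_dec, n5_g, n5_fix, n5_down, n5_pi, tc_piv, val: n6: ‖x‖^(p^n) = ‖p‖^k = (‖π n‖^k)^(p^n) and x ↦ x^(p^n) is injective on nonnegative reals; n7_r, n7_rs, n7_res, n7_fr, tc_pip, tc_pi1, tg. -/
theorem twr [IQ F] [IsAlgClosure F Ω] [Fact p.Prime] (h : Ctx F p V i) {γ : Ω ≃ₐ[F] Ω} (hγ : Dec V γ) (hg : Gen p γ) {ρ : Fin (p ^ 2) → 𝓞 F}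
    (R : Rp p ρ) {ζ : ℕ → OC i} (Z : Zt p ζ) :
    Twr p (Hn V p i F) (gO i γ) (piT p ζ) (fun k => toC i (algebraMap F Ω (ρ k : F))) := by
  have halg : Algebra.IsAlgebraic F Ω := IsAlgClosure.isAlgebraic
  have h5 : 5 ≤ p := h.five
  have h2 : p ≠ 2 := by omega
  have h3 : 3 ≤ p := by omega
  have hlt : ‖(p : OC i)‖ < 1 := by
    rw [← toC_nat, toC_norm]
    exact (n1_p h).1
  have hne : (p : OC i) ≠ 0 := by
    rw [← norm_pos_iff, ← toC_nat, toC_norm]
    exact (n1_p h).2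
  obtain ⟨c, hc, hc1⟩ := n8_c hg Z
  exact
    { pr := h.pr
      five := h.five
      lt := hlt
      ne := hne
      mono := n5_mono V p i
      iso := by
        intro x
        obtain ⟨y, rfl⟩ := toC_surj i x
        rw [gO_apply, toC_norm, toC_norm]
        exact n1_dec h hγ y
      gH := fun n x hx => n5_g hγ n hx
      fix := fun n x hx => n5_fix h.pr hγ n hx
      down := fun n x hx h1 => n5_down h.pr h3 hγ hg n hx h1
      piH := fun n => n5_pi Z n
      piv := fun n => tc_piv h2 Z n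
      val := by
        intro n x hx h0
        obtain ⟨k, hk⟩ := n6 h hγ hg n hx h0
        refine ⟨k, ?_⟩
        rw [← tc_piv h2 Z n, ← zpow_natCast, ← zpow_natCast, ← zpow_mul, mul_comm, zpow_mul, zpow_natCast, zpow_natCast] at hk
        exact (pow_left_inj₀ (norm_nonneg _) (zpow_nonneg (norm_nonneg _) _) (pow_ne_zero n h.pr.ne_zero)).1 hk
      rH := fun k => n7_r h (ρ k)
      rs := fun k l hkl => n7_rs h R hkl
      res := fun n x hx h1 => n7_res h R n hx h1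
      fr := fun x hx h1 => n7_fr h hx h1
      pip := fun n => tc_pip h2 hlt Z n
      pi1 := tc_pi1 h2 hlt hne Z
      tr0 := fun n j => (tg h2 hlt hne Z (gO i γ) c hc hc1 n).1 j
      tr2 := fun n j hj => (tg h2 hlt hne Z (gO i γ) c hc hc1 n).2.1 j hj
      tr1 := fun n => (tg h2 hlt hne Z (gO i γ) c hc hc1 n).2.2 }

end H16S
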