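import Mathlib
import Pool.Agent.Lib.H16S.ND
import Pool.Agent.Lib.H16S.FD
import Pool.Agent.Lib.H55K.G4C

/-! # H16S: the kernel of reduction over Ω (definitions) -/

open NumberField IsDedekindDomain WeierstrassCurve

namespace H16S

attribute [local instance] H16S.nfOC H16S.ultOC

open H55P (IQ Pt ac Inert Dec Nm)
open H35P (WAB Ker tt)
open H55K
open H35L (Gc Gen dV)

variable {F : Type} [Field F] [NumberField F] [IQ F] {A B : F} {Om : ℂ} {Ω : Type} [Field Ω] [DecidableEq Ω]
  [Algebra F Ω] {j : Ω →+* ℂ} {act : 𝓞 F →+* AddMonoid.End (Pt (WAB A B) Ω)} {V : ValuationSubring Ω}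
  {C : Type} [NormedField C]

/-- The coordinate with values in the normed field. -/
noncomputable def tG (i : Ω →+* C) (hG : GV A B V) (P : kerG hG) : OC i := toC i (tt P.1)

/-- The points of level n in the kernel of reduction. -/
def En (hG : GV A B V) (p n : ℕ) : AddSubgroup (kerG hG) where
  carrier := {P | ∀ s : Ω ≃ₐ[F] Ω, Dec V s → Gc p n s → ac (WAB A B) s P.1 = P.1}
  zero_mem' := fun s _ _ => map_zero _
  add_mem' := fun {P Q} hP hQ s h1 h2 => by
    show ac (WAB A B) s (P.1 + Q.1) = P.1 + Q.1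
    rw [map_add, hP s h1 h2, hQ s h1 h2]
  neg_mem' := fun {P} hP s h1 h2 => by
    show ac (WAB A B) s (-P.1) = -P.1
    rw [map_neg, hP s h1 h2]

theorem mem_En (hG : GV A B V) (p n : ℕ) (P : kerG hG) :
    P ∈ En hG p n ↔ ∀ s : Ω ≃ₐ[F] Ω, Dec V s → Gc p n s → ac (WAB A B) s P.1 = P.1 := Iff.rfl

/-- The action of an element of the decomposition group. -/
noncomputable def gG (hG : GV A B V) {γ : Ω ≃ₐ[F] Ω} (hγ : Dec V γ) : AddMonoid.End (kerG hG) :=
  { toFun := fun P => ⟨ac (WAB A B) γ P.1, (ker_ac γ hγ).2 P.2⟩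
    map_zero' := Subtype.ext (map_zero _)
    map_add' := fun P Q => Subtype.ext (map_add _ P.1 Q.1) }

theorem gG_val (hG : GV A B V) {γ : Ω ≃ₐ[F] Ω} (hγ : Dec V γ) (P : kerG hG) : (gG hG hγ P).1 = ac (WAB A B) γ P.1 := rfl

/-- The complex multiplication. -/
noncomputable def aG (hA : CMA F A B Om j act) (hG : GV A B V) (a : 𝓞 F) : AddMonoid.End (kerG hG) :=
  { toFun := fun P => ⟨act a P.1, ker_act hA hG a P.2⟩
    map_zero' := Subtype.ext (map_zero _)
    map_add' := fun P Q => Subtype.ext (map_add _ P.1 Q.1) }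

theorem aG_val (hA : CMA F A B Om j act) (hG : GV A B V) (a : 𝓞 F) (P : kerG hG) : (aG hA hG a P).1 = act a P.1 := rfl

end H16S
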