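import Mathlib
import Pool.Agent.Lib.H16S.QD
import Pool.Agent.Lib.H16S.N1
import Pool.Agent.Lib.H16S.A3E

/-! # H16S, chunk Q1 (M): the coordinate on the kernel of reduction -/

open NumberField IsDedekindDomain WeierstrassCurve

namespace H16S

attribute [local instance] H16S.nfOC H16S.ultOC

open H55P (IQ Pt ac Inert Dec Nm)
open H35P (WAB Ker tt)
open H55K
open H35L (Gc Gen dV)

variable {F : Type} [Field F] [NumberField F] [IQ F] {A B : F} {Om : ℂ} {Ω : Type} [Field Ω] [DecidableEq Ω]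
  [Algebra F Ω] [IsAlgClosure F Ω] {j : Ω →+* ℂ} {act : 𝓞 F →+* AddMonoid.End (Pt (WAB A B) Ω)} {V : ValuationSubring Ω}
  {C : Type} [NormedField C] [IsUltrametricDist C] {i : Ω →+* C} {p : ℕ}

/-- Chunk Q1 (S). H55K.ttlt, n1_lt1. -/
theorem q1_lt (h : Ctx F p V i) (hG : GV A B V) (P : kerG hG) : ‖tG i hG P‖ < 1 := by
  show ‖toC i (tt P.1)‖ < 1
  rw [toC_norm]
  exact (n1_lt1 h _).1 (H55K.ttlt hG P.2)

/-- Chunk Q1 (S). H55K.tt_zero. -/
theorem q1_zero (hG : GV A B V) (P : kerG hG) : tG i hG P = 0 ↔ P = 0 := by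
  have h1 : tG i hG P = 0 ↔ tt P.1 = 0 := by
    show toC i (tt P.1) = 0 ↔ _
    rw [← toC_zero i, toC_inj]
  rw [h1, H55K.tt_zero hG P.2]
  exact ⟨fun h => Subtype.ext h, fun h => by rw [h]; rfl⟩

/-- Chunk Q1 (S). H55K.tt_neg. -/
theorem q1_neg (hG : GV A B V) (P : kerG hG) : tG i hG (-P) = -tG i hG P := by
  show toC i (tt (-P.1)) = -toC i (tt P.1)
  rw [H55K.tt_neg, toC_neg]

/-- Chunk Q1 (S/M). tt_sub (A3E.lean) for the curve (WAB A B)⁄Ω (IsShortNF by inferInstance; IntW: (H55K.gv_good hG).toIntW; 2 ≠ 0: hG.two), with c the larger one of V (tt P), V (tt Q) (< 1 by H55K.ttlt; c^4 ≤ c^2). c is V of one of the two coordinates t, so the right side is V ((tt P - tt Q) * t^2) and n1_le applies. -/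
theorem q1_sub (h : Ctx F p V i) (hG : GV A B V) (P Q : kerG hG) :
    ‖tG i hG (P - Q) - (tG i hG P - tG i hG Q)‖ ≤ ‖tG i hG P - tG i hG Q‖ * max ‖tG i hG P‖ ‖tG i hG Q‖ ^ 2 := by
  have key : ∀ c : Ω, V.valuation c < 1 → V.valuation (tt P.1) ≤ V.valuation c → V.valuation (tt Q.1) ≤ V.valuation c →
      ‖tG i hG (P - Q) - (tG i hG P - tG i hG Q)‖ ≤ ‖tG i hG P - tG i hG Q‖ * ‖i c‖ ^ 2 := by
    intro c hc h1 h3
    have h4 := tt_sub (W := (WAB A B)⁄Ω) (V := V) (fun h0 => by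
      have := hG.two
      rw [h0, map_zero] at this
      exact zero_ne_one this) (H55K.gv_good hG).toIntW P.2 Q.2 hc h1 h3
    have h5 : V.valuation (tt (P.1 - Q.1) - (tt P.1 - tt Q.1)) ≤ V.valuation ((tt P.1 - tt Q.1) * c ^ 2) := by
      rw [map_mul, map_pow]
      refine h4.trans (mul_le_mul_right ?_ _)
      exact pow_le_pow_right_of_le_one' hc.le (by norm_num)
    have h6 := (n1_le h _ _).1 h5
    have e1 : tG i hG (P - Q) - (tG i hG P - tG i hG Q) = toC i (tt (P.1 - Q.1) - (tt P.1 - tt Q.1)) := rfl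
    have e2 : tG i hG P - tG i hG Q = toC i (tt P.1 - tt Q.1) := rfl
    rw [e1, e2, toC_norm, toC_norm, ← norm_pow, ← norm_mul, ← map_pow, ← map_mul]
    exact h6
  have hP : V.valuation (tt P.1) < 1 := H55K.ttlt hG P.2
  have hQ : V.valuation (tt Q.1) < 1 := H55K.ttlt hG Q.2
  have eP : ‖i (tt P.1)‖ = ‖tG i hG P‖ := rfl
  have eQ : ‖i (tt Q.1)‖ = ‖tG i hG Q‖ := rfl
  rcases le_total (V.valuation (tt P.1)) (V.valuation (tt Q.1)) with h1 | h1
  · have h2 := key (tt Q.1) hQ h1 le_rfl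
    have h3 : ‖tG i hG P‖ ≤ ‖tG i hG Q‖ := (n1_le h _ _).1 h1
    rw [max_eq_right h3, ← eQ]
    exact h2
  · have h2 := key (tt P.1) hP le_rfl h1
    have h3 : ‖tG i hG Q‖ ≤ ‖tG i hG P‖ := (n1_le h _ _).1 h1
    rw [max_eq_left h3, ← eP]
    exact h2

/-- Chunk Q1 (S). The coordinate is injective: q1_sub, q1_zero. -/
theorem q1_inj (h : Ctx F p V i) (hG : GV A B V) {P Q : kerG hG} (hPQ : tG i hG P = tG i hG Q) : P = Q := by
  have h1 := q1_sub h hG P Q
  rw [hPQ, sub_self, sub_zero, norm_zero, zero_mul] at h1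
  have h2 : tG i hG (P - Q) = 0 := norm_le_zero_iff.1 h1
  exact sub_eq_zero.1 ((q1_zero hG _).1 h2)

/-- Chunk Q1 (S). H55K.tt_ac. -/
theorem q1_act (hG : GV A B V) {γ : Ω ≃ₐ[F] Ω} (hγ : Dec V γ) (P : kerG hG) : tG i hG (gG hG hγ P) = gO i γ (tG i hG P) := by
  show toC i (tt (ac (WAB A B) γ P.1)) = gO i γ (toC i (tt P.1))
  rw [H55K.tt_ac, gO_apply]

/-- Chunk Q1 (S/M). PROOF. s P and P are both in the kernel (gG for s) and have the coordinates s t, t: q1_inj, q1_act, mem_Hn. -/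
theorem q1_mem (h : Ctx F p V i) (hG : GV A B V) (n : ℕ) (P : kerG hG) : P ∈ En hG p n ↔ tG i hG P ∈ Hn V p i F n := by
  constructor
  · intro hP s hs hg
    have h1 := (mem_En hG p n P).1 hP s hs hg
    have h2 : gG hG hs P = P := Subtype.ext h1
    rw [← q1_act hG hs P, h2]
  · intro hP
    rw [mem_En]
    intro s hs hg
    have h1 : gO i s (tG i hG P) = tG i hG P := hP s hs hg
    rw [← q1_act hG hs P] at h1
    exact congrArg Subtype.val (q1_inj h hG h1)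

end H16S
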