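import Mathlib
import Pool.Agent.Lib.H16S.Q1
import Pool.Agent.Lib.H13X.XP0

/-! # H16S, chunk Q2 (S/M): points with given coordinate; the complex multiplication -/

open NumberField IsDedekindDomain WeierstrassCurve

namespace H16S

attribute [local instance] H16S.nfOC H16S.ultOC

open H55P (IQ Pt ac Inert Dec Nm)
open H35P (WAB Ker tt)
open H55K
open H35L (Gc Gen dV)

variable {F : Type} [Field F] [NumberField F] [IQ F] {A B : F} {Om : ℂ} {Ω : Type} [Field Ω] [DecidableEq Ω]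
  [Algebra F Ω] [IsAlgClosure F Ω] {j : Ω →+* ℂ} {act : 𝓞 F →+* AddMonoid.End (Pt (WAB A B) Ω)} {V : ValuationSubring Ω}
  {C : Type} [NormedField C] [IsUltrametricDist C] {i : Ω →+* C} {p : ℕ}

/-- Chunk Q2 (S/M). PROOF. z = 0: P = 0. Otherwise H13X.local_ptt with N = IntermediateField.adjoin F {z} (finite, z algebraic) gives P with Ker V P and tt P = z (as elements of Ω: toC_surj); q1_mem. -/
theorem q2_surj (h : Ctx F p V i) (hA : CMA F A B Om j act) (hG : GV A B V) (n : ℕ) {z : OC i} (hz : z ∈ Hn V p i F n) (h1 : ‖z‖ < 1) :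
    ∃ P ∈ En hG p n, tG i hG P = z := by
  obtain ⟨t, rfl⟩ := toC_surj i z
  by_cases ht0 : t = 0
  · refine ⟨0, (En hG p n).zero_mem, ?_⟩
    rw [ht0]
    exact (q1_zero hG 0).2 rfl
  · have hal : Algebra.IsAlgebraic F Ω := IsAlgClosure.isAlgebraic
    have hfin : FiniteDimensional F (IntermediateField.adjoin F {t}) :=
      IntermediateField.adjoin.finiteDimensional (hal.isAlgebraic t).isIntegral
    have ht : V.valuation t < 1 := (n1_lt1 h t).2 h1
    obtain ⟨Q, B₀, -, -, -, hK, htt⟩ := H13X.local_ptt hA hG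
      (IntermediateField.mem_adjoin_simple_self F t) ht0 ht
    have h2 : tG i hG ⟨Q, hK⟩ = toC i t := congrArg (toC i) htt
    refine ⟨⟨Q, hK⟩, (q1_mem h hG n _).2 ?_, h2⟩
    rw [h2]
    exact hz

/-- Chunk Q2 (S). H55K.tt_act, n1_le (the square is V of a square). -/
theorem q2_alt (h : Ctx F p V i) (hA : CMA F A B Om j act) (hG : GV A B V) (a : 𝓞 F) (P : kerG hG) :
    ‖tG i hG (aG hA hG a P) - toC i (algebraMap F Ω (a : F)) * tG i hG P‖ ≤ ‖tG i hG P‖ ^ 2 := by
  have h1 := tt_act hA hG a P.2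
  rw [← map_pow, n1_le h] at h1
  rw [map_pow, norm_pow] at h1
  exact h1

/-- Chunk Q2 (S). CMA.gal. -/
theorem q2_alc (hA : CMA F A B Om j act) (hG : GV A B V) {γ : Ω ≃ₐ[F] Ω} (hγ : Dec V γ) (a : 𝓞 F) (P : kerG hG) :
    aG hA hG a (gG hG hγ P) = gG hG hγ (aG hA hG a P) := by
  exact Subtype.ext (hA.gal γ a P.1).symm

/-- Chunk Q2 (S). CMA.gal. -/
theorem q2_ale (hA : CMA F A B Om j act) (hG : GV A B V) (a : 𝓞 F) (n : ℕ) {P : kerG hG} (hP : P ∈ En hG p n) : aG hA hG a P ∈ En hG p n := by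
  intro s h1 h2
  show ac (WAB A B) s (act a P.1) = act a P.1
  rw [hA.gal, hP s h1 h2]

end H16S
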