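import Mathlib
import Pool.Agent.Lib.H16S.Q1
import Pool.Agent.Lib.H16S.F13
import Pool.Agent.Lib.H16S.B1

/-! # H16S, chunk Q3 (M): multiplication by p -/

open NumberField IsDedekindDomain WeierstrassCurve

namespace H16S

attribute [local instance] H16S.nfOC H16S.ultOC

open H55P (IQ Pt ac Inert Dec Nm)
open H35P (WAB Ker tt)
open H55K
open H35L (Gc Gen dV)

variable {F : Type} [Field F] [NumberField F] [IQ F] {A B : F} {Om : ℂ} {Ω : Type} [Field Ω] [DecidableEq Ω]
  [Algebra F Ω] [IsAlgClosure F Ω] {j : Ω →+* ℂ} {act : 𝓞 F →+* AddMonoid.End (Pt (WAB A B) Ω)} {V : ValuationSubring Ω}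
  {C : Type} [NormedField C] [IsUltrametricDist C] {i : Ω →+* C} {p : ℕ}

/-- Chunk Q3 (M). PROOF. U from exists_W (B1.lean) for A, B over F. μ from pt_map (classical DecidableEq on C), ker_map: μ P is in Ker (ball C). f12_pt: tt (p • μ P) = ev (tt (μ P)) = the value e of the series T_p at z = i (tt P); μ is additive: tt (μ (p • P)) = i (tt (p • P)). f12_val for z: ‖e - p z + z^(p²)‖ ≤ ‖p‖ ‖z‖².
In OC i: norms are norms of images under i (toC_norm, toC_add, toC_mul, toC_pow, toC_nat; map_sub etc. for i). ((p • P : kerG hG)).1 = p • P.1. -/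
theorem q3 [CompleteSpace C] (h : Ctx F p V i) (hA : CMA F A B Om j act) (hS : Sup act p) (hG : GV A B V) (P : kerG hG) :
    ‖tG i hG (p • P) - p * tG i hG P + tG i hG P ^ p ^ 2‖ ≤ ‖(p : OC i)‖ * ‖tG i hG P‖ ^ 2 := by
  classical
  obtain ⟨U, hU⟩ := exists_W (a := A) (b := B)
  obtain ⟨μ, hμ, hc⟩ := pt_map (A := A) (B := B) i
  have hker := (ker_map i h.mem hμ (fun P => (hc P).1) P.1).2 P.2
  have h1 := (f12_pt (p := p) hG hU i h.mem).1 (μ P.1) hker
  have hz : ‖tt (μ P.1)‖ < 1 := by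
    rw [(hc P.1).2.2]
    exact q1_lt h hG P
  have h2 := ((f12_val hA h.pr h.five h.inert hS hG h.above hU i h.mem).1 _ hz).2
  rw [← h1, ← map_nsmul, (hc _).2.2, (hc _).2.2] at h2
  have e : tG i hG (p • P) - p * tG i hG P + tG i hG P ^ p ^ 2 =
      toC i (tt (p • P.1) - (p : Ω) * tt P.1 + tt P.1 ^ p ^ 2) := by
    rw [toC_add, toC_sub, toC_mul, toC_pow, toC_nat]
    rfl
  have e2 : ‖(p : OC i)‖ = ‖(p : C)‖ := by
    rw [← toC_nat, toC_norm, map_natCast]
  have e3 : ‖tG i hG P‖ = ‖i (tt P.1)‖ := rfl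
  rw [e, toC_norm, map_add, map_sub, map_mul, map_pow, map_natCast, e2, e3]
  exact h2

end H16S
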