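import Mathlib
import Pool.Agent.Lib.H16S.QD
import Pool.Agent.Lib.H16S.F13
import Pool.Agent.Lib.H16S.G0

/-! # H16S, chunk Q4 (M): p-division points over C come from Ω -/

open NumberField IsDedekindDomain WeierstrassCurve

namespace H16S

attribute [local instance] H16S.nfOC H16S.ultOC

open H55P (IQ Pt ac Inert Dec Nm)
open H35P (WAB Ker tt)
open H55K
open H35L (Gc Gen dV)

variable {F : Type} [Field F] [NumberField F] [IQ F] {A B : F} {Om : ℂ} {Ω : Type} [Field Ω] [DecidableEq Ω]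
  [Algebra F Ω] [IsAlgClosure F Ω] {j : Ω →+* ℂ} {act : 𝓞 F →+* AddMonoid.End (Pt (WAB A B) Ω)} {V : ValuationSubring Ω}
  {C : Type} [NormedField C] [IsUltrametricDist C] {i : Ω →+* C} {p : ℕ}

/-- Chunk Q4a (S/M). A root in C of a nonzero polynomial over Ω is in the image of i: Ω is algebraically closed, the polynomial splits over Ω, so its roots in C are the images of its roots in Ω (Polynomial.Splits; or map_roots / IsAlgClosed.splits and eval of a product). -/
theorem q4_root (F : Type) [Field F] {Ω : Type} [Field Ω] [Algebra F Ω] [IsAlgClosure F Ω] {C : Type} [Field C] (i : Ω →+* C)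
    {f : Polynomial Ω} (hf : f ≠ 0) {x : C} (hx : (f.map i).eval x = 0) : ∃ y : Ω, i y = x := by
  have : IsAlgClosed Ω := IsAlgClosure.isAlgClosed F
  have hs := IsAlgClosed.splits f
  have h1 : x ∈ (f.map i).roots := by
    rw [Polynomial.mem_roots ((Polynomial.map_ne_zero_iff i.injective).2 hf)]
    exact hx
  rw [hs.roots_map i, Multiset.mem_map] at h1
  obtain ⟨y, _, hy⟩ := h1
  exact ⟨y, hy⟩

/-- Chunk Q4b (M). PROOF. Q₀ with p • Q₀ = R (CMA.surj for b = p ≠ 0; act of the natural number p is multiplication by p: map_natCast). T = P - μ Q₀, p • T = 0. If T = 0 take Q = Q₀. Otherwise T has the exact order p (prime), psi_zero (G0.lean; 2 ≠ 0 in C; the curve over C is WR a b, short) gives ΨSq_p(x(T)) = 0; ΨSq_p over C is the image of ΨSq_p over Ω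
(WeierstrassCurve.map_ΨSq, WR_map), which is not 0: its coefficient of degree p² - 1 is p² (coeff_ΨSq). q4_root: x(T) = i x₀. y(T)² = x³ + a x + b (H55K.eqn): y(T) is a root of Y² - i(..): q4_root: y(T) = i y₀. (x₀, y₀) satisfies the equation (i injective) and is a nonsingular point S
(the curve has discriminant not 0: CMA.disc) with μ S = T (coordinates: h, H55K.pt_ext for nonzero points). Q = Q₀ + S. -/
theorem q4 [DecidableEq C] (hp : p.Prime) (hA : CMA F A B Om j act)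
    {μ : Pt (WAB A B) Ω →+ (WR (i (algebraMap F Ω A)) (i (algebraMap F Ω B))).toAffine.Point} (hμ : Function.Injective μ)
    (h : ∀ P, xc (μ P) = i (xc P) ∧ yc (μ P) = i (yc P))
    {P : (WR (i (algebraMap F Ω A)) (i (algebraMap F Ω B))).toAffine.Point} {R : Pt (WAB A B) Ω} (hP : p • P = μ R) :
    ∃ Q, μ Q = P := by
  have hp0 : (p : 𝓞 F) ≠ 0 := Nat.cast_ne_zero.2 hp.ne_zero
  obtain ⟨Q₀, hQ₀⟩ := hA.surj (p : 𝓞 F) hp0 R
  have hQp : p • Q₀ = R := by
    rw [map_natCast] at hQ₀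
    exact hQ₀
  by_cases hT : P - μ Q₀ = 0
  · exact ⟨Q₀, (sub_eq_zero.1 hT).symm⟩
  have hpT : p • (P - μ Q₀) = 0 := by
    rw [smul_sub, hP, ← map_nsmul, hQp, sub_self]
  have hF0 : ∀ n : ℕ, n ≠ 0 → (n : Ω) ≠ 0 := by
    intro n hn
    have h1 : (algebraMap F Ω) (n : F) ≠ 0 := (map_ne_zero _).2 (Nat.cast_ne_zero.2 hn)
    rwa [map_natCast] at h1
  have h2 : (2 : C) ≠ 0 := by
    have h3 : i ((2 : ℕ) : Ω) ≠ 0 := (map_ne_zero i).2 (hF0 2 (by norm_num))
    rw [map_natCast] at h3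
    exact_mod_cast h3
  have hord : ∀ j : ℕ, 0 < j → j < p → j • (P - μ Q₀) ≠ 0 := by
    intro j hj hjp h0
    have : Fact p.Prime := ⟨hp⟩
    have h3 := addOrderOf_eq_prime hpT hT
    have h4 := addOrderOf_dvd_of_nsmul_eq_zero h0
    rw [h3] at h4
    exact absurd (Nat.le_of_dvd hj h4) (by omega)
  have hz := psi_zero (W := WR (i (algebraMap F Ω A)) (i (algebraMap F Ω B))) h2 hT p hp.two_le hord hpT
  have hΨ : (WR (i (algebraMap F Ω A)) (i (algebraMap F Ω B))).ΨSq (p : ℤ) =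
      ((WR (algebraMap F Ω A) (algebraMap F Ω B)).ΨSq (p : ℤ)).map i := by
    rw [← WR_map i, WeierstrassCurve.map_ΨSq]
  rw [hΨ] at hz
  have hne : (WR (algebraMap F Ω A) (algebraMap F Ω B)).ΨSq (p : ℤ) ≠ 0 := by
    apply WeierstrassCurve.ΨSq_ne_zero
    have := hF0 p hp.ne_zero
    exact_mod_cast this
  obtain ⟨x₀, hx₀⟩ := q4_root F i hne hz
  have hE := H55K.eqn hT
  have hfy : (Polynomial.X ^ 2 - Polynomial.C (x₀ ^ 3 + algebraMap F Ω A * x₀ + algebraMap F Ω B) : Polynomial Ω) ≠ 0 :=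
    (Polynomial.monic_X_pow_sub_C _ two_ne_zero).ne_zero
  have hyr : ((Polynomial.X ^ 2 - Polynomial.C (x₀ ^ 3 + algebraMap F Ω A * x₀ + algebraMap F Ω B) : Polynomial Ω).map i).eval
      (yc (P - μ Q₀)) = 0 := by
    rw [Polynomial.map_sub, Polynomial.map_pow, Polynomial.map_X, Polynomial.map_C, Polynomial.eval_sub, Polynomial.eval_pow,
      Polynomial.eval_X, Polynomial.eval_C, hE, map_add, map_add, map_mul, map_pow, hx₀]
    show _ + i (algebraMap F Ω A) * _ + i (algebraMap F Ω B) - _ = 0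
    ring
  obtain ⟨y₀, hy₀⟩ := q4_root F i hfy hyr
  have hEq : y₀ ^ 2 = x₀ ^ 3 + algebraMap F Ω A * x₀ + algebraMap F Ω B := by
    apply i.injective
    rw [map_add, map_add, map_mul, map_pow, map_pow, hx₀, hy₀]
    exact hE
  have hΔ : ((WAB A B)⁄Ω).toAffine.Δ ≠ 0 := by
    show ((WAB A B)⁄Ω).Δ ≠ 0
    rw [H55K.s_Δ]
    have h5 : (-16 : Ω) * (4 * ((WAB A B)⁄Ω).a₄ ^ 3 + 27 * ((WAB A B)⁄Ω).a₆ ^ 2) =
        algebraMap F Ω (-16 * (4 * A ^ 3 + 27 * B ^ 2)) := by
      have h6 : ((WAB A B)⁄Ω).a₄ = algebraMap F Ω A := rfl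
      have h7 : ((WAB A B)⁄Ω).a₆ = algebraMap F Ω B := rfl
      have e16 : algebraMap F Ω 16 = 16 := map_ofNat (algebraMap F Ω) 16
      have e4 : algebraMap F Ω 4 = 4 := map_ofNat (algebraMap F Ω) 4
      have e27 : algebraMap F Ω 27 = 27 := map_ofNat (algebraMap F Ω) 27
      rw [h6, h7, map_mul, map_neg, map_add, map_mul, map_mul, map_pow, map_pow, e16, e4, e27]
    rw [h5, map_ne_zero]
    exact mul_ne_zero (by norm_num) hA.disc
  have hns : ((WAB A B)⁄Ω).toAffine.Nonsingular x₀ y₀ := by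
    rw [← WeierstrassCurve.Affine.equation_iff_nonsingular_of_Δ_ne_zero hΔ, H55K.s_eq]
    exact hEq
  let S : Pt (WAB A B) Ω := Affine.Point.some x₀ y₀ hns
  have hS : S ≠ 0 := Affine.Point.some_ne_zero hns
  have hμS : μ S ≠ 0 := fun h0 => hS (hμ (by rw [h0, map_zero]))
  have hST : μ S = P - μ Q₀ := by
    refine H55K.pt_ext hμS hT ?_ ?_
    · rw [(h S).1]
      exact hx₀
    · rw [(h S).2]
      exact hy₀
  exact ⟨Q₀ + S, by rw [map_add, hST]; abel⟩

end H16S
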