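import Mathlib

/-! # H16S, chunk Q5 (M): a contraction -/

namespace H16S

/-- Chunk Q5 (M), only Mathlib. PROOF. S = the closed ball ‖z‖ ≤ ‖p‖ of the complete field K. T(z) = (c - (E z - p z))/p. On S: ‖E z - p z‖ ≤ max(‖p‖ ‖z‖², ‖z‖^(p²)) ≤ ‖p‖² (indeed ≤ ‖p‖³; N = p² ≥ 4), so ‖T z‖ ≤ ‖p‖ (‖c‖ ≤ ‖p‖²). ‖T z - T z'‖ ≤ ‖p‖ ‖z - z'‖, ‖p‖ < 1: a contraction of the complete space S: a fixed point z
(ContractingWith.exists_fixedPoint' or ContractingWith.fixedPoint on the subtype): p z = c - E z + p z, so E z = c. -/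
theorem q5 {K : Type} [NormedField K] [IsUltrametricDist K] [CompleteSpace K] {q : K} (h0 : 0 < ‖q‖) (h1 : ‖q‖ < 1) {N : ℕ} (hN : 4 ≤ N)
    (E : K → K) (hE : ∀ z, ‖z‖ < 1 → ‖E z - q * z + z ^ N‖ ≤ ‖q‖ * ‖z‖ ^ 2)
    (hE2 : ∀ z z', ‖z‖ ≤ ‖q‖ → ‖z'‖ ≤ ‖q‖ → ‖(E z - q * z) - (E z' - q * z')‖ ≤ ‖q‖ ^ 2 * ‖z - z'‖) {c : K} (hc : ‖c‖ ≤ ‖q‖ ^ 2) :
    ∃ z, ‖z‖ ≤ ‖q‖ ∧ E z = c := by
  have hq : q ≠ 0 := norm_pos_iff.1 h0
  set T : K → K := fun z => (c - (E z - q * z)) / q with hT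
  set s : Set K := {z | ‖z‖ ≤ ‖q‖} with hs
  have hsc : IsComplete s := by
    have h2 : IsClosed s := isClosed_le continuous_norm continuous_const
    exact h2.isComplete
  have hb : ∀ z ∈ s, ‖E z - q * z‖ ≤ ‖q‖ ^ 2 := by
    intro z hz
    have hz' : ‖z‖ ≤ ‖q‖ := hz
    have h2 := hE z (lt_of_le_of_lt hz' h1)
    have h3 : E z - q * z = (E z - q * z + z ^ N) - z ^ N := by ring
    rw [h3, sub_eq_add_neg]
    refine (IsUltrametricDist.norm_add_le_max _ _).trans (max_le ?_ ?_)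
    · refine h2.trans ?_
      have h4 : ‖z‖ ^ 2 ≤ ‖q‖ := by
        calc ‖z‖ ^ 2 ≤ ‖q‖ ^ 2 := pow_le_pow_left₀ (norm_nonneg _) hz' 2
          _ ≤ ‖q‖ ^ 1 := pow_le_pow_of_le_one h0.le h1.le (by norm_num)
          _ = ‖q‖ := pow_one _
      calc ‖q‖ * ‖z‖ ^ 2 ≤ ‖q‖ * ‖q‖ := mul_le_mul_of_nonneg_left h4 h0.le
        _ = ‖q‖ ^ 2 := by ring
    · rw [norm_neg, norm_pow]
      calc ‖z‖ ^ N ≤ ‖q‖ ^ N := pow_le_pow_left₀ (norm_nonneg _) hz' N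
        _ ≤ ‖q‖ ^ 2 := pow_le_pow_of_le_one h0.le h1.le (by omega)
  have hmap : Set.MapsTo T s s := by
    intro z hz
    change ‖(c - (E z - q * z)) / q‖ ≤ ‖q‖
    rw [norm_div, div_le_iff₀ h0, sub_eq_add_neg]
    refine (IsUltrametricDist.norm_add_le_max _ _).trans (max_le ?_ ?_)
    · exact hc.trans (le_of_eq (by ring))
    · rw [norm_neg]
      exact (hb z hz).trans (le_of_eq (by ring))
  have hcon : ContractingWith ‖q‖₊ (hmap.restrict T s s) := by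
    refine ⟨by exact_mod_cast h1, LipschitzWith.of_dist_le_mul ?_⟩
    rintro ⟨z, hz⟩ ⟨z', hz'⟩
    rw [Subtype.dist_eq, Subtype.dist_eq, dist_eq_norm, dist_eq_norm]
    change ‖(c - (E z - q * z)) / q - (c - (E z' - q * z')) / q‖ ≤ ‖q‖ * ‖z - z'‖
    have h2 : (c - (E z - q * z)) / q - (c - (E z' - q * z')) / q =
        -((E z - q * z) - (E z' - q * z')) / q := by ring
    rw [h2, norm_div, norm_neg, div_le_iff₀ h0]
    exact (hE2 z z' hz hz').trans (le_of_eq (by ring))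
  have h0s : (0 : K) ∈ s := by
    change ‖(0 : K)‖ ≤ ‖q‖
    rw [norm_zero]
    exact h0.le
  obtain ⟨z, hz, hfix, -⟩ := ContractingWith.exists_fixedPoint' hsc hmap hcon h0s
    (edist_ne_top _ _)
  refine ⟨z, hz, ?_⟩
  have h2 : (c - (E z - q * z)) / q = z := hfix
  rw [div_eq_iff hq] at h2
  linear_combination -h2

end H16S
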