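import Mathlib
import Pool.Agent.Lib.H16S.Q3
import Pool.Agent.Lib.H16S.Q4
import Pool.Agent.Lib.H16S.Q5

/-! # H16S, chunk Q6 (M): division by p -/

open NumberField IsDedekindDomain WeierstrassCurve

namespace H16S

attribute [local instance] H16S.nfOC H16S.ultOC

open H55P (IQ Pt ac Inert Dec Nm)
open H35P (WAB Ker tt)
open H55K
open H35L (Gc Gen dV)

variable {F : Type} [Field F] [NumberField F] [IQ F] {A B : F} {Om : ℂ} {Ω : Type} [Field Ω] [DecidableEq Ω]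
  [Algebra F Ω] [IsAlgClosure F Ω] {j : Ω →+* ℂ} {act : 𝓞 F →+* AddMonoid.End (Pt (WAB A B) Ω)} {V : ValuationSubring Ω}
  {C : Type} [NormedField C] [IsUltrametricDist C] {i : Ω →+* C} {p : ℕ}

theorem q6_pn : ‖(p : OC i)‖ = ‖i (p : Ω)‖ := by
  rw [← toC_nat, toC_norm]

/-- The coordinate is injective on the kernel over C. -/
theorem q6_inj {K : Type} [Field K] [DecidableEq K] {W : WeierstrassCurve K} [W.IsShortNF] {V : ValuationSubring K} (h2 : (2 : K) ≠ 0)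
    (hI : H35P.IntW W V) {P Q : W.toAffine.Point} (hP : Ker V P) (hQ : Ker V Q) (h : tt P = tt Q) : P = Q := by
  have h3 := tt_sub h2 hI hP hQ (c := max (V.valuation (tt P)) (V.valuation (tt Q)))
    (max_lt (H35P.tt_lt hI P hP) (H35P.tt_lt hI Q hQ)) (le_max_left _ _) (le_max_right _ _)
  rw [h, sub_self, sub_zero, map_zero, zero_mul, le_zero_iff, map_eq_zero] at h3
  have h4 := (H35P.tt_eq_zero hI _ (H35P.ker_sub hI P Q hP hQ)).1 h3
  exact sub_eq_zero.1 h4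

/-- Chunk Q6a (S/M). Uniqueness: D in the kernel of reduction, p • D = 0, ‖t D‖ ≤ ‖p‖: D = 0. PROOF. q3: ‖p t - t^(p²)‖ ≤ ‖p‖ ‖t‖² (t = t D, t (p • D) = 0). If t ≠ 0: ‖t^(p²)‖ ≤ ‖p‖ ‖t‖² .. : ‖t‖^(p²) ≤ ‖t‖³ < ‖p‖ ‖t‖ because ‖t‖ ≤ ‖p‖ < 1, p² ≥ 3, and ‖p‖ ‖t‖² < ‖p‖ ‖t‖: contradiction with ‖p t‖ = ‖p‖ ‖t‖. -/
theorem q6_zero [CompleteSpace C] (h : Ctx F p V i) (hA : CMA F A B Om j act) (hS : Sup act p) (hG : GV A B V) {D : kerG hG}
    (h1 : p • D = 0) (h2 : ‖tG i hG D‖ ≤ ‖(p : OC i)‖) : D = 0 := by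
  rw [← q1_zero (i := i) hG D]
  by_contra hne
  have h3 := q3 (C := C) h hA hS hG D
  have h4 : tG i hG (p • D) = 0 := by
    rw [h1]
    exact (q1_zero hG 0).2 rfl
  rw [h4] at h3
  obtain ⟨hp1, hp0⟩ := n1_p h
  rw [← q6_pn] at hp1 hp0
  set t := tG i hG D with ht
  set π : ℝ := ‖(p : OC i)‖ with hπ
  have ht0 : 0 < ‖t‖ := norm_pos_iff.2 hne
  have ht1 : ‖t‖ < 1 := lt_of_le_of_lt h2 hp1
  have h5 : ‖(p : OC i) * t‖ ≤ π * ‖t‖ ^ 2 := by
    have h6 : (p : OC i) * t = t ^ p ^ 2 + -(0 - p * t + t ^ p ^ 2) := by ring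
    rw [h6]
    refine (IsUltrametricDist.norm_add_le_max _ _).trans (max_le ?_ ?_)
    · rw [norm_pow]
      have h7 : ‖t‖ ^ p ^ 2 ≤ ‖t‖ ^ 3 := by
        refine pow_le_pow_of_le_one (norm_nonneg _) ht1.le ?_
        have := h.five
        nlinarith
      calc ‖t‖ ^ p ^ 2 ≤ ‖t‖ ^ 3 := h7
        _ = ‖t‖ * ‖t‖ ^ 2 := by ring
        _ ≤ π * ‖t‖ ^ 2 := mul_le_mul_of_nonneg_right h2 (by positivity)
    · rw [norm_neg]
      exact h3
  rw [norm_mul] at h5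
  have h8 : π * ‖t‖ ^ 2 < π * ‖t‖ := by
    refine mul_lt_mul_of_pos_left ?_ hp0
    nlinarith
  exact absurd (lt_of_le_of_lt h5 h8) (lt_irrefl _)

/-- Chunk Q6b (M). PROOF. U, μ as in q3; E z = the value of T_p at z. f12_val gives the hypotheses of q5 (q = p in C, N = p², c = i (tt R.1), ‖c‖ ≤ ‖p‖²): z with ‖z‖ ≤ ‖p‖, E z = c. f12_pt: P_C in Ker (ball C) with tt P_C = z, tt (p • P_C) = E z = tt (μ R). Both p • P_C and μ R are in the kernel (for p • P_C: closed under addition, H35P.ker_add or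
H55K.kadd), and tt is injective on the kernel over C (as q1_inj: tt_sub for the curve over C with V = ball C; or H35P.tt_eq_zero for the difference with tt_sub): p • P_C = μ R. q4: P_C = μ Q, Q in Ker V (ker_map), i (tt Q) = z, p • Q = R (μ injective). Q is of level n: for s in Dec V, Gc p n s: D = s Q - Q (in the kernel: gG) has p • D = s R - R = 0 and
‖t D‖ ≤ ‖p‖ (q1_sub: ‖t (sQ) - t Q‖ ≤ max, n1_dec: ‖s z‖ = ‖z‖ ≤ ‖p‖): q6_zero. -/
theorem q6 [CompleteSpace C] (h : Ctx F p V i) (hA : CMA F A B Om j act) (hS : Sup act p) (hG : GV A B V) (n : ℕ) {R : kerG hG}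
    (hR : R ∈ En hG p n) (h1 : ‖tG i hG R‖ ≤ ‖(p : OC i)‖ ^ 2) : ∃ P ∈ En hG p n, ‖tG i hG P‖ ≤ ‖(p : OC i)‖ ∧ p • P = R := by
  classical
  obtain ⟨U, hU⟩ := exists_W (a := A) (b := B)
  obtain ⟨μ, hμ, hμ3⟩ := pt_map (A := A) (B := B) i
  obtain ⟨hp1, hp0⟩ := n1_p h
  have hip : i (p : Ω) = (p : C) := map_natCast i p
  rw [hip] at hp1 hp0
  have hpn : ‖(p : OC i)‖ = ‖(p : C)‖ := by rw [q6_pn, hip]
  obtain ⟨hv1, hv2⟩ := f12_val hA h.pr h.five h.inert hS hG h.above hU i h.mem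
  obtain ⟨hpt1, hpt2⟩ := f12_pt hG (p := p) hU i h.mem
  have hN : 4 ≤ p ^ 2 := by
    have := h.five
    nlinarith
  have hc : ‖i (tt R.1)‖ ≤ ‖(p : C)‖ ^ 2 := by
    rw [← hpn]
    exact h1
  obtain ⟨z, hz, hEz⟩ := q5 hp0 hp1 hN (fun z => ev (i.comp (algebraMap F Ω)) z (TW A B U p).1)
    (fun z hz => (hv1 z hz).2) hv2 hc
  obtain ⟨PC, hPC, hPCz⟩ := hpt2 z (lt_of_le_of_lt hz hp1)
  have hI : H35P.IntW (WR (i (algebraMap F Ω A)) (i (algebraMap F Ω B))) (ball C) := by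
    refine ⟨?_, ?_, ?_, ?_, ?_⟩
    · exact (ball C).zero_mem
    · exact (ball C).zero_mem
    · exact (ball C).zero_mem
    · exact (mem_ball _).2 ((h.mem _).1 hG.a)
    · exact (mem_ball _).2 ((h.mem _).1 hG.b)
  have h2 : (2 : C) ≠ 0 := by
    have h3 : (2 : Ω) ≠ 0 := by
      intro h4
      have h5 := hG.two
      rw [h4, map_zero] at h5
      exact zero_ne_one h5
    have h6 : i (2 : Ω) = (2 : C) := map_ofNat i 2
    rw [← h6]
    exact (map_ne_zero i).2 h3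
  have hkn : ∀ m : ℕ, Ker (ball C) (m • PC) := by
    intro m
    induction m with
    | zero =>
      rw [zero_nsmul]
      trivial
    | succ m ih =>
      rw [succ_nsmul]
      exact H35P.ker_add hI _ _ ih hPC
  have hμR : Ker (ball C) (μ R.1) := (ker_map i h.mem hμ (fun P => (hμ3 P).1) R.1).2 R.2
  have e1 : p • PC = μ R.1 := by
    refine q6_inj h2 hI (hkn p) hμR ?_
    rw [hpt1 PC hPC, hPCz, (hμ3 R.1).2.2]
    exact hEz
  obtain ⟨Q, hQ⟩ := q4 h.pr hA hμ (fun P => ⟨(hμ3 P).1, (hμ3 P).2.1⟩) e1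
  have hQk : Ker V Q := by
    rw [← ker_map i h.mem hμ (fun P => (hμ3 P).1) Q, hQ]
    exact hPC
  have hQz : i (tt Q) = z := by
    rw [← (hμ3 Q).2.2, hQ, hPCz]
  have hpQ : p • Q = R.1 := by
    apply hμ
    rw [map_nsmul, hQ, e1]
  let P : kerG hG := ⟨Q, hQk⟩
  have hPR : p • P = R := Subtype.ext hpQ
  have hPn : ‖tG i hG P‖ ≤ ‖(p : OC i)‖ := by
    rw [hpn]
    show ‖i (tt Q)‖ ≤ _
    rw [hQz]
    exact hz
  refine ⟨P, ?_, hPn, hPR⟩
  rw [mem_En]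
  intro s hs hGc
  have : Algebra.IsAlgebraic F Ω := IsAlgClosure.isAlgebraic
  have hD0 : gG hG hs P - P = 0 := by
    refine q6_zero (C := C) (i := i) h hA hS hG ?_ ?_
    · rw [nsmul_sub, ← map_nsmul, hPR, sub_eq_zero]
      exact Subtype.ext ((mem_En hG p n R).1 hR s hs hGc)
    · have hlt := q1_lt (i := i) h hG P
      have hlt' := q1_lt (i := i) h hG (gG hG hs P)
      have hsn : ‖tG i hG (gG hG hs P)‖ ≤ ‖(p : OC i)‖ := by
        rw [q1_act]
        show ‖i (s (tt Q))‖ ≤ _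
        rw [n1_dec h hs]
        exact hPn
      have hd : ‖tG i hG (gG hG hs P) - tG i hG P‖ ≤ ‖(p : OC i)‖ := by
        rw [sub_eq_add_neg]
        refine (IsUltrametricDist.norm_add_le_max _ _).trans (max_le hsn ?_)
        rw [norm_neg]
        exact hPn
      have h3 := q1_sub h hG (gG hG hs P) P (i := i)
      have h4 : tG i hG (gG hG hs P - P) = (tG i hG (gG hG hs P - P) -
          (tG i hG (gG hG hs P) - tG i hG P)) + (tG i hG (gG hG hs P) - tG i hG P) := by ring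
      rw [h4]
      refine (IsUltrametricDist.norm_add_le_max _ _).trans (max_le (h3.trans ?_) hd)
      calc ‖tG i hG (gG hG hs P) - tG i hG P‖ * max ‖tG i hG (gG hG hs P)‖ ‖tG i hG P‖ ^ 2
          ≤ ‖(p : OC i)‖ * 1 := by
            refine mul_le_mul hd ?_ (by positivity) (norm_nonneg _)
            exact pow_le_one₀ (le_max_of_le_left (norm_nonneg _)) (max_le hlt'.le hlt.le)
        _ = ‖(p : OC i)‖ := mul_one _
  have h5 : gG hG hs P = P := sub_eq_zero.1 hD0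
  have h6 := congrArg Subtype.val h5
  exact h6

end H16S
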