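import Mathlib
import Pool.Agent.Lib.H16S.Q2
import Pool.Agent.Lib.H16S.Q6
import Pool.Agent.Lib.H16S.LD

/-! # H16S, chunk Q7 (S): the formal group structure -/

open NumberField IsDedekindDomain WeierstrassCurve

namespace H16S

attribute [local instance] H16S.nfOC H16S.ultOC

open H55P (IQ Pt ac Inert Dec Nm)
open H35P (WAB Ker tt)
open H55K
open H35L (Gc Gen dV)

variable {F : Type} [Field F] [NumberField F] [IQ F] {A B : F} {Om : ℂ} {Ω : Type} [Field Ω] [DecidableEq Ω]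
  [Algebra F Ω] [IsAlgClosure F Ω] {j : Ω →+* ℂ} {act : 𝓞 F →+* AddMonoid.End (Pt (WAB A B) Ω)} {V : ValuationSubring Ω}
  {C : Type} [NormedField C] [IsUltrametricDist C] {i : Ω →+* C} {p : ℕ}

/-- Chunk Q7 (S). q1_lt, q1_zero, q1_neg, q1_sub, q1_mem, q2_surj, q1_act, q3, q6, q2_alt, q2_alc, q2_ale. -/
theorem fgp [CompleteSpace C] (h : Ctx F p V i) (hA : CMA F A B Om j act) (hS : Sup act p) (hG : GV A B V) {γ : Ω ≃ₐ[F] Ω} (hγ : Dec V γ)
    (ρ : Fin (p ^ 2) → 𝓞 F) :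
    Fgp p (Hn V p i F) (gO i γ) (fun k => toC i (algebraMap F Ω (ρ k : F))) (tG i hG) (gG hG hγ) (En hG p) (fun k => aG hA hG (ρ k)) where
  lt P := q1_lt h hG P
  zero P := q1_zero hG P
  neg P := q1_neg hG P
  sub P Q := q1_sub h hG P Q
  mem n P := q1_mem h hG n P
  surj n z hz h1 := q2_surj h hA hG n hz h1
  act P := q1_act hG hγ P
  mul P := q3 h hA hS hG P
  div n R hR h1 := q6 h hA hS hG n hR h1
  alt k P := q2_alt h hA hG (ρ k) P
  alc k P := q2_alc hA hG hγ (ρ k) P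
  ale k n P hP := q2_ale hA hG (ρ k) n hP

end H16S
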