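import Mathlib
import Pool.Agent.Lib.H16S.QD
import Pool.Agent.Lib.H16S.N4
import Pool.Agent.Lib.H16S.M2
import Pool.Agent.Lib.H16S.M4C

/-! # H16S, chunk R1 (M): points of level n and the kernel of reduction -/

open NumberField IsDedekindDomain WeierstrassCurve

namespace H16S

attribute [local instance] H16S.nfOC H16S.ultOC

open H55P (IQ Pt ac Inert Dec Nm)
open H35P (WAB Ker tt)
open H55K
open H35L (Gc Gen dV PM aM AM gm1 SH SN FA Cm WM opM LI LI_conj)

variable {F : Type} [Field F] [NumberField F] [IQ F] {A B : F} {Om : ℂ} {Ω : Type} [Field Ω] [DecidableEq Ω]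
  [Algebra F Ω] [IsAlgClosure F Ω] {j : Ω →+* ℂ} {act : 𝓞 F →+* AddMonoid.End (Pt (WAB A B) Ω)} {mo : Ideal (𝓞 F)}
  {ψ : Ideal (𝓞 F) →*₀ 𝓞 F} {V : ValuationSubring Ω} {C : Type} [NormedField C] [IsUltrametricDist C] {i : Ω →+* C} {p : ℕ}

/-- Chunk R1 (S). En is the intersection of AM with the kernel of reduction (defeq: aM act s = ac (WAB A B) s, dV V = the decomposition group). -/
theorem r1_mem (act : 𝓞 F →+* AddMonoid.End (Pt (WAB A B) Ω)) (hG : GV A B V) (n : ℕ) (P : kerG hG) :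
    P ∈ En hG p n ↔ (show PM act from P.1) ∈ AM act p (dV V) n :=
  ⟨fun h s hs => h s hs.1 hs.2, fun h s h1 h2 => h s ⟨h1, h2⟩⟩

/-- Chunk R1 (S/M). PROOF. n4_frob: φ in Dec V, Gc p n φ, Frobenius: aM φ P = P; Sup.fr: Ker V (ac φ P + p • P) = Ker V ((p + 1) • P). -/
theorem r1_ker (h : Ctx F p V i) (hS : Sup act p) (hG : GV A B V) {n : ℕ} {P : PM act} (hP : P ∈ AM act p (dV V) n) :
    ∃ Q ∈ En hG p n, (show PM act from Q.1) = (p + 1) • P := by
  obtain ⟨φ, h1, h2, h3⟩ := n4_frob h n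
  have h4 := hS.fr V h.above φ h3 P
  have h5 : ac (WAB A B) φ P = P := hP φ ⟨h1, h2⟩
  rw [h5] at h4
  have h6 : (P + p • P : PM act) = (p + 1) • P := by
    rw [add_nsmul, one_nsmul, add_comm]
  have h7 : Ker V (show Pt (WAB A B) Ω from (p + 1) • P) := by
    rw [← h6]
    exact h4
  refine ⟨⟨(show Pt (WAB A B) Ω from (p + 1) • P), h7⟩, ?_, rfl⟩
  rw [r1_mem act]
  exact AddSubgroup.nsmul_mem _ hP _

/-- Chunk R1 (S). (L1): p • P = 0 gives (p + 1) • P = P, which lies in En (r1_ker), m2. -/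
theorem r1_l1 (h : Ctx F p V i) (hS : Sup act p) (hG : GV A B V) {π : ℕ → OC i} {r : Fin (p ^ 2) → OC i} {γ : Ω ≃ₐ[F] Ω} (hγ : Dec V γ)
    {al : Fin (p ^ 2) → AddMonoid.End (kerG hG)} (T : Twr p (Hn V p i F) (gO i γ) π r)
    (G : Fgp p (Hn V p i F) (gO i γ) r (tG i hG) (gG hG hγ) (En hG p) al) (n : ℕ) {P : PM act} (hP : P ∈ AM act p (dV V) n) (h0 : p • P = 0) :
    P = 0 := by
  obtain ⟨Q, hQ, hQP⟩ := r1_ker h hS hG hP
  have h1 : (p + 1) • P = P := by rw [add_nsmul, one_nsmul, h0, zero_add]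
  rw [h1] at hQP
  have h2 : p • Q = 0 := by
    apply Subtype.ext
    have h3 : p • (show PM act from Q.1) = 0 := by rw [hQP, h0]
    exact h3
  have h4 := m2 T G hQ h2
  rw [← hQP, h4]
  rfl

/-- The inclusion of En in AM. -/
def r1_inc (act : 𝓞 F →+* AddMonoid.End (Pt (WAB A B) Ω)) (hG : GV A B V) (p n : ℕ) : (En hG p n) →+ (AM act p (dV V) n) where
  toFun x := ⟨(show PM act from x.1.1), (r1_mem act hG n x.1).1 x.2⟩
  map_zero' := rfl
  map_add' _ _ := rfl

/-- Chunk R1 (M). (L2): the quotient AM/p AM is isomorphic to En/p En, which has (p²)^(p^n) elements (m4c). PROOF. The map En → AM/p AM is onto: P = (p + 1) P - p P, (p + 1) P in En (r1_ker). Its kernel is p En: Q in En, Q = p P with P in AM: (p + 1) Q = p ((p + 1) P), so Q = p ((p + 1) P - Q) with (p + 1) P - Q in En. First isomorphism theorem or equality of indices. -/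
theorem r1_l2 (h : Ctx F p V i) (hS : Sup act p) (hG : GV A B V) {π : ℕ → OC i} {r : Fin (p ^ 2) → OC i} {γ : Ω ≃ₐ[F] Ω} (hγ : Dec V γ)
    {al : Fin (p ^ 2) → AddMonoid.End (kerG hG)} (T : Twr p (Hn V p i F) (gO i γ) π r)
    (G : Fgp p (Hn V p i F) (gO i γ) r (tG i hG) (gG hG hγ) (En hG p) al) (n : ℕ) :
    Nat.card (AM act p (dV V) n ⧸ (AddSubgroup.map (nsmulAddMonoidHom p) (⊤ : AddSubgroup (AM act p (dV V) n)))) = (p ^ 2) ^ p ^ n := by
  rw [← m4c T G n]
  set N : AddSubgroup (AM act p (dV V) n) := AddSubgroup.map (nsmulAddMonoidHom p) (⊤ : AddSubgroup (AM act p (dV V) n)) with hN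
  let f : (En hG p n) →+ (AM act p (dV V) n) ⧸ N := (QuotientAddGroup.mk' N).comp (r1_inc act hG p n)
  have hsurj : Function.Surjective f := by
    intro x
    obtain ⟨P, rfl⟩ := QuotientAddGroup.mk'_surjective N x
    obtain ⟨Q, hQ, hQP⟩ := r1_ker h hS hG P.2
    refine ⟨⟨Q, hQ⟩, ?_⟩
    have h1 : r1_inc act hG p n ⟨Q, hQ⟩ = (p + 1) • P := Subtype.ext hQP
    show QuotientAddGroup.mk' N (r1_inc act hG p n ⟨Q, hQ⟩) = _
    rw [h1, add_nsmul, one_nsmul, map_add]
    have h2 : QuotientAddGroup.mk' N (p • P) = 0 := by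
      rw [QuotientAddGroup.mk'_apply, QuotientAddGroup.eq_zero_iff]
      exact ⟨P, trivial, rfl⟩
    rw [h2, zero_add]
  have hker : f.ker = AddMonoidHom.range (nsmulAddMonoidHom (α := En hG p n) p) := by
    ext Q
    rw [AddMonoidHom.mem_ker]
    constructor
    · intro h1
      have h2 : r1_inc act hG p n Q ∈ N := (QuotientAddGroup.eq_zero_iff _).1 h1
      obtain ⟨P, -, hP⟩ := h2
      have hP' : p • (P : PM act) = (show PM act from Q.1.1) := congrArg Subtype.val hP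
      obtain ⟨R, hR, hRP⟩ := r1_ker h hS hG P.2
      refine ⟨⟨R, hR⟩ - Q, ?_⟩
      apply Subtype.ext
      apply Subtype.ext
      show p • ((show PM act from R.1) - (show PM act from Q.1.1)) = (show PM act from Q.1.1)
      rw [hRP, nsmul_sub, ← mul_nsmul', mul_comm, mul_nsmul', hP', add_nsmul, one_nsmul, add_sub_cancel_left]
    · rintro ⟨R, rfl⟩
      refine (QuotientAddGroup.eq_zero_iff _).2 ?_
      exact ⟨r1_inc act hG p n R, trivial, rfl⟩
  rw [← hker, AddSubgroup.index_ker]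
  have h3 : f.range = ⊤ := AddMonoidHom.range_eq_top.2 hsurj
  rw [h3]
  exact (Nat.card_congr (AddSubgroup.topEquiv (G := (AM act p (dV V) n) ⧸ N)).toEquiv).symm

end H16S
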