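import Mathlib
import Pool.Agent.Lib.H16S.R1
import Pool.Agent.Lib.H16S.M9
import Pool.Agent.Lib.H16S.M10

/-! # H16S, chunk R2 (M): the operator gamma - 1 on points -/

open NumberField IsDedekindDomain WeierstrassCurve

namespace H16S

attribute [local instance] H16S.nfOC H16S.ultOC

open H55P (IQ Pt ac Inert Dec Nm)
open H35P (WAB Ker tt)
open H55K
open H35L (Gc Gen dV PM aM AM gm1 SH SN FA Cm WM opM LI LI_conj)

variable {F : Type} [Field F] [NumberField F] [IQ F] {A B : F} {Om : ℂ} {Ω : Type} [Field Ω] [DecidableEq Ω]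
  [Algebra F Ω] [IsAlgClosure F Ω] {j : Ω →+* ℂ} {act : 𝓞 F →+* AddMonoid.End (Pt (WAB A B) Ω)} {mo : Ideal (𝓞 F)}
  {ψ : Ideal (𝓞 F) →*₀ 𝓞 F} {V : ValuationSubring Ω} {C : Type} [NormedField C] [IsUltrametricDist C] {i : Ω →+* C} {p : ℕ}

/-- Chunk R2 (S). The operator γ - 1 on the kernel of reduction and on all points. -/
theorem r2_gm (act : 𝓞 F →+* AddMonoid.End (Pt (WAB A B) Ω)) (hG : GV A B V) {γ : Ω ≃ₐ[F] Ω} (hγ : Dec V γ) (k : ℕ) (P : kerG hG) :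
    (show PM act from (((gG hG hγ - 1) ^ k) P).1) = (gm1 act γ ^ k) (show PM act from P.1) := by
  induction k with
  | zero => rfl
  | succ k ih =>
    rw [pow_succ', pow_succ']
    change (aM act γ (show PM act from (((gG hG hγ - 1) ^ k) P).1)) - (show PM act from (((gG hG hγ - 1) ^ k) P).1) =
      aM act γ ((gm1 act γ ^ k) (show PM act from P.1)) - (gm1 act γ ^ k) (show PM act from P.1)
    rw [ih]

/-- Chunk R2 (S). γ - 1 maps AM n to itself (γ⁻¹ s γ is again in Dec V with Gc p n: H35L.Gc_conj). -/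
theorem r2_AM {γ : Ω ≃ₐ[F] Ω} (hγ : Dec V γ) (n k : ℕ) {P : PM act} (hP : P ∈ AM act p (dV V) n) :
    (gm1 act γ ^ k) P ∈ AM act p (dV V) n := by
  have h1 : ∀ R ∈ AM act p (dV V) n, aM act γ R ∈ AM act p (dV V) n := by
    intro R hR s hs
    have hγ' : γ ∈ dV V := hγ
    have e : s * γ = γ * (γ⁻¹ * s * γ⁻¹⁻¹) := by group
    have h2 : H35L.SN (dV V) p n (γ⁻¹ * s * γ⁻¹⁻¹) :=
      ⟨(dV V).mul_mem ((dV V).mul_mem ((dV V).inv_mem hγ') hs.1) ((dV V).inv_mem ((dV V).inv_mem hγ')),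
        H35L.Gc_conj hs.2 γ⁻¹⟩
    rw [← H35L.aM_mul, e, H35L.aM_mul, hR _ h2]
  induction k with
  | zero => exact hP
  | succ k ih =>
    rw [pow_succ']
    exact (AM act p (dV V) n).sub_mem (h1 _ ih) ih

/-- Chunk R2 (M). (L3). PROOF. k = p^n - 1 - J. P = (p + 1) P - p P; Q in En with Q = (p + 1) P (r1_ker); m9: (γ - 1)^k Q = Q₀ + p B, Q₀ in En 0, B in En n; (γ - 1)^k P = Q₀ + p (B - (γ - 1)^k P) (r2_gm, r2_AM, r1_mem). -/
theorem r2_l3 (h : Ctx F p V i) (hS : Sup act p) (hG : GV A B V) {π : ℕ → OC i} {r : Fin (p ^ 2) → OC i} {γ : Ω ≃ₐ[F] Ω} (hγ : Dec V γ)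
    {al : Fin (p ^ 2) → AddMonoid.End (kerG hG)} (T : Twr p (Hn V p i F) (gO i γ) π r)
    (G : Fgp p (Hn V p i F) (gO i γ) r (tG i hG) (gG hG hγ) (En hG p) al) (n : ℕ) {P : PM act} (hP : P ∈ AM act p (dV V) n) :
    ∃ P₀ ∈ AM act p (dV V) 0, ∃ P' ∈ AM act p (dV V) n, (gm1 act γ ^ (p ^ n - 1 - H35K.J p n)) P = P₀ + p • P' := by
  obtain ⟨Q, hQ, hQP⟩ := r1_ker h hS hG hP
  obtain ⟨Q₀, hQ₀, B, hB, hm, -⟩ := m9 T G n hQ
  have h1 := r2_gm act hG hγ (p ^ n - 1 - H35K.J p n) Q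
  rw [hm, hQP, map_nsmul, add_smul, one_smul] at h1
  set D := (gm1 act γ ^ (p ^ n - 1 - H35K.J p n)) P with hD
  refine ⟨(show PM act from Q₀.1), (r1_mem act hG 0 Q₀).1 hQ₀, (show PM act from B.1) - D,
    (AM act p (dV V) n).sub_mem ((r1_mem act hG n B).1 hB) (r2_AM hγ n _ hP), ?_⟩
  have h2 : (show PM act from (Q₀ + p • B).1) = (show PM act from Q₀.1) + p • (show PM act from B.1) := rfl
  rw [h2] at h1
  rw [smul_sub, ← add_sub_assoc, h1]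
  abel

/-- Chunk R2 (M). (L3'). PROOF. P₀ in AM 0: (p + 1) P₀ = Q₀ in En 0 (r1_ker); m10 gives Q in En n and B in En n with (γ - 1)^k Q = Q₀ + p B = P₀ + p (P₀ + B); P₀ lies in AM n as well (AM 0 ≤ AM n: H35L.gc_le / Gc_mono). -/
theorem r2_l3' (h : Ctx F p V i) (hS : Sup act p) (hG : GV A B V) {π : ℕ → OC i} {r : Fin (p ^ 2) → OC i} {γ : Ω ≃ₐ[F] Ω} (hγ : Dec V γ)
    {al : Fin (p ^ 2) → AddMonoid.End (kerG hG)} (T : Twr p (Hn V p i F) (gO i γ) π r)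
    (G : Fgp p (Hn V p i F) (gO i γ) r (tG i hG) (gG hG hγ) (En hG p) al) (n : ℕ) {P₀ : PM act} (hP : P₀ ∈ AM act p (dV V) 0) :
    ∃ P ∈ AM act p (dV V) n, ∃ P' ∈ AM act p (dV V) n, (gm1 act γ ^ (p ^ n - 1 - H35K.J p n)) P = P₀ + p • P' := by
  obtain ⟨Q₀, hQ₀, hQP⟩ := r1_ker h hS hG hP
  obtain ⟨P, hP1, B, hB, hm⟩ := m10 T G n hQ₀
  have h1 := r2_gm act hG hγ (p ^ n - 1 - H35K.J p n) P
  rw [hm] at h1
  have h2 : (show PM act from (Q₀ + p • B).1) = (show PM act from Q₀.1) + p • (show PM act from B.1) := rfl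
  rw [h2, hQP, add_smul, one_smul] at h1
  have h3 : P₀ ∈ AM act p (dV V) n := fun s hs => hP s ⟨hs.1, H35L.gc_le (Nat.zero_le n) hs.2⟩
  refine ⟨(show PM act from P.1), (r1_mem act hG n P).1 hP1, P₀ + (show PM act from B.1),
    (AM act p (dV V) n).add_mem h3 ((r1_mem act hG n B).1 hB), ?_⟩
  rw [← h1, smul_add]
  abel

end H16S
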