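import Mathlib
import Pool.Agent.Lib.H35L.Ar
import Pool.Agent.Lib.H35L.X1
import Pool.Agent.Lib.H13X.XL1

/-! # H16S: equivariant classes killed by p (definitions) -/

open NumberField IsDedekindDomain WeierstrassCurve

namespace H16S

open H55P (IQ Pt ac Inert Dec Nm)
open H35P (WAB Ker tt)
open H55K (Tor ak xc yc CMA Dta GV cj)
open H55K.S
open H13X
open H35L (Gc Gen dV PM aM AM gm1 SH SN FA Cm WM opM LI LI_conj LocP)

variable {F : Type} [Field F] [NumberField F] [IQ F] {A B : F} {Om : ℂ} {Ω : Type} [Field Ω] [DecidableEq Ω]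
  [Algebra F Ω] [IsAlgClosure F Ω] {j : Ω →+* ℂ} {act : 𝓞 F →+* AddMonoid.End (Pt (WAB A B) Ω)} {mo : Ideal (𝓞 F)}
  {ψ : Ideal (𝓞 F) →*₀ 𝓞 F} {V : ValuationSubring Ω} {p : ℕ}

/-- f is a homomorphism on the elements of the decomposition group acting trivially on the torsion, with values in the points killed by p, continuous
and equivariant. -/
structure V0 (act : 𝓞 F →+* AddMonoid.End (Pt (WAB A B) Ω)) (p : ℕ) (V : ValuationSubring Ω) (f : (Ω ≃ₐ[F] Ω) → PM act) : Prop where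
  out : ∀ h, ¬ SH act (dV V) p h → f h = 0
  mul : ∀ h, SH act (dV V) p h → ∀ h', SH act (dV V) p h' → f (h * h') = f h + f h'
  tor : ∀ h, p • f h = 0
  cont : ∃ L : IntermediateField F Ω, FiniteDimensional F L ∧ ∀ h, SH act (dV V) p h → h ∈ L.fixingSubgroup → f h = 0
  eqv : ∀ s, s ∈ dV V → ∀ h, SH act (dV V) p h → f (s * h * s⁻¹) = aM act s (f h)

/-- The extension of f to a cocycle on the decomposition group; z acts as multiplication by 2 on the points killed by p. -/
def ext (z : Ω ≃ₐ[F] Ω) (f : (Ω ≃ₐ[F] Ω) → PM act) (g : Ω ≃ₐ[F] Ω) : Pt (WAB A B) Ω := f (z * g * z⁻¹ * g⁻¹)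

end H16S
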