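import Mathlib
import Pool.Agent.Lib.H16S.VD
import Pool.Agent.Lib.H13X.XNB

/-! # H16S, chunk V1 (M): the data at the inert prime -/

open NumberField IsDedekindDomain WeierstrassCurve

namespace H16S

open H55P (IQ Pt ac Inert Dec Nm)
open H35P (WAB Ker tt)
open H55K (Tor ak xc yc CMA Dta GV cj)
open H55K.S
open H13X
open H35L (Gc Gen dV PM aM AM gm1 SH SN FA Cm WM opM LI LI_conj LocP)

variable {F : Type} [Field F] [NumberField F] [IQ F] {A B : F} {Om : ℂ} {Ω : Type} [Field Ω] [DecidableEq Ω]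
  [Algebra F Ω] [IsAlgClosure F Ω] {j : Ω →+* ℂ} {act : 𝓞 F →+* AddMonoid.End (Pt (WAB A B) Ω)} {mo : Ideal (𝓞 F)}
  {ψ : Ideal (𝓞 F) →*₀ 𝓞 F} {V : ValuationSubring Ω} {p : ℕ}

theorem v1_bot [NumberField (⊥ : IntermediateField F Ω)] (p : ℕ) : H55P.PExt p (⊥ : IntermediateField F Ω) (⊥ : IntermediateField F Ω) := by
  refine ⟨inferInstance, le_refl _, ?_, ⟨0, by simp⟩⟩
  intro s _ x hx
  obtain ⟨y, rfl⟩ := IntermediateField.mem_bot.1 hx
  rw [s.commutes]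
  exact (⊥ : IntermediateField F Ω).algebraMap_mem y

/-- Chunk V1a (S/M). The data RV of H13X for π = p, l = p, N = F. PROOF. Dat: dta, hin, dvd_rfl. above: vo V (p : 𝓞 F) = V p (H13X or H55K: vo_nat). pt: T in Tor act p, T ≠ 0: gi_gen or CMA.gen; t = tt T. e0 (p - 1) = Nm p - 1: Nm_nat: p² - 1 = (p + 1)(p - 1). Nb p ⊥: fin; inert: H13X.fix_bot; res: H13X.nb_res (XNB.lean, for the base field ⊥), or nb_of with L₀ = ⊥ (⊥/⊥ is Galois of degree 1; UnrP from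
dta.unr). -/
theorem v1_rv (dta : Dta A B Om j act mo ψ p) (hin : Prime (p : 𝓞 F)) (hV : V.valuation (p : Ω) < 1) :
    ∃ t : Ω, RV A B Om j act mo ψ (p : 𝓞 F) p (⊥ : IntermediateField F Ω) V t (p + 1) := by
  obtain ⟨-, T₀, hT, -, h0⟩ := gi_gen dta.cma (p : 𝓞 F) hin
  have hnf : NumberField (⊥ : IntermediateField F Ω) := NumberField.of_module_finite F _
  refine ⟨tt T₀, ⟨⟨dta, hin, dvd_rfl⟩, by rw [vo_nat]; exact hV, ⟨T₀, hT, ?_, rfl⟩, ?_⟩, ⟨inferInstance, ?_, ?_⟩⟩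
  · intro h
    have h1 := (h0 1).1 (by rw [h, map_zero])
    exact hin.not_isUnit (isUnit_of_dvd_one h1)
  · rw [H55K.Nm_nat]
    have h5 := dta.five
    obtain ⟨m, rfl⟩ : ∃ m, p = m + 1 := ⟨p - 1, by omega⟩
    have e1 : (m + 1) ^ 2 = (m + 1 + 1) * m + 1 := by ring
    rw [e1]
    simp
  · intro V' _ s _
    exact fix_bot s
  · intro V' β hβ h1 h2
    exact nb_res dta.prime (v1_bot p) (le_refl _) V' β hβ h1 h2

/-- Chunk V1b (S). Nm (p : 𝓞 F) = p², cj p = p, Tor act p = the points killed by p. -/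
theorem v1_tor (act : 𝓞 F →+* AddMonoid.End (Pt (WAB A B) Ω)) (p : ℕ) : Nm (p : 𝓞 F) = p ^ 2 ∧ cj (p : 𝓞 F) = p ∧
    ∀ T : Pt (WAB A B) Ω, T ∈ Tor act (p : 𝓞 F) ↔ p • T = 0 := by
  refine ⟨H55K.Nm_nat p, H55K.cj_nat p, fun T => ?_⟩
  have h1 : T ∈ Tor act (p : 𝓞 F) ↔ act (p : 𝓞 F) T = 0 := Iff.rfl
  rw [h1, map_natCast, AddMonoid.End.natCast_apply]

/-- Chunk V1c (S). RB.exists_inert (XR1.lean) with a = 2 (p ≥ 5 does not divide 2: the norm 4 is not divisible by p² , or hin and the residue ring has characteristic p). act 2 T = 2 • T. -/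
theorem v1_z (dta : Dta A B Om j act mo ψ p) (hin : Prime (p : 𝓞 F)) (hV : V.valuation (p : Ω) < 1) :
    ∃ z : Ω ≃ₐ[F] Ω, Inert V z ∧ Dec V z ∧ ∀ T : PM act, p • T = 0 → aM act z T = (2 : ℕ) • T := by
  obtain ⟨t, R⟩ := v1_rv dta hin hV
  have h2 : ¬ (p : 𝓞 F) ∣ ((2 : ℕ) : 𝓞 F) := by
    rintro ⟨c, hc⟩
    have h3 := congrArg (Nm (F := F)) hc
    rw [H55K.Nm_mul, H55K.Nm_nat, H55K.Nm_nat] at h3
    have h5 := dta.five
    have h6 : Nm c ≠ 0 := by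
      intro h0
      rw [h0] at h3
      omega
    have h7 : 1 ≤ Nm c := Nat.one_le_iff_ne_zero.2 h6
    nlinarith
  obtain ⟨z, hz, hz2⟩ := R.base.exists_inert h2
  refine ⟨z, hz, ?_, fun T hT => ?_⟩
  · exact Inert.dec hz
  · have h3 : (show Pt (WAB A B) Ω from T) ∈ Tor act (p : 𝓞 F) := ((v1_tor act p).2.2 T).2 hT
    have h4 := hz2 T h3
    have h5 : act ((2 : ℕ) : 𝓞 F) T = (2 : ℕ) • (show Pt (WAB A B) Ω from T) := by
      rw [map_natCast]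
      exact AddMonoid.End.natCast_apply _ _
    exact h4.trans h5

end H16S
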