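import Mathlib
import Pool.Agent.Lib.H16S.VD
import Pool.Agent.Lib.H35L.C0D

/-! # H16S, chunk V2 (S/M): the classes killed by p and fixed by gamma -/

open NumberField IsDedekindDomain WeierstrassCurve

namespace H16S

open H55P (IQ Pt ac Inert Dec Nm)
open H35P (WAB Ker tt)
open H55K (Tor ak xc yc CMA Dta GV cj)
open H55K.S
open H13X
open H35L (Gc Gen dV PM aM AM gm1 SH SN FA Cm WM opM LI LI_conj LocP)

variable {F : Type} [Field F] [NumberField F] [IQ F] {A B : F} {Om : ℂ} {Ω : Type} [Field Ω] [DecidableEq Ω]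
  [Algebra F Ω] [IsAlgClosure F Ω] {j : Ω →+* ℂ} {act : 𝓞 F →+* AddMonoid.End (Pt (WAB A B) Ω)} {mo : Ideal (𝓞 F)}
  {ψ : Ideal (𝓞 F) →*₀ 𝓞 F} {V : ValuationSubring Ω} {p : ℕ}

omit [NumberField F] [IQ F] [IsAlgClosure F Ω] in
theorem v2_inj (s : Ω ≃ₐ[F] Ω) {P Q : PM act} (h : aM act s P = aM act s Q) : P = Q := by
  have h1 : ∀ R : PM act, aM act s⁻¹ (aM act s R) = R := by
    intro R
    rw [← H35L.aM_mul, inv_mul_cancel, H35L.aM_one]
  rw [← h1 P, h, h1 Q]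

/-- Chunk V2 (S/M). PROOF. w.1 is a function with IsCls act p (SH act (dV V) p) LI (SN (dV V) p) w.1 (w.2). tor: h1 evaluated at h (Submodule smul, Pi). opM w = w evaluated at h (definition of opM, tr: the value at h in SH is aM γ⁻¹⁻¹ (w (γ⁻¹ h γ⁻¹⁻¹)) = γ w(γ⁻¹ h γ)): w(γ h γ⁻¹) = γ w(h) for h in SH (apply to γ h γ⁻¹, which is in
SH: H35L.FA_conj). eqv holds for SN m, some m (IsCls.eqv). s in Dec V: H35L.gc_gen (n := 0, gc_zero): γ^k s is in SN m for some k. So it holds for γ^k s and for γ^k (induction), hence for s: f(γ^k (s h s⁻¹) γ^-k) = γ^k f(s h s⁻¹) = (γ^k s) f(h), and aM (γ^k) is injective. -/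
theorem v2 (hp : p.Prime) (h3 : 3 ≤ p) (hc : Cm act) {γ : Ω ≃ₐ[F] Ω} (hγ : γ ∈ dV V) (hg : Gen p γ) (w : WM act hc p V) (h1 : p • w = 0)
    (h2 : opM act hc p LI_conj hγ w = w) : V0 act p V w.1 := by
  classical
  have hw : H35L.IsCls act p (SH act (dV V) p) LI (SN (dV V) p) w.1 := w.2
  have e1 : ∀ h, SH act (dV V) p h → aM act γ (w.1 (γ⁻¹ * h * γ)) = w.1 h := by
    intro h hh
    have h4 := congrFun (congrArg Subtype.val h2) h
    have h5 : (opM act hc p LI_conj hγ w).1 h = aM act γ⁻¹⁻¹ (w.1 (γ⁻¹ * h * γ⁻¹⁻¹)) := if_pos hh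
    rw [h5, inv_inv] at h4
    exact h4
  have hcj : ∀ s : Ω ≃ₐ[F] Ω, s ∈ dV V → ∀ h, SH act (dV V) p h → SH act (dV V) p (s * h * s⁻¹) := fun s hs h hh =>
    ⟨mul_mem (mul_mem hs hh.1) (inv_mem hs), H35L.FA_conj act hh.2 _⟩
  have e2 : ∀ h, SH act (dV V) p h → w.1 (γ * h * γ⁻¹) = aM act γ (w.1 h) := by
    intro h hh
    rw [← e1 (γ * h * γ⁻¹) (hcj γ hγ h hh)]
    congr 2
    group
  have e3 : ∀ k : ℕ, ∀ h, SH act (dV V) p h → w.1 (γ ^ k * h * (γ ^ k)⁻¹) = aM act (γ ^ k) (w.1 h) := by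
    intro k
    induction k with
    | zero =>
      intro h hh
      rw [pow_zero, H35L.aM_one, one_mul, inv_one, mul_one]
    | succ k ih =>
      intro h hh
      have h5 : γ ^ (k + 1) * h * (γ ^ (k + 1))⁻¹ = γ * (γ ^ k * h * (γ ^ k)⁻¹) * γ⁻¹ := by
        rw [pow_succ']
        group
      rw [h5, e2 _ (hcj _ (pow_mem hγ k) h hh), ih h hh, ← H35L.aM_mul, ← pow_succ']
  refine ⟨hw.out, hw.mul, fun h => congrFun (congrArg Subtype.val h1) h, hw.cont, ?_⟩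
  intro s hs h hh
  obtain ⟨m, hm⟩ := hw.eqv
  obtain ⟨i, hi⟩ := H35L.gc_gen hp h3 hg (Nat.zero_le m) (H35L.gc_zero hp s)
  rw [pow_zero, mul_one] at hi
  have h4 := hm (γ ^ i * s) ⟨mul_mem (pow_mem hγ i) hs, hi⟩ h hh
  have h5 : γ ^ i * s * h * (γ ^ i * s)⁻¹ = γ ^ i * (s * h * s⁻¹) * (γ ^ i)⁻¹ := by group
  rw [h5, e3 i _ (hcj s hs h hh), H35L.aM_mul] at h4
  exact v2_inj _ h4

end H16S
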