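import Mathlib
import Pool.Agent.Lib.H16S.VD

/-! # H16S, chunk V3 (M): the extension of a class to a cocycle -/

open NumberField IsDedekindDomain WeierstrassCurve

namespace H16S

open H55P (IQ Pt ac Inert Dec Nm)
open H35P (WAB Ker tt)
open H55K (Tor ak xc yc CMA Dta GV cj)
open H55K.S
open H13X
open H35L (Gc Gen dV PM aM AM gm1 SH SN FA Cm WM opM LI LI_conj LocP)

variable {F : Type} [Field F] [NumberField F] [IQ F] {A B : F} {Om : ℂ} {Ω : Type} [Field Ω] [DecidableEq Ω]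
  [Algebra F Ω] [IsAlgClosure F Ω] {j : Ω →+* ℂ} {act : 𝓞 F →+* AddMonoid.End (Pt (WAB A B) Ω)} {mo : Ideal (𝓞 F)}
  {ψ : Ideal (𝓞 F) →*₀ 𝓞 F} {V : ValuationSubring Ω} {p : ℕ}

omit [NumberField F] [IQ F] [IsAlgClosure F Ω] in
theorem v3_fainv {s : Ω ≃ₐ[F] Ω} (hs : FA act p s) : FA act p s⁻¹ := by
  intro P hP
  have h1 : aM act s⁻¹ (aM act s P) = P := by rw [← H35L.aM_mul, inv_mul_cancel, H35L.aM_one]
  rwa [hs P hP] at h1

theorem v3_sh (dta : Dta A B Om j act mo ψ p) {z g : Ω ≃ₐ[F] Ω} (hz : Dec V z) (hg : Dec V g) : SH act (dV V) p (z * g * z⁻¹ * g⁻¹) :=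
  ⟨Dec.mul' (Dec.mul' (Dec.mul' hz hg) (Dec.inv' hz)) (Dec.inv' hg), H35L.fa_comm dta z g⟩

/-- Chunk V3a (S/M). PROOF. u(g) = z g z⁻¹ g⁻¹ is in SH: in Dec V (H13X.Dec.mul', Dec.inv'; dV V = H55P.decS) and FA (H35L.fa_comm). u(g g') = u(g) (g u(g') g⁻¹). f(u(g g')) = f(u(g)) + f(g u(g') g⁻¹) = f(u(g)) + g f(u(g')) (mul, eqv; g u g⁻¹ in SH: H35L.FA_conj). Values: f h is killed by p = cj p (H55K.cj_nat), Tor = kernel of act p (map_natCast).
DecN ⊥ V g ↔ Dec V g. -/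
theorem v3_dc (dta : Dta A B Om j act mo ψ p) {z : Ω ≃ₐ[F] Ω} (hz : Dec V z) {f : (Ω ≃ₐ[F] Ω) → PM act} (hf : V0 act p V f) :
    Dc act (p : 𝓞 F) (⊥ : IntermediateField F Ω) V (ext z f) := by
  refine ⟨?_, ?_⟩
  · intro s hs t ht
    have h1 : z * (s * t) * z⁻¹ * (s * t)⁻¹ = (z * s * z⁻¹ * s⁻¹) * (s * (z * t * z⁻¹ * t⁻¹) * s⁻¹) := by group
    have h2 := v3_sh dta hz ht.2
    have h3 : SH act (dV V) p (s * (z * t * z⁻¹ * t⁻¹) * s⁻¹) :=
      ⟨Dec.mul' (Dec.mul' hs.2 h2.1) (Dec.inv' hs.2), H35L.FA_conj act h2.2 _⟩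
    have h4 := hf.mul _ (v3_sh dta hz hs.2) _ h3
    rw [← h1, hf.eqv s hs.2 _ h2] at h4
    exact h4
  · intro s hs
    show act (cj (p : 𝓞 F)) (ext z f s) = 0
    rw [H55K.cj_nat, map_natCast, AddMonoid.End.natCast_apply]
    exact hf.tor _

/-- Chunk V3b (S/M). On SH the extension is f: h in SH: u(h) = (z h z⁻¹) h⁻¹, f(u(h)) = f(z h z⁻¹) - f(h) = z f(h) - f(h) = 2 f(h) - f(h) (f h⁻¹ = - f h; f h is killed by p). -/
theorem v3_res (dta : Dta A B Om j act mo ψ p) {z : Ω ≃ₐ[F] Ω} (hz : Dec V z) (hz2 : ∀ T : PM act, p • T = 0 → aM act z T = (2 : ℕ) • T)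
    {f : (Ω ≃ₐ[F] Ω) → PM act} (hf : V0 act p V f) {h : Ω ≃ₐ[F] Ω} (hh : SH act (dV V) p h) : ext z f h = f h := by
  have h1 : SH act (dV V) p (1 : Ω ≃ₐ[F] Ω) := ⟨one_mem _, fun P _ => H35L.aM_one act P⟩
  have hi : SH act (dV V) p h⁻¹ := ⟨inv_mem hh.1, v3_fainv hh.2⟩
  have h2 : f 1 = 0 := by
    have h3 := hf.mul 1 h1 1 h1
    rw [mul_one] at h3
    exact left_eq_add.1 h3
  have h4 : f h⁻¹ = - f h := by
    have h5 := hf.mul h hh h⁻¹ hi
    rw [mul_inv_cancel, h2] at h5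
    exact (neg_eq_of_add_eq_zero_right h5.symm).symm
  have hzV : z ∈ dV V := hz
  have h6 : SH act (dV V) p (z * h * z⁻¹) := ⟨mul_mem (mul_mem hzV hh.1) (inv_mem hzV), H35L.FA_conj act hh.2 _⟩
  have h7 : f (z * h * z⁻¹ * h⁻¹) = f h := by
    rw [hf.mul _ h6 _ hi, hf.eqv z hzV h hh, h4, hz2 _ (hf.tor h), two_smul, add_neg_cancel_right]
  exact h7

/-- Chunk V3c (S/M). Continuity: L from hf.cont, L' = the normal closure of L (IntermediateField.normalClosure F L Ω: finite, normal): g in L'.fixingSubgroup: z g z⁻¹ and g⁻¹ fix L' (z⁻¹ maps L' to itself), so u(g) fixes L. -/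
theorem v3_cont (dta : Dta A B Om j act mo ψ p) {z : Ω ≃ₐ[F] Ω} (hz : Dec V z) {f : (Ω ≃ₐ[F] Ω) → PM act} (hf : V0 act p V f) :
    ∃ L : IntermediateField F Ω, FiniteDimensional F L ∧ ∀ g, Dec V g → g ∈ L.fixingSubgroup → ext z f g = 0 := by
  obtain ⟨L, hL, h1⟩ := hf.cont
  have hac : IsAlgClosed Ω := IsAlgClosure.isAlgClosed F
  have hal : Algebra.IsAlgebraic F Ω := IsAlgClosure.isAlgebraic
  have hnΩ : Normal F Ω := IsAlgClosure.normal F Ω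
  have hn : Normal F (IntermediateField.normalClosure F L Ω) := normalClosure.normal F L Ω
  refine ⟨IntermediateField.normalClosure F L Ω, inferInstance, fun g hg hgL => ?_⟩
  refine h1 _ (v3_sh dta hz hg) ?_
  rw [IntermediateField.mem_fixingSubgroup_iff] at hgL ⊢
  intro x hx
  have hx' : x ∈ IntermediateField.normalClosure F L Ω := L.le_normalClosure hx
  have h2 : g⁻¹ x = x := by
    have h3 : g⁻¹ (g x) = x := g.symm_apply_apply x
    rwa [hgL x hx'] at h3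
  have h4 : z⁻¹ x ∈ IntermediateField.normalClosure F L Ω := by
    rw [IntermediateField.normal_iff_forall_map_le'] at hn
    exact hn z⁻¹ ⟨x, hx', rfl⟩
  show z (g (z⁻¹ (g⁻¹ x))) = x
  rw [h2, hgL _ h4]
  exact z.apply_symm_apply x

end H16S
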