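import Mathlib
import Pool.Agent.Lib.H16S.VD
import Pool.Agent.Lib.H13S.KU1

/-! # H16S, chunk V4 (M): Kummer generators over the decomposition field -/

open NumberField IsDedekindDomain WeierstrassCurve

namespace H16S

open H55P (IQ Pt ac Inert Dec Nm)
open H35P (WAB Ker tt)
open H55K (Tor ak xc yc CMA Dta GV cj)
open H55K.S
open H13X
open H35L (Gc Gen dV PM aM AM gm1 SH SN FA Cm WM opM LI LI_conj LocP)

variable {F : Type} [Field F] [NumberField F] [IQ F] {A B : F} {Om : ℂ} {Ω : Type} [Field Ω] [DecidableEq Ω]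
  [Algebra F Ω] [IsAlgClosure F Ω] {j : Ω →+* ℂ} {act : 𝓞 F →+* AddMonoid.End (Pt (WAB A B) Ω)} {mo : Ideal (𝓞 F)}
  {ψ : Ideal (𝓞 F) →*₀ 𝓞 F} {V : ValuationSubring Ω} {p : ℕ}

/-- A condition on one value is closed. -/
theorem v4_clo {F : Type} [Field F] {Ω : Type} [Field Ω] [Algebra F Ω] [Algebra.IsAlgebraic F Ω] (P : Ω → Prop) (x : Ω) :
    IsClosed {s : Ω ≃ₐ[F] Ω | P (s x)} := by
  have hal : Algebra.IsAlgebraic F Ω := inferInstance
  have hop : ∀ Q : Ω → Prop, IsOpen {s : Ω ≃ₐ[F] Ω | Q (s x)} := by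
    intro Q
    rw [isOpen_iff_mem_nhds]
    intro s0 hs0
    have hfd : FiniteDimensional F (IntermediateField.adjoin F {x}) :=
      IntermediateField.adjoin.finiteDimensional (hal.isAlgebraic x).isIntegral
    have hU : IsOpen ((IntermediateField.adjoin F {x}).fixingSubgroup : Set (Ω ≃ₐ[F] Ω)) :=
      IntermediateField.fixingSubgroup_isOpen _
    have h1 : IsOpen ((fun s : Ω ≃ₐ[F] Ω => s0⁻¹ * s) ⁻¹' ((IntermediateField.adjoin F {x}).fixingSubgroup : Set (Ω ≃ₐ[F] Ω))) :=
      hU.preimage (continuous_const.mul continuous_id)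
    refine Filter.mem_of_superset (h1.mem_nhds ?_) ?_
    · show s0⁻¹ * s0 ∈ (IntermediateField.adjoin F {x}).fixingSubgroup
      rw [inv_mul_cancel]
      exact one_mem _
    · intro s hs
      have h2 := (IntermediateField.mem_fixingSubgroup_iff _ _).1 hs x (IntermediateField.mem_adjoin_simple_self F x)
      have h4 : s0 ((s0⁻¹ * s) x) = s x := s0.apply_symm_apply (s x)
      rw [h2] at h4
      show Q (s x)
      rw [← h4]
      exact hs0
  have h := (hop (fun y => ¬ P y)).isClosed_compl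
  have e : {s : Ω ≃ₐ[F] Ω | ¬ P (s x)}ᶜ = {s : Ω ≃ₐ[F] Ω | P (s x)} := by
    ext s
    simp
  rwa [e] at h

/-- Chunk V4a (M). The group DT of the elements of Dec V fixing the points killed by p is a closed subgroup of Gal(Ω/F): every element fixing its fixed field belongs to it. PROOF. Ω/F is Galois (algebraic closure in characteristic 0). InfiniteGalois.fixingSubgroup_fixedField for a closed subgroup. Closed: the complement is open: if s is not in Dec V there is x with not (s x in V ↔ x in V), and all s' with s' x = s x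
(an open set: a coset of the group fixing F(x), krullTopology) are not in Dec V; if s moves a point T (coordinates x, y) the same with F(x, y) (H13X.lp_adj: elements fixing the coordinates fix the point). -/
theorem v4_closed (act : 𝓞 F →+* AddMonoid.End (Pt (WAB A B) Ω)) (π : 𝓞 F) (V : ValuationSubring Ω) :
    ∃ K : IntermediateField F Ω, ∀ s : Ω ≃ₐ[F] Ω, s ∈ K.fixingSubgroup ↔ DT act π (⊥ : IntermediateField F Ω) V s := by
  have hal : Algebra.IsAlgebraic F Ω := IsAlgClosure.isAlgebraic
  have hN : Normal F Ω := IsAlgClosure.normal F Ω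
  have hG : IsGalois F Ω := ⟨⟩
  let H : Subgroup (Ω ≃ₐ[F] Ω) :=
    { carrier := {s | DT act π (⊥ : IntermediateField F Ω) V s}
      mul_mem' := fun {a b} ha hb => ⟨ha.1.mul hb.1, fun T hT => by rw [ac_mul, hb.2 T hT, ha.2 T hT]⟩
      one_mem' := ⟨⟨one_mem _, fun x => Iff.rfl⟩, fun T _ => ac_one T⟩
      inv_mem' := fun {a} ha => ⟨ha.1.inv, fun T hT => by
        have h2 : ac (WAB A B) a⁻¹ (ac (WAB A B) a T) = T := by
          rw [← ac_mul, inv_mul_cancel, ac_one]
        rwa [ha.2 T hT] at h2⟩ }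
  have hT : ∀ T : Pt (WAB A B) Ω, IsClosed {s : Ω ≃ₐ[F] Ω | ac (WAB A B) s T = T} := by
    intro T
    have e : {s : Ω ≃ₐ[F] Ω | ac (WAB A B) s T = T} = {s : Ω ≃ₐ[F] Ω | s (xc T) = xc T} ∩ {s : Ω ≃ₐ[F] Ω | s (yc T) = yc T} := by
      ext s
      constructor
      · intro h
        have h : ac (WAB A B) s T = T := h
        refine ⟨?_, ?_⟩
        · show s (xc T) = xc T
          rw [← xc_ac, h]
        · show s (yc T) = yc T
          rw [← yc_ac, h]
      · intro h
        exact lp_fix s h.1 h.2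
    rw [e]
    exact (v4_clo (fun z => z = xc T) (xc T)).inter (v4_clo (fun z => z = yc T) (yc T))
  have hcl : IsClosed (H : Set (Ω ≃ₐ[F] Ω)) := by
    have e : (H : Set (Ω ≃ₐ[F] Ω)) = ((⋂ x : Ω, {s : Ω ≃ₐ[F] Ω | s x ∈ V ↔ x ∈ V}) ∩
        ⋂ T : {T : Pt (WAB A B) Ω // T ∈ Tor act π}, {s : Ω ≃ₐ[F] Ω | ac (WAB A B) s T.1 = T.1}) := by
      ext s
      constructor
      · intro h
        have h : DT act π (⊥ : IntermediateField F Ω) V s := h
        exact ⟨Set.mem_iInter.2 fun x => h.1.2 x, Set.mem_iInter.2 fun T => h.2 T.1 T.2⟩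
      · intro h
        refine ⟨⟨?_, fun x => Set.mem_iInter.1 h.1 x⟩, fun T hT => Set.mem_iInter.1 h.2 ⟨T, hT⟩⟩
        rw [IntermediateField.fixingSubgroup_bot]
        exact Subgroup.mem_top s
    rw [e]
    exact (isClosed_iInter fun x => v4_clo (fun z => z ∈ V ↔ x ∈ V) x).inter (isClosed_iInter fun T => hT T.1)
  refine ⟨IntermediateField.fixedField H, fun s => ?_⟩
  have h1 := InfiniteGalois.fixingSubgroup_fixedField (k := F) (K := Ω) (⟨H, hcl⟩ : ClosedSubgroup (Ω ≃ₐ[F] Ω))
  have h2 : (IntermediateField.fixedField H).fixingSubgroup = H := h1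
  rw [h2]
  exact Iff.rfl

/-- Chunk V4b (M). PROOF. K from v4_closed. T in Tor act π. u(s) = e (c s) T for s in Gal(Ω/K) (as elements of Gal(Ω/F): AlgEquiv.restrictScalars F; they are in DT): u(s t) = e (c s + s (c t)) T = u(s) * e (s c t) (s T) = u(s) * s (u t) (add_left, gal; s T = T). u(s)^l = 1, so u(s) ≠ 0 and the values lie in the finite set S₀ of the l-th roots of unity.
H13S.ku1_h90 with k = K (Normal: IsAlgClosure.normal for K, Ω or IsGalois.tower_top) and S = S₀ and a finite set of generators of L: hS2 requires that elements fixing S map to 1: S = S₀ ∪ (a finite set generating L over F), L from hcont; then s fixes L and c s = 0, e 0 T = 1 (lk_e0 or add_left). S is finite: L finite over F, L = adjoin of a finite set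
(IntermediateField.FG or a basis). y from ku1_h90: y ≠ 0, s y = u(s) y. Every s in DT is the restriction of such an element (IntermediateField.fixingSubgroupEquiv K). Choose y for each T; y T = 1 outside Tor. -/
theorem v4_ks {π : 𝓞 F} {l : ℕ} (D : Dat A B Om j act mo ψ π l) {e : Pt (WAB A B) Ω → Pt (WAB A B) Ω → Ω} (he : Pairing A B act π l e)
    {c : (Ω ≃ₐ[F] Ω) → Pt (WAB A B) Ω} (hc : Dc act π (⊥ : IntermediateField F Ω) V c)
    (hcont : ∃ L : IntermediateField F Ω, FiniteDimensional F L ∧ ∀ g, Dec V g → g ∈ L.fixingSubgroup → c g = 0) :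
    ∃ y : Pt (WAB A B) Ω → Ω, KS act π (⊥ : IntermediateField F Ω) V e c y := by
  classical
  obtain ⟨K, hK⟩ := v4_closed (V := V) act π
  obtain ⟨E₁, hE₁, hc₁⟩ := hcont
  have hNF : Normal F Ω := IsAlgClosure.normal F Ω
  have hNL : Normal K Ω := Normal.tower_top_of_normal F K Ω
  have hl0 : 0 < l := D.hl.pos
  have key : ∀ T : Pt (WAB A B) Ω, ∃ y : Ω, T ∈ Tor act π → y ≠ 0 ∧
      ∀ s, DT act π (⊥ : IntermediateField F Ω) V s → s y = e (c s) T * y := by
    intro T
    by_cases hT : T ∈ Tor act π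
    swap
    · exact ⟨1, fun h => absurd h hT⟩
    let b := Module.finBasis F E₁
    let S : Set Ω := Set.range (fun i => ((b i : E₁) : Ω)) ∪ {x : Ω | x ^ l = 1}
    have hfr : {x : Ω | x ^ l = 1}.Finite := by
      have h1 := (Polynomial.nthRoots l (1 : Ω)).toFinset.finite_toSet
      refine h1.subset fun x hx => ?_
      rw [Finset.mem_coe, Multiset.mem_toFinset, Polynomial.mem_nthRoots hl0]
      exact hx
    have hSf : Finite S := ((Set.finite_range _).union hfr).to_subtype
    have hDT : ∀ s : Ω ≃ₐ[K] Ω, DT act π (⊥ : IntermediateField F Ω) V (s.restrictScalars F) := by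
      intro s
      refine (hK _).1 ?_
      rw [IntermediateField.mem_fixingSubgroup_iff]
      intro x hx
      exact s.commutes ⟨x, hx⟩
    have hval : ∀ s : Ω ≃ₐ[K] Ω, c (s.restrictScalars F) ∈ Tor act (cj π) := fun s => hc.val _ (hDT s).1
    have h0 : ∀ s : Ω ≃ₐ[K] Ω, e (c (s.restrictScalars F)) T ≠ 0 := fun s => lk_ne D he (hval s) hT
    have hcoc : ∀ s t : Ω ≃ₐ[K] Ω, e (c ((s * t).restrictScalars F)) T =
        e (c (s.restrictScalars F)) T * s (e (c (t.restrictScalars F)) T) := by
      intro s t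
      have h1 : (s * t).restrictScalars F = s.restrictScalars F * t.restrictScalars F := rfl
      rw [h1, hc.mul _ (hDT s).1 _ (hDT t).1, he.add_left _ (hval s) _ (ac_mem D.cma _ (hval t)) T hT]
      congr 1
      have h2 := he.gal (s.restrictScalars F) _ (hval t) T hT
      rw [(hDT s).2 T hT] at h2
      exact h2.symm
    have htriv : ∀ n : Ω ≃ₐ[K] Ω, (∀ x ∈ S, n x = x) → e (c (n.restrictScalars F)) T = 1 := by
      intro n hn
      have h1 : n.restrictScalars F ∈ E₁.fixingSubgroup := by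
        rw [IntermediateField.mem_fixingSubgroup_iff]
        intro x hx
        have h2 := b.sum_repr ⟨x, hx⟩
        have h3 : x = ∑ i, (b.repr ⟨x, hx⟩ i) • ((b i : E₁) : Ω) := by
          have h4 := congrArg (fun z : E₁ => (z : Ω)) h2
          refine h4.symm.trans ?_
          push_cast
          rfl
        rw [h3, map_sum]
        refine Finset.sum_congr rfl fun i _ => ?_
        rw [map_smul]
        congr 1
        exact hn _ (Or.inl ⟨i, rfl⟩)
      have h2 := hc₁ _ (hDT n).1.2 h1
      rw [h2]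
      have h3 := he.add_left 0 (zero_mem _) 0 (zero_mem _) T hT
      rw [add_zero] at h3
      have h5 : e 0 T ≠ 0 := lk_ne D he (zero_mem _) hT
      exact (mul_eq_left₀ h5).1 h3.symm
    obtain ⟨y, hy0, hy⟩ := H13S.ku1_h90 (k := K) (Ω := Ω) (fun s => e (c (s.restrictScalars F)) T) h0 hcoc S
      (fun s => Or.inr (he.root _ (hval s) T hT)) htriv
    refine ⟨y, fun _ => ⟨hy0, fun s hs => ?_⟩⟩
    exact hy (IntermediateField.fixingSubgroupEquiv K ⟨s, (hK s).2 hs⟩)
  choose y hy using key
  exact ⟨y, fun T hT => (hy T hT).1, fun T hT s hs => (hy T hT).2 s hs⟩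

end H16S
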