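import Mathlib
import Pool.Agent.Lib.H16S.VD

/-! # H16S, chunk V5 (M): the first level -/

open NumberField IsDedekindDomain WeierstrassCurve

namespace H16S

open H55P (IQ Pt ac Inert Dec Nm)
open H35P (WAB Ker tt)
open H55K (Tor ak xc yc CMA Dta GV cj)
open H55K.S
open H13X
open H35L (Gc Gen dV PM aM AM gm1 SH SN FA Cm WM opM LI LI_conj LocP)

variable {F : Type} [Field F] [NumberField F] [IQ F] {A B : F} {Om : ℂ} {Ω : Type} [Field Ω] [DecidableEq Ω]
  [Algebra F Ω] [IsAlgClosure F Ω] {j : Ω →+* ℂ} {act : 𝓞 F →+* AddMonoid.End (Pt (WAB A B) Ω)} {mo : Ideal (𝓞 F)}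
  {ψ : Ideal (𝓞 F) →*₀ 𝓞 F} {V : ValuationSubring Ω} {p : ℕ}

/-- Powers of the value of t are equal only for equal exponents. -/
theorem v5_exp {t : Ω} (h0 : V.valuation t ≠ 0) (h1 : V.valuation t < 1) {n k : ℤ} (h : V.valuation t ^ n = V.valuation t ^ k) :
    n = k := by
  have hp : 0 < V.valuation t := zero_lt_iff.2 h0
  rcases lt_trichotomy n k with h2 | h2 | h2
  · exact absurd h (zpow_lt_zpow_right_of_lt_one₀ hp h1 h2).ne'
  · exact h2
  · exact absurd h (zpow_lt_zpow_right_of_lt_one₀ hp h1 h2).ne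

/-- Chunk V5 (M). Every equivariant system has level 1. PROOF. T in Tor act π. R.values: V (m T) = V t^n(T) (V t < 1, ≠ 0: R.base.val_l, so n is unique). hm.add: n(T + T') = n(T) + n(T') modulo l (the value of z is a power of V t: R.values). R.base.exists_inert with a = 2 (π does not divide 2: l ≥ 5 and 2 = unit at V: otherwise V 2 < 1 and V l < 1): s in Inert V with
s T = act 2 T = T + T; hm.gal: V (m (s T)) = V (s (m T)) V(z)^l = V (m T) V(z)^l (H13X.Dec.val): n(2T) = n(T) modulo l. So 2 n(T) = n(T), n(T) = 0 modulo l: n(T) = l k. u = m T/t^(l k) is in Hx (yc1_hx for t, Hx.div, Hx.zpow) and V u = 1. R.residue: a in N, V (u - a) < 1, V a = 1. R.nb.res (β = π): q = Nm π^f, V (a^q - a) < 1; l divides q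
(Nm π = l or l²): b = a^(q/l) in N, V (b^l - a) < 1, V b = 1. z = t^k b: m T/z^l - 1 = (u - b^l)/b^l has value < 1 = V t^0: R.step (i = 0) gives ≤ V t^1. -/
theorem v5 {π : 𝓞 F} {l e0 : ℕ} {t : Ω} {N : IntermediateField F Ω} (R : RV A B Om j act mo ψ π l N V t e0) {m : Pt (WAB A B) Ω → Ω}
    (hm : Sys act π l N V m) : ∀ T ∈ Tor act π, Lv act π l N V (V.valuation t ^ 1) (m T) := by
  intro T hT
  obtain ⟨-, -, ht1, ht0, -, hNm⟩ := R.base.val_l
  have htp : 0 < V.valuation t := zero_lt_iff.2 ht0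
  have ht0' : t ≠ 0 := by
    rintro rfl
    exact ht0 (map_zero _)
  have hl5 := R.base.D.five
  have hlV := R.lt
  -- an inertia element acting as 2
  have h2 : ¬ π ∣ (2 : 𝓞 F) := by
    rw [← R.base.vo_lt]
    have e1 : vo V (2 : 𝓞 F) = V.valuation (2 : Ω) := by
      have := vo_nat (F := F) V 2
      simpa using this
    rw [e1, R.base.gv.two]
    exact lt_irrefl _
  obtain ⟨s, hsI, hs⟩ := R.base.exists_inert h2
  have hact : act (2 : 𝓞 F) T = T + T := by
    have e1 : (2 : 𝓞 F) = 1 + 1 := by norm_num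
    rw [e1, map_add, map_one]
    rfl
  have hsT : ac (WAB A B) s T = T + T := (hs T hT).trans hact
  have hD : Dec V s := (R.dec hsI).2
  obtain ⟨z, hz, hz0, hadd⟩ := hm.add T hT T hT
  obtain ⟨z', hz', hz0', hgal⟩ := hm.gal s (R.dec hsI) T hT
  obtain ⟨n, hn⟩ := R.values (hm.fx T hT) (hm.ne T hT)
  obtain ⟨k, hk⟩ := R.values hz hz0
  obtain ⟨k', hk'⟩ := R.values hz' hz0'
  have halg : Algebra.IsAlgebraic F Ω := IsAlgClosure.isAlgebraic
  have hval : V.valuation (s (m T)) = V.valuation (m T) := Dec.val hD (m T)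
  rw [hsT, hadd] at hgal
  have h3 := congrArg V.valuation hgal
  rw [map_mul, map_mul, map_pow, map_mul, map_pow, hval, hn, hk, hk', ← zpow_natCast, ← zpow_natCast, ← zpow_mul, ← zpow_mul,
    ← zpow_add₀ ht0, ← zpow_add₀ ht0, ← zpow_add₀ ht0] at h3
  have h4 := v5_exp ht0 ht1 h3
  obtain ⟨d, hd⟩ : ∃ d : ℤ, n = l * d := ⟨k' - k, by linear_combination h4⟩
  -- the unit u
  obtain ⟨u, hu⟩ : ∃ u, u = m T / t ^ (l * d : ℤ) := ⟨_, rfl⟩
  have huH : Hx act π N V u := by
    rw [hu]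
    exact (hm.fx T hT).div ((yc1_hx R).zpow _)
  have huV : V.valuation u = 1 := by
    rw [hu, map_div₀, map_zpow₀, hn, hd]
    exact div_self (zpow_ne_zero _ ht0)
  obtain ⟨a, haN, ha1, hua⟩ := R.residue huH huV.le
  have haV : V.valuation a = 1 := by
    have e1 : a = u - (u - a) := by ring
    rw [e1, Valuation.map_sub_eq_of_lt_left _ (by rw [huV]; exact hua), huV]
  obtain ⟨q, f, hf, hq, hres, -, -⟩ := R.nb.res V π R.base.D.pr R.base.above R.lt
  have hlq : l ∣ q := by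
    rw [hq]
    have h5 : l ∣ Nm π := by
      rcases hNm with ⟨h5, -⟩ | ⟨h5, -, -⟩
      · rw [h5]
      · rw [h5]
        exact dvd_pow_self l two_ne_zero
    exact h5.trans (dvd_pow_self _ hf.ne')
  obtain ⟨q', hq'⟩ := hlq
  have haq := hres a haN ((V.valuation_le_one_iff _).1 ha1)
  obtain ⟨b, hb⟩ : ∃ b, b = a ^ q' := ⟨_, rfl⟩
  have hbl : b ^ l = a ^ q := by rw [hb, ← pow_mul, hq', mul_comm]
  have hbN : b ∈ N := by
    rw [hb]
    exact pow_mem haN q'
  have hbV : V.valuation b = 1 := by rw [hb, map_pow, haV, one_pow]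
  have hb0 : b ≠ 0 := by
    rintro rfl
    rw [map_zero] at hbV
    exact zero_ne_one hbV
  refine ⟨t ^ d * b, ((yc1_hx R).zpow d).mul (Hx.of_mem hbN), mul_ne_zero (zpow_ne_zero _ ht0') hb0, ?_⟩
  have e1 : m T / (t ^ d * b) ^ l = u / b ^ l := by
    rw [hu, mul_pow, ← zpow_natCast, ← zpow_mul, mul_comm d, div_div]
  have hx : Hx act π N V (m T / (t ^ d * b) ^ l - 1) := by
    rw [e1]
    exact (huH.div ((Hx.of_mem hbN).pow l)).sub Hx.one
  have hlt : V.valuation (m T / (t ^ d * b) ^ l - 1) < V.valuation t ^ 0 := by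
    rw [e1, pow_zero]
    have e2 : u / b ^ l - 1 = (u - b ^ l) / b ^ l := by
      rw [sub_div, div_self (pow_ne_zero l hb0)]
    rw [e2, map_div₀, map_pow, hbV, one_pow, div_one]
    have e3 : u - b ^ l = (u - a) - (b ^ l - a) := by ring
    rw [e3]
    refine lt_of_le_of_lt (V.valuation.map_sub _ _) (max_lt hua ?_)
    rw [hbl]
    exact haq
  have h5 := R.step hx hlt
  rwa [zero_add] at h5

end H16S
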