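import Mathlib
import Pool.Agent.Lib.H16S.V3
import Pool.Agent.Lib.H16S.V4
import Pool.Agent.Lib.H16S.V5

/-! # H16S, chunk V6 (M): comparison of two classes -/

open NumberField IsDedekindDomain WeierstrassCurve

namespace H16S

open H55P (IQ Pt ac Inert Dec Nm)
open H35P (WAB Ker tt)
open H55K (Tor ak xc yc CMA Dta GV cj)
open H55K.S
open H13X
open H35L (Gc Gen dV PM aM AM gm1 SH SN FA Cm WM opM LI LI_conj LocP)

variable {F : Type} [Field F] [NumberField F] [IQ F] {A B : F} {Om : ℂ} {Ω : Type} [Field Ω] [DecidableEq Ω]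
  [Algebra F Ω] [IsAlgClosure F Ω] {j : Ω →+* ℂ} {act : 𝓞 F →+* AddMonoid.End (Pt (WAB A B) Ω)} {mo : Ideal (𝓞 F)}
  {ψ : Ideal (𝓞 F) →*₀ 𝓞 F} {V : ValuationSubring Ω} {p : ℕ}

/-- Chunk V6a (S). The coefficient at level 1 of a class exists: v3_dc, v3_cont, v4_ks, sys_of (XK.lean), v5, RV.co_exists. -/
theorem v6_ex (dta : Dta A B Om j act mo ψ p) {t : Ω} (R : RV A B Om j act mo ψ (p : 𝓞 F) p (⊥ : IntermediateField F Ω) V t (p + 1))
    {e : Pt (WAB A B) Ω → Pt (WAB A B) Ω → Ω} (he : Pairing A B act (p : 𝓞 F) p e) {z : Ω ≃ₐ[F] Ω} (hz : Dec V z)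
    {T₀ : Pt (WAB A B) Ω} (hT : T₀ ∈ Tor act (p : 𝓞 F)) {f : (Ω ≃ₐ[F] Ω) → PM act} (hf : V0 act p V f) :
    ∃ (y : Pt (WAB A B) Ω → Ω) (a : Ω), KS act (p : 𝓞 F) (⊥ : IntermediateField F Ω) V e (ext z f) y ∧
      Co act (p : 𝓞 F) p (⊥ : IntermediateField F Ω) V t 1 (y T₀ ^ p) a := by
  have D := R.base.D
  have hc := v3_dc dta hz hf
  obtain ⟨y, hy⟩ := v4_ks D he hc (v3_cont dta hz hf)
  have hm := sys_of D he hc hy
  obtain ⟨a, ha⟩ := R.co_exists (hm.fx T₀ hT) (v5 R hm T₀ hT)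
  exact ⟨y, a, hy, ha⟩

/-- Chunk V6b (M). Two classes with the same coefficient differ by a class of points. PROOF. c = ext z f, c' = ext z f' (v3_dc); the difference has the Kummer generators y/y' (ks_sub), the system (y T/y' T)^p (sys_of) with coefficient a - a' at T₀ (RV.co_inv, RV.co_mul with z = 1, as in same_coef of XL1.lean); RV.up (T₀ ≠ 0): level 2 for all T; loc_inert (XL1.lean; Nm p = p²: Nm_nat; Dc.sub):
c s - c' s = s P - P for s in Dec V. On SH: v3_res twice. p • P is fixed by Dec V: p (s P - P) = p (c s - c' s) = 0 (Dc.val; Tor is the kernel of act p, cj p = p); SN (dV V) p 0 is contained in Dec V. -/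
theorem v6 (dta : Dta A B Om j act mo ψ p) {t : Ω} (R : RV A B Om j act mo ψ (p : 𝓞 F) p (⊥ : IntermediateField F Ω) V t (p + 1))
    {e : Pt (WAB A B) Ω → Pt (WAB A B) Ω → Ω} (he : Pairing A B act (p : 𝓞 F) p e) {z : Ω ≃ₐ[F] Ω} (hz : Dec V z)
    (hz2 : ∀ T : PM act, p • T = 0 → aM act z T = (2 : ℕ) • T) {T₀ : Pt (WAB A B) Ω} (hT : T₀ ∈ Tor act (p : 𝓞 F)) (h0 : T₀ ≠ 0)
    {f f' : (Ω ≃ₐ[F] Ω) → PM act} (hf : V0 act p V f) (hf' : V0 act p V f') {y y' : Pt (WAB A B) Ω → Ω} {a a' : Ω}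
    (hy : KS act (p : 𝓞 F) (⊥ : IntermediateField F Ω) V e (ext z f) y) (hy' : KS act (p : 𝓞 F) (⊥ : IntermediateField F Ω) V e (ext z f') y')
    (ha : Co act (p : 𝓞 F) p (⊥ : IntermediateField F Ω) V t 1 (y T₀ ^ p) a)
    (ha' : Co act (p : 𝓞 F) p (⊥ : IntermediateField F Ω) V t 1 (y' T₀ ^ p) a') (hd : V.valuation (a - a') < 1) :
    ∃ P : PM act, p • P ∈ AM act p (dV V) 0 ∧ ∀ h, SH act (dV V) p h → f h - f' h = aM act h P - P := by
  have D := R.base.D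
  have hc := v3_dc dta hz hf
  have hc' := v3_dc dta hz hf'
  have hks := ks_sub D he hc hy hc' hy'
  have hm := sys_of D he (hc.sub hc') hks
  have hm' := sys_of D he hc' hy'
  have h1 := R.co_mul le_rfl ha (R.co_inv (hm'.ne T₀ hT) le_rfl ha') Hx.one one_ne_zero
  have e1 : y T₀ ^ p * (y' T₀ ^ p)⁻¹ * 1 ^ p = (y T₀ / y' T₀) ^ p := by
    rw [div_pow, one_pow, mul_one, div_eq_mul_inv]
  rw [e1, ← sub_eq_add_neg] at h1
  have h2 := R.up hm hT h0 le_rfl h1 hd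
  have hq : Nm (p : 𝓞 F) = p ^ 2 := H55K.Nm_nat p
  obtain ⟨P₀, hP⟩ := loc_inert R hq he (hc.sub hc') hks h2
  obtain ⟨P, hPe⟩ : ∃ P : PM act, P = P₀ := ⟨P₀, rfl⟩
  subst hPe
  have hdec : ∀ s : Ω ≃ₐ[F] Ω, s ∈ dV V → DecN (⊥ : IntermediateField F Ω) V s := by
    intro s hs
    refine ⟨?_, hs⟩
    rw [IntermediateField.fixingSubgroup_bot]
    exact Subgroup.mem_top s
  have hP' : ∀ s : Ω ≃ₐ[F] Ω, s ∈ dV V →
      (f (z * s * z⁻¹ * s⁻¹) - f' (z * s * z⁻¹ * s⁻¹) : PM act) = aM act s (P : PM act) - (P : PM act) :=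
    fun s hs => hP s (hdec s hs)
  refine ⟨(P : PM act), ?_, ?_⟩
  · intro s hs
    have h3 := hP' s hs.1
    have h4 : p • (aM act s (P : PM act) - (P : PM act)) = 0 := by
      rw [← h3, smul_sub, hf.tor, hf'.tor, sub_zero]
    rw [smul_sub, sub_eq_zero] at h4
    rw [map_nsmul]
    exact h4
  · intro h hh
    have h3 := hP' h hh.1
    have h5 : (f (z * h * z⁻¹ * h⁻¹) : PM act) = f h := v3_res dta hz hz2 hf hh
    have h6 : (f' (z * h * z⁻¹ * h⁻¹) : PM act) = f' h := v3_res dta hz hz2 hf' hh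
    rw [h5, h6] at h3
    exact h3

end H16S
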