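import Mathlib
import Pool.Agent.Lib.H16S.V1
import Pool.Agent.Lib.H16S.V2
import Pool.Agent.Lib.H16S.V6
import Pool.Agent.Lib.H16S.N4
import Pool.Agent.Lib.H55K.SPA2
import Pool.Agent.Lib.H35L.C0

/-! # H16S, chunk V7 (M): the number of classes -/

open NumberField IsDedekindDomain WeierstrassCurve

namespace H16S

open H55P (IQ Pt ac Inert Dec Nm)
open H35P (WAB Ker tt)
open H55K (Tor ak xc yc CMA Dta GV cj)
open H55K.S
open H13X
open H35L (Gc Gen dV PM aM AM gm1 SH SN FA Cm WM opM LI LI_conj LocP)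

variable {F : Type} [Field F] [NumberField F] [IQ F] {A B : F} {Om : ℂ} {Ω : Type} [Field Ω] [DecidableEq Ω]
  [Algebra F Ω] [IsAlgClosure F Ω] {j : Ω →+* ℂ} {act : 𝓞 F →+* AddMonoid.End (Pt (WAB A B) Ω)} {mo : Ideal (𝓞 F)}
  {ψ : Ideal (𝓞 F) →*₀ 𝓞 F} {V : ValuationSubring Ω} {p : ℕ}

/-- Chunk V7a (S/M). An element of F integral at V is congruent to one of the representatives: a in ⊥ is algebraMap x, x = b/c with b, c in 𝓞 F, V c = 1 possible (p is a prime element: remove the powers of p; n2_F style) so x = b c' modulo p for c' an inverse of c modulo p; R.ex. Or H13X.yn2_approx (XNB.lean). -/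
theorem v7_res (hin : Prime (p : 𝓞 F)) (hV : V.valuation (p : Ω) < 1) {ρ : Fin (p ^ 2) → 𝓞 F} (R : Rp p ρ) {a : Ω}
    (ha : a ∈ (⊥ : IntermediateField F Ω)) (h1 : V.valuation a ≤ 1) : ∃ k, V.valuation (a - ak Ω (ρ k)) < 1 := by
  have hnf : NumberField (⊥ : IntermediateField F Ω) := NumberField.of_module_finite F _
  have hc0 : CharZero Ω := charZero_of_injective_algebraMap (algebraMap F Ω).injective
  have hp0 : (p : Ω) ≠ 0 := by
    have h2 := hin.ne_zero
    intro h3
    apply h2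
    have h4 : p = 0 := by exact_mod_cast h3
    rw [h4, Nat.cast_zero]
  obtain ⟨w, hw⟩ := H13S.exists_below (⊥ : IntermediateField F Ω) V ⟨((p : (⊥ : IntermediateField F Ω)))⁻¹, by
    rw [← V.valuation_le_one_iff]
    have e : ((((p : (⊥ : IntermediateField F Ω)))⁻¹ : (⊥ : IntermediateField F Ω)) : Ω) = ((p : Ω))⁻¹ := rfl
    rw [e, map_inv₀, not_le]
    exact (one_lt_inv₀ (zero_lt_iff.2 ((map_ne_zero _).2 hp0))).2 hV⟩
  obtain ⟨y, hy⟩ := yn2_approx (⊥ : IntermediateField F Ω) V w hw ⟨a, ha⟩ ((V.valuation_le_one_iff _).1 h1)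
  obtain ⟨x, hx⟩ : ∃ x : F, algebraMap F Ω x = (((y : (⊥ : IntermediateField F Ω))) : Ω) :=
    IntermediateField.mem_bot.1 (y : (⊥ : IntermediateField F Ω)).2
  have hint : IsIntegral ℤ x := by
    rw [← isIntegral_algebraMap_iff (algebraMap F Ω).injective, hx]
    exact (isIntegral_algebraMap_iff (A := (⊥ : IntermediateField F Ω)) (B := Ω) (algebraMap (⊥ : IntermediateField F Ω) Ω).injective).2
      (RingOfIntegers.isIntegral_coe y)
  obtain ⟨k, hk⟩ := R.ex ⟨x, hint⟩
  refine ⟨k, ?_⟩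
  obtain ⟨d, hd⟩ := hk
  have e1 : algebraMap F Ω x - ak Ω (ρ k) = (p : Ω) * ak Ω d := by
    have e2 : (x : F) - ((ρ k : 𝓞 F) : F) = (p : F) * ((d : 𝓞 F) : F) := by
      have e3 := congrArg (fun z : 𝓞 F => (z : F)) hd
      simpa using e3
    have e4 := congrArg (algebraMap F Ω) e2
    rw [map_sub, map_mul, map_natCast] at e4
    exact e4
  have e5 : a - ak Ω (ρ k) = (a - algebraMap F Ω x) + (algebraMap F Ω x - ak Ω (ρ k)) := by ring
  rw [e5]
  refine V.valuation.map_add_lt ?_ ?_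
  · rw [hx]
    exact hy
  · rw [e1, map_mul]
    exact (mul_le_of_le_one_right' (H55K.ak_le V d)).trans_lt hV

/-- Chunk V7b (M). PROOF. S = the set of the w with p • w = 0 and opM w = w; V0 act p V w.1 (v2). RV from v1_rv, z from v1_z, e from H55K.S.exists_pairing (SPA2.lean), ρ from n4_rp, T₀ ≠ 0 in Tor act p (dta.cma.gen). For w in S: y, a from v6_ex (choose), k(w) with V (a - ρ k(w)) < 1 (v7_res; a in ⊥ and V a ≤ 1 are in Co). If k(w) = k(w') then V (a - a') < 1 and v6 applies. For every class k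
which occurs choose w_k; for w with k(w) = k: P(w) from v6 for w, w_k; Q(w) = the class of p • P(w) in M = AM 0/p AM 0. The map w ↦ (k(w), Q(w)) in Fin (p²) × M is injective: k equal, p P(w) = p P(w') + p R with R in AM 0: T = P(w) - P(w') - R is killed by p, so h T = T for h in SH (FA), h R = R (h in Dec V, H35L.gc_zero): h P(w) - P(w) = h P(w') - P(w'), so w and w' agree on SH;
outside SH both are 0 (V0.out). Nat.card M = p² (hM), so M is finite; Finite.of_injective, Nat.card_le_card_of_injective, Nat.card_prod. -/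
theorem v7 (dta : Dta A B Om j act mo ψ p) (hin : Prime (p : 𝓞 F)) (hV : V.valuation (p : Ω) < 1) (hc : Cm act) {γ : Ω ≃ₐ[F] Ω} (hγ : γ ∈ dV V)
    (hg : Gen p γ)
    (hM : Nat.card (AM act p (dV V) 0 ⧸ (AddSubgroup.map (nsmulAddMonoidHom p) (⊤ : AddSubgroup (AM act p (dV V) 0)))) = p ^ 2) :
    Finite {w : WM act hc p V // p • w = 0 ∧ opM act hc p LI_conj hγ w = w} ∧
      Nat.card {w : WM act hc p V // p • w = 0 ∧ opM act hc p LI_conj hγ w = w} ≤ (p ^ 2) ^ 2 := by
  classical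
  obtain ⟨t, R⟩ := v1_rv dta hin hV
  obtain ⟨z, -, hz, hz2⟩ := v1_z dta hin hV
  obtain ⟨e, he⟩ := H55K.S.exists_pairing (p : 𝓞 F) p dta hin dvd_rfl
  obtain ⟨ρ, hρ⟩ := n4_rp (F := F) dta.prime
  obtain ⟨-, T₀, hT₀, -, hzz⟩ := gi_gen dta.cma (p : 𝓞 F) hin
  have hT₀0 : T₀ ≠ 0 := by
    intro h
    have h1 := (hzz 1).1 (by rw [act_one, h])
    exact hin.not_isUnit (isUnit_of_dvd_one h1)
  have h3p : 3 ≤ p := by
    have := dta.five
    omega
  have hf : ∀ w : {w : WM act hc p V // p • w = 0 ∧ opM act hc p LI_conj hγ w = w}, V0 act p V w.1.1 :=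
    fun w => v2 dta.prime h3p hc hγ hg w.1 w.2.1 w.2.2
  have hex := fun w : {w : WM act hc p V // p • w = 0 ∧ opM act hc p LI_conj hγ w = w} =>
    v6_ex dta R he hz hT₀ (hf w)
  choose y a hy ha using hex
  have hk := fun w : {w : WM act hc p V // p • w = 0 ∧ opM act hc p LI_conj hγ w = w} =>
    v7_res hin hV hρ (ha w).1.1 (ha w).1.2
  choose kk hkk using hk
  have hP : ∀ w w' : {w : WM act hc p V // p • w = 0 ∧ opM act hc p LI_conj hγ w = w}, kk w = kk w' →
      ∃ P : PM act, p • P ∈ AM act p (dV V) 0 ∧ ∀ h, SH act (dV V) p h → w.1.1 h - w'.1.1 h = aM act h P - P := by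
    intro w w' hww
    refine v6 dta R he hz hz2 hT₀ hT₀0 (hf w) (hf w') (hy w) (hy w') (ha w) (ha w') ?_
    have e1 : a w - a w' = (a w - ak Ω (ρ (kk w))) - (a w' - ak Ω (ρ (kk w'))) := by
      rw [hww]
      ring
    rw [e1]
    exact lt_of_le_of_lt (V.valuation.map_sub _ _) (max_lt (hkk w) (hkk w'))
  have hMfin : Finite (AM act p (dV V) 0 ⧸ (AddSubgroup.map (nsmulAddMonoidHom p) (⊤ : AddSubgroup (AM act p (dV V) 0)))) :=
    Nat.finite_of_card_ne_zero (by rw [hM]; exact pow_ne_zero 2 dta.prime.ne_zero)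
  rcases isEmpty_or_nonempty {w : WM act hc p V // p • w = 0 ∧ opM act hc p LI_conj hγ w = w} with hE | hE
  · exact ⟨inferInstance, by rw [Nat.card_of_isEmpty]; exact Nat.zero_le _⟩
  have hbb : ∃ bb : Fin (p ^ 2) → {w : WM act hc p V // p • w = 0 ∧ opM act hc p LI_conj hγ w = w}, ∀ w, kk (bb (kk w)) = kk w := by
    refine ⟨fun k => if h : ∃ w, kk w = k then h.choose else Classical.arbitrary _, fun w => ?_⟩
    have h1 : ∃ w', kk w' = kk w := ⟨w, rfl⟩
    simp only [dif_pos h1]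
    exact h1.choose_spec
  obtain ⟨bb, hbb⟩ := hbb
  choose PP hPP1 hPP2 using fun w => hP w (bb (kk w)) (hbb w).symm
  let φ : {w : WM act hc p V // p • w = 0 ∧ opM act hc p LI_conj hγ w = w} →
      Fin (p ^ 2) × (AM act p (dV V) 0 ⧸ (AddSubgroup.map (nsmulAddMonoidHom p) (⊤ : AddSubgroup (AM act p (dV V) 0)))) :=
    fun w => (kk w, QuotientAddGroup.mk ⟨p • PP w, hPP1 w⟩)
  have hinj : Function.Injective φ := by
    intro w w' hww
    have h1 : kk w = kk w' := congrArg Prod.fst hww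
    have h2 : (QuotientAddGroup.mk ⟨p • PP w, hPP1 w⟩ :
        AM act p (dV V) 0 ⧸ (AddSubgroup.map (nsmulAddMonoidHom p) (⊤ : AddSubgroup (AM act p (dV V) 0)))) =
        QuotientAddGroup.mk ⟨p • PP w', hPP1 w'⟩ := congrArg Prod.snd hww
    rw [QuotientAddGroup.eq] at h2
    obtain ⟨Q, -, hQ⟩ := h2
    have h3 : p • (Q : PM act) = -(p • PP w) + p • PP w' := congrArg Subtype.val hQ
    have h4 : p • (PP w' - PP w - (Q : PM act)) = 0 := by
      rw [smul_sub, smul_sub, h3]
      abel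
    have hsame : ∀ h, SH act (dV V) p h → w.1.1 h = w'.1.1 h := by
      intro h hh
      have h5 : aM act h (PP w' - PP w - (Q : PM act)) = PP w' - PP w - (Q : PM act) :=
        hh.2 _ ⟨1, by rw [pow_one]; exact h4⟩
      have h6 : aM act h (Q : PM act) = (Q : PM act) := Q.2 h ⟨hh.1, H35L.gc_zero dta.prime h⟩
      rw [map_sub, map_sub, h6] at h5
      have h7 := hPP2 w h hh
      have h8 := hPP2 w' h hh
      rw [← h1] at h8
      have h9 : aM act h (PP w') - aM act h (PP w) = PP w' - PP w := by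
        have := congrArg (fun X => X + (Q : PM act)) h5
        simpa using this
      have h10 : w.1.1 h - w'.1.1 h = 0 := by
        calc w.1.1 h - w'.1.1 h = (w.1.1 h - (bb (kk w)).1.1 h) - (w'.1.1 h - (bb (kk w)).1.1 h) := by abel
          _ = (aM act h (PP w) - PP w) - (aM act h (PP w') - PP w') := by rw [h7, h8]
          _ = (PP w' - PP w) - (aM act h (PP w') - aM act h (PP w)) := by abel
          _ = 0 := by rw [h9, sub_self]
      exact sub_eq_zero.1 h10
    apply Subtype.ext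
    apply Subtype.ext
    funext h
    by_cases hh : SH act (dV V) p h
    · exact hsame h hh
    · rw [(hf w).out h hh, (hf w').out h hh]
  have hfin := Finite.of_injective φ hinj
  refine ⟨hfin, ?_⟩
  have h1 := Nat.card_le_card_of_injective φ hinj
  rw [Nat.card_prod, hM, Nat.card_fin] at h1
  rw [pow_two (p ^ 2)]
  exact h1

end H16S
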