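import Mathlib
import Pool.Agent.Lib.H16S.V7
import Pool.Agent.Lib.H16S.R2
import Pool.Agent.Lib.H16S.Q7
import Pool.Agent.Lib.H16S.N8

/-! # H16S, chunk V8 (S/M): the local facts -/

open NumberField IsDedekindDomain WeierstrassCurve

namespace H16S

open H55P (IQ Pt ac Inert Dec Nm)
open H35P (WAB Ker tt)
open H55K (Tor ak xc yc CMA Dta GV cj)
open H55K.S
open H13X
open H35L (Gc Gen dV PM aM AM gm1 SH SN FA Cm WM opM LI LI_conj LocP)

variable {F : Type} [Field F] [NumberField F] [IQ F] {A B : F} {Om : ℂ} {Ω : Type} [Field Ω] [DecidableEq Ω]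
  [Algebra F Ω] [IsAlgClosure F Ω] {j : Ω →+* ℂ} {act : 𝓞 F →+* AddMonoid.End (Pt (WAB A B) Ω)} {mo : Ideal (𝓞 F)}
  {ψ : Ideal (𝓞 F) →*₀ 𝓞 F} {V : ValuationSubring Ω} {p : ℕ}

/-- Chunk V8 (S/M). PROOF. Ctx from dta, hin, hV, hi. ρ from n4_rp, ζ from n8_zt, T = twr, G = fgp (hG = dta.good V hV; dta.cma). r1_l1, r1_l2, r2_l3, r2_l3', v7 with hM = r1_l2 for n = 0. (γ in dV V is Dec V γ by definition.) -/
theorem locp {C : Type} [NormedField C] [IsUltrametricDist C] [CompleteSpace C] (dta : Dta A B Om j act mo ψ p) (hin : Prime (p : 𝓞 F))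
    (hV : V.valuation (p : Ω) < 1) (i : Ω →+* C) (hi : ∀ x, x ∈ V ↔ ‖i x‖ ≤ 1) (hS : Sup act p) (hc : Cm act) {γ : Ω ≃ₐ[F] Ω}
    (hγ : γ ∈ dV V) (hg : Gen p γ) : LocP act hc p (p ^ 2) V hγ := by
  have h : Ctx F p V i := ⟨dta.prime, dta.five, hin, hV, hi⟩
  haveI : Fact p.Prime := ⟨dta.prime⟩
  obtain ⟨ρ, R⟩ := n4_rp (F := F) dta.prime
  obtain ⟨ζ, Z⟩ := n8_zt (F := F) (i := i) dta.prime
  have hγ' : Dec V γ := hγ
  have T := twr h hγ' hg R Z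
  have hG : GV A B V := dta.good V hV
  have G := fgp h dta.cma hS hG hγ' ρ
  have l2 := fun n => r1_l2 h hS hG hγ' T G n
  have hM := l2 0
  rw [pow_zero, pow_one] at hM
  obtain ⟨h5, h6⟩ := v7 dta hin hV hc hγ hg hM
  exact ⟨fun n P hP h0 => r1_l1 h hS hG hγ' T G n hP h0, l2, fun n P hP => r2_l3 h hS hG hγ' T G n hP,
    fun n P₀ hP => r2_l3' h hS hG hγ' T G n hP, h5, h6⟩

end H16S
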