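import Mathlib
import Pool.Agent.Lib.SSG.Z.AM
import Pool.Agent.Lib.SSG.LT.EM
import Pool.Agent.Lib.H16S.S1
import Pool.Agent.Lib.H16S.V8

/-! # H16S: the local facts for all curves -/

open NumberField IsDedekindDomain WeierstrassCurve

namespace SSG

/-- The local facts (module L): SSG.LocAll. -/
theorem loc_all : LocAll := by
  classical
  intro F _ _ _ W Om m ψ p hH hp hI A B j act hA hB d hc V hV γ hγ hg
  have : Fact p.Prime := ⟨hp.prime⟩
  have hin : Prime (p : 𝓞 F) := (Ideal.span_singleton_prime (Nat.cast_ne_zero.2 hp.prime.ne_zero)).1 hI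
  have hS := H16S.s1 hH hp hin hA hB d
  obtain ⟨i₀, hi₀⟩ := LT.em (F := F) hin V hV
  refine H16S.locp d hin hV ((algebraMap (PadicAlgCl p) ℂ_[p]).comp i₀) (fun x => ?_) hS hc hγ hg
  rw [RingHom.comp_apply, ← PadicComplex.coe_eq, PadicComplex.norm_extends]
  exact hi₀ x

end SSG
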